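import Pool.Agent.Lib.MP_1f2a9f_co.KW.Defs

/-!
# KW, row AN (Contained): board ug_mod

`H` contained in `G` by `f`: `F = f(E(H))` is an `m`-subset of
`E(G)`, and `H` is determined by `F` and the injection (inverse of `f`) from the set of end points
of `F` into `Fin n`; at most `n!` injections.
-/

set_option autoImplicit false

namespace Pool.Agent.Lib.MP_1f2a9f_co.KW

open Finset Pool.Agent.Lib.MP_1f2a9f_co

theorem card_Gr (n m : ℕ) : (Gr n m).ncard = (n.choose 2).choose m := by
  classical
  have h : Gr n m = (fun s : Finset (Sym2 (Fin n)) =>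
      SimpleGraph.fromEdgeSet (s : Set (Sym2 (Fin n)))) ''
        (((⊤ : SimpleGraph (Fin n)).edgeFinset.powersetCard m : Finset (Finset (Sym2 (Fin n)))) :
          Set (Finset (Sym2 (Fin n)))) := by
    ext H
    constructor
    · intro hH
      have hH' : H.edgeSet.ncard = m := hH
      refine ⟨H.edgeFinset, ?_, ?_⟩
      · rw [mem_coe, mem_powersetCard]
        refine ⟨SimpleGraph.edgeFinset_subset_edgeFinset.mpr le_top, ?_⟩
        rw [← hH', ← SimpleGraph.coe_edgeFinset, Set.ncard_coe_finset]
      · show SimpleGraph.fromEdgeSet _ = H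
        rw [SimpleGraph.coe_edgeFinset, SimpleGraph.fromEdgeSet_edgeSet]
    · rintro ⟨s, hs, rfl⟩
      rw [mem_coe, mem_powersetCard] at hs
      have h1 : (s : Set (Sym2 (Fin n))) \ Sym2.diagSet = s := by
        rw [sdiff_eq_left, Set.disjoint_left]
        intro e he hd
        have h2 := hs.1 (mem_coe.mp he)
        rw [SimpleGraph.mem_edgeFinset, SimpleGraph.edgeSet_top] at h2
        exact h2 hd
      show (SimpleGraph.fromEdgeSet (s : Set (Sym2 (Fin n)))).edgeSet.ncard = m
      rw [SimpleGraph.edgeSet_fromEdgeSet, h1, Set.ncard_coe_finset, hs.2]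
  rw [h, Set.ncard_image_of_injOn, Set.ncard_coe_finset, card_powersetCard,
    SimpleGraph.card_edgeFinset_top_eq_card_choose_two, Fintype.card_fin]
  intro s hs t ht hst
  rw [mem_coe, mem_powersetCard] at hs ht
  have key : ∀ s : Finset (Sym2 (Fin n)), s ⊆ (⊤ : SimpleGraph (Fin n)).edgeFinset →
      (SimpleGraph.fromEdgeSet (s : Set (Sym2 (Fin n)))).edgeSet = s := by
    intro s hs
    rw [SimpleGraph.edgeSet_fromEdgeSet, sdiff_eq_left, Set.disjoint_left]
    intro e he hd
    have h2 := hs (mem_coe.mp he)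
    rw [SimpleGraph.mem_edgeFinset, SimpleGraph.edgeSet_top] at h2
    exact h2 hd
  have h1 := congrArg SimpleGraph.edgeSet hst
  simp only at h1
  rw [key s hs.1, key t ht.1] at h1
  exact_mod_cast h1

/-- a graph is determined by the image of its edges up to a permutation of the vertices -/
private theorem an_perm {n N : ℕ} (H H₀ : SimpleGraph (Fin n)) (f f₀ : Fin n → Fin N)
    (hf : Function.Injective f) (hf₀ : Function.Injective f₀)
    (h : Sym2.map f '' H.edgeSet = Sym2.map f₀ '' H₀.edgeSet) :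
    ∃ σ : Equiv.Perm (Fin n), H₀.map σ.toEmbedding = H := by
  classical
  have hr : ∀ x, x ∈ {x | ∃ y, H₀.Adj x y} → ∃ a, f a = f₀ x := by
    rintro x ⟨y, hxy⟩
    have h1 : Sym2.map f₀ s(x, y) ∈ Sym2.map f '' H.edgeSet := by
      rw [h]
      exact ⟨s(x, y), hxy, rfl⟩
    obtain ⟨e, he, h2⟩ := h1
    induction e using Sym2.ind with
    | h a b =>
      rw [Sym2.map_mk, Sym2.map_mk, Sym2.eq_iff] at h2
      rcases h2 with ⟨h3, -⟩ | ⟨-, h3⟩
      · exact ⟨a, h3⟩
      · exact ⟨b, h3⟩
  let τ : Fin n → Fin n := fun x =>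
    if hx : x ∈ {x | ∃ y, H₀.Adj x y} then (hr x hx).choose else x
  have hτ : ∀ x ∈ {x | ∃ y, H₀.Adj x y}, f (τ x) = f₀ x := by
    intro x hx
    have h1 : τ x = (hr x hx).choose := dif_pos hx
    rw [h1]
    exact (hr x hx).choose_spec
  have hτi : Set.InjOn τ {x | ∃ y, H₀.Adj x y} := by
    intro x hx y hy hxy
    apply hf₀
    rw [← hτ x hx, ← hτ y hy, hxy]
  obtain ⟨g, hg⟩ := Set.MapsTo.exists_equiv_extend_of_card_eq (t := (univ : Finset (Fin n)))
    (by simp) (fun x _ => mem_coe.mpr (mem_univ (τ x))) hτi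
  let σ : Equiv.Perm (Fin n) := g.trans (Equiv.subtypeUnivEquiv (fun x => mem_univ x))
  have hσ : ∀ x ∈ {x | ∃ y, H₀.Adj x y}, f (σ x) = f₀ x := by
    intro x hx
    have h1 : σ x = τ x := hg x hx
    rw [h1, hτ x hx]
  refine ⟨σ, ?_⟩
  rw [← SimpleGraph.edgeSet_inj, SimpleGraph.edgeSet_map]
  have hinj : Function.Injective (Sym2.map f) := Sym2.map.injective hf
  apply Set.image_injective.mpr hinj
  rw [h]
  ext e
  constructor
  · rintro ⟨_, ⟨e', he', rfl⟩, rfl⟩
    refine ⟨e', he', ?_⟩
    induction e' using Sym2.ind with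
    | h a b =>
      have hab : H₀.Adj a b := he'
      show Sym2.map f₀ s(a, b) = Sym2.map f (Sym2.map σ s(a, b))
      rw [Sym2.map_mk, Sym2.map_mk, Sym2.map_mk, hσ a ⟨b, hab⟩, hσ b ⟨a, hab.symm⟩]
  · rintro ⟨e', he', rfl⟩
    refine ⟨_, ⟨e', he', rfl⟩, ?_⟩
    induction e' using Sym2.ind with
    | h a b =>
      have hab : H₀.Adj a b := he'
      show Sym2.map f (Sym2.map σ s(a, b)) = Sym2.map f₀ s(a, b)
      rw [Sym2.map_mk, Sym2.map_mk, Sym2.map_mk, hσ a ⟨b, hab⟩, hσ b ⟨a, hab.symm⟩]

theorem card_contained (n m N : ℕ) (G : SimpleGraph (Fin N)) :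
    {H ∈ Gr n m | H.IsContained G}.ncard ≤ G.edgeSet.ncard.choose m * n.factorial := by
  classical
  set S : Finset (SimpleGraph (Fin n)) :=
    (Finset.univ : Finset (SimpleGraph (Fin n))).filter (fun H => H ∈ Gr n m ∧ H.IsContained G)
    with hS
  have h0 : {H ∈ Gr n m | H.IsContained G} = (S : Set (SimpleGraph (Fin n))) := by
    ext H
    simp [hS]
  rw [h0, Set.ncard_coe_finset]
  let φ : SimpleGraph (Fin n) → Finset (Sym2 (Fin N)) := fun H =>
    if h : H.IsContained G then H.edgeFinset.image (Sym2.map h.some.toHom) else ∅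
  have hφ : ∀ H (h : H.IsContained G), φ H = H.edgeFinset.image (Sym2.map h.some.toHom) :=
    fun H h => dif_pos h
  have h1 : ∀ H ∈ S, φ H ∈ G.edgeFinset.powersetCard m := by
    intro H hH
    obtain ⟨-, hm, hc⟩ := mem_filter.mp hH
    rw [hφ H hc, mem_powersetCard]
    constructor
    · intro e he
      obtain ⟨e', he', rfl⟩ := mem_image.mp he
      rw [SimpleGraph.mem_edgeFinset] at he' ⊢
      induction e' using Sym2.ind with
      | h a b =>
        rw [Sym2.map_mk]
        exact hc.some.toHom.map_rel he'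
    · rw [card_image_of_injective _ (Sym2.map.injective hc.some.injective)]
      have h2 : H.edgeSet.ncard = m := hm
      rw [← h2, ← SimpleGraph.coe_edgeFinset, Set.ncard_coe_finset]
  have h2 := card_le_mul_card_image_of_maps_to h1 n.factorial (by
    intro F _
    rcases (S.filter (fun H => φ H = F)).eq_empty_or_nonempty with he | ⟨H₀, hH₀⟩
    · rw [he, card_empty]
      exact Nat.zero_le _
    · rw [mem_filter] at hH₀
      have hc₀ := (mem_filter.mp hH₀.1).2.2
      calc (S.filter (fun H => φ H = F)).card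
          ≤ ((univ : Finset (Equiv.Perm (Fin n))).image
            (fun σ => H₀.map σ.toEmbedding)).card := by
            apply card_le_card
            intro H hH
            rw [mem_filter] at hH
            have hc := (mem_filter.mp hH.1).2.2
            have h3 : φ H = φ H₀ := hH.2.trans hH₀.2.symm
            rw [hφ H hc, hφ H₀ hc₀] at h3
            have h4 := congrArg (fun s : Finset (Sym2 (Fin N)) => (s : Set (Sym2 (Fin N)))) h3
            simp only [coe_image, SimpleGraph.coe_edgeFinset] at h4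
            obtain ⟨σ, hσ⟩ := an_perm H H₀ _ _ hc.some.injective hc₀.some.injective h4
            exact mem_image.mpr ⟨σ, mem_univ _, hσ⟩
        _ ≤ (univ : Finset (Equiv.Perm (Fin n))).card := card_image_le
        _ = n.factorial := by
            rw [card_univ, Fintype.card_perm, Fintype.card_fin])
  rw [card_powersetCard] at h2
  have h3 : G.edgeSet.ncard = G.edgeFinset.card := by
    rw [← SimpleGraph.coe_edgeFinset, Set.ncard_coe_finset]
  rw [h3, mul_comm]
  exact h2

end Pool.Agent.Lib.MP_1f2a9f_co.KW
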