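import Pool.Agent.Lib.MP_1f2a9f_co.KW.Defs2

/-!
# KW, row IC (IsoCount): board ug2_mod

`n ≤ 2 m` for a guest on `Fin n` (every vertex has degree `≥ 1`), so
`Guest m` is finite. `card_cls`: every graph on `Fin n` with `m` edges is the image of a guest under an embedding
(of the non-isolated vertices), hence the image of the chosen representative of its class; there are at most `n!` embeddings
of the vertices of a representative in `Fin n`.
-/

set_option autoImplicit false

namespace Pool.Agent.Lib.MP_1f2a9f_co.KW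

open Finset Pool.Agent.Lib.MP_1f2a9f_co

private theorem ic_le {n m : ℕ} (H : SimpleGraph (Fin n)) (h1 : H.edgeSet.ncard = m)
    (h2 : ∀ v, ∃ w, H.Adj v w) : n ≤ 2 * m := by
  classical
  have h3 := H.sum_degrees_eq_twice_card_edges
  have h4 : H.edgeFinset.card = m := by
    rw [← h1, Set.ncard_eq_toFinset_card']
    rfl
  rw [h4] at h3
  rw [← h3]
  calc n = ∑ _v : Fin n, 1 := by simp
    _ ≤ ∑ v : Fin n, H.degree v := by
      refine Finset.sum_le_sum fun v _ => ?_
      obtain ⟨w, hw⟩ := h2 v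
      exact Nat.succ_le_of_lt ((H.degree_pos_iff_exists_adj v).2 ⟨w, hw⟩)

private theorem finite_guest (m : ℕ) : Finite (Guest m) := by
  classical
  let T : Type := (n : Fin (2 * m + 1)) × SimpleGraph (Fin n)
  have hT : Finite T := inferInstance
  let F : Guest m → T := fun a => ⟨⟨a.1, by
    have := ic_le a.2.1 a.2.2.1 a.2.2.2
    omega⟩, a.2.1⟩
  refine Finite.of_injective F ?_
  rintro ⟨n, H, hH⟩ ⟨n', H', hH'⟩ h
  have h1 : n = n' := by
    have := congrArg (fun x : T => (x.1 : ℕ)) h
    exact this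
  subst h1
  have h2 : H = H' := by
    have := Sigma.ext_iff.1 h
    exact eq_of_heq this.2
  subst h2
  rfl

theorem finite_cls (m : ℕ) : Finite (Cls m) := by
  have := finite_guest m
  exact Quotient.finite _

private theorem ic_desc (n k : ℕ) : n.descFactorial k ≤ n.factorial := by
  by_cases h : k ≤ n
  · rw [← Nat.factorial_mul_descFactorial h]
    exact Nat.le_mul_of_pos_left _ (Nat.factorial_pos _)
  · rw [Nat.descFactorial_eq_zero_iff_lt.2 (not_le.1 h)]
    exact Nat.zero_le _

private theorem ic_ex {n m : ℕ} (H : SimpleGraph (Fin n)) (hH : H.edgeSet.ncard = m) :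
    ∃ (a : Guest m) (f : Fin a.1 ↪ Fin n), H = a.2.1.map f := by
  classical
  let S : Type := {v : Fin n // ∃ w, H.Adj v w}
  let e : Fin (Fintype.card S) ≃ S := (Fintype.equivFin S).symm
  let f : Fin (Fintype.card S) ↪ Fin n := e.toEmbedding.trans (Function.Embedding.subtype _)
  have hf : ∀ i, f i = (e i).1 := fun _ => rfl
  have hmap : H = (H.comap f).map f := by
    ext x y
    rw [SimpleGraph.map_adj]
    constructor
    · intro hxy
      refine ⟨e.symm ⟨x, y, hxy⟩, e.symm ⟨y, x, hxy.symm⟩, ?_, ?_, ?_⟩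
      · rw [SimpleGraph.comap_adj, hf, hf, Equiv.apply_symm_apply, Equiv.apply_symm_apply]
        exact hxy
      · rw [hf, Equiv.apply_symm_apply]
      · rw [hf, Equiv.apply_symm_apply]
    · rintro ⟨i, j, hij, rfl, rfl⟩
      exact hij
  have hcard : (H.comap f).edgeSet.ncard = m := by
    rw [← hH]
    conv_rhs => rw [hmap]
    rw [SimpleGraph.edgeSet_map, Set.ncard_image_of_injective _ f.sym2Map.injective]
  refine ⟨⟨Fintype.card S, H.comap f, hcard, fun i => ?_⟩, f, hmap⟩
  obtain ⟨w, hw⟩ := (e i).2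
  refine ⟨e.symm ⟨w, (e i).1, hw.symm⟩, ?_⟩
  rw [SimpleGraph.comap_adj, hf, hf, Equiv.apply_symm_apply]
  exact hw

theorem card_cls (n m : ℕ) : (Gr n m).ncard ≤ Nat.card (Cls m) * n.factorial := by
  classical
  haveI := finite_cls m
  haveI := Fintype.ofFinite (Cls m)
  let T : Type := (q : Cls m) × (Fin q.out.1 ↪ Fin n)
  let Ψ : T → SimpleGraph (Fin n) := fun x => x.1.out.2.1.map x.2
  have hsub : Gr n m ⊆ Set.range Ψ := by
    intro H hH
    obtain ⟨a, f, hf⟩ := ic_ex H hH
    let q : Cls m := Quotient.mk (guestSetoid m) a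
    have hq : Quotient.mk (guestSetoid m) q.out = Quotient.mk (guestSetoid m) a := Quotient.out_eq q
    obtain ⟨φ⟩ : Nonempty (q.out.2.1 ≃g a.2.1) := Quotient.exact hq
    refine ⟨⟨q, φ.toEquiv.toEmbedding.trans f⟩, ?_⟩
    show q.out.2.1.map (φ.toEquiv.toEmbedding.trans f) = H
    rw [hf]
    ext x y
    rw [SimpleGraph.map_adj, SimpleGraph.map_adj]
    constructor
    · rintro ⟨i, j, hij, hi, hj⟩
      exact ⟨φ i, φ j, φ.map_adj_iff.2 hij, hi, hj⟩
    · rintro ⟨i, j, hij, hi, hj⟩
      refine ⟨φ.symm i, φ.symm j, φ.symm.map_adj_iff.2 hij, ?_, ?_⟩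
      · rw [← hi]
        show f (φ (φ.symm i)) = f i
        rw [RelIso.apply_symm_apply]
      · rw [← hj]
        show f (φ (φ.symm j)) = f j
        rw [RelIso.apply_symm_apply]
  calc (Gr n m).ncard ≤ (Set.range Ψ).ncard := Set.ncard_le_ncard hsub (Set.toFinite _)
    _ ≤ Nat.card T := by
      rw [← Set.image_univ, ← Set.ncard_univ]
      exact Set.ncard_image_le (Set.toFinite _)
    _ = ∑ q : Cls m, n.descFactorial q.out.1 := by
      rw [Nat.card_eq_fintype_card, Fintype.card_sigma]
      refine Finset.sum_congr rfl fun q _ => ?_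
      rw [Fintype.card_embedding_eq, Fintype.card_fin, Fintype.card_fin]
    _ ≤ ∑ _q : Cls m, n.factorial := Finset.sum_le_sum fun q _ => ic_desc _ _
    _ = Nat.card (Cls m) * n.factorial := by
      rw [Finset.sum_const, Finset.card_univ, smul_eq_mul, Nat.card_eq_fintype_card]

end Pool.Agent.Lib.MP_1f2a9f_co.KW
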