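import Pool.Agent.Lib.MP_1f2a9f_co.KW.Defs

/-!
# KW, row AL (LowerNum): board ug_mod

`C(E,m) ≤ (e E/m)^m`, `C(M,m) ≥ (M-m)^m / m!`,
`m! ≤ e m (m/e)^m`, `n! ≤ n^n ≤ exp (n log m) ≤ exp (α m)`.
-/

set_option autoImplicit false

namespace Pool.Agent.Lib.MP_1f2a9f_co.KW

open Finset Pool.Agent.Lib.MP_1f2a9f_co

/-- the inequality between natural numbers -/
theorem al_nat (M E m n : ℕ) (h : M.choose m ≤ 2 * (E.choose m * n.factorial)) :
    (M + 1 - m) ^ m ≤ 2 * (E ^ m * n.factorial) := by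
  calc (M + 1 - m) ^ m ≤ M.descFactorial m := Nat.pow_sub_le_descFactorial M m
    _ = m.factorial * M.choose m := Nat.descFactorial_eq_factorial_mul_choose M m
    _ ≤ m.factorial * (2 * (E.choose m * n.factorial)) := Nat.mul_le_mul_left _ h
    _ = 2 * (m.factorial * E.choose m * n.factorial) := by ring
    _ = 2 * (E.descFactorial m * n.factorial) := by
        rw [Nat.descFactorial_eq_factorial_mul_choose E m]
    _ ≤ 2 * (E ^ m * n.factorial) :=
        Nat.mul_le_mul_left _ (Nat.mul_le_mul_right _ (Nat.descFactorial_le_pow E m))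

/-- the error terms are small -/
theorem al_small (α ε : ℝ) (hε : 0 < ε) : ∀ᶠ m : ℕ in Filter.atTop,
    3 / 2 * α * ((m : ℝ) / Real.log m) + m + α ^ 2 / 2 * ((m : ℝ) / Real.log m) ^ 2 / m ≤
      ε * ((m : ℝ) / Real.log m) ^ 2 := by
  have hcast : Filter.Tendsto (fun m : ℕ => (m : ℝ)) Filter.atTop Filter.atTop :=
    tendsto_natCast_atTop_atTop
  have h1 : Filter.Tendsto (fun m : ℕ => Real.log (m : ℝ) ^ 2 / (m : ℝ)) Filter.atTop
      (nhds 0) := by
    have := (Real.tendsto_pow_log_div_mul_add_atTop 1 0 2 one_ne_zero).comp hcast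
    simpa [Function.comp_def] using this
  have h2 : Filter.Tendsto (fun m : ℕ => Real.log (m : ℝ) / (m : ℝ)) Filter.atTop
      (nhds 0) := by
    have := (Real.tendsto_pow_log_div_mul_add_atTop 1 0 1 one_ne_zero).comp hcast
    simpa [Function.comp_def] using this
  have h3 : Filter.Tendsto (fun m : ℕ => 1 / (m : ℝ)) Filter.atTop (nhds 0) :=
    tendsto_one_div_atTop_nhds_zero_nat
  have h4 : Filter.Tendsto (fun m : ℕ => 3 / 2 * α * (Real.log (m : ℝ) / (m : ℝ)) +
      Real.log (m : ℝ) ^ 2 / (m : ℝ) + α ^ 2 / 2 * (1 / (m : ℝ))) Filter.atTop (nhds 0) := by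
    have := ((h2.const_mul (3 / 2 * α)).add h1).add (h3.const_mul (α ^ 2 / 2))
    simpa using this
  filter_upwards [h4.eventually (gt_mem_nhds hε), Filter.eventually_ge_atTop 2] with m hm hm2
  have hm0 : (0 : ℝ) < m := by positivity
  have hL : 0 < Real.log m := Real.log_pos (by exact_mod_cast hm2)
  have ht : 0 < ((m : ℝ) / Real.log m) ^ 2 := by positivity
  have h5 := (mul_le_mul_iff_of_pos_right ht).2 hm.le
  refine le_trans (le_of_eq ?_) h5
  field_simp

theorem lower_num (α ε : ℝ) (hα : 0 < α) (hε : 0 < ε) : ∃ m0 : ℕ, ∀ m ≥ m0, ∀ E : ℕ,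
    ((nA α m).choose 2).choose m ≤ 2 * (E.choose m * (nA α m).factorial) →
      (α ^ 2 / 2 * Real.exp (-α) - ε) * ((m : ℝ) / Real.log m) ^ 2 ≤ (E : ℝ) := by
  have hcast : Filter.Tendsto (fun m : ℕ => (m : ℝ)) Filter.atTop Filter.atTop :=
    tendsto_natCast_atTop_atTop
  have hlog : ∀ᶠ m : ℕ in Filter.atTop, α ≤ Real.log m :=
    (Real.tendsto_log_atTop.comp hcast).eventually_ge_atTop α
  have hE1 : ∀ᶠ m : ℕ in Filter.atTop,
      3 / 2 * α * ((m : ℝ) / Real.log m) + m + α ^ 2 / 2 * ((m : ℝ) / Real.log m) ^ 2 / m ≤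
        α ^ 2 / 4 * ((m : ℝ) / Real.log m) ^ 2 := al_small α _ (by positivity)
  obtain ⟨m0, hm0⟩ := Filter.eventually_atTop.1
    (((al_small α ε hε).and hE1).and (hlog.and (Filter.eventually_ge_atTop 2)))
  refine ⟨m0, ?_⟩
  intro m hm E h
  obtain ⟨⟨hs, hs1⟩, hlg, hm2⟩ := hm0 m hm
  have hmpos : (0 : ℝ) < m := by positivity
  have hL : 0 < Real.log m := Real.log_pos (by exact_mod_cast hm2)
  set t : ℝ := (m : ℝ) / Real.log m with ht
  have htpos : 0 < t := by positivity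
  set n : ℕ := nA α m with hn
  have hn1 : (n : ℝ) ≤ α * t := Nat.floor_le (by positivity)
  have hn2 : α * t < n + 1 := Nat.lt_floor_add_one _
  have hαt : α * t ≤ m := by
    rw [ht, ← mul_div_assoc, div_le_iff₀ hL, mul_comm (m : ℝ)]
    exact mul_le_mul_of_nonneg_right hlg hmpos.le
  have hnm : (n : ℝ) ≤ m := hn1.trans hαt
  have hnL : n * Real.log m ≤ α * m := by
    have h1 : (n : ℝ) * Real.log m ≤ α * t * Real.log m := mul_le_mul_of_nonneg_right hn1 hL.le
    have h2 : α * t * Real.log m = α * m := by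
      rw [ht]; field_simp
    linarith
  -- the factorial
  have hfac : (n.factorial : ℝ) ≤ Real.exp (α * m) := by
    calc (n.factorial : ℝ) ≤ (n : ℝ) ^ n := by exact_mod_cast Nat.factorial_le_pow n
      _ ≤ (m : ℝ) ^ n := pow_le_pow_left₀ (Nat.cast_nonneg n) hnm n
      _ = Real.exp (n * Real.log m) := by
          rw [Real.exp_nat_mul, Real.exp_log hmpos]
      _ ≤ Real.exp (α * m) := Real.exp_le_exp.2 hnL
  -- the number D
  have hM : (((n.choose 2 : ℕ)) : ℝ) = n * (n - 1) / 2 := Nat.cast_choose_two ℝ n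
  set D : ℝ := (n.choose 2 : ℕ) - m with hD
  have hDlow : α ^ 2 / 2 * t ^ 2 - 3 / 2 * α * t - m ≤ D := by
    rw [hD, hM]
    by_cases hat : α * t ≤ 1
    · have h1 : (0 : ℝ) ≤ n * (n - 1) / 2 := by
        rw [← hM]; exact Nat.cast_nonneg _
      have h2 : 0 < α * t := by positivity
      nlinarith
    · have hat' : 1 < α * t := not_le.1 hat
      have h1 : α * t - 1 ≤ n := by linarith
      have h2 : (0 : ℝ) ≤ α * t - 1 := by linarith
      have h3 : (α * t - 1) * (α * t - 2) ≤ n * (n - 1) := by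
        by_cases h4 : α * t - 2 ≤ 0
        · have h5 : (0 : ℝ) ≤ n * (n - 1) / 2 := by
            rw [← hM]; exact Nat.cast_nonneg _
          nlinarith
        · have h4' : 0 < α * t - 2 := not_le.1 h4
          have h6 : α * t - 2 ≤ n - 1 := by linarith
          have h7 : (0 : ℝ) ≤ n := Nat.cast_nonneg n
          exact mul_le_mul h1 h6 h4'.le h7
      nlinarith
  have hDpos : 0 < D := by
    have h1 : 0 < α ^ 2 / 4 * t ^ 2 := by positivity
    have h2 : 0 ≤ α ^ 2 / 2 * t ^ 2 / m := by positivity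
    linarith
  -- the main inequality
  have hnat := al_nat _ E m n h
  have hreal : D ^ m ≤ 2 * ((E : ℝ) ^ m * n.factorial) := by
    have h1 : (((n.choose 2 + 1 - m) ^ m : ℕ) : ℝ) ≤ ((2 * (E ^ m * n.factorial) : ℕ) : ℝ) := by
      exact_mod_cast hnat
    push_cast at h1
    refine le_trans (pow_le_pow_left₀ hDpos.le ?_ m) h1
    rw [hD, Nat.cast_sub ?_]
    · push_cast; linarith
    · have h2 : (m : ℝ) < (n.choose 2 : ℕ) := by rw [hD] at hDpos; linarith
      have h3 : m < n.choose 2 := by exact_mod_cast h2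
      omega
  have hexp : 0 < Real.exp (-α) := Real.exp_pos _
  have hexp1 : Real.exp (-α) ≤ 1 := Real.exp_le_one_iff.2 (by linarith)
  have key : D * Real.exp (-α) * (1 - 1 / m) ≤ E := by
    by_contra hcon
    have hcon' : (E : ℝ) < D * Real.exp (-α) * (1 - 1 / m) := not_le.1 hcon
    have h1m : (0 : ℝ) ≤ 1 - 1 / m := by
      have : (1 : ℝ) / m ≤ 1 := by
        rw [div_le_one hmpos]
        exact_mod_cast (by omega : 1 ≤ m)
      linarith
    have h1 : (E : ℝ) ^ m ≤ (D * Real.exp (-α) * (1 - 1 / m)) ^ m :=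
      pow_le_pow_left₀ (Nat.cast_nonneg E) hcon'.le m
    have h2 : (1 - 1 / (m : ℝ)) ^ m ≤ Real.exp (-1) := by
      have h3 : 1 - 1 / (m : ℝ) ≤ Real.exp (-(1 / m)) := by
        have := Real.add_one_le_exp (-(1 / (m : ℝ)))
        linarith
      calc (1 - 1 / (m : ℝ)) ^ m ≤ Real.exp (-(1 / m)) ^ m := pow_le_pow_left₀ h1m h3 m
        _ = Real.exp (m * -(1 / (m : ℝ))) := by rw [Real.exp_nat_mul]
        _ = Real.exp (-1) := by
            congr 1
            field_simp
    have h4 : Real.exp (-α) ^ m * Real.exp (α * m) = 1 := by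
      rw [← Real.exp_nat_mul, ← Real.exp_add]
      have : (m : ℝ) * -α + α * m = 0 := by ring
      rw [this, Real.exp_zero]
    have h5 : 2 * Real.exp (-1) < 1 := by
      rw [Real.exp_neg]
      have h6 := Real.exp_one_gt_d9
      rw [← div_eq_mul_inv, div_lt_one (Real.exp_pos 1)]
      linarith
    have hDm : 0 < D ^ m := pow_pos hDpos m
    have h7 : 2 * ((E : ℝ) ^ m * n.factorial) < D ^ m := by
      calc 2 * ((E : ℝ) ^ m * n.factorial)
          ≤ 2 * ((D * Real.exp (-α) * (1 - 1 / m)) ^ m * Real.exp (α * m)) := by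
            refine mul_le_mul_of_nonneg_left ?_ (by norm_num)
            exact mul_le_mul h1 hfac (Nat.cast_nonneg _) (le_trans (by positivity) h1)
        _ = 2 * (1 - 1 / (m : ℝ)) ^ m * D ^ m *
              (Real.exp (-α) ^ m * Real.exp (α * m)) := by
            rw [mul_pow, mul_pow]; ring
        _ = 2 * (1 - 1 / (m : ℝ)) ^ m * D ^ m := by rw [h4, mul_one]
        _ ≤ 2 * Real.exp (-1) * D ^ m := by
            refine mul_le_mul_of_nonneg_right ?_ hDm.le
            linarith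
        _ < 1 * D ^ m := (mul_lt_mul_iff_left₀ hDm).2 h5
        _ = D ^ m := one_mul _
    linarith
  -- conclusion
  refine le_trans ?_ key
  have h1m : (0 : ℝ) ≤ 1 - 1 / m := by
    have : (1 : ℝ) / m ≤ 1 := by
      rw [div_le_one hmpos]
      exact_mod_cast (by omega : 1 ≤ m)
    linarith
  have h8 : (α ^ 2 / 2 * t ^ 2 - 3 / 2 * α * t - m) * Real.exp (-α) * (1 - 1 / m) ≤
      D * Real.exp (-α) * (1 - 1 / m) :=
    mul_le_mul_of_nonneg_right (mul_le_mul_of_nonneg_right hDlow hexp.le) h1m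
  refine le_trans ?_ h8
  have h9 : α ^ 2 / 2 * t ^ 2 - (3 / 2 * α * t + m + α ^ 2 / 2 * t ^ 2 / m) ≤
      (α ^ 2 / 2 * t ^ 2 - 3 / 2 * α * t - m) * (1 - 1 / m) := by
    have h10 : 0 ≤ (3 / 2 * α * t + m) / m := by positivity
    have h11 : (α ^ 2 / 2 * t ^ 2 - 3 / 2 * α * t - m) * (1 - 1 / (m : ℝ)) =
        α ^ 2 / 2 * t ^ 2 - (3 / 2 * α * t + m + α ^ 2 / 2 * t ^ 2 / m) +
          (3 / 2 * α * t + m) / m := by
      field_simp
      ring
    rw [h11]
    linarith
  calc (α ^ 2 / 2 * Real.exp (-α) - ε) * t ^ 2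
      ≤ (α ^ 2 / 2 * t ^ 2 - (3 / 2 * α * t + m + α ^ 2 / 2 * t ^ 2 / m)) * Real.exp (-α) := by
        have h12 : 0 ≤ 3 / 2 * α * t + m + α ^ 2 / 2 * t ^ 2 / m := by positivity
        have h13 : (3 / 2 * α * t + m + α ^ 2 / 2 * t ^ 2 / m) * Real.exp (-α) ≤
            3 / 2 * α * t + m + α ^ 2 / 2 * t ^ 2 / m := mul_le_of_le_one_right h12 hexp1
        nlinarith
    _ ≤ ((α ^ 2 / 2 * t ^ 2 - 3 / 2 * α * t - m) * (1 - 1 / m)) * Real.exp (-α) :=
        mul_le_mul_of_nonneg_right h9 hexp.le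
    _ = (α ^ 2 / 2 * t ^ 2 - 3 / 2 * α * t - m) * Real.exp (-α) * (1 - 1 / m) := by ring

end Pool.Agent.Lib.MP_1f2a9f_co.KW
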