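import Pool.Agent.Lib.MP_1f2a9f_co.KW.Defs
import Pool.Agent.Lib.MP_1f2a9f_co.KW.LowerNum

/-!
# KW, row NE (LowerExp): board ug2_mod

Compare the landed KW/LowerNum.lean (the factor `2` there is replaced
by `exp (c' m)`). `C(E,m) ≤ E^m/m!`, `C(M,m) ≥ (M-m)^m/m!` with `M = C(n,2)`, `n! ≤ n^n ≤ exp (α m)`, so
`M - m ≤ E exp (α + c')`; `M - m = (α^2/2 + o(1)) (m/log m)^2`; `c'` with
`α^2/2 e^(-α) (1 - e^(-c')) ≤ ε/2`.
-/

set_option autoImplicit false

namespace Pool.Agent.Lib.MP_1f2a9f_co.KW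

open Finset Pool.Agent.Lib.MP_1f2a9f_co

/-- the inequality between falling factorials -/
private theorem ne_desc (M E m n : ℕ) (x : ℝ) (hx : 0 ≤ x)
    (h : (M.choose m : ℝ) ≤ x * (E.choose m * n.factorial)) :
    (((M + 1 - m) ^ m : ℕ) : ℝ) ≤ x * ((E : ℝ) ^ m * n.factorial) := by
  calc (((M + 1 - m) ^ m : ℕ) : ℝ) ≤ (M.descFactorial m : ℝ) := by
        exact_mod_cast Nat.pow_sub_le_descFactorial M m
    _ = (m.factorial : ℝ) * (M.choose m : ℝ) := by
        rw [Nat.descFactorial_eq_factorial_mul_choose M m, Nat.cast_mul]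
    _ ≤ (m.factorial : ℝ) * (x * (E.choose m * n.factorial)) :=
        mul_le_mul_of_nonneg_left h (Nat.cast_nonneg _)
    _ = x * (((m.factorial : ℝ) * E.choose m) * n.factorial) := by ring
    _ = x * ((E.descFactorial m : ℝ) * n.factorial) := by
        rw [Nat.descFactorial_eq_factorial_mul_choose E m, Nat.cast_mul]
    _ ≤ x * ((E : ℝ) ^ m * n.factorial) := by
        refine mul_le_mul_of_nonneg_left (mul_le_mul_of_nonneg_right ?_ (Nat.cast_nonneg _)) hx
        exact_mod_cast Nat.descFactorial_le_pow E m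

theorem lower_exp (α ε : ℝ) (hα : 0 < α) (hε : 0 < ε) : ∃ c' : ℝ, 0 < c' ∧ ∃ m0 : ℕ, ∀ m ≥ m0,
    ∀ E : ℕ, (((nA α m).choose 2).choose m : ℝ) ≤
      Real.exp (c' * m) * (E.choose m * (nA α m).factorial) →
      (α ^ 2 / 2 * Real.exp (-α) - ε) * ((m : ℝ) / Real.log m) ^ 2 ≤ (E : ℝ) := by
  have hcast : Filter.Tendsto (fun m : ℕ => (m : ℝ)) Filter.atTop Filter.atTop :=
    tendsto_natCast_atTop_atTop
  have hlog : ∀ᶠ m : ℕ in Filter.atTop, α ≤ Real.log m :=
    (Real.tendsto_log_atTop.comp hcast).eventually_ge_atTop α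
  have hE1 : ∀ᶠ m : ℕ in Filter.atTop,
      3 / 2 * α * ((m : ℝ) / Real.log m) + m + α ^ 2 / 2 * ((m : ℝ) / Real.log m) ^ 2 / m ≤
        α ^ 2 / 4 * ((m : ℝ) / Real.log m) ^ 2 := al_small α _ (by positivity)
  obtain ⟨m0, hm0⟩ := Filter.eventually_atTop.1
    (((al_small α (ε / 2) (by positivity)).and hE1).and (hlog.and (Filter.eventually_ge_atTop 2)))
  set c' : ℝ := ε / α ^ 2 with hc'
  have hc'0 : 0 < c' := by positivity
  refine ⟨c', hc'0, m0, ?_⟩
  intro m hm E h
  obtain ⟨⟨hs, hs1⟩, hlg, hm2⟩ := hm0 m hm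
  have hmpos : (0 : ℝ) < m := by positivity
  have hL : 0 < Real.log m := Real.log_pos (by exact_mod_cast hm2)
  set t : ℝ := (m : ℝ) / Real.log m with ht
  have htpos : 0 < t := by positivity
  set n : ℕ := nA α m with hn
  have hn1 : (n : ℝ) ≤ α * t := Nat.floor_le (by positivity)
  have hn2 : α * t < n + 1 := Nat.lt_floor_add_one _
  have hαt : α * t ≤ m := by
    rw [ht, ← mul_div_assoc, div_le_iff₀ hL, mul_comm (m : ℝ)]
    exact mul_le_mul_of_nonneg_right hlg hmpos.le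
  have hnm : (n : ℝ) ≤ m := hn1.trans hαt
  have hnL : n * Real.log m ≤ α * m := by
    have h1 : (n : ℝ) * Real.log m ≤ α * t * Real.log m := mul_le_mul_of_nonneg_right hn1 hL.le
    have h2 : α * t * Real.log m = α * m := by
      rw [ht]; field_simp
    linarith
  -- the factorial
  have hfac : (n.factorial : ℝ) ≤ Real.exp (α * m) := by
    calc (n.factorial : ℝ) ≤ (n : ℝ) ^ n := by exact_mod_cast Nat.factorial_le_pow n
      _ ≤ (m : ℝ) ^ n := pow_le_pow_left₀ (Nat.cast_nonneg n) hnm n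
      _ = Real.exp (n * Real.log m) := by
          rw [Real.exp_nat_mul, Real.exp_log hmpos]
      _ ≤ Real.exp (α * m) := Real.exp_le_exp.2 hnL
  -- the number D
  have hM : (((n.choose 2 : ℕ)) : ℝ) = n * (n - 1) / 2 := Nat.cast_choose_two ℝ n
  set D : ℝ := (n.choose 2 : ℕ) - m with hD
  have hDlow : α ^ 2 / 2 * t ^ 2 - 3 / 2 * α * t - m ≤ D := by
    rw [hD, hM]
    by_cases hat : α * t ≤ 1
    · have h1 : (0 : ℝ) ≤ n * (n - 1) / 2 := by
        rw [← hM]; exact Nat.cast_nonneg _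
      have h2 : 0 < α * t := by positivity
      nlinarith
    · have hat' : 1 < α * t := not_le.1 hat
      have h1 : α * t - 1 ≤ n := by linarith
      have h2 : (0 : ℝ) ≤ α * t - 1 := by linarith
      have h3 : (α * t - 1) * (α * t - 2) ≤ n * (n - 1) := by
        by_cases h4 : α * t - 2 ≤ 0
        · have h5 : (0 : ℝ) ≤ n * (n - 1) / 2 := by
            rw [← hM]; exact Nat.cast_nonneg _
          nlinarith
        · have h4' : 0 < α * t - 2 := not_le.1 h4
          have h6 : α * t - 2 ≤ n - 1 := by linarith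
          have h7 : (0 : ℝ) ≤ n := Nat.cast_nonneg n
          exact mul_le_mul h1 h6 h4'.le h7
      nlinarith
  have hDpos : 0 < D := by
    have h1 : 0 < α ^ 2 / 4 * t ^ 2 := by positivity
    have h2 : 0 ≤ α ^ 2 / 2 * t ^ 2 / m := by positivity
    linarith
  -- the main inequality
  have h1 := ne_desc _ E m n _ (Real.exp_pos _).le h
  have h2 : D ≤ ((n.choose 2 + 1 - m : ℕ) : ℝ) := by
    rw [hD, Nat.cast_sub ?_]
    · push_cast; linarith
    · have h2 : (m : ℝ) < (n.choose 2 : ℕ) := by rw [hD] at hDpos; linarith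
      have h3 : m < n.choose 2 := by exact_mod_cast h2
      omega
  have h3 : D ^ m ≤ ((E : ℝ) * Real.exp (α + c')) ^ m := by
    have h4 : Real.exp (α + c') ^ m = Real.exp (c' * m) * Real.exp (α * m) := by
      rw [← Real.exp_nat_mul, ← Real.exp_add]
      congr 1
      ring
    calc D ^ m ≤ ((n.choose 2 + 1 - m : ℕ) : ℝ) ^ m := pow_le_pow_left₀ hDpos.le h2 m
      _ = (((n.choose 2 + 1 - m) ^ m : ℕ) : ℝ) := by rw [Nat.cast_pow]
      _ ≤ Real.exp (c' * m) * ((E : ℝ) ^ m * n.factorial) := h1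
      _ ≤ Real.exp (c' * m) * ((E : ℝ) ^ m * Real.exp (α * m)) := by
          refine mul_le_mul_of_nonneg_left (mul_le_mul_of_nonneg_left hfac ?_) (Real.exp_pos _).le
          positivity
      _ = ((E : ℝ) * Real.exp (α + c')) ^ m := by
          rw [mul_pow, h4]
          ring
  have hm1 : m ≠ 0 := by omega
  have h5 : D ≤ (E : ℝ) * Real.exp (α + c') :=
    (pow_le_pow_iff_left₀ hDpos.le (mul_nonneg (Nat.cast_nonneg _) (Real.exp_pos _).le) hm1).1 h3
  have h6 : D * Real.exp (-α) * Real.exp (-c') ≤ E := by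
    have h7 : Real.exp (α + c') * (Real.exp (-α) * Real.exp (-c')) = 1 := by
      rw [← Real.exp_add, ← Real.exp_add]
      have : α + c' + (-α + -c') = 0 := by ring
      rw [this, Real.exp_zero]
    have h8 : 0 ≤ Real.exp (-α) * Real.exp (-c') := by positivity
    calc D * Real.exp (-α) * Real.exp (-c') = D * (Real.exp (-α) * Real.exp (-c')) := by ring
      _ ≤ (E : ℝ) * Real.exp (α + c') * (Real.exp (-α) * Real.exp (-c')) :=
          mul_le_mul_of_nonneg_right h5 h8
      _ = (E : ℝ) * (Real.exp (α + c') * (Real.exp (-α) * Real.exp (-c'))) := by ring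
      _ = E := by rw [h7, mul_one]
  refine le_trans ?_ h6
  have hexp : 0 < Real.exp (-α) := Real.exp_pos _
  have hexp1 : Real.exp (-α) ≤ 1 := Real.exp_le_one_iff.2 (by linarith)
  have hexc : 0 < Real.exp (-c') := Real.exp_pos _
  have hexc1 : Real.exp (-c') ≤ 1 := Real.exp_le_one_iff.2 (by linarith)
  have hexc2 : 1 - c' ≤ Real.exp (-c') := by
    have := Real.add_one_le_exp (-c')
    linarith
  have hprod1 : Real.exp (-α) * Real.exp (-c') ≤ 1 := mul_le_one₀ hexp1 hexc.le hexc1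
  set R : ℝ := 3 / 2 * α * t + m with hR
  have hR0 : 0 ≤ R := by positivity
  have hRs : R ≤ ε / 2 * t ^ 2 := by
    have h9 : 0 ≤ α ^ 2 / 2 * t ^ 2 / m := by positivity
    linarith
  have hmain : α ^ 2 / 2 * t ^ 2 * Real.exp (-α) - ε / 2 * t ^ 2 ≤
      α ^ 2 / 2 * t ^ 2 * (Real.exp (-α) * Real.exp (-c')) := by
    have h9 : Real.exp (-α) - c' ≤ Real.exp (-α) * Real.exp (-c') := by
      have h10 : Real.exp (-α) * (1 - c') ≤ Real.exp (-α) * Real.exp (-c') :=
        mul_le_mul_of_nonneg_left hexc2 hexp.le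
      have h11 : Real.exp (-α) * c' ≤ 1 * c' := mul_le_mul_of_nonneg_right hexp1 hc'0.le
      linarith
    have h12 : α ^ 2 / 2 * t ^ 2 * c' = ε / 2 * t ^ 2 := by
      rw [hc']
      field_simp
    have h13 : 0 ≤ α ^ 2 / 2 * t ^ 2 := by positivity
    have h14 := mul_le_mul_of_nonneg_left h9 h13
    linarith
  have h15 : R * (Real.exp (-α) * Real.exp (-c')) ≤ R := mul_le_of_le_one_right hR0 hprod1
  have h16 : (α ^ 2 / 2 * t ^ 2 - R) * (Real.exp (-α) * Real.exp (-c')) ≤
      D * (Real.exp (-α) * Real.exp (-c')) := by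
    refine mul_le_mul_of_nonneg_right ?_ (by positivity)
    rw [hR]
    linarith
  calc (α ^ 2 / 2 * Real.exp (-α) - ε) * t ^ 2
      = α ^ 2 / 2 * t ^ 2 * Real.exp (-α) - ε / 2 * t ^ 2 - ε / 2 * t ^ 2 := by ring
    _ ≤ α ^ 2 / 2 * t ^ 2 * (Real.exp (-α) * Real.exp (-c')) -
        R * (Real.exp (-α) * Real.exp (-c')) := by linarith
    _ = (α ^ 2 / 2 * t ^ 2 - R) * (Real.exp (-α) * Real.exp (-c')) := by ring
    _ ≤ D * (Real.exp (-α) * Real.exp (-c')) := h16
    _ = D * Real.exp (-α) * Real.exp (-c') := by ring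

end Pool.Agent.Lib.MP_1f2a9f_co.KW
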