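import Pool.Agent.Lib.MP_1f2a9f_co.KW.HostCount
import Pool.Agent.Lib.MP_1f2a9f_co.KW.IsoCount
import Pool.Agent.Lib.MP_1f2a9f_co.KW.LowerExp
import Pool.Agent.Lib.MP_1f2a9f_co.KW.Contained

/-!
# KW, row AL2 (AELower): board ug2_mod

`lower_exp 2 (ε/2)` (contrapositive) with `E = e(G)`:
`exp (c' m) C(E,m) n! < C(C(n,2),m) = |Gr n m|` (`card_Gr`, landed) `≤ |Cls m| n!` (`card_cls`), and
`card_hostedIn`.
-/

set_option autoImplicit false

namespace Pool.Agent.Lib.MP_1f2a9f_co.KW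

open Finset Pool.Agent.Lib.MP_1f2a9f_co

theorem ae_lower (ε : ℝ) (hε : 0 < ε) : ∃ c' : ℝ, 0 < c' ∧ ∃ m0 : ℕ, ∀ m ≥ m0, ∀ (N : ℕ)
    (G : SimpleGraph (Fin N)),
      (G.edgeSet.ncard : ℝ) ≤ (2 * Real.exp (-2) - ε) * ((m : ℝ) / Real.log m) ^ 2 →
      ((HostedIn m G).ncard : ℝ) ≤ Real.exp (-(c' * m)) * (Nat.card (Cls m) : ℝ) := by
  obtain ⟨c', hc', m0, h0⟩ := lower_exp 2 (ε / 2) (by norm_num) (by linarith)
  refine ⟨c', hc', max m0 2, fun m hm N G hG => ?_⟩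
  have hm0 : m0 ≤ m := le_trans (le_max_left _ _) hm
  have hm2 : 2 ≤ m := le_trans (le_max_right _ _) hm
  have hmR : (2 : ℝ) ≤ (m : ℝ) := by exact_mod_cast hm2
  have hlog : 0 < Real.log (m : ℝ) := Real.log_pos (by linarith)
  have hs : 0 < ((m : ℝ) / Real.log m) ^ 2 := by
    have : (0 : ℝ) < (m : ℝ) := by linarith
    positivity
  have hlt : Real.exp (c' * m) * (G.edgeSet.ncard.choose m * (nA 2 m).factorial) <
      (((nA 2 m).choose 2).choose m : ℝ) := by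
    by_contra hcon
    rw [not_lt] at hcon
    have h1 := h0 m hm0 G.edgeSet.ncard hcon
    have h2 : ((2 : ℝ) ^ 2 / 2 * Real.exp (-2) - ε / 2) * ((m : ℝ) / Real.log m) ^ 2 ≤
        (2 * Real.exp (-2) - ε) * ((m : ℝ) / Real.log m) ^ 2 := h1.trans hG
    have h3 : (0 : ℝ) < ε / 2 * ((m : ℝ) / Real.log m) ^ 2 := by positivity
    have h4 : ((2 : ℝ) ^ 2 / 2 * Real.exp (-2) - ε / 2) * ((m : ℝ) / Real.log m) ^ 2 -
        (2 * Real.exp (-2) - ε) * ((m : ℝ) / Real.log m) ^ 2 =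
        ε / 2 * ((m : ℝ) / Real.log m) ^ 2 := by ring
    linarith
  have hcls : ((((nA 2 m).choose 2).choose m : ℕ) : ℝ) ≤
      (Nat.card (Cls m) : ℝ) * ((nA 2 m).factorial : ℝ) := by
    have h1 := card_cls (nA 2 m) m
    rw [card_Gr] at h1
    exact_mod_cast h1
  have hfac : (0 : ℝ) < ((nA 2 m).factorial : ℝ) := by
    exact_mod_cast Nat.factorial_pos _
  have hE : Real.exp (c' * m) * (G.edgeSet.ncard.choose m : ℝ) ≤ (Nat.card (Cls m) : ℝ) := by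
    have h1 : Real.exp (c' * m) * (G.edgeSet.ncard.choose m : ℝ) * ((nA 2 m).factorial : ℝ) ≤
        (Nat.card (Cls m) : ℝ) * ((nA 2 m).factorial : ℝ) := by
      have h2 := hlt.le.trans hcls
      rw [mul_assoc]
      exact h2
    exact le_of_mul_le_mul_right h1 hfac
  have hH : ((HostedIn m G).ncard : ℝ) ≤ (G.edgeSet.ncard.choose m : ℝ) := by
    exact_mod_cast card_hostedIn m N G
  calc ((HostedIn m G).ncard : ℝ) ≤ (G.edgeSet.ncard.choose m : ℝ) := hH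
    _ = Real.exp (-(c' * m)) * (Real.exp (c' * m) * (G.edgeSet.ncard.choose m : ℝ)) := by
        rw [← mul_assoc, ← Real.exp_add, neg_add_cancel, Real.exp_zero, one_mul]
    _ ≤ Real.exp (-(c' * m)) * (Nat.card (Cls m) : ℝ) :=
        mul_le_mul_of_nonneg_left hE (Real.exp_pos _).le

end Pool.Agent.Lib.MP_1f2a9f_co.KW
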