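import Pool.Agent.Lib.MP_1f2a9f_co.KW.Defs2

/-!
# KW, row US (Usq): board ug2_mod

`κ = (1-12ε)/(1+ε) ∈ [1-13ε, 1]`, `v = κ u`, `u^2 exp (-κ u) =
v^2 exp (-v) / κ^2`, `1/κ^2 ≤ 1 + 40 ε`, `v^2 e^-v ≤ 4 e^-2` (from `x ≤ e^(x-1)` for `x = v/2`). Far:
`|v - 2| ≥ δ/2`; with `t = (v-2)/2`, `log (1+t) ≤ t - t^2/4` for `-1 < t ≤ 1` (derivative of the
difference is `t(1-t)/(2(1+t))`), so `v^2 e^-v ≤ 4 e^-2 e^(-t^2/2) ≤ 4 e^-2 e^(-δ^2/32)`; for `t > 1`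
(`v > 4`) `v^2 e^-v ≤ 16 e^-4`.
-/

set_option autoImplicit false

namespace Pool.Agent.Lib.MP_1f2a9f_co.KW

open Finset Pool.Agent.Lib.MP_1f2a9f_co

private theorem usq_cube (t : ℝ) (ht : -1 ≤ t) : (1 + t / 3) ^ 3 ≤ Real.exp t := by
  have h1 : 1 + t / 3 ≤ Real.exp (t / 3) := by
    have := Real.add_one_le_exp (t / 3)
    linarith
  have h2 : (0 : ℝ) ≤ 1 + t / 3 := by linarith
  have h3 : Real.exp t = Real.exp (t / 3) ^ 3 := by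
    rw [← Real.exp_nat_mul]
    congr 1
    push_cast
    ring
  rw [h3]
  exact pow_le_pow_left₀ h2 h1 3

private theorem usq_v (v : ℝ) (hv : 0 ≤ v) : v ^ 2 * Real.exp (-v) ≤ 4 * Real.exp (-2) := by
  have h1 : v / 2 ≤ Real.exp (v / 2 - 1) := by
    have := Real.add_one_le_exp (v / 2 - 1)
    linarith
  have h2 : (v / 2) ^ 2 ≤ Real.exp (v / 2 - 1) ^ 2 := pow_le_pow_left₀ (by linarith) h1 2
  have h3 : Real.exp (v / 2 - 1) ^ 2 * Real.exp (-v) = Real.exp (-2) := by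
    rw [← Real.exp_nat_mul, ← Real.exp_add]
    congr 1
    push_cast
    ring
  have h4 := mul_le_mul_of_nonneg_right h2 (Real.exp_pos (-v)).le
  rw [h3] at h4
  have h5 : (v / 2) ^ 2 * Real.exp (-v) = v ^ 2 * Real.exp (-v) / 4 := by ring
  rw [h5] at h4
  linarith

private theorem usq_vfar (v δ : ℝ) (hv : 0 ≤ v) (hδ : 0 < δ) (hδ1 : δ ≤ 1 / 100)
    (hfar : δ / 2 ≤ |v - 2|) :
    (1 + δ ^ 2 / 96) ^ 2 * (v ^ 2 * Real.exp (-v)) ≤ 4 * Real.exp (-2) := by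
  set t : ℝ := (v - 2) / 2 with ht
  have hvt : v = 2 * (1 + t) := by rw [ht]; ring
  have ht1 : -1 ≤ t := by rw [ht]; linarith
  have h1 := usq_cube t ht1
  have hδ2 : δ ^ 2 ≤ 1 / 10000 := by nlinarith
  have h2 : (1 + t) * (1 + δ ^ 2 / 96) ≤ (1 + t / 3) ^ 3 := by
    by_cases h : t ≤ 1
    · have h3 : δ ^ 2 / 16 ≤ t ^ 2 := by
        have h4 : (δ / 2) ^ 2 ≤ (v - 2) ^ 2 := by
          rw [← sq_abs (v - 2)]
          exact pow_le_pow_left₀ (by linarith) hfar 2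
        rw [ht]
        nlinarith
      have h5 : (1 + t) * (1 + δ ^ 2 / 96) ≤ (1 + t) * (1 + t ^ 2 / 6) := by
        refine mul_le_mul_of_nonneg_left ?_ (by linarith)
        linarith
      refine h5.trans ?_
      have h6 : 0 ≤ t ^ 2 * (1 / 6 - 7 / 54 * t) := mul_nonneg (sq_nonneg t) (by linarith)
      nlinarith
    · push Not at h
      have h5 : (1 + t) * (1 + δ ^ 2 / 96) ≤ (1 + t) * (7 / 6) := by
        refine mul_le_mul_of_nonneg_left ?_ (by linarith)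
        linarith
      refine h5.trans ?_
      have h6 : 0 ≤ (t - 1) * (t - 1) := mul_self_nonneg _
      have h7 : 0 ≤ t ^ 3 := by positivity
      nlinarith
  have h3 : (1 + t) * (1 + δ ^ 2 / 96) ≤ Real.exp t := h2.trans h1
  have h4 : ((1 + t) * (1 + δ ^ 2 / 96)) ^ 2 ≤ Real.exp t ^ 2 :=
    pow_le_pow_left₀ (mul_nonneg (by linarith) (by positivity)) h3 2
  have h5 : Real.exp t ^ 2 * Real.exp (-v) = Real.exp (-2) := by
    rw [← Real.exp_nat_mul, ← Real.exp_add]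
    congr 1
    push_cast
    rw [hvt]
    ring
  have h6 := mul_le_mul_of_nonneg_right h4 (Real.exp_pos (-v)).le
  rw [h5] at h6
  have h7 : (1 + δ ^ 2 / 96) ^ 2 * (v ^ 2 * Real.exp (-v)) =
      4 * (((1 + t) * (1 + δ ^ 2 / 96)) ^ 2 * Real.exp (-v)) := by
    rw [show v ^ 2 = (2 * (1 + t)) ^ 2 by rw [← hvt]]
    ring
  rw [h7]
  linarith

private theorem usq_kappa (ε : ℝ) (hε : 0 < ε) (hε1 : ε ≤ 1 / 1000) :
    1 - 13 * ε ≤ (1 - 12 * ε) / (1 + ε) ∧ (1 - 12 * ε) / (1 + ε) ≤ 1 ∧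
      1 ≤ (1 + 40 * ε) * ((1 - 12 * ε) / (1 + ε)) ^ 2 := by
  have h0 : 0 < 1 + ε := by linarith
  have h1 : 1 - 13 * ε ≤ (1 - 12 * ε) / (1 + ε) := by
    rw [le_div_iff₀ h0]
    nlinarith
  refine ⟨h1, ?_, ?_⟩
  · rw [div_le_one h0]
    linarith
  · have h2 : (1 - 13 * ε) ^ 2 ≤ ((1 - 12 * ε) / (1 + ε)) ^ 2 :=
      pow_le_pow_left₀ (by linarith) h1 2
    have h3 : 1 ≤ (1 + 40 * ε) * (1 - 13 * ε) ^ 2 := by
      have h4 : 1 - 26 * ε ≤ (1 - 13 * ε) ^ 2 := by nlinarith [sq_nonneg ε]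
      have h5 : (1 + 40 * ε) * (1 - 26 * ε) ≤ (1 + 40 * ε) * (1 - 13 * ε) ^ 2 :=
        mul_le_mul_of_nonneg_left h4 (by linarith)
      have h6 : ε * ε ≤ ε * (1 / 1000) := mul_le_mul_of_nonneg_left hε1 hε.le
      nlinarith
    exact h3.trans (mul_le_mul_of_nonneg_left h2 (by linarith))

theorem usq_le (ε u : ℝ) (hε : 0 < ε) (hε1 : ε ≤ 1 / 1000) (hu : 0 ≤ u) :
    u ^ 2 * Real.exp (-((1 - 12 * ε) * (u / (1 + ε)))) ≤ (1 + 40 * ε) * (4 * Real.exp (-2)) := by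
  obtain ⟨k1, k2, k3⟩ := usq_kappa ε hε hε1
  set κ : ℝ := (1 - 12 * ε) / (1 + ε) with hκ
  have hκ0 : 0 < κ := by linarith
  have e : (1 - 12 * ε) * (u / (1 + ε)) = κ * u := by rw [hκ]; ring
  rw [e]
  have h1 := usq_v (κ * u) (mul_nonneg hκ0.le hu)
  have h2 : u ^ 2 ≤ (1 + 40 * ε) * (κ * u) ^ 2 := by
    have h3 := mul_le_mul_of_nonneg_right k3 (sq_nonneg u)
    calc u ^ 2 = 1 * u ^ 2 := (one_mul _).symm
      _ ≤ (1 + 40 * ε) * κ ^ 2 * u ^ 2 := h3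
      _ = (1 + 40 * ε) * (κ * u) ^ 2 := by ring
  calc u ^ 2 * Real.exp (-(κ * u)) ≤ (1 + 40 * ε) * (κ * u) ^ 2 * Real.exp (-(κ * u)) :=
        mul_le_mul_of_nonneg_right h2 (Real.exp_pos _).le
    _ = (1 + 40 * ε) * ((κ * u) ^ 2 * Real.exp (-(κ * u))) := by ring
    _ ≤ (1 + 40 * ε) * (4 * Real.exp (-2)) := mul_le_mul_of_nonneg_left h1 (by linarith)

theorem usq_far (ε δ u : ℝ) (hε : 0 < ε) (hδ : 0 < δ) (hδ1 : δ ≤ 1 / 100)
    (hε1 : ε ≤ δ ^ 3 / 100000) (hu : 0 ≤ u) (hfar : δ < |u - 2|) :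
    u ^ 2 * Real.exp (-((1 - 12 * ε) * (u / (1 + ε)))) ≤
      (1 - δ ^ 2 / 100) * (4 * Real.exp (-2)) := by
  have hδ2 : δ ^ 2 ≤ 1 / 10000 := by nlinarith
  have hδ3 : δ ^ 3 ≤ δ ^ 2 / 100 := by
    have h : δ ^ 3 = δ ^ 2 * δ := by ring
    rw [h]
    nlinarith [sq_nonneg δ]
  have hεδ : ε ≤ δ ^ 2 / 10000000 := by linarith
  have hε2 : ε ≤ 1 / 1000 := by linarith
  obtain ⟨k1, k2, k3⟩ := usq_kappa ε hε hε2
  set κ : ℝ := (1 - 12 * ε) / (1 + ε) with hκ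
  have hκ0 : 0 < κ := by linarith
  have e : (1 - 12 * ε) * (u / (1 + ε)) = κ * u := by rw [hκ]; ring
  rw [e]
  have hv0 : 0 ≤ κ * u := mul_nonneg hκ0.le hu
  have hεd : ε ≤ δ / 1000 := by
    have h : δ ^ 2 ≤ δ / 100 := by nlinarith
    linarith
  have hfar' : δ / 2 ≤ |κ * u - 2| := by
    rcases lt_abs.1 hfar with h | h
    · -- u > 2 + δ
      refine le_trans ?_ (le_abs_self _)
      have h1 : (1 - 13 * ε) * (2 + δ) ≤ κ * u :=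
        mul_le_mul k1 (by linarith) (by linarith) hκ0.le
      nlinarith
    · -- u < 2 - δ
      refine le_trans ?_ (neg_le_abs _)
      have h1 : κ * u ≤ u := by nlinarith
      linarith
  have h1 := usq_vfar (κ * u) δ hv0 hδ hδ1 hfar'
  set w : ℝ := (κ * u) ^ 2 * Real.exp (-(κ * u)) with hw
  have hw0 : 0 ≤ w := by positivity
  have h2 : u ^ 2 * Real.exp (-(κ * u)) ≤ (1 + 40 * ε) * w := by
    have h3 := mul_le_mul_of_nonneg_right k3 (sq_nonneg u)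
    calc u ^ 2 * Real.exp (-(κ * u)) ≤ (1 + 40 * ε) * κ ^ 2 * u ^ 2 * Real.exp (-(κ * u)) :=
          mul_le_mul_of_nonneg_right (by linarith) (Real.exp_pos _).le
      _ = (1 + 40 * ε) * w := by rw [hw]; ring
  have h3 : 1 + 40 * ε ≤ (1 - δ ^ 2 / 100) * (1 + δ ^ 2 / 96) ^ 2 := by
    have hx0 : 0 < δ ^ 2 := by positivity
    set x : ℝ := δ ^ 2 with hx
    have h4 : 1 + x / 48 ≤ (1 + x / 96) ^ 2 := by nlinarith [sq_nonneg x]
    have h5 : (1 - x / 100) * (1 + x / 48) ≤ (1 - x / 100) * (1 + x / 96) ^ 2 :=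
      mul_le_mul_of_nonneg_left h4 (by linarith)
    nlinarith
  have h4 : 0 ≤ 1 - δ ^ 2 / 100 := by linarith
  calc u ^ 2 * Real.exp (-(κ * u)) ≤ (1 + 40 * ε) * w := h2
    _ ≤ (1 - δ ^ 2 / 100) * (1 + δ ^ 2 / 96) ^ 2 * w := mul_le_mul_of_nonneg_right h3 hw0
    _ = (1 - δ ^ 2 / 100) * ((1 + δ ^ 2 / 96) ^ 2 * w) := by ring
    _ ≤ (1 - δ ^ 2 / 100) * (4 * Real.exp (-2)) := mul_le_mul_of_nonneg_left h1 h4

end Pool.Agent.Lib.MP_1f2a9f_co.KW
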