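import Pool.Agent.Lib.MP_1f2a9f_co.KW.KintType
import Pool.Agent.Lib.MP_1f2a9f_co.KW.Usq

/-!
# KW, row BT (BadType): board ug2_mod

From `kint_type`. `T_j = (uu ε j)^2 exp (-(1-12ε) Wl ε j)`:
`Wl ε j = uu ε j / (1+ε)` for `j ≥ 1`, `T_0 = ε^2`; so `T_j ≤ (1+40ε) 4 e^-2`, and
`T_j ≤ (1-δ^2/100) 4 e^-2` if `|uu ε j - 2| > δ` (`usq_le`, `usq_far`). With `μ` = mass of the layers with
`|uu ε j - 2| ≤ δ`, `μ < 1-δ`, `Λ ≤ 1+ε`:
`∑ λ_j T_j ≤ 4 e^-2 ((1-δ)(1+40ε) + (δ+ε)(1-δ^2/100)) ≤ 4 e^-2 (1 + 41 ε - δ^3/100)`, times `1+ε`.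
Last term: `χ^2 exp (-0.98 χ/2) ≤ δ^3/2000` as `χ ≥ 4000/ε^3` (`e^x ≥ x^4/24`).
-/

set_option autoImplicit false

namespace Pool.Agent.Lib.MP_1f2a9f_co.KW

open Finset Pool.Agent.Lib.MP_1f2a9f_co

private theorem bt_uu (ε : ℝ) (hε : 0 < ε) (j : ℕ) : 0 ≤ uu ε j := by
  unfold uu
  positivity

private theorem bt_Wl (ε : ℝ) (hε : 0 < ε) (j : ℕ) (hj : j ≠ 0) : Wl ε j = uu ε j / (1 + ε) := by
  obtain ⟨i, rfl⟩ := Nat.exists_eq_succ_of_ne_zero hj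
  have h1 : (1 + ε) ≠ 0 := by positivity
  unfold Wl uu
  rw [if_neg hj, Nat.succ_sub_one, Nat.succ_eq_add_one, pow_succ]
  field_simp

private theorem bt_E : 1 / 2 ≤ 4 * Real.exp (-2) := by
  have h1 : Real.exp 1 < 2.7182818286 := Real.exp_one_lt_d9
  have h0 : 0 < Real.exp 1 := Real.exp_pos 1
  have h2 : Real.exp (-2) * (Real.exp 1 * Real.exp 1) = 1 := by
    rw [← Real.exp_add, ← Real.exp_add]
    norm_num
  have h3 : Real.exp 1 * Real.exp 1 ≤ 8 := by nlinarith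
  have h4 : 0 < Real.exp (-2) := Real.exp_pos _
  nlinarith

private theorem bt_last (ε χ δ u : ℝ) (hδ : 0 < δ) (hδ1 : δ ≤ 1 / 100)
    (hε : 0 < ε) (hε1 : ε ≤ δ ^ 3 / 100000) (hε2 : ε ≤ 1 / 1000) (hχ : 4000 / ε ^ 3 ≤ χ)
    (hu : χ / 2 ≤ u) : χ ^ 2 * Real.exp (-((1 - 12 * ε) * u)) ≤ δ ^ 3 / 2000 := by
  have hχ0 : 0 < χ := lt_of_lt_of_le (by positivity) hχ
  have hx : χ * (2 / 5) ≤ (1 - 12 * ε) * u := by nlinarith
  have hy : 0 < χ * (2 / 5) := by positivity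
  have h1 : Real.exp (-((1 - 12 * ε) * u)) ≤ Real.exp (-(χ * (2 / 5))) :=
    Real.exp_le_exp.mpr (by linarith)
  have h2 : (χ * (2 / 5)) ^ 4 / (Nat.factorial 4 : ℝ) ≤ Real.exp (χ * (2 / 5)) :=
    Real.pow_div_factorial_le_exp _ hy.le 4
  have h3 : Real.exp (-(χ * (2 / 5))) * Real.exp (χ * (2 / 5)) = 1 := by
    rw [← Real.exp_add]
    norm_num
  have h4 : (Nat.factorial 4 : ℝ) = 24 := by norm_num [Nat.factorial]
  rw [h4] at h2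
  have h5 : 0 < Real.exp (-(χ * (2 / 5))) := Real.exp_pos _
  have h6 : χ ^ 4 * Real.exp (-(χ * (2 / 5))) ≤ 1000 := by
    have h7 : Real.exp (-(χ * (2 / 5))) * ((χ * (2 / 5)) ^ 4 / 24) ≤ 1 := by
      rw [← h3]
      exact mul_le_mul_of_nonneg_left h2 h5.le
    nlinarith
  have h8 : χ ^ 2 * (χ ^ 2 * Real.exp (-(χ * (2 / 5)))) ≤ 1000 := by
    calc χ ^ 2 * (χ ^ 2 * Real.exp (-(χ * (2 / 5)))) = χ ^ 4 * Real.exp (-(χ * (2 / 5))) := by ring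
      _ ≤ 1000 := h6
  -- `χ ^ 2 ≥ 4 * 10 ^ 8 / δ ^ 3`
  have hδ3 : 0 < δ ^ 3 := by positivity
  have hε3 : ε ^ 3 ≤ ε := by
    calc ε ^ 3 ≤ ε ^ 1 := pow_le_pow_of_le_one hε.le (by linarith) (by norm_num)
      _ = ε := pow_one ε
  have h9 : 4000 ≤ χ * ε := by
    have h10 : 4000 ≤ χ * ε ^ 3 := by
      rwa [div_le_iff₀ (by positivity)] at hχ
    exact h10.trans (mul_le_mul_of_nonneg_left hε3 hχ0.le)
  have h11 : 400000000 ≤ χ * δ ^ 3 := by nlinarith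
  have hδ4 : δ ^ 3 ≤ 1 := pow_le_one₀ hδ.le (by linarith)
  have h12 : 1 ≤ χ := by nlinarith
  have h13 : 400000000 ≤ χ ^ 2 * δ ^ 3 := by
    have : χ * δ ^ 3 ≤ χ ^ 2 * δ ^ 3 := by
      apply mul_le_mul_of_nonneg_right _ hδ3.le
      nlinarith
    linarith
  set z := χ ^ 2 * Real.exp (-(χ * (2 / 5))) with hz
  have hz0 : 0 ≤ z := by positivity
  have h14 : z * 400000000 ≤ 1000 * δ ^ 3 := by
    calc z * 400000000 ≤ z * (χ ^ 2 * δ ^ 3) := mul_le_mul_of_nonneg_left h13 hz0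
      _ = (χ ^ 2 * z) * δ ^ 3 := by ring
      _ ≤ 1000 * δ ^ 3 := mul_le_mul_of_nonneg_right h8 hδ3.le
  have h15 : χ ^ 2 * Real.exp (-((1 - 12 * ε) * u)) ≤ z :=
    mul_le_mul_of_nonneg_left h1 (by positivity)
  linarith

theorem kint_bad (ε χ δ : ℝ) (B k : ℕ) (c : ℕ → ℕ) (hδ : 0 < δ) (hδ1 : δ ≤ 1 / 100)
    (hε : 0 < ε) (hε1 : ε ≤ δ ^ 3 / 100000) (hχ : 4000 / ε ^ 3 ≤ χ) (hB : 0 < B)
    (hk1 : χ / 2 ≤ uu ε k) (hk2 : uu ε k ≤ χ) (ht : IsType ε χ B k c)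
    (hbad : ¬ GoodType ε χ B k δ c) :
    kint ε χ B (kmax (omc ε χ B k c)) ≤ 4 * Real.exp (-2) - δ ^ 3 / 500 := by
  have hδ3 : 0 < δ ^ 3 := by positivity
  have hδ4 : δ ^ 3 ≤ 1 := pow_le_one₀ hδ.le (by linarith)
  have hε2 : ε ≤ 1 / 1000 := by linarith
  have hχ0 : 0 < χ := lt_of_lt_of_le (by positivity) hχ
  have h1 := kint_type ε χ B k c hε hε2 hχ0 hB (by linarith)
  have h2 := bt_last ε χ δ (uu ε k) hδ hδ1 hε hε1 hε2 hχ hk1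
  have hE1 := bt_E
  have hus := fun j => usq_le ε (uu ε j) hε hε2 (bt_uu ε hε j)
  have huf := fun j => usq_far ε δ (uu ε j) hε hδ hδ1 hε1 (bt_uu ε hε j)
  set E : ℝ := 4 * Real.exp (-2) with hE
  have hδ2 : δ ^ 2 ≤ 1 := pow_le_one₀ hδ.le (by linarith)
  have hzero : (uu ε 0) ^ 2 * Real.exp (-((1 - 12 * ε) * Wl ε 0)) ≤ (1 - δ ^ 2 / 100) * E := by
    have e1 : uu ε 0 = ε := by
      unfold uu
      rw [pow_zero, mul_one]
    have e2 : Wl ε 0 = 0 := by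
      unfold Wl
      rw [if_pos rfl]
    rw [e1, e2, mul_zero, neg_zero, Real.exp_zero, mul_one]
    have : ε ^ 2 ≤ 1 / 1000 := by nlinarith
    nlinarith
  have hT : ∀ j, (uu ε j) ^ 2 * Real.exp (-((1 - 12 * ε) * Wl ε j)) ≤ (1 + 40 * ε) * E := by
    intro j
    rcases Nat.eq_zero_or_pos j with h | h
    · rw [h]
      refine hzero.trans ?_
      have : 0 ≤ δ ^ 2 := by positivity
      apply mul_le_mul_of_nonneg_right _ (by linarith)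
      linarith
    · rw [bt_Wl ε hε j (by omega)]
      exact hus j
  have hTf : ∀ j, δ < |uu ε j - 2| →
      (uu ε j) ^ 2 * Real.exp (-((1 - 12 * ε) * Wl ε j)) ≤ (1 - δ ^ 2 / 100) * E := by
    intro j hj
    rcases Nat.eq_zero_or_pos j with h | h
    · rw [h]
      exact hzero
    · rw [bt_Wl ε hε j (by omega)]
      exact huf j hj
  have hl : ∀ j, 0 ≤ lamc ε χ B c j := by
    intro j
    unfold lamc uu
    positivity
  have hM : ∑ j ∈ (range (k + 1)).filter (fun j => |uu ε j - 2| ≤ δ), lamc ε χ B c j < 1 - δ :=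
    not_le.mp hbad
  have hL := ht.mass
  have hs1 := Finset.sum_filter_add_sum_filter_not (range (k + 1)) (fun j => |uu ε j - 2| ≤ δ)
    (fun j => lamc ε χ B c j)
  have hs2 := Finset.sum_filter_add_sum_filter_not (range (k + 1)) (fun j => |uu ε j - 2| ≤ δ)
    (fun j => lamc ε χ B c j * ((uu ε j) ^ 2 * Real.exp (-((1 - 12 * ε) * Wl ε j))))
  have hn : ∑ j ∈ (range (k + 1)).filter (fun j => |uu ε j - 2| ≤ δ),
      lamc ε χ B c j * ((uu ε j) ^ 2 * Real.exp (-((1 - 12 * ε) * Wl ε j))) ≤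
      (∑ j ∈ (range (k + 1)).filter (fun j => |uu ε j - 2| ≤ δ), lamc ε χ B c j) *
        ((1 + 40 * ε) * E) := by
    rw [Finset.sum_mul]
    exact Finset.sum_le_sum fun j _ => mul_le_mul_of_nonneg_left (hT j) (hl j)
  have hf : ∑ j ∈ (range (k + 1)).filter (fun j => ¬ |uu ε j - 2| ≤ δ),
      lamc ε χ B c j * ((uu ε j) ^ 2 * Real.exp (-((1 - 12 * ε) * Wl ε j))) ≤
      (∑ j ∈ (range (k + 1)).filter (fun j => ¬ |uu ε j - 2| ≤ δ), lamc ε χ B c j) *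
        ((1 - δ ^ 2 / 100) * E) := by
    rw [Finset.sum_mul]
    refine Finset.sum_le_sum fun j hj => mul_le_mul_of_nonneg_left (hTf j ?_) (hl j)
    exact not_le.mp (Finset.mem_filter.mp hj).2
  have hM0 : 0 ≤ ∑ j ∈ (range (k + 1)).filter (fun j => |uu ε j - 2| ≤ δ), lamc ε χ B c j :=
    Finset.sum_nonneg fun j _ => hl j
  have hL0 : 0 ≤ ∑ j ∈ range (k + 1), lamc ε χ B c j := Finset.sum_nonneg fun j _ => hl j
  rw [← hs2] at h1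
  set M := ∑ j ∈ (range (k + 1)).filter (fun j => |uu ε j - 2| ≤ δ), lamc ε χ B c j
  set F := ∑ j ∈ (range (k + 1)).filter (fun j => ¬ |uu ε j - 2| ≤ δ), lamc ε χ B c j
  set L := ∑ j ∈ range (k + 1), lamc ε χ B c j
  set SM := ∑ j ∈ (range (k + 1)).filter (fun j => |uu ε j - 2| ≤ δ),
      lamc ε χ B c j * ((uu ε j) ^ 2 * Real.exp (-((1 - 12 * ε) * Wl ε j)))
  set SF := ∑ j ∈ (range (k + 1)).filter (fun j => ¬ |uu ε j - 2| ≤ δ),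
      lamc ε χ B c j * ((uu ε j) ^ 2 * Real.exp (-((1 - 12 * ε) * Wl ε j)))
  have hE0 : 0 ≤ E := by linarith
  have ha : 0 ≤ (1 - δ ^ 2 / 100) * E := mul_nonneg (by linarith) hE0
  have hF : F ≤ 1 + ε - M := by linarith
  have hb : SM + SF ≤ E * (1 + 41 * ε - δ ^ 3 / 100) := by
    have h3 : F * ((1 - δ ^ 2 / 100) * E) ≤ (1 + ε - M) * ((1 - δ ^ 2 / 100) * E) :=
      mul_le_mul_of_nonneg_right hF ha
    have h4 : M * ((40 * ε + δ ^ 2 / 100) * E) ≤ (1 - δ) * ((40 * ε + δ ^ 2 / 100) * E) :=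
      mul_le_mul_of_nonneg_right hM.le (by positivity)
    have h5 : M * ((1 + 40 * ε) * E) + (1 + ε - M) * ((1 - δ ^ 2 / 100) * E) =
        (1 + ε) * ((1 - δ ^ 2 / 100) * E) + M * ((40 * ε + δ ^ 2 / 100) * E) := by ring
    have h6 : (1 + ε) * ((1 - δ ^ 2 / 100) * E) + (1 - δ) * ((40 * ε + δ ^ 2 / 100) * E) =
        E * (1 + 41 * ε - δ ^ 3 / 100) - E * (ε * (δ ^ 2 / 100) + 40 * ε * δ) := by ring
    have h7 : 0 ≤ E * (ε * (δ ^ 2 / 100) + 40 * ε * δ) := by positivity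
    linarith
  have hc : 0 ≤ E * (1 + 41 * ε - δ ^ 3 / 100) := mul_nonneg hE0 (by linarith)
  have hd : L * (SM + SF) ≤ (1 + ε) * (E * (1 + 41 * ε - δ ^ 3 / 100)) := by
    calc L * (SM + SF) ≤ L * (E * (1 + 41 * ε - δ ^ 3 / 100)) := mul_le_mul_of_nonneg_left hb hL0
      _ ≤ (1 + ε) * (E * (1 + 41 * ε - δ ^ 3 / 100)) := mul_le_mul_of_nonneg_right hL hc
  have he : (1 + ε) * (1 + 41 * ε - δ ^ 3 / 100) ≤ 1 - 9 / 1000 * δ ^ 3 := by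
    have h8 : ε * ε ≤ ε * (1 / 1000) := mul_le_mul_of_nonneg_left hε2 hε.le
    have h9 : 0 ≤ ε * δ ^ 3 := by positivity
    nlinarith
  have hf2 : (1 + ε) * (E * (1 + 41 * ε - δ ^ 3 / 100)) ≤ E - 9 / 1000 * δ ^ 3 * E := by
    calc (1 + ε) * (E * (1 + 41 * ε - δ ^ 3 / 100))
        = E * ((1 + ε) * (1 + 41 * ε - δ ^ 3 / 100)) := by ring
      _ ≤ E * (1 - 9 / 1000 * δ ^ 3) := mul_le_mul_of_nonneg_left he hE0
      _ = E - 9 / 1000 * δ ^ 3 * E := by ring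
  have hg : 9 / 1000 * δ ^ 3 * (1 / 2) ≤ 9 / 1000 * δ ^ 3 * E :=
    mul_le_mul_of_nonneg_left hE1 (by positivity)
  linarith

end Pool.Agent.Lib.MP_1f2a9f_co.KW
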