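import Pool.Agent.Lib.MP_1f2a9f_co.KW.Defs2

/-!
# KW, row GF (GoodFit): board ug2_mod

`q = (x+1) χ/B ≤ A_j = cum c j * χ/B = ∑ i ≤ j, λ_i u_i` for
`x < cum c j`. `j = k+1`: `omg ≤ χ/2 ≤ uu ε k`. `j ≤ k`: the mass of the layers with `|u_i - 2| > δ` is
at most `δ + ε ≤ 3δ/2`. If `u_j < 2 - δ`: `A_j ≤ 2 * 3δ/2 ≤ 4δ`, so `omg = 0`. If `u_j ≥ 2 - δ` then
`j ≥ 1`, `Wl ε j = u_j/(1+ε) ≥ 2 - 2δ`, and `A_j ≤ 3δ + (1+ε)(2+δ) + (3/2) δ u_j ≤ 2 + 6δ + (3/2) δ u_j`,
so `(q-2-6δ)/(4δ) ≤ (3/8) u_j ≤ Wl ε j`.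
-/

set_option autoImplicit false

namespace Pool.Agent.Lib.MP_1f2a9f_co.KW

open Finset Pool.Agent.Lib.MP_1f2a9f_co

private theorem gf_uu_pos (ε : ℝ) (hε : 0 < ε) (j : ℕ) : 0 < uu ε j := by
  unfold uu
  positivity

private theorem gf_uu_mono (ε : ℝ) (hε : 0 < ε) {i j : ℕ} (h : i ≤ j) : uu ε i ≤ uu ε j := by
  unfold uu
  exact mul_le_mul_of_nonneg_left (pow_le_pow_right₀ (by linarith) h) hε.le

theorem good_fits (ε χ δ : ℝ) (B k : ℕ) (c : ℕ → ℕ) (hδ : 0 < δ) (hδ1 : δ ≤ 1 / 100)
    (hε : 0 < ε) (hε1 : ε ≤ δ ^ 3 / 100000) (hχ : 4000 / ε ^ 3 ≤ χ) (hB : 0 < B)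
    (hk1 : χ / 2 ≤ uu ε k) (ht : IsType ε χ B k c) (hgood : GoodType ε χ B k δ c) :
    Fits ε B k c (omg χ δ B) := by
  have hχ0 : 0 < χ := lt_of_lt_of_le (by positivity) hχ
  have hB' : (0 : ℝ) < B := by exact_mod_cast hB
  have hh : 0 < χ / B := by positivity
  have hεδ : ε ≤ δ / 100000 := by
    have : δ ^ 3 ≤ δ := by
      have h1 : δ ^ 2 ≤ 1 := by nlinarith
      nlinarith
    linarith
  have hlam : ∀ j, 0 ≤ lamc ε χ B c j := by
    intro j
    unfold lamc
    have := gf_uu_pos ε hε j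
    positivity
  have hlamu : ∀ j, lamc ε χ B c j * uu ε j = c j * (χ / B) := by
    intro j
    unfold lamc
    have := (gf_uu_pos ε hε j).ne'
    field_simp
  intro j hj x hx
  have hW0 : 0 ≤ Wl ε j := by
    unfold Wl
    split_ifs
    · exact le_rfl
    · exact (gf_uu_pos ε hε _).le
  unfold omg
  split_ifs with hq
  · exact hW0
  · rw [not_le] at hq
    by_cases hjk : j = k + 1
    · refine (min_le_left _ _).trans (hk1.trans ?_)
      unfold Wl
      rw [if_neg (by omega), hjk, Nat.add_sub_cancel]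
    · have hjk' : j ≤ k := by omega
      refine (min_le_right _ _).trans ?_
      set q : ℝ := ((x : ℝ) + 1) * (χ / B) with hqdef
      set F := (range (k + 1)).filter (fun j => |uu ε j - 2| ≤ δ) with hF
      set G := (range (k + 1)).filter (fun j => ¬ |uu ε j - 2| ≤ δ) with hG
      have hsplit : ∑ i ∈ F, lamc ε χ B c i + ∑ i ∈ G, lamc ε χ B c i =
          ∑ i ∈ range (k + 1), lamc ε χ B c i := sum_filter_add_sum_filter_not _ _ _
      have hFm : 1 - δ ≤ ∑ i ∈ F, lamc ε χ B c i := hgood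
      have hFm2 : ∑ i ∈ F, lamc ε χ B c i ≤ 1 + ε := by
        have h1 : 0 ≤ ∑ i ∈ G, lamc ε χ B c i := sum_nonneg (fun i _ => hlam i)
        have := ht.mass
        linarith
      have hGm : ∑ i ∈ G, lamc ε χ B c i ≤ δ + ε := by
        have := ht.mass
        linarith
      -- the position
      have hq1 : q ≤ ∑ i ∈ range (j + 1), lamc ε χ B c i * uu ε i := by
        have h1 : ((x : ℝ) + 1) ≤ (cum c j : ℝ) := by exact_mod_cast hx
        have h2 : (∑ i ∈ range (j + 1), lamc ε χ B c i * uu ε i) = (cum c j : ℝ) * (χ / B) := by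
          rw [sum_congr rfl (fun i _ => hlamu i), ← sum_mul]
          unfold cum
          push_cast
          rfl
        rw [h2]
        exact mul_le_mul_of_nonneg_right h1 hh.le
      have hsub : range (j + 1) ⊆ range (k + 1) := by
        intro i hi
        rw [mem_range] at hi ⊢
        omega
      have hbad : ∑ i ∈ (range (j + 1)).filter (fun i => ¬ |uu ε i - 2| ≤ δ),
          lamc ε χ B c i * uu ε i ≤ (δ + ε) * uu ε j := by
        have h1 : ∑ i ∈ (range (j + 1)).filter (fun i => ¬ |uu ε i - 2| ≤ δ),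
            lamc ε χ B c i * uu ε i ≤
            ∑ i ∈ (range (j + 1)).filter (fun i => ¬ |uu ε i - 2| ≤ δ),
              lamc ε χ B c i * uu ε j := by
          refine sum_le_sum (fun i hi => ?_)
          rw [mem_filter, mem_range] at hi
          exact mul_le_mul_of_nonneg_left (gf_uu_mono ε hε (by omega)) (hlam i)
        have h2 : ∑ i ∈ (range (j + 1)).filter (fun i => ¬ |uu ε i - 2| ≤ δ),
            lamc ε χ B c i ≤ ∑ i ∈ G, lamc ε χ B c i :=
          sum_le_sum_of_subset_of_nonneg (filter_subset_filter _ hsub) (fun i _ _ => hlam i)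
        rw [← sum_mul] at h1
        refine h1.trans (mul_le_mul_of_nonneg_right (h2.trans hGm) (gf_uu_pos ε hε j).le)
      have hsplit2 : ∑ i ∈ (range (j + 1)).filter (fun i => |uu ε i - 2| ≤ δ),
            lamc ε χ B c i * uu ε i +
          ∑ i ∈ (range (j + 1)).filter (fun i => ¬ |uu ε i - 2| ≤ δ), lamc ε χ B c i * uu ε i =
          ∑ i ∈ range (j + 1), lamc ε χ B c i * uu ε i := sum_filter_add_sum_filter_not _ _ _
      have hu : 0 < uu ε j := gf_uu_pos ε hε j
      by_cases hcase : uu ε j < 2 - δ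
      · -- all layers up to `j` are low
        exfalso
        have hempty : (range (j + 1)).filter (fun i => |uu ε i - 2| ≤ δ) = ∅ := by
          rw [filter_eq_empty_iff]
          intro i hi habs
          rw [mem_range] at hi
          have h1 := gf_uu_mono ε hε (show i ≤ j by omega)
          have h2 := (abs_le.1 habs).1
          linarith
        rw [hempty, sum_empty, zero_add] at hsplit2
        have h3 : (δ + ε) * uu ε j ≤ (δ + ε) * 2 :=
          mul_le_mul_of_nonneg_left (by linarith) (by linarith)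
        linarith
      · rw [not_lt] at hcase
        have hj0 : j ≠ 0 := by
          rintro rfl
          unfold uu at hcase
          rw [pow_zero, mul_one] at hcase
          linarith
        have hWl : Wl ε j * (1 + ε) = uu ε j := by
          unfold Wl
          rw [if_neg hj0]
          obtain ⟨i, rfl⟩ := Nat.exists_eq_succ_of_ne_zero hj0
          rw [Nat.succ_eq_add_one, Nat.add_sub_cancel]
          unfold uu
          rw [pow_succ]
          ring
        have hgoodsum : ∑ i ∈ (range (j + 1)).filter (fun i => |uu ε i - 2| ≤ δ),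
            lamc ε χ B c i * uu ε i ≤ (1 + ε) * (2 + δ) := by
          have h1 : ∑ i ∈ (range (j + 1)).filter (fun i => |uu ε i - 2| ≤ δ),
              lamc ε χ B c i * uu ε i ≤
              ∑ i ∈ (range (j + 1)).filter (fun i => |uu ε i - 2| ≤ δ),
                lamc ε χ B c i * (2 + δ) := by
            refine sum_le_sum (fun i hi => ?_)
            rw [mem_filter] at hi
            have h2 := (abs_le.1 hi.2).2
            exact mul_le_mul_of_nonneg_left (by linarith) (hlam i)
          have h2 : ∑ i ∈ (range (j + 1)).filter (fun i => |uu ε i - 2| ≤ δ),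
              lamc ε χ B c i ≤ ∑ i ∈ F, lamc ε χ B c i :=
            sum_le_sum_of_subset_of_nonneg (filter_subset_filter _ hsub) (fun i _ _ => hlam i)
          rw [← sum_mul] at h1
          exact h1.trans (mul_le_mul_of_nonneg_right (h2.trans hFm2) (by linarith))
        refine max_le ?_ ?_
        · -- `2 - 2δ ≤ Wl`
          have h1 : (2 - 2 * δ) * (1 + ε) ≤ Wl ε j * (1 + ε) := by
            rw [hWl]
            nlinarith
          exact le_of_mul_le_mul_right h1 (by linarith)
        · rw [div_le_iff₀ (by linarith)]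
          have h1 : q ≤ (1 + ε) * (2 + δ) + (δ + ε) * uu ε j := by linarith
          have h2 : (δ + ε) * uu ε j ≤ Wl ε j * (4 * δ) := by
            rw [← hWl]
            have h3 : (δ + ε) * (1 + ε) ≤ 4 * δ := by nlinarith
            calc (δ + ε) * (Wl ε j * (1 + ε)) = ((δ + ε) * (1 + ε)) * Wl ε j := by ring
              _ ≤ (4 * δ) * Wl ε j := mul_le_mul_of_nonneg_right h3 hW0
              _ = Wl ε j * (4 * δ) := by ring
          have h4 : (1 + ε) * (2 + δ) ≤ 2 + 6 * δ := by nlinarith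
          linarith

theorem omg_kernel (χ δ : ℝ) (B : ℕ) (hχ : 0 < χ) (hδ : 0 < δ) (hδ1 : δ ≤ 1 / 100) :
    Kernel χ (kmax (omg χ δ B)) ∧ ∀ x, 0 ≤ omg χ δ B x := by
  have h0 : ∀ x, 0 ≤ omg χ δ B x := by
    intro x
    unfold omg
    split_ifs
    · exact le_rfl
    · exact le_min (by linarith) ((by linarith : (0 : ℝ) ≤ 2 - 2 * δ).trans (le_max_left _ _))
  have h1 : ∀ x, omg χ δ B x ≤ 2 * χ := by
    intro x
    unfold omg
    split_ifs
    · linarith
    · exact (min_le_left _ _).trans (by linarith)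
  refine ⟨⟨fun x y => ?_, fun x y => h0 _, fun x y => h1 _⟩, h0⟩
  unfold kmax
  rw [max_comm]

end Pool.Agent.Lib.MP_1f2a9f_co.KW
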