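import Pool.Agent.Lib.MP_1f2a9f_co.KW.Defs2

/-!
# KW, row HC (HostCount): board ug2_mod

For `q ∈ HostedIn m G` choose `a`, an injective homomorphism `f` and
let `F ⊆ E(G)` be the image of the edges, `|F| = m`. `F` determines the class: the guest is isomorphic
to the graph with edge set `F` on the end points of `F` (no isolated vertices), so two guests with the
same `F` are isomorphic (`f'⁻¹ ∘ f`).
-/

set_option autoImplicit false

namespace Pool.Agent.Lib.MP_1f2a9f_co.KW

open Finset Pool.Agent.Lib.MP_1f2a9f_co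

private theorem hc_mem {n N : ℕ} (H : SimpleGraph (Fin n)) (f : Fin n → Fin N)
    (hf : Function.Injective f) (v w : Fin n) :
    s(f v, f w) ∈ Sym2.map f '' H.edgeSet ↔ H.Adj v w := by
  constructor
  · rintro ⟨e, he, h⟩
    have h1 : e = s(v, w) := Sym2.map.injective hf (by rw [h, Sym2.map_mk])
    rw [h1] at he
    exact he
  · intro h
    exact ⟨s(v, w), h, Sym2.map_mk ..⟩

private theorem hc_range {n n' N : ℕ} (H : SimpleGraph (Fin n)) (H' : SimpleGraph (Fin n'))
    (h : ∀ v, ∃ w, H.Adj v w) (f : Fin n → Fin N) (f' : Fin n' → Fin N)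
    (heq : Sym2.map f '' H.edgeSet = Sym2.map f' '' H'.edgeSet) : Set.range f ⊆ Set.range f' := by
  rintro _ ⟨v, rfl⟩
  obtain ⟨w, hw⟩ := h v
  have h1 : s(f v, f w) ∈ Sym2.map f '' H.edgeSet := ⟨s(v, w), hw, Sym2.map_mk ..⟩
  rw [heq] at h1
  obtain ⟨e, he, h2⟩ := h1
  induction e using Sym2.ind with
  | _ a b =>
    rw [Sym2.map_mk] at h2
    rcases Sym2.eq_iff.1 h2 with h3 | h3
    · exact ⟨a, h3.1⟩
    · exact ⟨b, h3.2⟩

private theorem hc_iso {n n' N : ℕ} (H : SimpleGraph (Fin n)) (H' : SimpleGraph (Fin n'))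
    (h : ∀ v, ∃ w, H.Adj v w) (h' : ∀ v, ∃ w, H'.Adj v w) (f : Fin n → Fin N) (f' : Fin n' → Fin N)
    (hf : Function.Injective f) (hf' : Function.Injective f')
    (heq : Sym2.map f '' H.edgeSet = Sym2.map f' '' H'.edgeSet) : Nonempty (H ≃g H') := by
  have hr : Set.range f = Set.range f' :=
    Set.Subset.antisymm (hc_range H H' h f f' heq) (hc_range H' H h' f' f heq.symm)
  let e : Fin n ≃ Fin n' := ((Equiv.ofInjective f hf).trans (Equiv.setCongr hr)).trans
    (Equiv.ofInjective f' hf').symm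
  have he : ∀ v, f' (e v) = f v := by
    intro v
    have h1 : (Equiv.ofInjective f' hf') (e v) = Equiv.setCongr hr (Equiv.ofInjective f hf v) := by
      simp [e]
    have h2 := congrArg Subtype.val h1
    simpa using h2
  refine ⟨⟨e, ?_⟩⟩
  intro a b
  rw [← hc_mem H' f' hf', ← hc_mem H f hf, he, he, heq]

theorem card_hostedIn (m N : ℕ) (G : SimpleGraph (Fin N)) :
    (HostedIn m G).ncard ≤ G.edgeSet.ncard.choose m := by
  classical
  have hch : ∀ q : Cls m, ∃ F : Finset (Sym2 (Fin N)), q ∈ HostedIn m G →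
      ∃ a : Guest m, Quotient.mk (guestSetoid m) a = q ∧ ∃ f : Fin a.1 → Fin N,
        Function.Injective f ∧ (∀ v w, a.2.1.Adj v w → G.Adj (f v) (f w)) ∧
        (F : Set (Sym2 (Fin N))) = Sym2.map f '' a.2.1.edgeSet := by
    intro q
    by_cases hq : q ∈ HostedIn m G
    · obtain ⟨a, ha, ⟨c⟩⟩ := hq
      refine ⟨(Sym2.map c '' a.2.1.edgeSet).toFinset, fun _ => ⟨a, ha, c, c.injective, ?_, ?_⟩⟩
      · intro v w h
        exact c.toHom.map_adj h
      · rw [Set.coe_toFinset]
    · exact ⟨∅, fun h => absurd h hq⟩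
  choose Φ hΦ using hch
  set E : Finset (Sym2 (Fin N)) := G.edgeSet.toFinset with hE
  have hEc : G.edgeSet.ncard = E.card := Set.ncard_eq_toFinset_card' _
  rw [hEc, ← card_powersetCard, ← Set.ncard_coe_finset]
  refine Set.ncard_le_ncard_of_injOn Φ ?_ ?_ (Finset.finite_toSet _)
  · intro q hq
    obtain ⟨a, -, f, hf, hadj, hF⟩ := hΦ q hq
    rw [mem_coe, mem_powersetCard]
    constructor
    · intro e he
      have h1 : e ∈ (Φ q : Set (Sym2 (Fin N))) := he
      rw [hF] at h1
      obtain ⟨e', he', rfl⟩ := h1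
      rw [hE, Set.mem_toFinset]
      induction e' using Sym2.ind with
      | _ v w =>
        rw [Sym2.map_mk]
        exact hadj v w he'
    · rw [← Set.ncard_coe_finset, hF, Set.ncard_image_of_injective _ (Sym2.map.injective hf)]
      exact a.2.2.1
  · intro q hq q' hq' h
    obtain ⟨a, ha, f, hf, -, hF⟩ := hΦ q hq
    obtain ⟨a', ha', f', hf', -, hF'⟩ := hΦ q' hq'
    rw [← ha, ← ha']
    apply Quotient.sound
    refine hc_iso a.2.1 a'.2.1 a.2.2.2 a'.2.2.2 f f' hf hf' ?_
    rw [← hF, ← hF', h]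

end Pool.Agent.Lib.MP_1f2a9f_co.KW
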