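import Pool.Agent.Lib.MP_1f2a9f_co.KW.KintMaxSum

/-!
# KW, row KG (KintGood): board ug2_mod

`h = χ/B ≤ δ`, `q = (x+1) h`, `a = 2 + 6δ`, `kint_kmax`. `q ≤ 4δ`: the sum
`∑ (2x+1) h^2` over `x+1 ≤ 4δ/h` is at most `16 δ^2`. `q ≤ a`: at most `a^2 exp (-(1-12ε)(2-2δ))
≤ 4 e^-2 (1+3δ)^2 e^(2δ+24ε)`. `q > a`: the exponential is at most
`exp (-0.98 χ/2) + exp (-0.98 (q-a)/(4δ))`; the first gives `χ^2 exp (-0.49 χ) ≤ δ`; for the second
`exp (-z) ≤ 4/(1+z)^3`, `z ≥ (q-a)/(5δ)`, `(2x+1) h ≤ 2q`,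
`2 q h * 4 (5δ)^3/(5δ+q-a)^3 ≤ (2a/(5δ)+2) 4 (5δ)^3 h/(5δ+q-a)^2` and
`h/(y+h)^2 ≤ 1/y - 1/(y+h)` telescopes (`y = 5δ + q - a - h`; the first term, for which `q - h ≤ a`, is
at most `h/(5δ)^2`, use `h ≤ δ^2`).
-/

set_option autoImplicit false

namespace Pool.Agent.Lib.MP_1f2a9f_co.KW

open Finset Pool.Agent.Lib.MP_1f2a9f_co

private theorem kg_sq (h A : ℝ) (hh : 0 ≤ h) (hA : 0 ≤ A) (B : ℕ) :
    ∑ x ∈ range B, (if ((x : ℝ) + 1) * h ≤ A then (2 * (x : ℝ) + 1) * h ^ 2 else 0) ≤ A ^ 2 := by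
  have key : ∀ x ∈ range B, (if ((x : ℝ) + 1) * h ≤ A then (2 * (x : ℝ) + 1) * h ^ 2 else 0) ≤
      (fun n : ℕ => (min ((n : ℝ) * h) A) ^ 2) (x + 1) - (fun n : ℕ => (min ((n : ℝ) * h) A) ^ 2) x := by
    intro x _
    have hx : (0 : ℝ) ≤ x := Nat.cast_nonneg x
    have hxh : 0 ≤ (x : ℝ) * h := mul_nonneg hx hh
    have hle : (x : ℝ) * h ≤ ((x : ℝ) + 1) * h := by nlinarith
    simp only [Nat.cast_add, Nat.cast_one]
    split_ifs with h1
    · rw [min_eq_left h1, min_eq_left (hle.trans h1)]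
      nlinarith
    · have h2 : min ((x : ℝ) * h) A ≤ min (((x : ℝ) + 1) * h) A := min_le_min_right _ hle
      have h3 : 0 ≤ min ((x : ℝ) * h) A := le_min hxh hA
      nlinarith
  refine (sum_le_sum key).trans ?_
  refine (le_of_eq (Finset.sum_range_sub (fun n : ℕ => (min ((n : ℝ) * h) A) ^ 2) B)).trans ?_
  have h1 : min ((B : ℝ) * h) A ≤ A := min_le_right _ _
  have h2 : 0 ≤ min ((B : ℝ) * h) A := le_min (mul_nonneg (Nat.cast_nonneg B) hh) hA
  have h3 : (min (((0 : ℕ) : ℝ) * h) A) ^ 2 = 0 := by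
    rw [Nat.cast_zero, zero_mul, min_eq_left hA]
    ring
  rw [h3, sub_zero]
  exact pow_le_pow_left₀ h2 h1 2

private theorem kg_inv (h a b : ℝ) (hh : 0 < h) (hb : h < b) (B : ℕ) :
    ∑ x ∈ range B, (if a < ((x : ℝ) + 1) * h then h / (b + ((x : ℝ) + 1) * h - a) ^ 2 else 0) ≤
      1 / (b - h) := by
  have hbh : 0 < b - h := by linarith
  have key : ∀ x ∈ range B, (if a < ((x : ℝ) + 1) * h then h / (b + ((x : ℝ) + 1) * h - a) ^ 2 else 0) ≤
      (fun n : ℕ => -(1 / (b - h + max 0 (((n : ℝ) + 1) * h - a)))) (x + 1) -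
        (fun n : ℕ => -(1 / (b - h + max 0 (((n : ℝ) + 1) * h - a)))) x := by
    intro x _
    simp only [Nat.cast_add, Nat.cast_one]
    split_ifs with h1
    · have e1 : max 0 (((x : ℝ) + 1) * h - a) = ((x : ℝ) + 1) * h - a := max_eq_right (by linarith)
      have e2 : max 0 (((x : ℝ) + 1 + 1) * h - a) = ((x : ℝ) + 1) * h - a + h := by
        rw [max_eq_right (by nlinarith)]
        ring
      rw [e1, e2]
      obtain ⟨y, hy⟩ : ∃ y : ℝ, y = b - h + (((x : ℝ) + 1) * h - a) := ⟨_, rfl⟩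
      have hy0 : 0 < y := by rw [hy]; linarith
      have e3 : b + ((x : ℝ) + 1) * h - a = y + h := by rw [hy]; ring
      have e4 : b - h + (((x : ℝ) + 1) * h - a + h) = y + h := by rw [hy]; ring
      rw [e3, e4, ← hy]
      have e5 : -(1 / (y + h)) - -(1 / y) = h / (y * (y + h)) := by
        field_simp
        ring
      rw [e5]
      apply div_le_div_of_nonneg_left hh.le (by positivity)
      nlinarith
    · have h2 : max 0 (((x : ℝ) + 1) * h - a) ≤ max 0 (((x : ℝ) + 1 + 1) * h - a) :=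
        max_le_max le_rfl (by nlinarith)
      have h3 : 0 ≤ max 0 (((x : ℝ) + 1) * h - a) := le_max_left _ _
      have h4 : 1 / (b - h + max 0 (((x : ℝ) + 1 + 1) * h - a)) ≤
          1 / (b - h + max 0 (((x : ℝ) + 1) * h - a)) :=
        one_div_le_one_div_of_le (by linarith) (by linarith)
      linarith
  refine (sum_le_sum key).trans ?_
  refine (le_of_eq (Finset.sum_range_sub
    (fun n : ℕ => -(1 / (b - h + max 0 (((n : ℝ) + 1) * h - a)))) B)).trans ?_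
  have h1 : 0 ≤ 1 / (b - h + max 0 (((B : ℝ) + 1) * h - a)) := by
    have : 0 ≤ max 0 (((B : ℝ) + 1) * h - a) := le_max_left _ _
    positivity
  have h2 : 1 / (b - h + max 0 ((((0 : ℕ) : ℝ) + 1) * h - a)) ≤ 1 / (b - h) := by
    apply one_div_le_one_div_of_le hbh
    have : 0 ≤ max 0 ((((0 : ℕ) : ℝ) + 1) * h - a) := le_max_left _ _
    linarith
  linarith

private theorem kg_exp (z : ℝ) (hz : 0 ≤ z) : Real.exp (-z) * (1 + z) ^ 3 ≤ 5 := by
  have h1 := Real.quadratic_le_exp_of_nonneg (by linarith : 0 ≤ z / 3)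
  have h2 : 3 / 5 * (1 + z) ≤ Real.exp (z / 3) := by nlinarith [sq_nonneg (z - 12 / 5)]
  have h3 : (3 / 5 * (1 + z)) ^ 3 ≤ Real.exp (z / 3) ^ 3 :=
    pow_le_pow_left₀ (by positivity) h2 3
  have h4 : Real.exp (z / 3) ^ 3 = Real.exp z := by
    rw [← Real.exp_nat_mul]
    congr 1
    push_cast
    ring
  rw [h4] at h3
  have h5 : Real.exp (-z) * Real.exp z = 1 := by
    rw [← Real.exp_add, neg_add_cancel, Real.exp_zero]
  have h6 : 0 < Real.exp (-z) := Real.exp_pos _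
  have h7 := mul_le_mul_of_nonneg_left h3 h6.le
  rw [h5] at h7
  have h8 : Real.exp (-z) * (3 / 5 * (1 + z)) ^ 3 = 27 / 125 * (Real.exp (-z) * (1 + z) ^ 3) := by
    ring
  rw [h8] at h7
  linarith

private theorem kg_min (c u v : ℝ) :
    Real.exp (-(c * min u v)) ≤ Real.exp (-(c * u)) + Real.exp (-(c * v)) := by
  have h1 := Real.exp_pos (-(c * u))
  have h2 := Real.exp_pos (-(c * v))
  rcases min_choice u v with h | h
  · rw [h]; linarith
  · rw [h]; linarith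

/-- one term of the tail -/
private theorem kg_tail (c δ h a q N : ℝ) (hc : 4 / 5 ≤ c) (hδ : 0 < δ) (hh : 0 < h)
    (ha : 0 ≤ a) (hq : a < q) (hN : N * h ≤ 2 * q) (v : ℝ) (hv : (q - a) / (4 * δ) ≤ v) :
    N * h ^ 2 * Real.exp (-(c * v)) ≤
      250 * δ ^ 2 * (a + 5 * δ) * (h / (5 * δ + q - a) ^ 2) := by
  obtain ⟨Y, hY⟩ : ∃ Y : ℝ, Y = 5 * δ + q - a := ⟨_, rfl⟩
  have hY0 : 0 < Y := by rw [hY]; linarith
  obtain ⟨z, hz⟩ : ∃ z : ℝ, z = (q - a) / (5 * δ) := ⟨_, rfl⟩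
  have hz0 : 0 ≤ z := by rw [hz]; exact div_nonneg (by linarith) (by linarith)
  have hzY : 1 + z = Y / (5 * δ) := by
    rw [hz, hY]
    field_simp
    ring
  have h1 : z ≤ c * v := by
    have h2 : z = 4 / 5 * ((q - a) / (4 * δ)) := by
      rw [hz]
      field_simp
    have h3 : 0 ≤ (q - a) / (4 * δ) := div_nonneg (by linarith) (by linarith)
    rw [h2]
    calc 4 / 5 * ((q - a) / (4 * δ)) ≤ c * ((q - a) / (4 * δ)) := mul_le_mul_of_nonneg_right hc h3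
      _ ≤ c * v := mul_le_mul_of_nonneg_left hv (by linarith)
  have h2 : Real.exp (-(c * v)) ≤ Real.exp (-z) := Real.exp_le_exp.2 (by linarith)
  have h3 : Real.exp (-z) ≤ 5 * (5 * δ) ^ 3 / Y ^ 3 := by
    have h4 := kg_exp z hz0
    rw [hzY, div_pow, ← mul_div_assoc, div_le_iff₀ (by positivity)] at h4
    rw [le_div_iff₀ (by positivity)]
    exact h4
  have hq0 : 0 < q := lt_of_le_of_lt ha hq
  have hE : 0 < Real.exp (-(c * v)) := Real.exp_pos _
  have h4 : N * h ^ 2 * Real.exp (-(c * v)) ≤ 2 * q * h * (5 * (5 * δ) ^ 3 / Y ^ 3) := by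
    calc N * h ^ 2 * Real.exp (-(c * v)) = (N * h) * h * Real.exp (-(c * v)) := by ring
      _ ≤ (2 * q) * h * Real.exp (-(c * v)) := by
        exact mul_le_mul_of_nonneg_right (mul_le_mul_of_nonneg_right hN hh.le) hE.le
      _ ≤ 2 * q * h * (5 * (5 * δ) ^ 3 / Y ^ 3) :=
        mul_le_mul_of_nonneg_left (h2.trans h3) (by positivity)
  have h5 : q * (5 * δ) ≤ (a + 5 * δ) * Y := by
    rw [hY]
    nlinarith [mul_nonneg ha (by linarith : 0 ≤ q - a)]
  refine h4.trans ?_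
  rw [← hY]
  have h6 : 2 * q * h * (5 * (5 * δ) ^ 3 / Y ^ 3) = 250 * δ ^ 2 * h * (q * (5 * δ)) / Y ^ 3 := by
    field_simp
    ring
  have h7 : 250 * δ ^ 2 * (a + 5 * δ) * (h / Y ^ 2) = 250 * δ ^ 2 * h * ((a + 5 * δ) * Y) / Y ^ 3 := by
    field_simp
  rw [h6, h7]
  exact div_le_div_of_nonneg_right (mul_le_mul_of_nonneg_left h5 (by positivity)) (by positivity)

theorem kint_good (ε χ δ : ℝ) (B : ℕ) (hδ : 0 < δ) (hδ1 : δ ≤ 1 / 100)
    (hε : 0 < ε) (hε1 : ε ≤ δ ^ 3 / 100000) (hχ : 4000 / ε ^ 3 ≤ χ) (hB : 0 < B)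
    (hh : χ / B ≤ δ ^ 2) :
    kint ε χ B (kmax (omg χ δ B)) ≤ 4 * Real.exp (-2) + 200 * δ := by
  have hBr : (0 : ℝ) < B := by exact_mod_cast hB
  have hd2 : δ ^ 2 ≤ δ / 100 := by nlinarith
  have hd3 : δ ^ 3 ≤ δ / 10000 := by nlinarith
  have hεδ : ε ≤ δ / 1000000000 := by linarith
  have hε2 : ε ≤ 1 / 1000 := by linarith
  have hε3 : ε ^ 3 ≤ δ / 1000 := by
    have : ε ^ 2 ≤ 1 := by nlinarith
    nlinarith
  have hε30 : 0 < ε ^ 3 := by positivity
  have hχε : 4000 ≤ χ * ε ^ 3 := by rwa [div_le_iff₀ hε30] at hχ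
  have hχ0 : 0 < χ := by
    by_contra hcon
    nlinarith [not_lt.1 hcon]
  have hχ1 : 4000 ≤ χ := by
    have : ε ^ 3 ≤ 1 := by linarith
    nlinarith
  obtain ⟨h, hhd⟩ : ∃ h : ℝ, h = χ / B := ⟨_, rfl⟩
  have hh0 : 0 < h := by rw [hhd]; positivity
  rw [← hhd] at hh
  have hhB : h * B = χ := by rw [hhd]; field_simp
  obtain ⟨c, hcd⟩ : ∃ c : ℝ, c = 1 - 12 * ε := ⟨_, rfl⟩
  have hc : 9 / 10 ≤ c := by rw [hcd]; linarith
  obtain ⟨a, had⟩ : ∃ a : ℝ, a = 2 + 6 * δ := ⟨_, rfl⟩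
  have ha0 : 0 ≤ a := by rw [had]; linarith
  obtain ⟨E2, hE2⟩ : ∃ E2 : ℝ, E2 = Real.exp (-(c * (2 - 2 * δ))) := ⟨_, rfl⟩
  obtain ⟨E3, hE3⟩ : ∃ E3 : ℝ, E3 = Real.exp (-(c * (χ / 2))) := ⟨_, rfl⟩
  have hE20 : 0 < E2 := by rw [hE2]; exact Real.exp_pos _
  have hE30 : 0 < E3 := by rw [hE3]; exact Real.exp_pos _
  rw [kint_kmax, ← hhd, ← hcd, Finset.mul_sum]
  -- the terms
  have hterm : ∀ x : Fin B, h ^ 2 * ((2 * ((x : ℕ) : ℝ) + 1) * Real.exp (-(c * omg χ δ B x))) ≤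
      (fun n : ℕ => (if ((n : ℝ) + 1) * h ≤ 4 * δ then (2 * (n : ℝ) + 1) * h ^ 2 else 0) +
        E2 * (if ((n : ℝ) + 1) * h ≤ a then (2 * (n : ℝ) + 1) * h ^ 2 else 0) +
        E3 * h ^ 2 * (2 * (n : ℝ) + 1) +
        250 * δ ^ 2 * (a + 5 * δ) * (if a < ((n : ℝ) + 1) * h then
          h / (5 * δ + ((n : ℝ) + 1) * h - a) ^ 2 else 0)) (x : ℕ) := by
    intro x
    simp only []
    have hx : (0 : ℝ) ≤ ((x : ℕ) : ℝ) := Nat.cast_nonneg _
    obtain ⟨n, hn⟩ : ∃ n : ℝ, n = ((x : ℕ) : ℝ) := ⟨_, rfl⟩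
    rw [← hn] at hx ⊢
    have hN : 0 ≤ (2 * n + 1) * h ^ 2 := by positivity
    have hC : 0 ≤ 250 * δ ^ 2 * (a + 5 * δ) := by positivity
    have hI4 : 0 ≤ (if a < (n + 1) * h then h / (5 * δ + (n + 1) * h - a) ^ 2 else 0) := by
      split_ifs
      · positivity
      · exact le_rfl
    have hI2 : 0 ≤ (if (n + 1) * h ≤ a then (2 * n + 1) * h ^ 2 else 0) := by
      split_ifs
      · exact hN
      · exact le_rfl
    have hI1 : 0 ≤ (if (n + 1) * h ≤ 4 * δ then (2 * n + 1) * h ^ 2 else 0) := by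
      split_ifs
      · exact hN
      · exact le_rfl
    have hI3 : 0 ≤ E3 * h ^ 2 * (2 * n + 1) := by positivity
    have hP4 := mul_nonneg hC hI4
    have hP2 := mul_nonneg hE20.le hI2
    have homg : omg χ δ B x = if (n + 1) * h ≤ 4 * δ then 0 else
        min (χ / 2) (max (2 - 2 * δ) (((n + 1) * h - 2 - 6 * δ) / (4 * δ))) := by
      unfold omg
      rw [← hn, ← hhd]
    rw [homg]
    by_cases h1 : (n + 1) * h ≤ 4 * δ
    · rw [if_pos h1, mul_zero, neg_zero, Real.exp_zero, if_pos h1]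
      linarith
    · rw [if_neg h1]
      by_cases h2 : (n + 1) * h ≤ a
      · have h3 : 2 - 2 * δ ≤ min (χ / 2) (max (2 - 2 * δ) (((n + 1) * h - 2 - 6 * δ) / (4 * δ))) :=
          le_min (by linarith) (le_max_left _ _)
        have h4 : Real.exp (-(c * min (χ / 2) (max (2 - 2 * δ)
            (((n + 1) * h - 2 - 6 * δ) / (4 * δ))))) ≤ E2 := by
          rw [hE2]
          apply Real.exp_le_exp.2
          have := mul_le_mul_of_nonneg_left h3 (by linarith : 0 ≤ c)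
          linarith
        have h5 := mul_le_mul_of_nonneg_left h4 hN
        rw [if_pos h2] at hP2 ⊢
        linarith
      · have h3 := kg_min c (χ / 2) (max (2 - 2 * δ) (((n + 1) * h - 2 - 6 * δ) / (4 * δ)))
        have h4 := mul_le_mul_of_nonneg_left h3 hN
        have h5 := kg_tail c δ h a ((n + 1) * h) (2 * n + 1) (by linarith) hδ hh0 ha0
          (not_le.1 h2) (by nlinarith) (max (2 - 2 * δ) (((n + 1) * h - 2 - 6 * δ) / (4 * δ))) (by
            refine le_trans (le_of_eq ?_) (le_max_right _ _)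
            rw [had]
            ring)
        rw [if_pos (not_le.1 h2)] at hP4 ⊢
        rw [← hE3] at h4
        linarith
  refine (sum_le_sum fun x _ => hterm x).trans ?_
  refine (le_of_eq (Fin.sum_univ_eq_sum_range (fun n : ℕ =>
      (if ((n : ℝ) + 1) * h ≤ 4 * δ then (2 * (n : ℝ) + 1) * h ^ 2 else 0) +
        E2 * (if ((n : ℝ) + 1) * h ≤ a then (2 * (n : ℝ) + 1) * h ^ 2 else 0) +
        E3 * h ^ 2 * (2 * (n : ℝ) + 1) +
        250 * δ ^ 2 * (a + 5 * δ) * (if a < ((n : ℝ) + 1) * h then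
          h / (5 * δ + ((n : ℝ) + 1) * h - a) ^ 2 else 0)) B)).trans ?_
  rw [sum_add_distrib, sum_add_distrib, sum_add_distrib, ← mul_sum, ← mul_sum, ← mul_sum]
  have S1 := kg_sq h (4 * δ) hh0.le (by linarith) B
  have S2 := mul_le_mul_of_nonneg_left (kg_sq h a hh0.le ha0 B) hE20.le
  have S3 : E3 * h ^ 2 * ∑ x ∈ range B, (2 * (x : ℝ) + 1) = E3 * χ ^ 2 := by
    have h1 : ∀ N : ℕ, ∑ x ∈ range N, (2 * (x : ℝ) + 1) = (N : ℝ) ^ 2 := by
      intro N
      induction N with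
      | zero => simp
      | succ N ih =>
        rw [sum_range_succ, ih]
        push_cast
        ring
    rw [h1, ← hhB]
    ring
  have hC : 0 ≤ 250 * δ ^ 2 * (a + 5 * δ) := by positivity
  have S4 := mul_le_mul_of_nonneg_left (kg_inv h a (5 * δ) hh0 (by linarith) B) hC
  rw [S3]
  -- numbers
  have B2 : E2 * a ^ 2 ≤ 4 * Real.exp (-2) + 40 * δ := by
    have e1 : Real.exp (-2) ≤ 1 := Real.exp_le_one_iff.2 (by norm_num)
    have e0 : 0 < Real.exp (-2) := Real.exp_pos _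
    have e2 : E2 ≤ Real.exp (-2) * Real.exp (3 * δ) := by
      rw [hE2, ← Real.exp_add]
      apply Real.exp_le_exp.2
      rw [hcd]
      nlinarith [mul_pos hε hδ]
    have e3 : Real.exp (3 * δ) * (1 - 3 * δ) ≤ 1 := by
      have h1 := Real.add_one_le_exp (-(3 * δ))
      have h2 : Real.exp (3 * δ) * Real.exp (-(3 * δ)) = 1 := by
        rw [← Real.exp_add, add_neg_cancel, Real.exp_zero]
      have h3 := mul_le_mul_of_nonneg_left h1 (Real.exp_pos (3 * δ)).le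
      rw [h2] at h3
      calc Real.exp (3 * δ) * (1 - 3 * δ) = Real.exp (3 * δ) * (-(3 * δ) + 1) := by ring
        _ ≤ 1 := h3
    have e4 : a ^ 2 ≤ 4 * (1 + 10 * δ) * (1 - 3 * δ) := by
      rw [had]
      nlinarith
    have e5 : 0 < Real.exp (3 * δ) := Real.exp_pos _
    calc E2 * a ^ 2 ≤ (Real.exp (-2) * Real.exp (3 * δ)) * (4 * (1 + 10 * δ) * (1 - 3 * δ)) :=
          mul_le_mul e2 e4 (sq_nonneg _) (by positivity)
      _ = Real.exp (-2) * (4 * (1 + 10 * δ)) * (Real.exp (3 * δ) * (1 - 3 * δ)) := by ring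
      _ ≤ Real.exp (-2) * (4 * (1 + 10 * δ)) * 1 :=
          mul_le_mul_of_nonneg_left e3 (by positivity)
      _ ≤ 4 * Real.exp (-2) + 40 * δ := by nlinarith
  have B3 : E3 * χ ^ 2 ≤ δ := by
    obtain ⟨z, hz⟩ : ∃ z : ℝ, z = c * (χ / 2) := ⟨_, rfl⟩
    have hz1 : 2 / 5 * χ ≤ z := by rw [hz]; nlinarith
    have hz0 : 0 ≤ z := by linarith
    have h1 : z ^ 3 / 6 ≤ Real.exp z := by
      have := Real.pow_div_factorial_le_exp z hz0 3
      simpa [Nat.factorial] using this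
    have h2 : E3 * Real.exp z = 1 := by
      rw [hE3, ← hz, ← Real.exp_add, neg_add_cancel, Real.exp_zero]
    have h3 : (2 / 5 * χ) ^ 3 ≤ z ^ 3 := pow_le_pow_left₀ (by positivity) hz1 3
    have h4 : E3 * ((2 / 5 * χ) ^ 3 / 6) ≤ 1 := by
      rw [← h2]
      exact mul_le_mul_of_nonneg_left (by linarith) hE30.le
    have h5 : E3 * χ ^ 2 * χ ≤ 100 := by nlinarith
    have h6 : 100 ≤ δ * χ := by
      have : χ * ε ^ 3 ≤ χ * (δ / 1000) := mul_le_mul_of_nonneg_left hε3 hχ0.le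
      nlinarith
    by_contra hcon
    have h7 := mul_lt_mul_of_pos_right (not_le.1 hcon) hχ0
    linarith
  have B4 : 250 * δ ^ 2 * (a + 5 * δ) * (1 / (5 * δ - h)) ≤ 125 * δ := by
    have h1 : 0 < 5 * δ - h := by linarith
    rw [mul_one_div, div_le_iff₀ h1, had]
    nlinarith [mul_pos hδ hδ, mul_pos (mul_pos hδ hδ) hδ]
  have B1 : (4 * δ) ^ 2 ≤ δ := by nlinarith
  linarith

end Pool.Agent.Lib.MP_1f2a9f_co.KW
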