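import Pool.Agent.Lib.MP_1f2a9f_co.KW.Defs2
import Pool.Agent.Lib.MP_1f2a9f_co.Pos

/-!
# KW, row PL (PosLay): board ug2_mod

`s = m / log m`, `h = χ / B`. No bad vertices. Layer `0` is `S 0`,
layer `j + 1` is `S (j+1) \ S j`; the layer `j` has `c j` levels, the levels `x` with
`cum c (j-1) ≤ x < cum c j`; distribute the vertices of the layer evenly (index mod `c j`; if
`c j = 0` the layer is empty): at most `h s + 1 ≤ (1 + 3 ε) h s` vertices in each level, for large `m`.
Cost of `U`: a pair with last layer `j` costs at most `Wl ε j` by `Fits`, so with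
`U_j = U ∩ S j` the cost is at most
`∑ j, Wl ε j * (ee U_j - ee U_(j-1)) ≤ ∑ j ≥ 1, uu ε (j-1) * 2 (log m / uu ε (j-1)) |U_j \ U_(j-1)|`
`≤ 2 log m |U|` (the hypothesis on `ee` for `W = U_j` and `j - 1`).
-/

set_option autoImplicit false

namespace Pool.Agent.Lib.MP_1f2a9f_co.KW

open Finset Pool.Agent.Lib.MP_1f2a9f_co

private def PLpr {V : Type} (H : SimpleGraph V) [DecidableRel H.Adj] (A : Finset V) :
    Finset (V × V) :=
  (A ×ˢ A).filter (fun p => H.Adj p.1 p.2)

private lemma PLsum {V : Type} (H : SimpleGraph V) [DecidableRel H.Adj]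
    (A : Finset V) (g : V → V → ℝ) :
    ∑ u ∈ A, ∑ v ∈ A.filter (fun v => H.Adj u v), g u v = ∑ p ∈ PLpr H A, g p.1 p.2 := by
  unfold PLpr
  rw [Finset.sum_filter, Finset.sum_product]
  refine Finset.sum_congr rfl (fun u _ => ?_)
  rw [Finset.sum_filter]

private lemma PLee {V : Type} (H : SimpleGraph V) [DecidableRel H.Adj] (A : Finset V) :
    (ee H A : ℝ) = ((PLpr H A).card : ℝ) := by
  have h := PLsum H A (fun _ _ => (1 : ℝ))
  unfold ee
  rw [Nat.cast_sum]
  simp only [Finset.sum_const, nsmul_eq_mul, mul_one] at h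
  exact h

private lemma PLeven {V : Type} [DecidableEq V] (T : Finset V) (n : ℕ) (hn : 0 < n) :
    ∃ f : V → ℕ, (∀ v, f v < n) ∧
      ∀ i, ((T.filter (fun v => f v = i)).card : ℝ) ≤ (T.card : ℝ) / n + 1 := by
  classical
  refine ⟨fun v => if h : v ∈ T then (T.equivFin ⟨v, h⟩ : ℕ) % n else 0, ?_, ?_⟩
  · intro v
    dsimp only
    split_ifs
    · exact Nat.mod_lt _ hn
    · exact hn
  · intro i
    have h1 : (T.filter (fun v => (if h : v ∈ T then (T.equivFin ⟨v, h⟩ : ℕ) % n else 0) = i)).card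
        ≤ ((range T.card).filter (fun x => x % n = i)).card := by
      apply Finset.card_le_card_of_injOn
        (fun v => if h : v ∈ T then (T.equivFin ⟨v, h⟩ : ℕ) else 0)
      · intro v hv
        rw [Finset.mem_coe, Finset.mem_filter] at hv
        obtain ⟨hvT, hv⟩ := hv
        rw [dif_pos hvT] at hv
        rw [Finset.mem_coe, Finset.mem_filter, Finset.mem_range]
        dsimp only
        rw [dif_pos hvT]
        exact ⟨(T.equivFin ⟨v, hvT⟩).2, hv⟩
      · intro v hv w hw hvw
        rw [Finset.mem_coe, Finset.mem_filter] at hv hw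
        dsimp only at hvw
        rw [dif_pos hv.1, dif_pos hw.1] at hvw
        have h2 := T.equivFin.injective (Fin.ext hvw)
        exact congrArg Subtype.val h2
    have h2 : ((range T.card).filter (fun x => x % n = i)).card ≤ T.card / n + 1 := by
      by_cases hi : i < n
      · have h3 := Nat.count_modEq_card T.card hn i
        rw [Nat.count_eq_card_filter_range] at h3
        have h4 : (range T.card).filter (fun x => x % n = i) =
            (range T.card).filter (fun x => x ≡ i [MOD n]) := by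
          apply Finset.filter_congr
          intro x _
          unfold Nat.ModEq
          rw [Nat.mod_eq_of_lt hi]
        rw [h4, h3]
        split_ifs <;> omega
      · have h4 : (range T.card).filter (fun x => x % n = i) = ∅ := by
          rw [Finset.filter_eq_empty_iff]
          intro x _ hx
          have := Nat.mod_lt x hn
          omega
        rw [h4]
        simp
    have h3 : (((T.card / n : ℕ)) : ℝ) ≤ (T.card : ℝ) / n := Nat.cast_div_le
    have h4 : ((T.filter (fun v => (if h : v ∈ T then (T.equivFin ⟨v, h⟩ : ℕ) % n else 0) = i)).card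
        : ℝ) ≤ ((T.card / n + 1 : ℕ) : ℝ) := by
      exact_mod_cast h1.trans h2
    push_cast at h4
    linarith

private lemma PLlow (c : ℕ → ℕ) (j : ℕ) : cum c j = ∑ i ∈ range j, c i + c j := by
  unfold cum
  rw [Finset.sum_range_succ]

private lemma PLcum_mono (c : ℕ → ℕ) {i j : ℕ} (h : i ≤ j) : cum c i ≤ cum c j := by
  unfold cum
  apply Finset.sum_le_sum_of_subset
  intro x hx
  rw [Finset.mem_range] at hx ⊢
  omega

private lemma PLlow_cum (c : ℕ → ℕ) {i j : ℕ} (h : i < j) : cum c i ≤ ∑ l ∈ range j, c l := by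
  unfold cum
  apply Finset.sum_le_sum_of_subset
  intro x hx
  rw [Finset.mem_range] at hx ⊢
  omega

private lemma PLuu {ε : ℝ} (hε : 0 < ε) (j : ℕ) : 0 < uu ε j := by
  unfold uu
  positivity

/-- cost by layers -/
private lemma PLcost {V : Type} [Fintype V] [DecidableEq V] (H : SimpleGraph V)
    [DecidableRel H.Adj] (S : ℕ → Finset V) (ε l : ℝ) (hε : 0 < ε) (k : ℕ)
    (hS : ∀ i j, i ≤ j → S i ⊆ S j)
    (hW : ∀ j ≤ k, ∀ W : Finset V,
      (ee H W : ℝ) ≤ ee H (W ∩ S j) + 2 * (l / uu ε j) * (W \ S j).card)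
    (L : V → ℕ) (hL : ∀ v j, v ∈ S j ↔ L v ≤ j) (U : Finset V) :
    ∀ j ≤ k + 1, ∑ p ∈ PLpr H (U ∩ S j), Wl ε (max (L p.1) (L p.2)) ≤
      2 * l * ((U ∩ S j).card : ℝ) - 2 * l * ((U ∩ S 0).card : ℝ) := by
  intro j
  induction j with
  | zero =>
    intro _
    rw [sub_self]
    apply le_of_eq
    apply Finset.sum_eq_zero
    intro p hp
    unfold PLpr at hp
    rw [Finset.mem_filter, Finset.mem_product, Finset.mem_inter, Finset.mem_inter] at hp
    have h1 := (hL p.1 0).mp hp.1.1.2
    have h2 := (hL p.2 0).mp hp.1.2.2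
    have h3 : max (L p.1) (L p.2) = 0 := by omega
    rw [h3]
    unfold Wl
    rw [if_pos rfl]
  | succ j ih =>
    intro hj
    have ih' := ih (by omega)
    have hWj := hW j (by omega) (U ∩ S (j + 1))
    have hint : U ∩ S (j + 1) ∩ S j = U ∩ S j := by
      rw [Finset.inter_assoc, Finset.inter_eq_right.mpr (hS j (j + 1) (by omega))]
    rw [hint] at hWj
    have hsub : U ∩ S j ⊆ U ∩ S (j + 1) :=
      Finset.inter_subset_inter_left (hS j (j + 1) (by omega))
    have hsub2 : PLpr H (U ∩ S j) ⊆ PLpr H (U ∩ S (j + 1)) := by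
      unfold PLpr
      exact Finset.filter_subset_filter _ (Finset.product_subset_product hsub hsub)
    rw [← Finset.sum_sdiff hsub2]
    have hu := PLuu hε j
    have h1 : ∑ p ∈ PLpr H (U ∩ S (j + 1)) \ PLpr H (U ∩ S j), Wl ε (max (L p.1) (L p.2)) ≤
        uu ε j * ((ee H (U ∩ S (j + 1)) : ℝ) - ee H (U ∩ S j)) := by
      rw [PLee, PLee]
      have h2 : ∀ p ∈ PLpr H (U ∩ S (j + 1)) \ PLpr H (U ∩ S j),
          Wl ε (max (L p.1) (L p.2)) = uu ε j := by
        intro p hp
        rw [Finset.mem_sdiff] at hp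
        obtain ⟨hp1, hp2⟩ := hp
        unfold PLpr at hp1 hp2
        rw [Finset.mem_filter, Finset.mem_product, Finset.mem_inter, Finset.mem_inter] at hp1 hp2
        have h3 := (hL p.1 (j + 1)).mp hp1.1.1.2
        have h4 := (hL p.2 (j + 1)).mp hp1.1.2.2
        have h5 : ¬ (L p.1 ≤ j ∧ L p.2 ≤ j) := by
          intro h5
          exact hp2 ⟨⟨⟨hp1.1.1.1, (hL _ _).mpr h5.1⟩, ⟨hp1.1.2.1, (hL _ _).mpr h5.2⟩⟩, hp1.2⟩
        have h6 : max (L p.1) (L p.2) = j + 1 := by omega
        rw [h6]
        unfold Wl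
        rw [if_neg (by omega)]
        rfl
      rw [Finset.sum_congr rfl h2, Finset.sum_const, nsmul_eq_mul]
      have h7 := Finset.card_sdiff_add_card_eq_card hsub2
      have h8 : ((PLpr H (U ∩ S (j + 1)) \ PLpr H (U ∩ S j)).card : ℝ) +
          ((PLpr H (U ∩ S j)).card : ℝ) = ((PLpr H (U ∩ S (j + 1))).card : ℝ) := by
        exact_mod_cast h7
      rw [← h8]
      apply le_of_eq
      ring
    have h2 : uu ε j * ((ee H (U ∩ S (j + 1)) : ℝ) - ee H (U ∩ S j)) ≤
        uu ε j * (2 * (l / uu ε j) * ((U ∩ S (j + 1)) \ S j).card) := by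
      apply mul_le_mul_of_nonneg_left _ hu.le
      linarith
    have h3 : uu ε j * (2 * (l / uu ε j) * (((U ∩ S (j + 1)) \ S j).card : ℝ)) =
        2 * l * (((U ∩ S (j + 1)) \ S j).card : ℝ) := by
      field_simp
    have h4 : (U ∩ S (j + 1)) \ S j = (U ∩ S (j + 1)) \ (U ∩ S j) := by
      ext v
      simp only [Finset.mem_sdiff, Finset.mem_inter]
      tauto
    have h5 := Finset.card_sdiff_add_card_eq_card hsub
    have h6 : (((U ∩ S (j + 1)) \ S j).card : ℝ) + ((U ∩ S j).card : ℝ) =
        ((U ∩ S (j + 1)).card : ℝ) := by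
      rw [h4]
      exact_mod_cast h5
    rw [← h6]
    rw [h3] at h2
    linarith

theorem pos_layers {ε η χ Dc ε₁ : ℝ} {B K J r : ℕ} (hc : Consts ε η χ Dc ε₁ B K J r) :
    ∃ m0 : ℕ, ∀ m ≥ m0, ∀ (k : ℕ) (c : ℕ → ℕ) (V : Type) [Fintype V] [DecidableEq V]
      (H : SimpleGraph V) [DecidableRel H.Adj] (S : ℕ → Finset V),
      (∀ i j, i ≤ j → S i ⊆ S j) → S (k + 1) = univ →
      (∀ j ≤ k, ∀ W : Finset V,
        (ee H W : ℝ) ≤ ee H (W ∩ S j) + 2 * (Real.log m / uu ε j) * (W \ S j).card) →
      ((S 0).card : ℝ) ≤ c 0 * (χ / B) * (m / Real.log m) →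
      (∀ j ≤ k, ((S (j + 1) \ S j).card : ℝ) ≤ c (j + 1) * (χ / B) * (m / Real.log m)) →
      cum c (k + 1) ≤ B →
      ∀ ω : Fin B → ℝ, (∀ x, 0 ≤ ω x) → Fits ε B k c ω → PosOK ε χ ε₁ m (kmax ω) H := by
  classical
  have hε := hc.hε
  have hη : 0 < η := by rw [hc.hη]; positivity
  have hχ : 0 < χ := by rw [hc.hχ]; positivity
  have hε₁ : 0 < ε₁ := by rw [hc.hε₁]; positivity
  have hB := hc.hB
  have hB' : (0 : ℝ) < B := by exact_mod_cast hB
  obtain ⟨m0, hm0⟩ := Pos.asym 0 (1 / (3 * ε * (χ / B))) (by positivity)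
  refine ⟨m0, ?_⟩
  intro m hm k c V _ _ H _ S hS hSk hW hS0 hSj hcB ω hω hfit
  obtain ⟨hl, hl2⟩ := hm0 m hm
  have hmpos : (0 : ℝ) < m := by
    rcases Nat.eq_zero_or_pos m with h | h
    · rw [h] at hl
      simp at hl
    · exact_mod_cast h
  set l := Real.log m with hldef
  set s : ℝ := m / l with hs
  have hspos : 0 < s := by positivity
  set h : ℝ := χ / B with hh
  have hhpos : 0 < h := by positivity
  have hs1 : 1 < 3 * ε * h * s := by
    have h1 : 1 / (3 * ε * h) < s := by
      rw [hs, lt_div_iff₀ hl]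
      exact hl2
    rw [div_lt_iff₀ (by positivity)] at h1
    linarith
  -- layers
  have hex : ∀ v : V, ∃ j, v ∈ S j := fun v => ⟨k + 1, by rw [hSk]; exact mem_univ v⟩
  set L : V → ℕ := fun v => Nat.find (hex v) with hLdef
  have hL : ∀ v j, v ∈ S j ↔ L v ≤ j := by
    intro v j
    constructor
    · intro hv
      exact Nat.find_min' (hex v) hv
    · intro hj
      exact hS _ _ hj (Nat.find_spec (hex v))
  have hLk : ∀ v, L v ≤ k + 1 := fun v => (hL v (k + 1)).mp (by rw [hSk]; exact mem_univ v)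
  set T : ℕ → Finset V := fun j => univ.filter (fun v => L v = j) with hT
  have hTcard : ∀ j ≤ k + 1, ((T j).card : ℝ) ≤ c j * h * s := by
    intro j hj
    rcases Nat.eq_zero_or_pos j with h0 | h0
    · subst h0
      refine le_trans ?_ hS0
      have : (T 0).card ≤ (S 0).card := by
        apply Finset.card_le_card
        intro v hv
        rw [hT, Finset.mem_filter] at hv
        rw [hL]
        omega
      exact_mod_cast this
    · obtain ⟨i, rfl⟩ : ∃ i, j = i + 1 := ⟨j - 1, by omega⟩
      refine le_trans ?_ (hSj i (by omega))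
      have : (T (i + 1)).card ≤ (S (i + 1) \ S i).card := by
        apply Finset.card_le_card
        intro v hv
        rw [hT, Finset.mem_filter] at hv
        rw [Finset.mem_sdiff, hL, hL]
        omega
      exact_mod_cast this
  have hTc : ∀ v, 0 < c (L v) := by
    intro v
    rcases Nat.eq_zero_or_pos (c (L v)) with h0 | h0
    · exfalso
      have h1 := hTcard (L v) (hLk v)
      rw [h0, Nat.cast_zero, zero_mul, zero_mul] at h1
      have h2 : (T (L v)).card = 0 := by
        have : ((T (L v)).card : ℝ) = 0 := le_antisymm h1 (Nat.cast_nonneg _)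
        exact_mod_cast this
      rw [Finset.card_eq_zero] at h2
      have h3 : v ∈ T (L v) := by
        rw [hT, Finset.mem_filter]
        exact ⟨mem_univ v, rfl⟩
      rw [h2] at h3
      exact absurd h3 (Finset.notMem_empty v)
    · exact h0
  have hf : ∀ j, ∃ f : V → ℕ, (0 < c j → ∀ v, f v < c j) ∧ (0 < c j →
      ∀ i, (((T j).filter (fun v => f v = i)).card : ℝ) ≤ ((T j).card : ℝ) / c j + 1) := by
    intro j
    rcases Nat.eq_zero_or_pos (c j) with h0 | h0
    · exact ⟨fun _ => 0, fun h => by omega, fun h => by omega⟩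
    · obtain ⟨f, hf1, hf2⟩ := PLeven (T j) (c j) h0
      exact ⟨f, fun _ => hf1, fun _ => hf2⟩
  choose f hf1 hf2 using hf
  have hXlt : ∀ v, ∑ i ∈ range (L v), c i + f (L v) v < cum c (L v) := by
    intro v
    rw [PLlow]
    have := hf1 (L v) (hTc v) v
    omega
  have hXB : ∀ v, ∑ i ∈ range (L v), c i + f (L v) v < B := fun v =>
    lt_of_lt_of_le (hXlt v) ((PLcum_mono c (hLk v)).trans hcB)
  refine ⟨fun v => ⟨∑ i ∈ range (L v), c i + f (L v) v, hXB v⟩, ∅, ?_, ?_, ?_⟩
  · rw [Finset.card_empty, Nat.cast_zero]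
    positivity
  · intro i
    rcases Finset.eq_empty_or_nonempty (univ.filter
      (fun v : V => (⟨∑ i ∈ range (L v), c i + f (L v) v, hXB v⟩ : Fin B) = i)) with h0 | h0
    · rw [h0, Finset.card_empty, Nat.cast_zero]
      positivity
    · obtain ⟨v0, hv0⟩ := h0
      rw [Finset.mem_filter, Fin.ext_iff] at hv0
      have hv0' := hv0.2
      simp only at hv0'
      set j := L v0 with hj
      have hsub : univ.filter
          (fun v : V => (⟨∑ i ∈ range (L v), c i + f (L v) v, hXB v⟩ : Fin B) = i) ⊆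
          (T j).filter (fun v => f j v = (i : ℕ) - ∑ i ∈ range j, c i) := by
        intro v hv
        rw [Finset.mem_filter, Fin.ext_iff] at hv
        have hv' := hv.2
        simp only at hv'
        have h1 := hXlt v
        have h2 := hXlt v0
        rw [← hj] at h2
        have h3 : L v = j := by
          rcases lt_trichotomy (L v) j with h4 | h4 | h4
          · have := PLlow_cum c h4
            omega
          · exact h4
          · have := PLlow_cum c h4
            omega
        rw [Finset.mem_filter, hT, Finset.mem_filter]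
        refine ⟨⟨mem_univ v, h3⟩, ?_⟩
        rw [h3] at hv'
        omega
      have h1 := Finset.card_le_card hsub
      have h2 := hf2 j (hTc v0) ((i : ℕ) - ∑ i ∈ range j, c i)
      have h3 : ((univ.filter
          (fun v : V => (⟨∑ i ∈ range (L v), c i + f (L v) v, hXB v⟩ : Fin B) = i)).card : ℝ) ≤
          ((T j).card : ℝ) / c j + 1 := le_trans (by exact_mod_cast h1) h2
      refine le_trans h3 ?_
      have hcj : (0 : ℝ) < c j := by
        have := hTc v0
        exact_mod_cast this
      have h4 : ((T j).card : ℝ) / c j ≤ h * s := by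
        rw [div_le_iff₀ hcj]
        calc ((T j).card : ℝ) ≤ c j * h * s := hTcard j (hLk v0)
          _ = h * s * c j := by ring
      nlinarith
  · intro U _
    rw [PLsum H U (fun u v => kmax ω ⟨∑ i ∈ range (L u), c i + f (L u) u, hXB u⟩
      ⟨∑ i ∈ range (L v), c i + f (L v) v, hXB v⟩)]
    have h1 : ∀ p ∈ PLpr H U, kmax ω ⟨∑ i ∈ range (L p.1), c i + f (L p.1) p.1, hXB p.1⟩
      ⟨∑ i ∈ range (L p.2), c i + f (L p.2) p.2, hXB p.2⟩ ≤ Wl ε (max (L p.1) (L p.2)) := by
      intro p _
      unfold kmax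
      apply hfit (max (L p.1) (L p.2)) (by have := hLk p.1; have := hLk p.2; omega)
      rcases le_total (⟨∑ i ∈ range (L p.1), c i + f (L p.1) p.1, hXB p.1⟩ : Fin B)
        ⟨∑ i ∈ range (L p.2), c i + f (L p.2) p.2, hXB p.2⟩ with h2 | h2
      · rw [max_eq_right h2]
        exact lt_of_lt_of_le (hXlt p.2) (PLcum_mono c (le_max_right _ _))
      · rw [max_eq_left h2]
        exact lt_of_lt_of_le (hXlt p.1) (PLcum_mono c (le_max_left _ _))
    have h2 := PLcost H S ε l hε k hS hW L hL U (k + 1) le_rfl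
    rw [hSk, Finset.inter_univ] at h2
    have h3 : 0 ≤ 2 * l * ((U ∩ S 0).card : ℝ) :=
      mul_nonneg (mul_nonneg (by norm_num) hl.le) (Nat.cast_nonneg _)
    have h4 : 0 ≤ (U.card : ℝ) := Nat.cast_nonneg _
    refine le_trans (Finset.sum_le_sum h1) ?_
    have h5 : 2 * l * (U.card : ℝ) ≤ 2 * ((1 + 5 * ε) * l) * U.card := by
      apply mul_le_mul_of_nonneg_right _ h4
      have := mul_pos hε hl
      linarith
    linarith

end Pool.Agent.Lib.MP_1f2a9f_co.KW
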