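import Pool.Agent.Lib.MP_1f2a9f_co.KW.Layers
import Pool.Agent.Lib.MP_1f2a9f_co.KW.PosLay

/-!
# KW, row TY (TypeOf): board ug2_mod

`V` = the subtype of `Mid0 η Dc m H`, `|V| ≤ (2/η) s = ε χ s` (degrees
`≥ η log m`, `χ = 2/(η ε)`), `H'` = `H.comap Subtype.val`. `exists_layers` with
`t j = log m / uu ε j`; then `S (k+1)` is replaced by `univ`. `a_0 = |S 0| / s`,
`a_(j+1) = |S (j+1) \ S j| / s`, `c j = ⌈a_j / (χ/B)⌉₊` for `j ≤ k + 1`, `0` else. Mass: summing the
last claims of `exists_layers`, `2 log m ∑ j ≤ k, a_j s / uu ε j ≤ ee (S k) ≤ 2 m`, so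
`∑ j ≤ k, a_j / uu ε j ≤ 1`; and `c j (χ/B) ≤ a_j + χ/B`, and the geometric series
`∑ 1 / uu ε j ≤ (1 + ε) / ε^2`, `χ/B ≤ ε/Dc = ε^2/(4 χ)`.
`cum c (k+1) ≤ |V| B/(χ s) + k + 2 ≤ ε B + k + 2 ≤ B` (`k ≤ χ / ε ^ 2` by Bernoulli). Conclusion by
`pos_layers`.
-/

set_option autoImplicit false

namespace Pool.Agent.Lib.MP_1f2a9f_co.KW

open Finset Pool.Agent.Lib.MP_1f2a9f_co

theorem ty_uu_pos {ε : ℝ} (hε : 0 < ε) (j : ℕ) : 0 < uu ε j := by unfold uu; positivity

theorem ty_geom {ε : ℝ} (hε : 0 < ε) (n : ℕ) :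
    ∑ j ∈ range n, 1 / uu ε j ≤ (1 + ε) / ε ^ 2 := by
  have key : ∀ n : ℕ, ∑ j ∈ range n, 1 / uu ε j = (1 + ε) / ε ^ 2 - (1 + ε) / ε * (1 / uu ε n) := by
    intro n
    induction n with
    | zero =>
      have h0 : uu ε 0 = ε := by unfold uu; simp
      rw [h0, range_zero, sum_empty]
      field_simp
      ring
    | succ n ih =>
      rw [sum_range_succ, ih]
      have h1 : uu ε (n + 1) = (1 + ε) * uu ε n := by unfold uu; rw [pow_succ]; ring
      rw [h1]
      have h2 := ty_uu_pos hε n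
      have h3 : uu ε n ≠ 0 := h2.ne'
      field_simp
      ring
  rw [key]
  have h2 := ty_uu_pos hε n
  have h3 : 0 ≤ (1 + ε) / ε * (1 / uu ε n) := by positivity
  linarith

/-- the numbers of elements of the layers -/
def ty_a {V : Type} [DecidableEq V] (S : ℕ → Finset V) : ℕ → ℕ
  | 0 => (S 0).card
  | j + 1 => (S (j + 1) \ S j).card

theorem ty_tel {V : Type} [DecidableEq V] (S : ℕ → Finset V) (hS : ∀ i j, i ≤ j → S i ⊆ S j) (n : ℕ) :
    ∑ j ∈ range (n + 1), ty_a S j = (S n).card := by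
  induction n with
  | zero => rw [sum_range_succ, range_zero, sum_empty, zero_add]; rfl
  | succ n ih =>
    rw [sum_range_succ, ih]
    have h := card_sdiff_add_card_eq_card (hS n (n + 1) (Nat.le_succ n))
    show (S n).card + (S (n + 1) \ S n).card = _
    omega

theorem ty_deg_sum {n m : ℕ} (H : SimpleGraph (Fin n)) [DecidableRel H.Adj] (hm : H.edgeSet.ncard ≤ m) :
    ∑ v, H.degree v ≤ 2 * m := by
  have h1 := H.sum_degrees_eq_twice_card_edges
  have h2 : H.edgeFinset.card = H.edgeSet.ncard := by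
    rw [Set.ncard_eq_toFinset_card']
    rfl
  omega

theorem ty_card {η Dc : ℝ} {m n : ℕ} (H : SimpleGraph (Fin n)) [DecidableRel H.Adj]
    (hm : H.edgeSet.ncard ≤ m) :
    ((Mid0 η Dc m H).card : ℝ) * (η * Real.log m) ≤ 2 * m := by
  have h1 : ((Mid0 η Dc m H).card : ℝ) * (η * Real.log m) ≤ ∑ v ∈ Mid0 η Dc m H, (H.degree v : ℝ) := by
    rw [← nsmul_eq_mul]
    refine card_nsmul_le_sum _ _ _ (fun v hv => ?_)
    exact ((mem_filter.1 hv).2).1
  have h2 : ∑ v ∈ Mid0 η Dc m H, (H.degree v : ℝ) ≤ ∑ v, (H.degree v : ℝ) :=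
    sum_le_sum_of_subset_of_nonneg (subset_univ _) (fun _ _ _ => Nat.cast_nonneg _)
  have h3 : (∑ v, (H.degree v : ℝ)) ≤ 2 * m := by exact_mod_cast ty_deg_sum H hm
  linarith

theorem ty_ee {m n : ℕ} (H : SimpleGraph (Fin n)) [DecidableRel H.Adj] (hm : H.edgeSet.ncard ≤ m)
    (M : Finset (Fin n)) (S : Finset {v // v ∈ M}) :
    ee (H.comap (Subtype.val : {v // v ∈ M} → Fin n)) S ≤ 2 * m := by
  refine le_trans ?_ (ty_deg_sum H hm)
  have h1 : ∀ u : {v // v ∈ M}, (S.filter (fun v => (H.comap (Subtype.val : {v // v ∈ M} → Fin n)).Adj u v)).card ≤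
      H.degree u.1 := by
    intro u
    rw [← H.card_neighborFinset_eq_degree]
    refine card_le_card_of_injOn (fun v => v.1) ?_ ?_
    · intro v hv
      have hv' := (mem_filter.1 (mem_coe.1 hv)).2
      have : H.Adj u.1 v.1 := hv'
      simpa using this
    · intro a _ b _ hab
      exact Subtype.ext hab
  calc ee (H.comap (Subtype.val : {v // v ∈ M} → Fin n)) S ≤ ∑ u ∈ S, H.degree u.1 :=
        sum_le_sum (fun u _ => h1 u)
    _ ≤ ∑ u : {v // v ∈ M}, H.degree u.1 := sum_le_sum_of_subset (subset_univ _)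
    _ = ∑ v ∈ M, H.degree v := by
        rw [← Finset.sum_coe_sort M (fun v => H.degree v)]
    _ ≤ ∑ v, H.degree v := sum_le_sum_of_subset (subset_univ _)

theorem ty_mass {V : Type} [Fintype V] [DecidableEq V] (H : SimpleGraph V) [DecidableRel H.Adj]
    (t : ℕ → ℝ) (S : ℕ → Finset V) (h0 : 2 * t 0 * (S 0).card ≤ (ee H (S 0) : ℝ))
    (h1 : ∀ j, 2 * t (j + 1) * (S (j + 1) \ S j).card ≤ (ee H (S (j + 1)) : ℝ) - ee H (S j)) (n : ℕ) :
    ∑ j ∈ range (n + 1), 2 * t j * (ty_a S j : ℝ) ≤ (ee H (S n) : ℝ) := by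
  induction n with
  | zero =>
    rw [sum_range_succ, range_zero, sum_empty, zero_add]
    exact h0
  | succ n ih =>
    rw [sum_range_succ]
    have h2 := h1 n
    have h3 : (ty_a S (n + 1) : ℝ) = ((S (n + 1) \ S n).card : ℝ) := rfl
    rw [h3]
    linarith

theorem exists_type {ε η χ Dc ε₁ : ℝ} {B K J r : ℕ} (hc : Consts ε η χ Dc ε₁ B K J r) (k : ℕ)
    (hk2 : uu ε k ≤ χ) :
    ∃ m0 : ℕ, ∀ m ≥ m0, ∀ (n : ℕ) (H : SimpleGraph (Fin n)) [DecidableRel H.Adj],
      H.edgeSet.ncard ≤ m → ∃ c : ℕ → ℕ, (∀ j, c j ≤ B) ∧ (∀ j, k + 1 < j → c j = 0) ∧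
        IsType ε χ B k c ∧ ∀ ω : Fin B → ℝ, (∀ x, 0 ≤ ω x) → Fits ε B k c ω →
          PosOn ε χ ε₁ m (kmax ω) H (Mid0 η Dc m H) := by
  classical
  obtain ⟨m0, hm0⟩ := pos_layers hc
  have hε := hc.hε
  have hε1 := hc.hε1
  have hη0 : 0 < η := by rw [hc.hη]; positivity
  have hχ0 : 0 < χ := by rw [hc.hχ]; positivity
  have hB0 : (0 : ℝ) < B := by exact_mod_cast hc.hB
  -- `χ = 4000 / ε ^ 3`
  have hχe : χ * ε ^ 3 = 4000 := by
    rw [hc.hχ, hc.hη]
    field_simp
    norm_num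
  have hχ1 : 4000 ≤ χ := by
    have h1 : ε ^ 3 ≤ 1 := pow_le_one₀ hε.le (by linarith)
    nlinarith
  -- `B ≥ 4 χ ^ 2 / ε ^ 2`
  have hBχ : 4 * χ ^ 2 ≤ ε ^ 2 * B := by
    have h1 := hc.hBD
    rw [hc.hDc] at h1
    have h2 : 4 * χ / ε * (χ / B) = 4 * χ ^ 2 / (ε * B) := by
      field_simp
    rw [h2, div_le_iff₀ (by positivity)] at h1
    nlinarith
  have hχB : χ / B * ((1 + ε) / ε ^ 2) ≤ ε := by
    have h2 : χ / B * ((1 + ε) / ε ^ 2) = χ * (1 + ε) / (ε ^ 2 * B) := by field_simp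
    rw [h2, div_le_iff₀ (by positivity)]
    have h3 : ε * (4 * χ ^ 2) ≤ ε * (ε ^ 2 * B) := mul_le_mul_of_nonneg_left hBχ hε.le
    have h4 : 1 ≤ ε * χ := by
      have h5 : ε ^ 2 ≤ 1 := pow_le_one₀ hε.le (by linarith)
      have h6 : ε * χ * ε ^ 2 = 4000 := by rw [← hχe]; ring
      have h7 : 0 ≤ ε * χ := by positivity
      nlinarith
    have h8 : χ * (1 + ε) ≤ ε * (4 * χ ^ 2) := by
      have : ε * (4 * χ ^ 2) = (ε * χ) * (4 * χ) := by ring
      rw [this]
      nlinarith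
    linarith
  -- the bound of `k`
  have hkB : (k : ℝ) + 2 ≤ (1 - ε) * B := by
    have h1 : 1 + (k : ℝ) * ε ≤ (1 + ε) ^ k := one_add_mul_le_pow (by linarith) k
    have h2 : ε * (1 + ε) ^ k ≤ χ := hk2
    have h3 : (k : ℝ) * ε ^ 2 ≤ χ := by nlinarith
    have h4 : ((k : ℝ) + 2) * ε ^ 2 ≤ (1 - ε) * (ε ^ 2 * B) := by
      have h5 : (1 - ε) * (4 * χ ^ 2) ≤ (1 - ε) * (ε ^ 2 * B) :=
        mul_le_mul_of_nonneg_left hBχ (by linarith)
      have h6 : ε ^ 2 ≤ 1 := pow_le_one₀ hε.le (by linarith)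
      have h7 : χ + 2 ≤ (1 - ε) * (4 * χ ^ 2) := by nlinarith
      nlinarith
    have h9 : (1 - ε) * (ε ^ 2 * B) = ((1 - ε) * B) * ε ^ 2 := by ring
    rw [h9] at h4
    exact le_of_mul_le_mul_right h4 (by positivity)
  refine ⟨max m0 3, fun m hm n H _ hmE => ?_⟩
  have hmm0 : m ≥ m0 := (le_max_left _ _).trans hm
  have hm3 : 3 ≤ m := (le_max_right _ _).trans hm
  have hm3' : (3 : ℝ) ≤ m := by exact_mod_cast hm3
  have hlog : 0 < Real.log m := Real.log_pos (by linarith)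
  set s : ℝ := (m : ℝ) / Real.log m with hs
  have hs0 : 0 < s := by rw [hs]; positivity
  set M := Mid0 η Dc m H with hM
  set H' := H.comap (Subtype.val : {v // v ∈ M} → Fin n) with hH'
  -- the number of vertices
  have hV : (Fintype.card {v // v ∈ M} : ℝ) ≤ ε * χ * s := by
    rw [Fintype.card_coe]
    have h1 := ty_card (η := η) (Dc := Dc) H hmE
    have h2 : ε * χ = 2 / η := by rw [hc.hχ]; field_simp
    rw [h2, hs]
    have h3 : (M.card : ℝ) ≤ 2 * m / (η * Real.log m) := by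
      rw [le_div_iff₀ (by positivity)]
      exact h1
    refine h3.trans (le_of_eq ?_)
    field_simp
  obtain ⟨S, hS1, hS2, hS3, hS4⟩ := exists_layers H' (fun j => Real.log m / uu ε j)
    (fun j => div_pos hlog (ty_uu_pos hε j)) (fun i j hij => by
      have h1 : uu ε i ≤ uu ε j := by
        unfold uu
        exact mul_le_mul_of_nonneg_left (pow_le_pow_right₀ (by linarith) hij) hε.le
      exact div_le_div_of_nonneg_left hlog.le (ty_uu_pos hε i) h1)
  set S' : ℕ → Finset {v // v ∈ M} := fun j => if j ≤ k then S j else univ with hS'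
  have hS'k : ∀ j ≤ k, S' j = S j := fun j hj => by simp only [hS', if_pos hj]
  have hS'u : S' (k + 1) = univ := by simp only [hS']; rw [if_neg (by omega)]
  have hS'n : ∀ i j, i ≤ j → S' i ⊆ S' j := by
    intro i j hij
    by_cases hj : j ≤ k
    · rw [hS'k i (hij.trans hj), hS'k j hj]
      exact hS1 i j hij
    · have : S' j = univ := by simp only [hS']; rw [if_neg hj]
      rw [this]
      exact subset_univ _
  have ha : ∀ j ≤ k, ty_a S' j = ty_a S j := by
    intro j hj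
    cases j with
    | zero =>
      show (S' 0).card = (S 0).card
      rw [hS'k 0 hj]
    | succ j =>
      show (S' (j + 1) \ S' j).card = (S (j + 1) \ S j).card
      rw [hS'k (j + 1) hj, hS'k j (by omega)]
  set h : ℝ := χ / B * s with hh
  have hh0 : 0 < h := by rw [hh]; positivity
  set c : ℕ → ℕ := fun j => if j ≤ k + 1 then ⌈(ty_a S' j : ℝ) / h⌉₊ else 0 with hcdef
  have hcle : ∀ j ≤ k + 1, (c j : ℝ) ≤ (ty_a S' j : ℝ) / h + 1 := by
    intro j hj
    simp only [hcdef, if_pos hj]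
    exact (Nat.ceil_lt_add_one (by positivity)).le
  have hcge : ∀ j ≤ k + 1, (ty_a S' j : ℝ) ≤ c j * (χ / B) * s := by
    intro j hj
    have h1 : (ty_a S' j : ℝ) / h ≤ c j := by
      simp only [hcdef, if_pos hj]
      exact Nat.le_ceil _
    rw [div_le_iff₀ hh0, hh] at h1
    linarith
  -- the number of levels
  have hcum : cum c (k + 1) ≤ B := by
    have h1 : (cum c (k + 1) : ℝ) ≤ B := by
      unfold cum
      push_cast
      have h2 : ∑ i ∈ range (k + 1 + 1), (c i : ℝ) ≤ ∑ i ∈ range (k + 1 + 1), ((ty_a S' i : ℝ) / h + 1) :=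
        sum_le_sum (fun i hi => hcle i (by rw [mem_range] at hi; omega))
      have h3 : ∑ i ∈ range (k + 1 + 1), ((ty_a S' i : ℝ) / h + 1) =
          (Fintype.card {v // v ∈ M} : ℝ) / h + ((k : ℝ) + 2) := by
        rw [sum_add_distrib, ← sum_div]
        have h4 : ∑ i ∈ range (k + 1 + 1), (ty_a S' i : ℝ) = (Fintype.card {v // v ∈ M} : ℝ) := by
          have := ty_tel S' hS'n (k + 1)
          rw [hS'u, card_univ] at this
          exact_mod_cast this
        rw [h4, sum_const, card_range, nsmul_eq_mul]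
        push_cast
        ring
      have h5 : (Fintype.card {v // v ∈ M} : ℝ) / h ≤ ε * B := by
        rw [div_le_iff₀ hh0, hh]
        refine hV.trans (le_of_eq ?_)
        field_simp
      linarith
    exact_mod_cast h1
  refine ⟨c, ?_, ?_, ⟨hcum, ?_⟩, ?_⟩
  · intro j
    by_cases hj : j ≤ k + 1
    · refine le_trans ?_ hcum
      exact single_le_sum (f := c) (fun _ _ => Nat.zero_le _) (mem_range.2 (by omega))
    · simp only [hcdef, if_neg hj]
      exact Nat.zero_le _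
  · intro j hj
    simp only [hcdef]
    rw [if_neg (by omega)]
  · -- mass
    have h1 : ∑ j ∈ range (k + 1), lamc ε χ B c j ≤
        ∑ j ∈ range (k + 1), ((ty_a S j : ℝ) / uu ε j / s + χ / B * (1 / uu ε j)) := by
      refine sum_le_sum (fun j hj => ?_)
      have hjk : j ≤ k := by rw [mem_range] at hj; omega
      have h2 := hcle j (by omega)
      rw [ha j hjk] at h2
      unfold lamc
      have hu := ty_uu_pos hε j
      have h3 : (c j : ℝ) * (χ / B) ≤ ((ty_a S j : ℝ) / h + 1) * (χ / B) :=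
        mul_le_mul_of_nonneg_right h2 (by positivity)
      have h4 : ((ty_a S j : ℝ) / h + 1) * (χ / B) = (ty_a S j : ℝ) / s + χ / B := by
        rw [hh]
        field_simp
      rw [h4] at h3
      have h5 : (c j : ℝ) * (χ / B) / uu ε j ≤ ((ty_a S j : ℝ) / s + χ / B) / uu ε j :=
        div_le_div_of_nonneg_right h3 hu.le
      refine h5.trans (le_of_eq ?_)
      field_simp
    have h2 : ∑ j ∈ range (k + 1), ((ty_a S j : ℝ) / uu ε j / s + χ / B * (1 / uu ε j)) =
        (∑ j ∈ range (k + 1), (ty_a S j : ℝ) / uu ε j) / s +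
          χ / B * ∑ j ∈ range (k + 1), 1 / uu ε j := by
      rw [sum_add_distrib, sum_div, mul_sum]
    have h3 : (∑ j ∈ range (k + 1), (ty_a S j : ℝ) / uu ε j) / s ≤ 1 := by
      rw [div_le_one hs0]
      have h4 := ty_mass H' (fun j => Real.log m / uu ε j) S hS3 hS4 k
      have h5 : (ee H' (S k) : ℝ) ≤ 2 * m := by exact_mod_cast ty_ee H hmE M (S k)
      have h6 : ∑ j ∈ range (k + 1), 2 * (Real.log m / uu ε j) * (ty_a S j : ℝ) =
          2 * Real.log m * ∑ j ∈ range (k + 1), (ty_a S j : ℝ) / uu ε j := by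
        rw [mul_sum]
        refine sum_congr rfl (fun j _ => ?_)
        have hu := ty_uu_pos hε j
        field_simp
      rw [h6] at h4
      rw [hs, le_div_iff₀ hlog]
      linarith
    have h4 : χ / B * ∑ j ∈ range (k + 1), 1 / uu ε j ≤ ε :=
      (mul_le_mul_of_nonneg_left (ty_geom hε (k + 1)) (by positivity)).trans hχB
    linarith
  · intro ω hω hfit
    refine hm0 m hmm0 k c {v // v ∈ M} H' S' hS'n hS'u ?_ ?_ ?_ hcum ω hω hfit
    · intro j hj W
      rw [hS'k j hj]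
      exact hS2 j W
    · exact hcge 0 (by omega)
    · intro j hj
      exact hcge (j + 1) (by omega)

end Pool.Agent.Lib.MP_1f2a9f_co.KW
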