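import Pool.Agent.Lib.MP_1f2a9f_co.KW.UpperM
import Pool.Agent.Lib.MP_1f2a9f_co.KW.TypeOf
import Pool.Agent.Lib.MP_1f2a9f_co.KW.BadType
import Pool.Agent.Lib.MP_1f2a9f_co.KW.GoodFit
import Pool.Agent.Lib.MP_1f2a9f_co.KW.KintGood
import Pool.Agent.Lib.MP_1f2a9f_co.KW.IsoCount
import Pool.Agent.Lib.MP_1f2a9f_co.KW.HostCount
import Pool.Agent.Lib.MP_1f2a9f_co.KW.LowerExp
import Pool.Agent.Lib.MP_1f2a9f_co.KW.Contained
import Pool.Agent.Lib.MP_1f2a9f_co.KW.ExistsK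
import Pool.Agent.Lib.MP_1f2a9f_co.Const

/-!
# KW, row AU2 (AEUpper): board ug2_mod

`δ` with `δ ≤ 1/100`, `400 δ ≤ ε`, `ε' ≤ δ^3/100000` and
`400 ε' ≤ ε`, `exists_consts ε'`, `exists_k`. The types are `extc f`, `f : Fin (k+2) → Fin (B+1)`.
`upperM` with the kernel `omc` of each bad type (`kint_bad`): hosts with at most
`(2 e^-2 - δ^3/2000) s^2` edges; `upperM` with `omg` (`kint_good`, `good_fits`): a host `G` with at
most `(2 e^-2 + ε) s^2` edges. Every class is in `HostedIn m G` or in the hosts of the bad types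
(`exists_type`). Number of the others `≤ K * C(E', m)`, `K` = number of the `f`,
`E' = ⌊(2 e^-2 - δ^3/2000) s^2⌋₊`; by `lower_exp 2 (δ^3/4000)` (contrapositive) and `card_cls`,
`C(E', m) ≤ exp (-(c' m)) |Cls m|`; `K exp (-(c' m)) ≤ exp (-(c'/2 m))` for large `m`.
-/

set_option autoImplicit false

namespace Pool.Agent.Lib.MP_1f2a9f_co.KW

open Finset Pool.Agent.Lib.MP_1f2a9f_co

private theorem au_exp_le : Real.exp (-2) ≤ 1 / 3 := by
  rw [Real.exp_neg, one_div]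
  exact inv_anti₀ (by norm_num) (by have := Real.add_one_le_exp (2 : ℝ); linarith)

private theorem au_le_exp : 1 / 9 ≤ Real.exp (-2) := by
  have h1 : Real.exp 1 < 3 := lt_trans Real.exp_one_lt_d9 (by norm_num)
  have h2 : Real.exp 2 = Real.exp 1 * Real.exp 1 := by
    rw [← Real.exp_add]
    norm_num
  have h3 : Real.exp 2 ≤ 9 := by
    rw [h2]
    nlinarith [Real.exp_pos 1]
  rw [Real.exp_neg, one_div]
  exact inv_anti₀ (Real.exp_pos 2) h3

private theorem au_extc {k B : ℕ} (c : ℕ → ℕ) (hcB : ∀ j, c j ≤ B)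
    (hc0 : ∀ j, k + 1 < j → c j = 0) : ∃ f : Fin (k + 2) → Fin (B + 1), extc f = c := by
  refine ⟨fun j => ⟨c j, by have := hcB j; omega⟩, ?_⟩
  funext j
  unfold extc
  split_ifs with h
  · rfl
  · exact (hc0 j (by omega)).symm

theorem ae_upper (ε : ℝ) (hε : 0 < ε) : ∃ c' : ℝ, 0 < c' ∧ ∃ m0 : ℕ, ∀ m ≥ m0,
    ∃ (N : ℕ) (G : SimpleGraph (Fin N)),
      (((HostedIn m G)ᶜ).ncard : ℝ) ≤ Real.exp (-(c' * m)) * (Nat.card (Cls m) : ℝ) ∧
      (G.edgeSet.ncard : ℝ) ≤ (2 * Real.exp (-2) + ε) * ((m : ℝ) / Real.log m) ^ 2 := by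
  classical
  have he1 := au_exp_le
  have he2 := au_le_exp
  obtain ⟨δ, hδ, hδ1, hδ2⟩ : ∃ δ : ℝ, 0 < δ ∧ δ ≤ 1 / 100 ∧ 400 * δ ≤ ε :=
    ⟨min (1 / 100) (ε / 400), lt_min (by norm_num) (by positivity), min_le_left _ _, by
      have := min_le_right (1 / 100 : ℝ) (ε / 400)
      linarith⟩
  have hδ3 : δ ^ 3 ≤ δ := by
    calc δ ^ 3 = δ * δ ^ 2 := by ring
      _ ≤ δ * 1 := mul_le_mul_of_nonneg_left (pow_le_one₀ hδ.le (by linarith)) hδ.le
      _ = δ := mul_one δ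
  have hδ30 : 0 < δ ^ 3 := by positivity
  obtain ⟨ε', hε'0, hε'1, hε'2, hε'3⟩ : ∃ ε' : ℝ, 0 < ε' ∧ ε' ≤ 1 / 1000 ∧
      ε' ≤ δ ^ 3 / 100000 ∧ 400 * ε' ≤ ε := by
    refine ⟨min (δ ^ 3 / 100000) (ε / 400), lt_min (by positivity) (by positivity), ?_,
      min_le_left _ _, ?_⟩
    · refine (min_le_left _ _).trans ?_
      linarith
    · have := min_le_right (δ ^ 3 / 100000) (ε / 400)
      linarith
  obtain ⟨η, χ, Dc, ε₁, B, K, J, r, hc⟩ := exists_consts ε' hε'0 hε'1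
  have hη0 : 0 < η := by rw [hc.hη]; positivity
  have hχ0 : 0 < χ := by rw [hc.hχ]; positivity
  have hχe : 4000 / ε' ^ 3 = χ := by
    rw [hc.hχ, hc.hη]
    field_simp
    norm_num
  have hχ1 : 1 ≤ χ := by
    rw [← hχe, le_div_iff₀ (by positivity)]
    have : ε' ^ 3 ≤ 1 := pow_le_one₀ hε'0.le (by linarith)
    linarith
  have hB0 : (0 : ℝ) < B := by exact_mod_cast hc.hB
  have hh : χ / B ≤ δ ^ 2 := by
    have h1 := hc.hBD
    rw [hc.hDc] at h1
    have h2 : 4 * χ * (χ / B) ≤ ε' ^ 2 := by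
      have : 4 * χ / ε' * (χ / B) * ε' ≤ ε' * ε' := mul_le_mul_of_nonneg_right h1 hε'0.le
      calc 4 * χ * (χ / B) = 4 * χ / ε' * (χ / B) * ε' := by field_simp
        _ ≤ ε' * ε' := this
        _ = ε' ^ 2 := by ring
    have h3 : χ / B ≤ 4 * χ * (χ / B) := by
      have : 0 ≤ χ / B := by positivity
      nlinarith
    have h4 : ε' ≤ δ := by linarith
    have h5 : ε' ^ 2 ≤ δ ^ 2 := pow_le_pow_left₀ hε'0.le h4 2
    linarith
  obtain ⟨k, hk1, hk2⟩ := exists_k ε' χ hε'0 hε'1 hχ1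
  have hk3 : uu ε' k ≤ 2 * χ := by linarith
  have hbadf : ∀ f : Fin (k + 2) → Fin (B + 1), ∃ m1 : ℕ, ∀ m ≥ m1,
      ∃ (N : ℕ) (G : SimpleGraph (Fin N)),
      (G.edgeSet.ncard : ℝ) ≤ (41 * ε' + (1 / 2 + 6 * ε') *
        kint ε' χ B (kmax (omc ε' χ B k (extc f)))) * (m / Real.log m) ^ 2 ∧
      ∀ (n : ℕ) (H : SimpleGraph (Fin n)) [DecidableRel H.Adj], H.edgeSet.ncard ≤ m →
        (∀ v, ∃ v', H.Adj v v') →
        PosOn ε' χ ε₁ m (kmax (omc ε' χ B k (extc f))) H (Mid0 η Dc m H) →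
        H.IsContained G :=
    fun f => upperM hc _ (omc_kernel ε' χ B k (extc f) hε'0 hk3).1
  choose mf hmf using hbadf
  obtain ⟨mg, hmg⟩ := upperM hc _ (omg_kernel χ δ B hχ0 hδ hδ1).1
  obtain ⟨mt, hmt⟩ := exists_type hc k hk2
  obtain ⟨c', hc', ml, hl⟩ := lower_exp 2 (δ ^ 3 / 4000) (by norm_num) (by positivity)
  set Kf : ℕ := Fintype.card (Fin (k + 2) → Fin (B + 1)) with hKf
  obtain ⟨mK, hmK⟩ := exists_nat_ge (Real.log Kf / (c' / 2))
  refine ⟨c' / 2, by positivity, (Finset.univ.sup mf) + mg + mt + ml + mK + 2, fun m hm => ?_⟩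
  have hm2 : 2 ≤ m := by omega
  have hmR : (2 : ℝ) ≤ (m : ℝ) := by exact_mod_cast hm2
  have hlog : 0 < Real.log (m : ℝ) := Real.log_pos (by linarith)
  have hs : 0 < ((m : ℝ) / Real.log m) ^ 2 := by
    have : (0 : ℝ) < (m : ℝ) := by linarith
    positivity
  obtain ⟨N, G, hGe, hG⟩ := hmg m (by omega)
  have hosts : ∀ f : Fin (k + 2) → Fin (B + 1), ∃ (N : ℕ) (G : SimpleGraph (Fin N)),
      (G.edgeSet.ncard : ℝ) ≤ (41 * ε' + (1 / 2 + 6 * ε') *
        kint ε' χ B (kmax (omc ε' χ B k (extc f)))) * (m / Real.log m) ^ 2 ∧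
      ∀ (n : ℕ) (H : SimpleGraph (Fin n)) [DecidableRel H.Adj], H.edgeSet.ncard ≤ m →
        (∀ v, ∃ v', H.Adj v v') →
        PosOn ε' χ ε₁ m (kmax (omc ε' χ B k (extc f))) H (Mid0 η Dc m H) →
        H.IsContained G := fun f => hmf f m (by
      have := Finset.le_sup (f := mf) (Finset.mem_univ f)
      omega)
  choose Nf Gf hGfe hGf using hosts
  set T : Finset (Fin (k + 2) → Fin (B + 1)) := Finset.univ.filter
    (fun f => IsType ε' χ B k (extc f) ∧ ¬ GoodType ε' χ B k δ (extc f)) with hT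
  have hsub : (HostedIn m G)ᶜ ⊆ ⋃ f ∈ T, HostedIn m (Gf f) := by
    intro q hq
    obtain ⟨a, ha⟩ := Quotient.exists_rep (s := guestSetoid m) q
    obtain ⟨n, H, hHm, hiso⟩ := a
    obtain ⟨c, hcB, hc0, hct, hcf⟩ := hmt m (by omega) n H hHm.le
    obtain ⟨f, hf⟩ := au_extc (k := k) c hcB hc0
    subst hf
    by_cases hgood : GoodType ε' χ B k δ (extc f)
    · exfalso
      apply hq
      refine ⟨⟨n, H, hHm, hiso⟩, ha, ?_⟩
      exact hG n H hHm.le hiso (hcf _ (omg_kernel χ δ B hχ0 hδ hδ1).2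
        (good_fits ε' χ δ B k _ hδ hδ1 hε'0 hε'2 hχe.le hc.hB hk1 hct hgood))
    · have hk := omc_kernel ε' χ B k (extc f) hε'0 hk3
      rw [Set.mem_iUnion₂]
      refine ⟨f, ?_, ⟨⟨n, H, hHm, hiso⟩, ha, ?_⟩⟩
      · exact Finset.mem_filter.2 ⟨Finset.mem_univ _, hct, hgood⟩
      · exact hGf f n H hHm.le hiso (hcf _ hk.2.1 hk.2.2)
  set x : ℝ := (2 * Real.exp (-2) - δ ^ 3 / 2000) * ((m : ℝ) / Real.log m) ^ 2 with hx
  have hx0 : 0 ≤ x := mul_nonneg (by linarith) hs.le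
  set E : ℕ := ⌊x⌋₊ with hE
  have hEf : ∀ f ∈ T, (Gf f).edgeSet.ncard ≤ E := by
    intro f hf
    obtain ⟨-, hft, hfb⟩ := Finset.mem_filter.1 hf
    refine Nat.le_floor ((hGfe f).trans (mul_le_mul_of_nonneg_right ?_ hs.le))
    have h3 := kint_bad ε' χ δ B k (extc f) hδ hδ1 hε'0 hε'2 hχe.le hc.hB hk1 hk2 hft hfb
    have h4 : (1 / 2 + 6 * ε') * kint ε' χ B (kmax (omc ε' χ B k (extc f))) ≤
        (1 / 2 + 6 * ε') * (4 * Real.exp (-2) - δ ^ 3 / 500) :=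
      mul_le_mul_of_nonneg_left h3 (by positivity)
    have h5 : ε' * Real.exp (-2) ≤ ε' * (1 / 3) := mul_le_mul_of_nonneg_left he1 hε'0.le
    have h6 : 0 ≤ ε' * δ ^ 3 := by positivity
    nlinarith [h4, h5, h6]
  have := finite_cls m
  have hcount : ((HostedIn m G)ᶜ).ncard ≤ Kf * E.choose m := by
    calc ((HostedIn m G)ᶜ).ncard ≤ (⋃ f ∈ T, HostedIn m (Gf f)).ncard :=
          Set.ncard_le_ncard hsub (Set.toFinite _)
      _ ≤ ∑ f ∈ T, (HostedIn m (Gf f)).ncard := T.set_ncard_biUnion_le _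
      _ ≤ ∑ _f ∈ T, E.choose m := Finset.sum_le_sum (fun f hf =>
          (card_hostedIn m (Nf f) (Gf f)).trans (Nat.choose_le_choose m (hEf f hf)))
      _ = T.card * E.choose m := by rw [Finset.sum_const, smul_eq_mul]
      _ ≤ Kf * E.choose m := Nat.mul_le_mul_right _ (by
          rw [hKf]
          exact Finset.card_le_univ T)
  have hlt : Real.exp (c' * m) * (E.choose m * (nA 2 m).factorial) <
      (((nA 2 m).choose 2).choose m : ℝ) := by
    by_contra hcon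
    rw [not_lt] at hcon
    have h1 := hl m (by omega) E hcon
    have h2 : (E : ℝ) ≤ x := Nat.floor_le hx0
    have h3 : (0 : ℝ) < δ ^ 3 / 4000 * ((m : ℝ) / Real.log m) ^ 2 := by positivity
    have h4 : ((2 : ℝ) ^ 2 / 2 * Real.exp (-2) - δ ^ 3 / 4000) * ((m : ℝ) / Real.log m) ^ 2 -
        (2 * Real.exp (-2) - δ ^ 3 / 2000) * ((m : ℝ) / Real.log m) ^ 2 =
        δ ^ 3 / 4000 * ((m : ℝ) / Real.log m) ^ 2 := by ring
    linarith
  have hcls : ((((nA 2 m).choose 2).choose m : ℕ) : ℝ) ≤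
      (Nat.card (Cls m) : ℝ) * ((nA 2 m).factorial : ℝ) := by
    have h1 := card_cls (nA 2 m) m
    rw [card_Gr] at h1
    exact_mod_cast h1
  have hfac : (0 : ℝ) < ((nA 2 m).factorial : ℝ) := by
    exact_mod_cast Nat.factorial_pos _
  have hEc : Real.exp (c' * m) * (E.choose m : ℝ) ≤ (Nat.card (Cls m) : ℝ) := by
    have h1 : Real.exp (c' * m) * (E.choose m : ℝ) * ((nA 2 m).factorial : ℝ) ≤
        (Nat.card (Cls m) : ℝ) * ((nA 2 m).factorial : ℝ) := by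
      have h2 := hlt.le.trans hcls
      rw [mul_assoc]
      exact h2
    exact le_of_mul_le_mul_right h1 hfac
  have hKf0 : 0 < Kf := Fintype.card_pos
  have hKR : (Kf : ℝ) ≤ Real.exp (c' / 2 * m) := by
    have h1 : (mK : ℝ) ≤ m := by
      have : mK ≤ m := by omega
      exact_mod_cast this
    have h2 : Real.log Kf / (c' / 2) ≤ m := hmK.trans h1
    rw [div_le_iff₀ (by positivity)] at h2
    calc (Kf : ℝ) = Real.exp (Real.log Kf) :=
          (Real.exp_log (by exact_mod_cast hKf0)).symm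
      _ ≤ Real.exp (c' / 2 * m) := Real.exp_le_exp.2 (by linarith)
  refine ⟨N, G, ?_, ?_⟩
  · have h1 : (((HostedIn m G)ᶜ).ncard : ℝ) ≤ Kf * (E.choose m : ℝ) := by
      exact_mod_cast hcount
    have h2 : (Kf : ℝ) * (E.choose m : ℝ) ≤ Real.exp (c' / 2 * m) * (E.choose m : ℝ) :=
      mul_le_mul_of_nonneg_right hKR (Nat.cast_nonneg _)
    have h3 : Real.exp (c' / 2 * m) * (E.choose m : ℝ) =
        Real.exp (-(c' / 2 * m)) * (Real.exp (c' * m) * (E.choose m : ℝ)) := by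
      rw [← mul_assoc, ← Real.exp_add]
      congr 2
      ring
    calc (((HostedIn m G)ᶜ).ncard : ℝ) ≤ Real.exp (c' / 2 * m) * (E.choose m : ℝ) := h1.trans h2
      _ = Real.exp (-(c' / 2 * m)) * (Real.exp (c' * m) * (E.choose m : ℝ)) := h3
      _ ≤ Real.exp (-(c' / 2 * m)) * (Nat.card (Cls m) : ℝ) :=
          mul_le_mul_of_nonneg_left hEc (Real.exp_pos _).le
  · refine hGe.trans (mul_le_mul_of_nonneg_right ?_ hs.le)
    have h3 := kint_good ε' χ δ B hδ hδ1 hε'0 hε'2 hχe.le hc.hB hh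
    have h4 : (1 / 2 + 6 * ε') * kint ε' χ B (kmax (omg χ δ B)) ≤
        (1 / 2 + 6 * ε') * (4 * Real.exp (-2) + 200 * δ) :=
      mul_le_mul_of_nonneg_left h3 (by positivity)
    have h5 : ε' * Real.exp (-2) ≤ ε' * (1 / 3) := mul_le_mul_of_nonneg_left he1 hε'0.le
    have h6 : ε' * δ ≤ 1 / 1000 * δ := mul_le_mul_of_nonneg_right hε'1 hδ.le
    nlinarith [h4, h5, h6]

end Pool.Agent.Lib.MP_1f2a9f_co.KW
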