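import Pool.Agent.Lib.MP_1f2a9f_co.KW.Defs3

/-!
# KW, row BB (Biregular): board ug3_mod

`p ≤ 3 q`, `q ≤ 3 p`: the ends in `A` (degree `p`) get `q/(p+q)`, the
others `p/(p+q)`; everybody gets `p q/(p+q)`.
-/

set_option autoImplicit false

namespace Pool.Agent.Lib.MP_1f2a9f_co.KW

open Finset Pool.Agent.Lib.MP_1f2a9f_co

private theorem bb_load {n : ℕ} (H : SimpleGraph (Fin n)) (α : Fin n → Fin n → ℝ) (u : Fin n) (a : ℝ) (k : ℕ)
    (h : ∀ v, α u v = a) (hk : (H.neighborSet u).ncard = k) : loadG H α u = k * a := by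
  classical
  unfold loadG
  rw [Finset.sum_congr rfl (fun v _ => h v), Finset.sum_const, nsmul_eq_mul, ← hk]
  congr 2
  rw [← Set.ncard_coe_finset]
  congr 1
  ext v
  simp

theorem balanced_biregular {n p q : ℕ} (H : SimpleGraph (Fin n)) (A : Set (Fin n))
    (hA : ∀ u v, H.Adj u v → (u ∈ A ↔ v ∉ A)) (hp : ∀ u ∈ A, (H.neighborSet u).ncard = p)
    (hq : ∀ u, u ∉ A → (H.neighborSet u).ncard = q) (h1 : p ≤ 3 * q) (h2 : q ≤ 3 * p)
    (hp0 : 0 < p) (hq0 : 0 < q) : Balanced H := by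
  classical
  have hP : (0 : ℝ) < p := by exact_mod_cast hp0
  have hQ : (0 : ℝ) < q := by exact_mod_cast hq0
  have hPQ : (0 : ℝ) < (p : ℝ) + q := by linarith
  have h1' : (p : ℝ) ≤ 3 * q := by exact_mod_cast h1
  have h2' : (q : ℝ) ≤ 3 * p := by exact_mod_cast h2
  have e1 : (q : ℝ) / (p + q) + p / (p + q) = 1 := by
    rw [← add_div, add_comm (q : ℝ) p]
    exact div_self hPQ.ne'
  have g1 : (1 : ℝ) / 4 ≤ q / (p + q) := by
    rw [div_le_div_iff₀ (by norm_num) hPQ]
    linarith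
  have g2 : (1 : ℝ) / 4 ≤ p / (p + q) := by
    rw [div_le_div_iff₀ (by norm_num) hPQ]
    linarith
  have hl : ∀ u, loadG H (fun u _ => if u ∈ A then (q : ℝ) / (p + q) else p / (p + q)) u = p * q / (p + q) := by
    intro u
    by_cases hu : u ∈ A
    · rw [bb_load H _ u ((q : ℝ) / (p + q)) p (fun v => by simp [hu]) (hp u hu)]
      ring
    · rw [bb_load H _ u ((p : ℝ) / (p + q)) q (fun v => by simp [hu]) (hq u hu)]
      ring
  refine ⟨fun u _ => if u ∈ A then (q : ℝ) / (p + q) else p / (p + q), ?_, ?_⟩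
  · intro u v huv
    have h := hA u v huv
    by_cases hu : u ∈ A
    · have hv : v ∉ A := h.1 hu
      simp only [hu, hv, if_true, if_false]
      exact ⟨e1, g1⟩
    · have hv : v ∈ A := by
        by_contra hv
        exact hu (h.2 hv)
      simp only [hu, hv, if_true, if_false]
      exact ⟨by rw [add_comm]; exact e1, g2⟩
  · intro u v _
    rw [hl u, hl v]
    have : (0 : ℝ) ≤ p * q / (p + q) := by positivity
    linarith

end Pool.Agent.Lib.MP_1f2a9f_co.KW
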