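import Pool.Agent.Lib.MP_1f2a9f_co.KW.SecondG

/-!
# KW, row CG (ChooseG): board ug3_mod

As the landed KW/Choose.lean (`choose_pos`), with `secondG` and
`Pos.cheb` (level functions depending on the vertex).
-/

set_option autoImplicit false

namespace Pool.Agent.Lib.MP_1f2a9f_co.KW

open Finset Pool.Agent.Lib.MP_1f2a9f_co

theorem choose_posG {V : Type} [Fintype V] [DecidableEq V] (R B Δ : ℕ) (hR : 0 < R)
    (N : V → Finset V) (hN : ∀ u, u ∉ N u) (hΔ : ∀ u, (N u).card ≤ Δ)
    (φ : V → V → Fin R → Fin R → ℝ) (C : ℝ) (μ : V → V → ℝ)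
    (h0 : ∀ u, ∀ v ∈ N u, ∀ a b, 0 ≤ φ u v a b)
    (hC : ∀ u, ∀ v ∈ N u, ∀ a b, φ u v a b ≤ C)
    (hμ : ∀ u, ∀ v ∈ N u, ∀ a, ∑ b, φ u v a b ≤ R * μ u v)
    (lev : V → Fin R → Fin B) (P : ℝ)
    (hP : ∀ i, ∑ v, ((univ.filter (fun a => lev v a = i)).card : ℝ) ≤ R * P)
    (t t' β : ℝ) (ht : 0 < t) (ht' : 0 < t') (hβ : 0 < β)
    (hnum : B * Fintype.card V / t' ^ 2 + Fintype.card V * (Δ * C ^ 2) / (t ^ 2 * β) < 1) :
    ∃ f : V → Fin R,
      (∀ i, ((univ.filter (fun v => lev v (f v) = i)).card : ℝ) ≤ P + t') ∧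
      ((univ.filter (fun u => ∑ v ∈ N u, μ u v + t < ∑ v ∈ N u, φ u v (f u) (f v))).card : ℝ) ≤
        β := by
  classical
  have hR' : (0 : ℝ) < R := by exact_mod_cast hR
  set W : ℝ := (R : ℝ) ^ Fintype.card V with hWdef
  have hW : 0 < W := by positivity
  have hcard : ((univ : Finset (V → Fin R)).card : ℝ) = W := by
    rw [Finset.card_univ, Fintype.card_fun, Fintype.card_fin]
    push_cast
    rfl
  -- first bad event
  set bad : V → (V → Fin R) → Prop := fun u f =>
    ∑ v ∈ N u, μ u v + t < ∑ v ∈ N u, φ u v (f u) (f v) with hbad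
  have hb1 : ∀ u, ((univ.filter (fun f => bad u f)).card : ℝ) ≤ W * (Δ * C ^ 2 / t ^ 2) := by
    intro u
    have h3 := secondG R hR u (N u) (hN u) (φ u) C (μ u) (h0 u) (hC u) (hμ u) t ht
    have h4 : ((univ.filter (fun f => bad u f)).card : ℝ) * t ^ 2 ≤ W * (Δ * C ^ 2) := by
      calc ((univ.filter (fun f => bad u f)).card : ℝ) * t ^ 2 ≤ W * ((N u).card * C ^ 2) := h3
        _ ≤ W * (Δ * C ^ 2) := by
          apply mul_le_mul_of_nonneg_left _ hW.le
          apply mul_le_mul_of_nonneg_right _ (sq_nonneg C)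
          exact_mod_cast hΔ u
    rw [← mul_div_assoc, le_div_iff₀ (by positivity)]
    exact h4
  set E1 := univ.filter (fun f : V → Fin R =>
    β < ((univ.filter (fun u => bad u f)).card : ℝ)) with hE1
  have hE1c : (E1.card : ℝ) ≤ W * (Fintype.card V * (Δ * C ^ 2) / (t ^ 2 * β)) := by
    have h3 : (E1.card : ℝ) * β ≤ ∑ f : V → Fin R,
        ((univ.filter (fun u => bad u f)).card : ℝ) := by
      calc (E1.card : ℝ) * β = ∑ _f ∈ E1, β := by simp
        _ ≤ ∑ f ∈ E1, ((univ.filter (fun u => bad u f)).card : ℝ) := by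
            refine Finset.sum_le_sum (fun f hf => ?_)
            rw [hE1, Finset.mem_filter] at hf
            exact hf.2.le
        _ ≤ _ := by
            apply Finset.sum_le_sum_of_subset_of_nonneg (Finset.subset_univ _)
            intro i _ _
            positivity
    have h4 : ∑ f : V → Fin R, ((univ.filter (fun u => bad u f)).card : ℝ) =
        ∑ u, ((univ.filter (fun f => bad u f)).card : ℝ) := by
      simp only [Finset.card_filter]
      push_cast
      rw [Finset.sum_comm]
    have h5 : ∑ u, ((univ.filter (fun f => bad u f)).card : ℝ) ≤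
        Fintype.card V * (W * (Δ * C ^ 2 / t ^ 2)) := by
      calc ∑ u, ((univ.filter (fun f => bad u f)).card : ℝ) ≤
            ∑ _u : V, W * (Δ * C ^ 2 / t ^ 2) := Finset.sum_le_sum (fun u _ => hb1 u)
        _ = _ := by simp
    have h6 : (E1.card : ℝ) * β ≤ (W * (Fintype.card V * (Δ * C ^ 2) / (t ^ 2 * β))) * β := by
      calc (E1.card : ℝ) * β ≤ Fintype.card V * (W * (Δ * C ^ 2 / t ^ 2)) := by linarith
        _ = _ := by field_simp
    exact le_of_mul_le_mul_right h6 hβ
  -- second bad events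
  set E2 : Fin B → Finset (V → Fin R) := fun i => univ.filter (fun f : V → Fin R =>
    P + t' < ∑ v, (if lev v (f v) = i then (1 : ℝ) else 0)) with hE2
  have hE2c : ∀ i, ((E2 i).card : ℝ) ≤ W * (Fintype.card V / t' ^ 2) := by
    intro i
    have h3 := Pos.cheb (V := V) R hR univ (fun v a => if lev v a = i then (1 : ℝ) else 0) 1 t'
      (fun v a => by split_ifs <;> norm_num) ht' P
      (by
        rw [← Finset.sum_div, div_le_iff₀ hR', mul_comm P]
        refine le_trans (le_of_eq ?_) (hP i)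
        exact Finset.sum_congr rfl (fun v _ => Finset.sum_boole _ _))
    rw [Finset.card_univ, one_pow, mul_one] at h3
    rw [← mul_div_assoc, le_div_iff₀ (by positivity)]
    exact h3
  have hunion : ((E1 ∪ univ.biUnion E2).card : ℝ) < (univ : Finset (V → Fin R)).card := by
    rw [hcard]
    have h3 : ((E1 ∪ univ.biUnion E2).card : ℝ) ≤ E1.card + ∑ i, ((E2 i).card : ℝ) := by
      have h4 := Finset.card_union_le E1 (univ.biUnion E2)
      have h5 := Finset.card_biUnion_le (s := (univ : Finset (Fin B))) (t := E2)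
      have h6 : (E1 ∪ univ.biUnion E2).card ≤ E1.card + ∑ i, (E2 i).card := by omega
      exact_mod_cast h6
    have h7 : ∑ i, ((E2 i).card : ℝ) ≤ W * (B * Fintype.card V / t' ^ 2) := by
      calc ∑ i, ((E2 i).card : ℝ) ≤ ∑ _i : Fin B, W * (Fintype.card V / t' ^ 2) :=
            Finset.sum_le_sum (fun i _ => hE2c i)
        _ = W * (B * Fintype.card V / t' ^ 2) := by simp; ring
    have h8 : W * (B * Fintype.card V / t' ^ 2 +
        Fintype.card V * (Δ * C ^ 2) / (t ^ 2 * β)) < W * 1 :=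
      mul_lt_mul_of_pos_left hnum hW
    rw [mul_add, mul_one] at h8
    linarith
  have hex : ∃ f : V → Fin R, f ∉ E1 ∪ univ.biUnion E2 := by
    by_contra hcon
    push Not at hcon
    have : E1 ∪ univ.biUnion E2 = univ := Finset.eq_univ_of_forall hcon
    rw [this] at hunion
    exact lt_irrefl _ hunion
  obtain ⟨f, hf⟩ := hex
  rw [Finset.mem_union, not_or] at hf
  refine ⟨f, ?_, ?_⟩
  · intro i
    have h3 := hf.2
    rw [Finset.mem_biUnion] at h3
    push Not at h3
    have h4 := h3 i (Finset.mem_univ _)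
    rw [hE2, Finset.mem_filter, not_and] at h4
    have h5 := not_lt.mp (h4 (Finset.mem_univ _))
    rw [Finset.sum_boole] at h5
    exact h5
  · have h3 := hf.1
    rw [hE1, Finset.mem_filter, not_and] at h3
    exact not_lt.mp (h3 (Finset.mem_univ _))

end Pool.Agent.Lib.MP_1f2a9f_co.KW
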