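import Pool.Agent.Lib.MP_1f2a9f_co.TopDefs

/-!
# MP_1f2a9f_co, second hand-in: definitions shared by the modules `KW` (helper5)

A kernel `w` gives the cost `w x y` of an edge between positions of the levels `x`, `y`.
-/

set_option autoImplicit false

namespace Pool.Agent.Lib.MP_1f2a9f_co.KW

open Finset Pool.Agent.Lib.MP_1f2a9f_co

/-- a symmetric kernel with values in `[0, 2 χ]` -/
structure Kernel (χ : ℝ) {B : ℕ} (w : Fin B → Fin B → ℝ) : Prop where
  symm : ∀ x y, w x y = w y x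
  nonneg : ∀ x y, 0 ≤ w x y
  le : ∀ x y, w x y ≤ 2 * χ

/-- densities between classes of digits -/
noncomputable def rhoW (ε : ℝ) (K J : ℕ) {B q : ℕ} (w : Fin B → Fin B → ℝ)
    (x y : Fin B × Fin q) : ℝ :=
  Real.exp (-((1 - 12 * ε) * w x.1 y.1 / kap K J))

/-- densities of the relation `Q` -/
noncomputable def rhoQW (ε : ℝ) (J m : ℕ) {B I : ℕ} (w : Fin B → Fin B → ℝ) :
    Lev B I → Lev B I → ℝ
  | .inr (.inl x), .inr (.inl y) => (1 + pgamg ε J m) ^ J * Real.exp (-((1 - 12 * ε) * w x y))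
  | _, _ => 0

/-- The vertices of `H` can be given positions such that, outside of a small bad set, every set `U`
of vertices can pay for the edges inside `U`. -/
def PosOK (ε χ ε₁ : ℝ) (m : ℕ) {B : ℕ} (w : Fin B → Fin B → ℝ) {V : Type} [Fintype V]
    [DecidableEq V] (H : SimpleGraph V) [DecidableRel H.Adj] : Prop :=
  ∃ (X : V → Fin B) (Bad : Finset V),
    (Bad.card : ℝ) ≤ ε₁ * (m / Real.log m) ∧
    (∀ i, ((univ.filter (fun v => X v = i)).card : ℝ) ≤
      (1 + 3 * ε) * (χ / B) * (m / Real.log m)) ∧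
    ∀ U : Finset V, Disjoint U Bad →
      ∑ u ∈ U, ∑ v ∈ U.filter (fun v => H.Adj u v), w (X u) (X v) ≤
        2 * ((1 + 5 * ε) * Real.log m) * U.card

/-- `PosOK` for the subgraph of `H` induced by `M` -/
def PosOn (ε χ ε₁ : ℝ) (m : ℕ) {B : ℕ} (w : Fin B → Fin B → ℝ) {n : ℕ}
    (H : SimpleGraph (Fin n)) [DecidableRel H.Adj] (M : Finset (Fin n)) : Prop :=
  PosOK ε χ ε₁ m w (H.comap (Subtype.val : {v // v ∈ M} → Fin n))

/-- the conclusion of the middle part for one graph `H` and one set `M` of vertices -/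
def MidConc (ε χ Dc ε₁ : ℝ) (B K J m : ℕ)
    (R : ((Fin B × Fin (pq m)) × Fin J) × Fin (pbg ε J m) →
      ((Fin B × Fin (pq m)) × Fin J) × Fin (pbg ε J m) → Bool) {n : ℕ} (H : SimpleGraph (Fin n))
    (M : Finset (Fin n)) : Prop :=
  ∃ (Bad : Finset (Fin n)) (X : Fin n → Fin B) (c : Fin n → Fin (pq m))
    (g : Fin n → Fin J → Fin (pbg ε J m)), Bad ⊆ M ∧
    (Bad.card : ℝ) ≤ 2 * ε₁ * (m / Real.log m) + 2 * M.card * (pDel Dc m : ℝ) ^ 2 / pq m ∧
    (∀ i, ((M.filter (fun v => X v = i)).card : ℝ) ≤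
        (1 + 3 * ε) * (χ / B) * (m / Real.log m)) ∧
    (∀ u v, u ∈ M \ Bad → v ∈ M \ Bad → H.Adj u v → ∀ j j' : Fin J, Linked K j j' →
        R (((X u, c u), j), g u j) (((X v, c v), j'), g v j') = true) ∧
    ((((M \ Bad) ×ˢ (M \ Bad)).filter
        (fun p => X p.1 = X p.2 ∧ c p.1 = c p.2 ∧ g p.1 = g p.2)).card : ℝ) ≤
      sig2 ε Dc J m * (((((M \ Bad) ×ˢ (M \ Bad)).filter (fun p => X p.1 = X p.2)).card /
          (pq m : ℝ) + 2 * M.card + 4 * (M.card * (pDel Dc m : ℝ) / pq m) ^ 2) /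
            (pbg ε J m : ℝ) ^ J) +
        M.card * ((pDel Dc m : ℝ) + 1) ^ 2

/-- `H` is regular of degree `d` -/
def Reg {V : Type} (H : SimpleGraph V) (d : ℕ) : Prop := ∀ v, (H.neighborSet v).ncard = d

/-- `G` contains every regular graph (of degree at least one) with at most `m` edges -/
def UnivReg (m : ℕ) {W : Type} (G : SimpleGraph W) : Prop :=
  ∀ (n d : ℕ) (H : SimpleGraph (Fin n)), 1 ≤ d → Reg H d → H.edgeSet.ncard ≤ m →
    H.IsContained G

/-- `G` contains every graph on `n` vertices without isolated vertices and of maximum degree at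
most `Δ`, for all `n`, `Δ` with `n Δ ≤ 2 m` -/
def UnivMax (m : ℕ) {W : Type} (G : SimpleGraph W) : Prop :=
  ∀ (n Δ : ℕ) (H : SimpleGraph (Fin n)), n * Δ ≤ 2 * m → (∀ v, ∃ w, H.Adj v w) →
    (∀ v, (H.neighborSet v).ncard ≤ Δ) → H.IsContained G

/-- the kernel `3/2 max (x, y)` -/
noncomputable def wmax (χ : ℝ) (B : ℕ) (x y : Fin B) : ℝ :=
  3 / 2 * (((max x y : Fin B) : ℝ) + 1) * (χ / B)

/-- the kernel which is constant on `[0, (1 + ε) α]` and large elsewhere -/
noncomputable def wcst (ε χ α : ℝ) (B : ℕ) (x y : Fin B) : ℝ :=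
  if ((x : ℝ) + 1) * (χ / B) ≤ (1 + ε) * α ∧ ((y : ℝ) + 1) * (χ / B) ≤ (1 + ε) * α then
    (1 + ε) * α else 2 * χ

/-- what a vertex at position `x` pays for an edge to a vertex at position `y`, all positions
being in `[0, a]` -/
noncomputable def pay (a x y : ℝ) : ℝ := 3 / 4 * max x y - 3 / 8 * (x ^ 2 - y ^ 2) / a

/-- every in-degree of `b` is `D` -/
def InReg {n D : ℕ} (b : Fin n → Fin D → Fin n) : Prop :=
  ∀ i, ((univ : Finset (Fin n × Fin D)).filter (fun p => b p.1 p.2 = i)).card = D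

/-- the graphs on `Fin n` with exactly `m` edges -/
def Gr (n m : ℕ) : Set (SimpleGraph (Fin n)) := {H | H.edgeSet.ncard = m}

/-- `B`-grid integral of `exp (-(1 - 12 ε) w)` -/
noncomputable def kint (ε χ : ℝ) (B : ℕ) (w : Fin B → Fin B → ℝ) : ℝ :=
  (χ / B) ^ 2 * ∑ x : Fin B, ∑ y : Fin B, Real.exp (-((1 - 12 * ε) * w x y))

open Classical in
/-- every set `U` of vertices spans at most `c |U|` edges -/
def Sparse (c : ℝ) {V : Type} [Fintype V] (H : SimpleGraph V) : Prop :=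
  ∀ U : Finset V, ∑ u ∈ U, ((U.filter (fun v => H.Adj u v)).card : ℝ) ≤ 2 * c * U.card

/-- the number of vertices in the statement on almost all graphs -/
noncomputable def nA (α : ℝ) (m : ℕ) : ℕ := ⌊α * (m / Real.log m)⌋₊

end Pool.Agent.Lib.MP_1f2a9f_co.KW
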