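import Pool.Agent.Lib.MP_1f2a9f_co.KW.Defs

/-!
# MP_1f2a9f_co: almost all guests. Definitions shared by the modules of the board ug2_mod (helper5)
-/

set_option autoImplicit false

namespace Pool.Agent.Lib.MP_1f2a9f_co.KW

open Finset Pool.Agent.Lib.MP_1f2a9f_co

/-- the graphs with exactly `m` edges and no isolated vertex -/
def Guest (m : ℕ) : Type :=
  (n : ℕ) × {H : SimpleGraph (Fin n) // H.edgeSet.ncard = m ∧ ∀ v, ∃ w, H.Adj v w}

/-- isomorphism of guests -/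
def guestSetoid (m : ℕ) : Setoid (Guest m) where
  r a b := Nonempty (a.2.1 ≃g b.2.1)
  iseqv := ⟨fun _ => ⟨SimpleGraph.Iso.refl⟩, fun ⟨e⟩ => ⟨e.symm⟩, fun ⟨e⟩ ⟨f⟩ => ⟨e.trans f⟩⟩

/-- the graphs with exactly `m` edges and no isolated vertex, up to isomorphism -/
def Cls (m : ℕ) : Type := Quotient (guestSetoid m)

/-- the members of `Cls m` that are contained in `G` -/
def HostedIn (m : ℕ) {W : Type} (G : SimpleGraph W) : Set (Cls m) :=
  {q | ∃ a : Guest m, Quotient.mk (guestSetoid m) a = q ∧ a.2.1.IsContained G}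

/-- the vertices of middle degree -/
noncomputable def Mid0 (η Dc : ℝ) (m : ℕ) {n : ℕ} (H : SimpleGraph (Fin n))
    [DecidableRel H.Adj] : Finset (Fin n) :=
  univ.filter (fun v => η * Real.log m ≤ (H.degree v : ℝ) ∧ (H.degree v : ℝ) ≤ Dc * Real.log m)

/-- twice the number of edges inside `S` -/
def ee {V : Type} (H : SimpleGraph V) [DecidableRel H.Adj] (S : Finset V) : ℕ :=
  ∑ u ∈ S, (S.filter (fun v => H.Adj u v)).card

/-- the density thresholds are `1 / uu ε j`, `j = 0, 1, ...` -/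
noncomputable def uu (ε : ℝ) (j : ℕ) : ℝ := ε * (1 + ε) ^ j

/-- cost of the edges whose last end is in layer `j` -/
noncomputable def Wl (ε : ℝ) (j : ℕ) : ℝ := if j = 0 then 0 else uu ε (j - 1)

/-- number of levels of the layers `0, ..., j`, if layer `i` has `c i` levels -/
def cum (c : ℕ → ℕ) (j : ℕ) : ℕ := ∑ i ∈ range (j + 1), c i

/-- mass of layer `j` -/
noncomputable def lamc (ε χ : ℝ) (B : ℕ) (c : ℕ → ℕ) (j : ℕ) : ℝ := c j * (χ / B) / uu ε j

/-- a type: the layers `0, ..., k + 1` have `c 0, ..., c (k + 1)` levels -/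
structure IsType (ε χ : ℝ) (B k : ℕ) (c : ℕ → ℕ) : Prop where
  cum_le : cum c (k + 1) ≤ B
  mass : ∑ j ∈ range (k + 1), lamc ε χ B c j ≤ 1 + ε

/-- almost all of the mass is in layers with `uu ε j` near `2` -/
def GoodType (ε χ : ℝ) (B k : ℕ) (δ : ℝ) (c : ℕ → ℕ) : Prop :=
  1 - δ ≤ ∑ j ∈ (range (k + 1)).filter (fun j => |uu ε j - 2| ≤ δ), lamc ε χ B c j

/-- kernel depending on the last position only -/
def kmax {B : ℕ} (ω : Fin B → ℝ) (x y : Fin B) : ℝ := ω (max x y)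

/-- the kernel `kmax ω` suits the type `c` -/
def Fits (ε : ℝ) (B k : ℕ) (c : ℕ → ℕ) (ω : Fin B → ℝ) : Prop :=
  ∀ j ≤ k + 1, ∀ x : Fin B, (x : ℕ) < cum c j → ω x ≤ Wl ε j

/-- the kernel of the type `c` -/
noncomputable def omc (ε χ : ℝ) (B k : ℕ) (c : ℕ → ℕ) (x : Fin B) : ℝ :=
  if (x : ℕ) < cum c (k + 1) then
    Wl ε ((range (k + 2)).filter (fun j => cum c j ≤ (x : ℕ))).card else 2 * χ

/-- one kernel for all good types -/
noncomputable def omg (χ δ : ℝ) (B : ℕ) (x : Fin B) : ℝ :=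
  if ((x : ℝ) + 1) * (χ / B) ≤ 4 * δ then 0 else
    min (χ / 2) (max (2 - 2 * δ) ((((x : ℝ) + 1) * (χ / B) - 2 - 6 * δ) / (4 * δ)))

/-- a type from finitely many numbers -/
def extc {k B : ℕ} (f : Fin (k + 2) → Fin (B + 1)) (j : ℕ) : ℕ :=
  if h : j < k + 2 then (f ⟨j, h⟩ : ℕ) else 0

end Pool.Agent.Lib.MP_1f2a9f_co.KW
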