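import Pool.Agent.Lib.MP_1f2a9f_co.KW.Defs

/-!
# MP_1f2a9f_co: nearly regular guests. Definitions shared by the modules of the board ug3_mod (helper5)
-/

set_option autoImplicit false

namespace Pool.Agent.Lib.MP_1f2a9f_co.KW

open Finset Pool.Agent.Lib.MP_1f2a9f_co

/-- what an end of scale `L` pays at least for an edge whose other end (of scale `L'`) is at `y` -/
noncomputable def exG (L L' y : ℝ) : ℝ :=
  max 0 (3 / 2 * (if y ≤ L then (y ^ 2 + L ^ 2) / (2 * L) else y) - 3 / 4 * L')

/-- what an end of scale `L` at position `x` pays for an edge whose other end, of scale `L'`, is at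
`y`; the parameter `t ∈ [0, 1]` gives the share `1/4 + t/2` of the edge -/
noncomputable def payG (t L L' x y : ℝ) : ℝ :=
  t * (3 / 2 * max x y - exG L' L x) + (1 - t) * exG L L' y

/-- admissible parameters of `payG` -/
def Adm (t L L' : ℝ) : Prop :=
  0 ≤ t ∧ t ≤ 1 ∧ 0 < L ∧ 0 < L' ∧ 4 * L' ≤ 5 * L ∧ 4 * L ≤ 5 * L' ∧
    ((t = 0 ∧ L ≤ L') ∨ (t = 1 ∧ L' ≤ L) ∨ L = L')

/-- a fractional orientation: the end `u` of the edge `u v` gets `α u v`, each end at least `1/4` -/
def Quarter {V : Type} (H : SimpleGraph V) (α : V → V → ℝ) : Prop :=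
  ∀ u v, H.Adj u v → α u v + α v u = 1 ∧ 1 / 4 ≤ α u v

open Classical in
/-- what the vertex `u` gets -/
noncomputable def loadG {V : Type} [Fintype V] (H : SimpleGraph V) (α : V → V → ℝ) (u : V) : ℝ :=
  ∑ v ∈ univ.filter (fun v => H.Adj u v), α u v

/-- there is a fractional orientation, with each end getting at least a quarter of each edge, such
that any two vertices of one component get the same up to a factor at most `5/4` -/
def Balanced {V : Type} [Fintype V] (H : SimpleGraph V) : Prop :=
  ∃ α : V → V → ℝ, Quarter H α ∧ ∀ u v, H.Reachable u v → 4 * loadG H α u ≤ 5 * loadG H α v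

/-- `G` contains all balanced graphs without isolated vertices and with at most `m` edges -/
def UnivBal (m : ℕ) {W : Type} (G : SimpleGraph W) : Prop :=
  ∀ (n : ℕ) (H : SimpleGraph (Fin n)), H.edgeSet.ncard ≤ m → (∀ v, ∃ w, H.Adj v w) →
    Balanced H → H.IsContained G

end Pool.Agent.Lib.MP_1f2a9f_co.KW
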