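import Pool.Agent.Lib.MP_1f2a9f_co.KW.Hyper
import Pool.Agent.Lib.MP_1f2a9f_co.KW.Contained

/-!
# KW, row AD (Dense): board ug_mod

Transport to `T` = the pairs of `Fin n` (`Sym2` without the diagonal, or
`{p : Fin n × Fin n // p.1 < p.2}`): graphs with `m` edges = `m`-subsets of `T`; `A` = the pairs
inside `U`, `|A| = C(|U|,2)`; Markov's inequality for `sum_pow_inter`;
`C(k,2)/C(n,2) ≤ k^2/n^2`, `1 + y ≤ exp y`.
-/

set_option autoImplicit false

namespace Pool.Agent.Lib.MP_1f2a9f_co.KW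

open Finset Pool.Agent.Lib.MP_1f2a9f_co

open Classical in
theorem ad_half {n : ℕ} (r : Fin n → Fin n → Prop) (hs : ∀ u v, r u v → r v u)
    (hi : ∀ u, ¬ r u u) (U : Finset (Fin n)) :
    ((U ×ˢ U).filter (fun p => r p.1 p.2)).card =
      2 * ((U ×ˢ U).filter (fun p => r p.1 p.2 ∧ p.1 < p.2)).card := by
  have h1 : (U ×ˢ U).filter (fun p => r p.1 p.2) =
      (U ×ˢ U).filter (fun p => r p.1 p.2 ∧ p.1 < p.2) ∪
        (U ×ˢ U).filter (fun p => r p.1 p.2 ∧ p.2 < p.1) := by
    ext ⟨u, v⟩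
    simp only [mem_filter, mem_product, mem_union]
    constructor
    · rintro ⟨h, hr⟩
      rcases lt_trichotomy u v with h2 | h2 | h2
      · exact Or.inl ⟨h, hr, h2⟩
      · subst h2
        exact absurd hr (hi u)
      · exact Or.inr ⟨h, hr, h2⟩
    · rintro (⟨h, hr, _⟩ | ⟨h, hr, _⟩) <;> exact ⟨h, hr⟩
  have h2 : ((U ×ˢ U).filter (fun p => r p.1 p.2 ∧ p.2 < p.1)).card =
      ((U ×ˢ U).filter (fun p => r p.1 p.2 ∧ p.1 < p.2)).card := by
    apply Finset.card_bij (fun p _ => (p.2, p.1))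
    · rintro ⟨u, v⟩ h
      simp only [mem_filter, mem_product] at h ⊢
      exact ⟨⟨h.1.2, h.1.1⟩, hs _ _ h.2.1, h.2.2⟩
    · rintro ⟨u, v⟩ _ ⟨u', v'⟩ _ h
      simp only [Prod.mk.injEq] at h ⊢
      exact ⟨h.2, h.1⟩
    · rintro ⟨u, v⟩ h
      simp only [mem_filter, mem_product] at h
      refine ⟨(v, u), ?_, rfl⟩
      simp only [mem_filter, mem_product]
      exact ⟨⟨h.1.2, h.1.1⟩, hs _ _ h.2.1, h.2.2⟩
  rw [h1, Finset.card_union_of_disjoint, h2, two_mul]
  rw [Finset.disjoint_left]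
  rintro ⟨u, v⟩ h3 h4
  simp only [mem_filter, mem_product] at h3 h4
  exact absurd h3.2.2 (not_lt.mpr h4.2.2.le)

/-- the pairs -/
abbrev adT (n : ℕ) : Type := {p : Fin n × Fin n // p.1 < p.2}

open Classical in
/-- the set of the edges -/
noncomputable def adE {n : ℕ} (H : SimpleGraph (Fin n)) : Finset (adT n) :=
  univ.filter (fun p => H.Adj p.1.1 p.1.2)

open Classical in
/-- the pairs inside `U` -/
noncomputable def adA {n : ℕ} (U : Finset (Fin n)) : Finset (adT n) :=
  univ.filter (fun p => p.1.1 ∈ U ∧ p.1.2 ∈ U)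

open Classical in
theorem ad_card_sub {n : ℕ} (U : Finset (Fin n)) (r : Fin n → Fin n → Prop) :
    ((U ×ˢ U).filter (fun p => r p.1 p.2 ∧ p.1 < p.2)).card =
      ((adA U).filter (fun p => r p.1.1 p.1.2)).card := by
  symm
  apply Finset.card_bij (fun p _ => p.1)
  · intro p hp
    simp only [adA, mem_filter, mem_univ, true_and, mem_product] at hp ⊢
    exact ⟨hp.1, hp.2, p.2⟩
  · intro p _ q _ h
    exact Subtype.ext h
  · rintro ⟨u, v⟩ hp
    simp only [mem_filter, mem_product] at hp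
    refine ⟨⟨(u, v), hp.2.2⟩, ?_, rfl⟩
    simp only [adA, mem_filter, mem_univ, true_and]
    exact ⟨hp.1, hp.2.1⟩

theorem adE_inj {n : ℕ} {H H' : SimpleGraph (Fin n)} (h : adE H = adE H') : H = H' := by
  classical
  have key : ∀ u v : Fin n, u < v → (H.Adj u v ↔ H'.Adj u v) := by
    intro u v huv
    have h1 : (⟨(u, v), huv⟩ : adT n) ∈ adE H ↔ (⟨(u, v), huv⟩ : adT n) ∈ adE H' := by rw [h]
    simpa only [adE, mem_filter, mem_univ, true_and] using h1
  ext u v
  rcases lt_trichotomy u v with h2 | h2 | h2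
  · exact key u v h2
  · subst h2
    exact ⟨fun h => absurd h (H.irrefl), fun h => absurd h (H'.irrefl)⟩
  · rw [H.adj_comm, H'.adj_comm]
    exact key v u h2

theorem adE_card {n : ℕ} (H : SimpleGraph (Fin n)) : (adE H).card = H.edgeSet.ncard := by
  classical
  have h1 : H.edgeSet = ((adE H).image (fun p => s(p.1.1, p.1.2)) : Finset (Sym2 (Fin n))) := by
    ext e
    induction e using Sym2.ind with
    | _ u v =>
      rw [SimpleGraph.mem_edgeSet, Finset.mem_coe, Finset.mem_image]
      constructor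
      · intro h
        rcases lt_trichotomy u v with h2 | h2 | h2
        · exact ⟨⟨(u, v), h2⟩, by simpa [adE] using h, rfl⟩
        · subst h2
          exact absurd h (H.irrefl)
        · exact ⟨⟨(v, u), h2⟩, by simpa [adE] using h.symm, Sym2.eq_swap⟩
      · rintro ⟨p, hp, he⟩
        simp only [adE, mem_filter, mem_univ, true_and] at hp
        rw [← SimpleGraph.mem_edgeSet, ← he, SimpleGraph.mem_edgeSet]
        exact hp
  rw [h1, Set.ncard_coe_finset, Finset.card_image_of_injective]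
  rintro ⟨⟨u, v⟩, h⟩ ⟨⟨u', v'⟩, h'⟩ he
  simp only [Sym2.eq_iff] at he
  rcases he with ⟨rfl, rfl⟩ | ⟨rfl, rfl⟩
  · rfl
  · exact absurd h (not_lt.mpr h'.le)

open Classical in
theorem ad_sum {n : ℕ} (H : SimpleGraph (Fin n)) (U : Finset (Fin n)) :
    ∑ u ∈ U, ((U.filter (fun v => H.Adj u v)).card : ℝ) = 2 * ((adE H ∩ adA U).card : ℝ) := by
  have h1 : ∑ u ∈ U, (U.filter (fun v => H.Adj u v)).card = 2 * (adE H ∩ adA U).card := by
    have h2 : adE H ∩ adA U = (adA U).filter (fun p => H.Adj p.1.1 p.1.2) := by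
      ext p
      simp only [adE, mem_inter, mem_filter, mem_univ, true_and]
      exact and_comm
    rw [h2, ← ad_card_sub U H.Adj, ← ad_half H.Adj (fun u v h => h.symm) (fun u => H.irrefl) U,
      Finset.card_filter, Finset.sum_product]
    refine Finset.sum_congr rfl fun u _ => ?_
    rw [Finset.card_filter]
  exact_mod_cast h1

theorem adA_card {n : ℕ} (U : Finset (Fin n)) : 2 * (adA U).card + U.card = U.card * U.card := by
  classical
  have h1 := ad_half (n := n) (fun u v => u ≠ v) (fun u v h => h.symm) (fun u h => h rfl) U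
  have h2 := ad_card_sub U (fun u v => u ≠ v)
  have h3 : ∀ inst : DecidablePred (fun p : adT n => p.1.1 ≠ p.1.2),
      (@Finset.filter _ _ inst (adA U)) = adA U := by
    intro inst
    ext p
    rw [mem_filter]
    exact ⟨fun h => h.1, fun h => ⟨h, p.2.ne⟩⟩
  rw [h3] at h2
  rw [h2] at h1
  have h4 : ∀ inst : DecidablePred (fun p : Fin n × Fin n => p.1 ≠ p.2),
      (@Finset.filter _ _ inst (U ×ˢ U)) = U.offDiag := by
    intro inst
    ext p
    simp only [mem_filter, mem_product, mem_offDiag]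
    tauto
  rw [h4, Finset.offDiag_card] at h1
  rw [← h1]
  have h5 : U.card ≤ U.card * U.card := by
    rcases Nat.eq_zero_or_pos U.card with h | h
    · rw [h]
    · exact Nat.le_mul_of_pos_left _ h
  omega

theorem adT_card (n : ℕ) : 2 * Fintype.card (adT n) + n = n * n := by
  classical
  have h1 := adA_card (univ : Finset (Fin n))
  have h2 : adA (univ : Finset (Fin n)) = univ := by
    ext p
    simp [adA]
  rw [h2, Finset.card_univ, Finset.card_univ, Fintype.card_fin] at h1
  exact h1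

theorem ad_ratio {n : ℕ} (hn : 2 ≤ n) (U : Finset (Fin n)) :
    ((adA U).card : ℝ) / Fintype.card (adT n) ≤ ((U.card : ℝ) / n) ^ 2 := by
  have h1 := adA_card U
  have h2 := adT_card n
  have hU : U.card ≤ n := by
    have := Finset.card_le_univ U
    rwa [Fintype.card_fin] at this
  have h1' : 2 * ((adA U).card : ℝ) + U.card = U.card * U.card := by exact_mod_cast h1
  have h2' : 2 * (Fintype.card (adT n) : ℝ) + n = n * n := by exact_mod_cast h2
  have hU' : (U.card : ℝ) ≤ n := by exact_mod_cast hU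
  have hn' : (2 : ℝ) ≤ n := by exact_mod_cast hn
  have hU0 : (0 : ℝ) ≤ U.card := Nat.cast_nonneg _
  set a := ((adA U).card : ℝ)
  set T := (Fintype.card (adT n) : ℝ)
  set k := (U.card : ℝ)
  have hT : 0 < T := by nlinarith
  rw [div_pow, div_le_div_iff₀ hT (by positivity)]
  have ea : a = (k * k - k) / 2 := by linarith
  have eT : T = (n * n - n) / 2 := by linarith
  rw [ea, eT]
  nlinarith [mul_nonneg hU0 (mul_nonneg (show (0 : ℝ) ≤ n by linarith) (sub_nonneg.mpr hU'))]

open Classical in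
theorem card_dense (n m : ℕ) (hn : 2 ≤ n) (U : Finset (Fin n)) (x t : ℝ) (hx : 1 ≤ x) :
    ({H ∈ Gr n m | 2 * t < ∑ u ∈ U, ((U.filter (fun v => H.Adj u v)).card : ℝ)}.ncard : ℝ) *
        x ^ t ≤
      (Gr n m).ncard * Real.exp ((x - 1) * m * ((U.card : ℝ) / n) ^ 2) := by
  have hx0 : 0 ≤ x := by linarith
  have hT : 0 < Fintype.card (adT n) := by
    have h := adT_card n
    have h2 : 2 * n ≤ n * n := Nat.mul_le_mul_right n hn
    omega
  set S : Set (SimpleGraph (Fin n)) :=
    {H ∈ Gr n m | 2 * t < ∑ u ∈ U, ((U.filter (fun v => H.Adj u v)).card : ℝ)} with hS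
  have hfin : S.Finite := Set.toFinite S
  rw [Set.ncard_eq_toFinset_card S hfin]
  have h1 : (hfin.toFinset.card : ℝ) * x ^ t ≤
      ∑ H ∈ hfin.toFinset, x ^ (adE H ∩ adA U).card := by
    rw [← nsmul_eq_mul]
    apply Finset.card_nsmul_le_sum
    intro H hH
    rw [Set.Finite.mem_toFinset, hS, Set.mem_ofPred_eq, ad_sum] at hH
    have h2 : t ≤ ((adE H ∩ adA U).card : ℝ) := by linarith [hH.2]
    calc x ^ t ≤ x ^ ((adE H ∩ adA U).card : ℝ) := Real.rpow_le_rpow_of_exponent_le hx h2
      _ = _ := Real.rpow_natCast _ _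
  have h2 : ∑ H ∈ hfin.toFinset, x ^ (adE H ∩ adA U).card =
      ∑ F ∈ hfin.toFinset.image adE, x ^ (F ∩ adA U).card := by
    rw [Finset.sum_image]
    intro H _ H' _ h
    exact adE_inj h
  have h3 : ∑ F ∈ hfin.toFinset.image adE, x ^ (F ∩ adA U).card ≤
      ∑ F ∈ powersetCard m (univ : Finset (adT n)), x ^ (F ∩ adA U).card := by
    refine Finset.sum_le_sum_of_subset_of_nonneg ?_ (fun _ _ _ => by positivity)
    intro F hF
    rw [Finset.mem_image] at hF
    obtain ⟨H, hH, rfl⟩ := hF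
    rw [Set.Finite.mem_toFinset, hS, Set.mem_ofPred_eq] at hH
    rw [Finset.mem_powersetCard]
    refine ⟨Finset.subset_univ _, ?_⟩
    rw [adE_card]
    exact hH.1
  have h4 := sum_pow_inter m hT (adA U) x hx
  have h5 : ((Fintype.card (adT n)).choose m : ℝ) = ((Gr n m).ncard : ℝ) := by
    rw [card_Gr, Nat.choose_two_right]
    have h := adT_card n
    have h6 : Fintype.card (adT n) = n * (n - 1) / 2 := by
      have h7 : n * (n - 1) + n = n * n := by
        obtain ⟨k, rfl⟩ : ∃ k, n = k + 1 := ⟨n - 1, by omega⟩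
        rw [Nat.add_sub_cancel]
        ring
      omega
    rw [h6]
  have h6 : (1 + (x - 1) * ((m : ℝ) / Fintype.card (adT n))) ^ (adA U).card ≤
      Real.exp ((x - 1) * m * ((U.card : ℝ) / n) ^ 2) := by
    have hTr : (0 : ℝ) < Fintype.card (adT n) := by exact_mod_cast hT
    have h7 : (0 : ℝ) ≤ (x - 1) * ((m : ℝ) / Fintype.card (adT n)) :=
      mul_nonneg (by linarith) (by positivity)
    calc (1 + (x - 1) * ((m : ℝ) / Fintype.card (adT n))) ^ (adA U).card
        ≤ Real.exp ((x - 1) * ((m : ℝ) / Fintype.card (adT n))) ^ (adA U).card := by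
          refine pow_le_pow_left₀ (by linarith) ?_ _
          have := Real.add_one_le_exp ((x - 1) * ((m : ℝ) / Fintype.card (adT n)))
          linarith
      _ = Real.exp ((adA U).card * ((x - 1) * ((m : ℝ) / Fintype.card (adT n)))) :=
          (Real.exp_nat_mul _ _).symm
      _ ≤ _ := by
          rw [Real.exp_le_exp]
          have h8 := ad_ratio hn U
          calc ((adA U).card : ℝ) * ((x - 1) * ((m : ℝ) / Fintype.card (adT n)))
              = (x - 1) * m * (((adA U).card : ℝ) / Fintype.card (adT n)) := by ring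
            _ ≤ _ := mul_le_mul_of_nonneg_left h8 (mul_nonneg (by linarith) (Nat.cast_nonneg _))
  calc (hfin.toFinset.card : ℝ) * x ^ t ≤ ∑ H ∈ hfin.toFinset, x ^ (adE H ∩ adA U).card := h1
    _ ≤ ∑ F ∈ powersetCard m (univ : Finset (adT n)), x ^ (F ∩ adA U).card := by
        rw [h2]
        exact h3
    _ ≤ ((Fintype.card (adT n)).choose m : ℝ) *
          (1 + (x - 1) * ((m : ℝ) / Fintype.card (adT n))) ^ (adA U).card := h4
    _ ≤ _ := by
        rw [h5]
        exact mul_le_mul_of_nonneg_left h6 (Nat.cast_nonneg _)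

end Pool.Agent.Lib.MP_1f2a9f_co.KW
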