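import Pool.Agent.Lib.MP_1f2a9f_co.KW.Defs3

/-!
# KW, row PG3 (ExMean): board ug3_mod

`e y = exG L L' y` is nondecreasing in `y ≥ 0`, so the sum is at most
`(R/L') ∫_0^L' e + e L'` and `e L' ≤ 3/4 L'`. With `L' = 1` (scaling) and `κ = L ∈ [4/5, 1]`:
`e y = 0` for `y ≤ y0 = sqrt (κ (1-κ)) ≤ κ`, and
`∫_y0^κ (3/4)((y^2+κ^2)/κ - 1) + ∫_κ^1 (3/2 y - 3/4) = κ^2/4 + y0 (1-κ)/2 ≤ κ/4` as `2 y0 ≤ κ` iff
`κ ≥ 4/5`. (Without integrals: compare `e (y_b) / R` with the increments of the antiderivative.)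
-/

set_option autoImplicit false

namespace Pool.Agent.Lib.MP_1f2a9f_co.KW

open Finset Pool.Agent.Lib.MP_1f2a9f_co

private noncomputable def PG3h (L L' y : ℝ) : ℝ :=
  3 / 2 * (if y ≤ L then (y ^ 2 + L ^ 2) / (2 * L) else y) - 3 / 4 * L'

private noncomputable def PG3H (L L' y : ℝ) : ℝ :=
  if y ≤ L then y ^ 3 / (4 * L) - 3 / 4 * (L' - L) * y else
    L ^ 2 / 4 + 3 / 4 * (y ^ 2 - L' * y)

private lemma PG3inc {L L' y z : ℝ} (hL : 0 < L) (hy : 0 ≤ y) (hyz : y ≤ z) :
    (z - y) * PG3h L L' y ≤ PG3H L L' z - PG3H L L' y := by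
  unfold PG3h PG3H
  by_cases h1 : y ≤ L
  · rw [if_pos h1, if_pos h1]
    by_cases h2 : z ≤ L
    · rw [if_pos h2]
      have h3 : (z ^ 3 / (4 * L) - 3 / 4 * (L' - L) * z) - (y ^ 3 / (4 * L) -
          3 / 4 * (L' - L) * y) - (z - y) * (3 / 2 * ((y ^ 2 + L ^ 2) / (2 * L)) - 3 / 4 * L') =
          (z - y) ^ 2 * (z + 2 * y) / (4 * L) := by
        field_simp
        ring
      have h4 : 0 ≤ (z - y) ^ 2 * (z + 2 * y) / (4 * L) := by
        have : 0 ≤ z := hy.trans hyz
        positivity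
      linarith
    · rw [if_neg h2]
      push Not at h2
      have h3 : (L ^ 2 / 4 + 3 / 4 * (z ^ 2 - L' * z)) - (y ^ 3 / (4 * L) -
          3 / 4 * (L' - L) * y) - (z - y) * (3 / 2 * ((y ^ 2 + L ^ 2) / (2 * L)) - 3 / 4 * L') =
          ((L - y) ^ 2 * (L + 2 * y) + 3 * ((z - L) * (z * L - y ^ 2))) / (4 * L) := by
        field_simp
        ring
      have h4 : 0 ≤ ((L - y) ^ 2 * (L + 2 * y) + 3 * ((z - L) * (z * L - y ^ 2))) / (4 * L) := by
        have h5 : 0 ≤ (L - y) ^ 2 * (L + 2 * y) := by positivity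
        have h6 : 0 ≤ z * L - y ^ 2 := by
          have h7 : y * y ≤ z * L := mul_le_mul hyz h1 hy (hy.trans hyz)
          nlinarith
        have h8 : 0 ≤ (z - L) * (z * L - y ^ 2) := mul_nonneg (by linarith) h6
        apply div_nonneg
        · linarith
        · positivity
      linarith
  · rw [if_neg h1, if_neg h1]
    push Not at h1
    rw [if_neg (not_le.mpr (lt_of_lt_of_le h1 hyz))]
    nlinarith [sq_nonneg (z - y)]

private lemma PG3mono {L L' y z : ℝ} (hL : 0 < L) (hy : 0 ≤ y) (hyz : y ≤ z) :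
    PG3h L L' y ≤ PG3h L L' z := by
  unfold PG3h
  by_cases h1 : y ≤ L
  · rw [if_pos h1]
    by_cases h2 : z ≤ L
    · rw [if_pos h2]
      have h3 : (y ^ 2 + L ^ 2) / (2 * L) ≤ (z ^ 2 + L ^ 2) / (2 * L) := by
        apply div_le_div_of_nonneg_right _ (by positivity)
        have := pow_le_pow_left₀ hy hyz 2
        linarith
      linarith
    · rw [if_neg h2]
      push Not at h2
      have h3 : (y ^ 2 + L ^ 2) / (2 * L) ≤ z := by
        rw [div_le_iff₀ (by positivity)]
        nlinarith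
      linarith
  · rw [if_neg h1]
    push Not at h1
    rw [if_neg (not_le.mpr (lt_of_lt_of_le h1 hyz))]
    linarith

private lemma PG3low {L L' y : ℝ} (hL : 0 < L) (hLL : L ≤ L') (hr : 4 * L' ≤ 5 * L)
    (hy : 0 ≤ y) (hyL : y ≤ L') : L ^ 2 / 4 - PG3H L L' y ≤ L * L' / 4 := by
  unfold PG3H
  by_cases h1 : y ≤ L
  · rw [if_pos h1]
    have h3 : L * L' / 4 - (L ^ 2 / 4 - (y ^ 3 / (4 * L) - 3 / 4 * (L' - L) * y)) =
        (y ^ 3 + L ^ 2 * (L' - L) - 3 * L * (L' - L) * y) / (4 * L) := by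
      field_simp
      ring
    have h4 : 0 ≤ y ^ 3 + L ^ 2 * (L' - L) - 3 * L * (L' - L) * y := by
      rcases le_total (3 * y) L with h5 | h5
      · have h6 : 0 ≤ L * (L' - L) * (L - 3 * y) :=
          mul_nonneg (mul_nonneg hL.le (by linarith)) (by linarith)
        have h7 : 0 ≤ y ^ 3 := by positivity
        nlinarith
      · have h6 : 0 ≤ L * (L / 4 - (L' - L)) * (3 * y - L) :=
          mul_nonneg (mul_nonneg hL.le (by linarith)) (by linarith)
        have h7 : 0 ≤ (y + L) * (y - L / 2) ^ 2 := by positivity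
        nlinarith
    have h5 : 0 ≤ (y ^ 3 + L ^ 2 * (L' - L) - 3 * L * (L' - L) * y) / (4 * L) :=
      div_nonneg h4 (by positivity)
    linarith
  · rw [if_neg h1]
    push Not at h1
    nlinarith [mul_nonneg (sub_nonneg.mpr h1.le) (sub_nonneg.mpr hyL), mul_pos hL hL]

private lemma PG3top {L L' : ℝ} (hL : 0 < L) (hLL : L ≤ L') : PG3H L L' L' = L ^ 2 / 4 := by
  unfold PG3H
  by_cases h1 : L' ≤ L
  · have h2 : L' = L := le_antisymm h1 hLL
    rw [if_pos h1, h2]
    field_simp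
    ring
  · rw [if_neg h1]
    ring

private lemma PG3ex (L L' y : ℝ) : exG L L' y = max 0 (PG3h L L' y) := rfl

theorem ex_mean (L L' : ℝ) (hL : 0 < L) (hLL : L ≤ L') (hr : 4 * L' ≤ 5 * L) (R : ℕ)
    (hR : 0 < R) :
    ∑ b : Fin R, exG L L' (L' * ((b : ℝ) + 1) / R) ≤ R * (L / 4) + L' := by
  have hL' : 0 < L' := lt_of_lt_of_le hL hLL
  have hR' : (0 : ℝ) < R := by exact_mod_cast hR
  rw [Fin.sum_univ_eq_sum_range (fun b => exG L L' (L' * ((b : ℝ) + 1) / R)) R]
  obtain ⟨N, rfl⟩ : ∃ N, R = N + 1 := ⟨R - 1, by omega⟩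
  set R' : ℝ := ((N + 1 : ℕ) : ℝ) with hRdef
  set y : ℕ → ℝ := fun b => L' * ((b : ℝ) + 1) / R' with hy
  have hy0 : ∀ b, 0 ≤ y b := by
    intro b
    rw [hy]
    positivity
  have hystep : ∀ b, y (b + 1) - y b = L' / R' := by
    intro b
    rw [hy]
    simp only
    push_cast
    field_simp
    ring
  have hymono : ∀ b, y b ≤ y (b + 1) := by
    intro b
    have h1 := hystep b
    have h2 : 0 < L' / R' := by positivity
    linarith
  have hyN : y N = L' := by
    rw [hy, hRdef]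
    simp only
    push_cast
    field_simp
  have hyle : ∀ b, b ≤ N → y b ≤ L' := by
    intro b hb
    rw [← hyN]
    have h1 : ((b : ℕ) : ℝ) ≤ (N : ℝ) := by exact_mod_cast hb
    rw [hy]
    simp only
    apply div_le_div_of_nonneg_right _ hR'.le
    apply mul_le_mul_of_nonneg_left _ hL'.le
    linarith
  have hmain : ∀ n, n ≤ N → (∑ b ∈ range n, (L' / R') * exG L L' (y b) = 0 ∨
      ∃ z, 0 ≤ z ∧ z ≤ L' ∧ 0 ≤ PG3h L L' (y n) ∧
        ∑ b ∈ range n, (L' / R') * exG L L' (y b) ≤ PG3H L L' (y n) - PG3H L L' z) := by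
    intro n
    induction n with
    | zero =>
      intro _
      left
      simp
    | succ n ih =>
      intro hn
      have ih' := ih (by omega)
      rw [Finset.sum_range_succ]
      have hinc := PG3inc (L' := L') hL (hy0 n) (hymono n)
      rw [hystep] at hinc
      have hmo := PG3mono (L' := L') hL (hy0 n) (hymono n)
      rcases le_or_gt (PG3h L L' (y n)) 0 with h1 | h1
      · have h2 : exG L L' (y n) = 0 := by
          rw [PG3ex, max_eq_left h1]
        rw [h2, mul_zero, add_zero]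
        rcases ih' with h3 | ⟨z, hz0, hz1, h4, h5⟩
        · left
          exact h3
        · right
          have h6 : PG3h L L' (y n) = 0 := le_antisymm h1 h4
          rw [h6, mul_zero] at hinc
          exact ⟨z, hz0, hz1, h4.trans hmo, by linarith⟩
      · have h2 : exG L L' (y n) = PG3h L L' (y n) := by
          rw [PG3ex, max_eq_right h1.le]
        rw [h2]
        right
        rcases ih' with h3 | ⟨z, hz0, hz1, h4, h5⟩
        · refine ⟨y n, hy0 n, hyle n (by omega), h1.le.trans hmo, ?_⟩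
          rw [h3, zero_add]
          exact hinc
        · exact ⟨z, hz0, hz1, h4.trans hmo, by linarith⟩
  have hfin : ∑ b ∈ range N, (L' / R') * exG L L' (y b) ≤ L * L' / 4 := by
    rcases hmain N le_rfl with h1 | ⟨z, hz0, hz1, _, h5⟩
    · rw [h1]
      positivity
    · rw [hyN, PG3top hL hLL] at h5
      have := PG3low hL hLL hr hz0 hz1
      linarith
  have hlast : exG L L' (y N) ≤ L' := by
    rw [hyN, PG3ex]
    apply max_le hL'.le
    unfold PG3h
    by_cases h1 : L' ≤ L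
    · have h2 : L' = L := le_antisymm h1 hLL
      rw [if_pos h1, h2]
      have h3 : (L ^ 2 + L ^ 2) / (2 * L) = L := by
        field_simp
        ring
      rw [h3]
      linarith
    · rw [if_neg h1]
      linarith
  rw [Finset.sum_range_succ]
  rw [← Finset.mul_sum] at hfin
  have h2 : ∑ b ∈ range N, exG L L' (y b) ≤ R' * (L / 4) := by
    have h3 : L' * (∑ b ∈ range N, exG L L' (y b)) ≤ L' * (R' * (L / 4)) := by
      have h4 : L' / R' * (∑ b ∈ range N, exG L L' (y b)) * R' =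
          L' * (∑ b ∈ range N, exG L L' (y b)) := by
        field_simp
      have h5 := mul_le_mul_of_nonneg_right hfin hR'.le
      rw [h4] at h5
      linarith
    exact le_of_mul_le_mul_left h3 hL'
  exact add_le_add h2 hlast

end Pool.Agent.Lib.MP_1f2a9f_co.KW
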