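import Pool.Agent.Lib.MP_1f2a9f_co.KW.Defs2

/-!
# KW, row EK (ExistsK): board ug2_mod

the smallest `k` with `χ/2 ≤ uu ε k`.
-/

set_option autoImplicit false

namespace Pool.Agent.Lib.MP_1f2a9f_co.KW

open Finset Pool.Agent.Lib.MP_1f2a9f_co

theorem exists_k (ε χ : ℝ) (hε : 0 < ε) (hε1 : ε ≤ 1 / 1000) (hχ : 1 ≤ χ) :
    ∃ k : ℕ, χ / 2 ≤ uu ε k ∧ uu ε k ≤ χ := by
  classical
  have h1 : ∃ k : ℕ, χ / 2 ≤ uu ε k := by
    obtain ⟨k, hk⟩ := pow_unbounded_of_one_lt (χ / 2 / ε) (by linarith : (1 : ℝ) < 1 + ε)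
    refine ⟨k, ?_⟩
    unfold uu
    rw [div_lt_iff₀ hε] at hk
    linarith
  refine ⟨Nat.find h1, Nat.find_spec h1, ?_⟩
  have h0 : Nat.find h1 ≠ 0 := by
    intro h
    have h2 := Nat.find_spec h1
    rw [h] at h2
    unfold uu at h2
    rw [pow_zero, mul_one] at h2
    linarith
  obtain ⟨j, hj⟩ := Nat.exists_eq_succ_of_ne_zero h0
  have h2 := Nat.find_min h1 (m := j) (by omega)
  rw [not_le] at h2
  rw [hj]
  unfold uu at h2 ⊢
  rw [Nat.succ_eq_add_one, pow_succ]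
  have h3 : ε * ((1 + ε) ^ j * (1 + ε)) = (ε * (1 + ε) ^ j) * (1 + ε) := by ring
  rw [h3]
  have h4 : (ε * (1 + ε) ^ j) * (1 + ε) ≤ χ / 2 * 2 :=
    mul_le_mul h2.le (by linarith) (by linarith) (by linarith)
  linarith

end Pool.Agent.Lib.MP_1f2a9f_co.KW
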