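import Pool.Agent.Lib.MP_1f2a9f_co.KW.RegExt
import Pool.Agent.Lib.MP_1f2a9f_co.Low1

/-!
# KW, row LH (Hosted): board ug_mod

Compare Low1.lean. The graph `i ~ b i d`, `i ~ i + 1` has degrees
`≤ 2 D + 2`; `exists_regular`; a `Δ`-regular graph on `n'` vertices has `n' Δ / 2` edges.
-/

set_option autoImplicit false

namespace Pool.Agent.Lib.MP_1f2a9f_co.KW

open Finset Pool.Agent.Lib.MP_1f2a9f_co

theorem lh_deg {n D : ℕ} (b : Fin n → Fin D → Fin n) (hb : InReg b) (v : Fin n) :
    ((Low1.pat b).neighborSet v).ncard ≤ 2 * D + 2 := by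
  classical
  let A : Finset (Fin n) := univ.image (fun d => b v d)
  let B : Finset (Fin n) := (univ.filter (fun p : Fin n × Fin D => b p.1 p.2 = v)).image Prod.fst
  let C : Finset (Fin n) := univ.filter (fun j => v.val + 1 = j.val)
  let E : Finset (Fin n) := univ.filter (fun j => j.val + 1 = v.val)
  have hA : A.card ≤ D := card_image_le.trans (by simp)
  have hB : B.card ≤ D := card_image_le.trans (by rw [hb v])
  have hC : C.card ≤ 1 := by
    refine card_le_one.2 fun x hx y hy => Fin.ext ?_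
    have h1 := (mem_filter.1 hx).2
    have h2 := (mem_filter.1 hy).2
    omega
  have hE : E.card ≤ 1 := by
    refine card_le_one.2 fun x hx y hy => Fin.ext ?_
    have h1 := (mem_filter.1 hx).2
    have h2 := (mem_filter.1 hy).2
    omega
  have hsub : (Low1.pat b).neighborSet v ⊆ ((A ∪ B ∪ (C ∪ E) : Finset (Fin n)) : Set (Fin n)) := by
    intro w hw
    rw [SimpleGraph.mem_neighborSet, Low1.pat, SimpleGraph.fromRel_adj] at hw
    obtain ⟨hne, h⟩ := hw
    rw [mem_coe, mem_union, mem_union, mem_union]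
    rcases h with (⟨d, hd⟩ | h) | (⟨d, hd⟩ | h)
    · exact Or.inl (Or.inl (mem_image.2 ⟨d, mem_univ _, hd⟩))
    · exact Or.inr (Or.inl (mem_filter.2 ⟨mem_univ _, h⟩))
    · exact Or.inl (Or.inr (mem_image.2 ⟨(w, d), mem_filter.2 ⟨mem_univ _, hd⟩, rfl⟩))
    · exact Or.inr (Or.inr (mem_filter.2 ⟨mem_univ _, h⟩))
  have h1 := Set.ncard_le_ncard hsub (Set.toFinite _)
  rw [Set.ncard_coe_finset] at h1
  have h2 := card_union_le (A ∪ B) (C ∪ E)
  have h3 := card_union_le A B
  have h4 := card_union_le C E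
  omega

theorem lh_edges {N Δ : ℕ} (H : SimpleGraph (Fin N)) (h : Reg H Δ) :
    2 * H.edgeSet.ncard = N * Δ := by
  classical
  have h1 := H.sum_degrees_eq_twice_card_edges
  have h2 : ∀ v, H.degree v = Δ := by
    intro v
    rw [← h v, ← SimpleGraph.card_neighborSet_eq_degree, Set.ncard_eq_toFinset_card',
      Set.toFinset_card]
  simp only [h2, sum_const, card_univ, Fintype.card_fin, smul_eq_mul] at h1
  rw [h1, ← SimpleGraph.coe_edgeFinset, Set.ncard_coe_finset]

theorem hostedR (m n D N : ℕ) (hn : 2 ≤ n)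
    (hnm : (n + (3 * (2 * D + 2) + 1)) * (2 * D + 2) ≤ 2 * m) (G : SimpleGraph (Fin N))
    (hG : UnivReg m G) (b : Fin n → Fin D → Fin n) (hb : InReg b) :
    ∃ φ : Fin n → Fin N, Function.Injective φ ∧
      (∀ i d, φ i = φ (b i d) ∨ G.Adj (φ i) (φ (b i d))) ∧ ∀ i, ∃ w, G.Adj (φ i) w := by
  obtain ⟨H', hreg, φ, hφ, hadj⟩ := exists_regular n (2 * D + 2) ⟨D + 1, by ring⟩ (by omega)
    (Low1.pat b) (lh_deg b hb)
  have he := lh_edges H' hreg
  obtain ⟨f⟩ := hG _ (2 * D + 2) H' (by omega) hreg (by omega)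
  refine ⟨fun i => f (φ i), fun i j h => hφ (f.injective h), ?_, ?_⟩
  · intro i d
    by_cases h : b i d = i
    · left; rw [h]
    · right
      apply f.toHom.map_adj
      apply hadj
      rw [Low1.pat, SimpleGraph.fromRel_adj]
      exact ⟨fun h' => h h'.symm, Or.inl (Or.inl ⟨d, rfl⟩)⟩
  · intro v
    have hpat : ∃ w, (Low1.pat b).Adj v w := by
      by_cases hv : v.val + 1 < n
      · refine ⟨⟨v.val + 1, hv⟩, ?_⟩
        rw [Low1.pat, SimpleGraph.fromRel_adj]
        refine ⟨?_, Or.inl (Or.inr rfl)⟩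
        intro h
        have := congrArg Fin.val h
        simp at this
      · refine ⟨⟨v.val - 1, by omega⟩, ?_⟩
        rw [Low1.pat, SimpleGraph.fromRel_adj]
        refine ⟨?_, Or.inr (Or.inr ?_)⟩
        · intro h
          have := congrArg Fin.val h
          simp at this
          omega
        · show v.val - 1 + 1 = v.val
          omega
    obtain ⟨w, hw⟩ := hpat
    exact ⟨f (φ w), f.toHom.map_adj (hadj _ _ hw)⟩

end Pool.Agent.Lib.MP_1f2a9f_co.KW
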