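import Pool.Agent.Lib.MP_1f2a9f_co.KW.Defs

/-!
# KW, row AM (Hyper): board ug_mod

Expand `x^k = ∑ (x-1)^i C(k,i)`: the sum is
`∑ A' ⊆ A, (x-1)^|A'| C(M - |A'|, m - |A'|)`, and `C(M-i, m-i) ≤ C(M,m) (m/M)^i`.
-/

set_option autoImplicit false

namespace Pool.Agent.Lib.MP_1f2a9f_co.KW

open Finset Pool.Agent.Lib.MP_1f2a9f_co

/-- the number of `m`-subsets containing a given set -/
private theorem am_count {T : Type} [Fintype T] [DecidableEq T] (m : ℕ) (B : Finset T)
    (hB : B.card ≤ m) :
    ((powersetCard m (univ : Finset T)).filter (fun F => B ⊆ F)).card ≤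
      (Fintype.card T - B.card).choose (m - B.card) := by
  have h1 : (powersetCard (m - B.card) (univ \ B : Finset T)).card =
      (Fintype.card T - B.card).choose (m - B.card) := by
    rw [card_powersetCard, card_univ_sdiff]
  rw [← h1]
  refine card_le_card_of_injOn (fun F => F \ B) ?_ ?_
  · intro F hF
    rw [mem_coe, mem_filter, mem_powersetCard] at hF
    obtain ⟨⟨-, hFm⟩, hBF⟩ := hF
    rw [mem_coe, mem_powersetCard]
    refine ⟨sdiff_subset_sdiff (subset_univ _) (Subset.refl _), ?_⟩
    rw [card_sdiff_of_subset hBF, hFm]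
  · intro F hF F' hF' h
    rw [mem_coe, mem_filter] at hF hF'
    have h' : F \ B = F' \ B := h
    rw [← sdiff_union_of_subset hF.2, h', sdiff_union_of_subset hF'.2]

/-- `C(M-b, m-b) ≤ C(M,m) (m/M)^b` -/
private theorem am_choose {M m : ℕ} (hM : 0 < M) (hmM : m ≤ M) :
    ∀ b : ℕ, b ≤ m → (((M - b).choose (m - b) : ℕ) : ℝ) ≤
      (M.choose m : ℝ) * ((m : ℝ) / M) ^ b := by
  intro b
  induction b with
  | zero => intro _; simp
  | succ b ih =>
    intro hb
    have ih' := ih (by omega)
    obtain ⟨u, hu⟩ : ∃ u, M - b = u + 1 := ⟨M - b - 1, by omega⟩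
    obtain ⟨v, hv⟩ : ∃ v, m - b = v + 1 := ⟨m - b - 1, by omega⟩
    have hu' : M - (b + 1) = u := by omega
    have hv' : m - (b + 1) = v := by omega
    rw [hu', hv']
    rw [hu, hv] at ih'
    have h1 : (u + 1) * u.choose v = (u + 1).choose (v + 1) * (v + 1) :=
      Nat.add_one_mul_choose_eq u v
    have h1r : ((u : ℝ) + 1) * (u.choose v : ℝ) = ((u + 1).choose (v + 1) : ℝ) * ((v : ℝ) + 1) := by
      exact_mod_cast h1
    have hu0 : (0 : ℝ) < (u : ℝ) + 1 := by positivity
    have hM0 : (0 : ℝ) < (M : ℝ) := by exact_mod_cast hM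
    have hratio : ((v : ℝ) + 1) / ((u : ℝ) + 1) ≤ (m : ℝ) / M := by
      rw [div_le_div_iff₀ hu0 hM0]
      have e1 : (u : ℝ) + 1 = M - b := by
        have : u + 1 + b = M := by omega
        have : ((u + 1 + b : ℕ) : ℝ) = M := by exact_mod_cast this
        push_cast at this; linarith
      have e2 : (v : ℝ) + 1 = m - b := by
        have : v + 1 + b = m := by omega
        have : ((v + 1 + b : ℕ) : ℝ) = m := by exact_mod_cast this
        push_cast at this; linarith
      rw [e1, e2]
      have h3 : (m : ℝ) ≤ M := by exact_mod_cast hmM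
      have h4 : (0 : ℝ) ≤ b := Nat.cast_nonneg _
      nlinarith
    have h2 : (u.choose v : ℝ) = ((u + 1).choose (v + 1) : ℝ) * (((v : ℝ) + 1) / ((u : ℝ) + 1)) := by
      rw [mul_div_assoc', eq_div_iff hu0.ne', ← h1r]; ring
    rw [h2, pow_succ, ← mul_assoc]
    have h5 : (0 : ℝ) ≤ ((v : ℝ) + 1) / ((u : ℝ) + 1) := by positivity
    exact mul_le_mul ih' hratio h5 (by positivity)

theorem sum_pow_inter {T : Type} [Fintype T] [DecidableEq T] (m : ℕ) (hT : 0 < Fintype.card T)
    (A : Finset T) (x : ℝ) (hx : 1 ≤ x) :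
    ∑ F ∈ powersetCard m (univ : Finset T), x ^ (F ∩ A).card ≤
      ((Fintype.card T).choose m : ℝ) * (1 + (x - 1) * (m / Fintype.card T)) ^ A.card := by
  rcases lt_or_ge (Fintype.card T) m with hlt | hmM
  · rw [powersetCard_eq_empty.2 (by rw [card_univ]; exact hlt), sum_empty,
      Nat.choose_eq_zero_of_lt hlt]
    simp
  have hx0 : (0 : ℝ) ≤ x - 1 := by linarith
  have h1 : ∀ F : Finset T, x ^ (F ∩ A).card = ∑ B ∈ (F ∩ A).powerset, (x - 1) ^ B.card := by
    intro F
    have h := sum_pow_mul_eq_add_pow (x - 1) 1 (F ∩ A)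
    simp only [one_pow, mul_one, sub_add_cancel] at h
    exact h.symm
  have h2 : ∑ F ∈ powersetCard m (univ : Finset T), x ^ (F ∩ A).card =
      ∑ B ∈ A.powerset, ∑ F ∈ (powersetCard m (univ : Finset T)).filter (fun F => B ⊆ F),
        (x - 1) ^ B.card := by
    rw [sum_congr rfl (fun F _ => h1 F)]
    refine sum_comm' ?_
    intro F B
    simp only [mem_powerset, mem_filter, subset_inter_iff]
    tauto
  rw [h2]
  have h3 : ((Fintype.card T).choose m : ℝ) * (1 + (x - 1) * (m / Fintype.card T)) ^ A.card =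
      ∑ B ∈ A.powerset, ((Fintype.card T).choose m : ℝ) *
        ((x - 1) * (m / Fintype.card T)) ^ B.card := by
    rw [← mul_sum]
    have h := sum_pow_mul_eq_add_pow ((x - 1) * ((m : ℝ) / Fintype.card T)) 1 A
    simp only [one_pow, mul_one] at h
    rw [h, add_comm]
  rw [h3]
  refine sum_le_sum (fun B hB => ?_)
  rw [sum_const, nsmul_eq_mul, mul_pow]
  have h4 : (((powersetCard m (univ : Finset T)).filter (fun F => B ⊆ F)).card : ℝ) ≤
      ((Fintype.card T).choose m : ℝ) * ((m : ℝ) / Fintype.card T) ^ B.card := by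
    rcases lt_or_ge m B.card with hl | hle
    · have h5 : (powersetCard m (univ : Finset T)).filter (fun F => B ⊆ F) = ∅ := by
        rw [filter_eq_empty_iff]
        intro F hF hBF
        have := card_le_card hBF
        rw [(mem_powersetCard.1 hF).2] at this
        omega
      rw [h5, card_empty, Nat.cast_zero]
      positivity
    · calc (((powersetCard m (univ : Finset T)).filter (fun F => B ⊆ F)).card : ℝ) ≤
          (((Fintype.card T - B.card).choose (m - B.card) : ℕ) : ℝ) := by
            exact_mod_cast am_count m B hle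
        _ ≤ _ := am_choose hT hmM _ hle
  calc _ ≤ (((Fintype.card T).choose m : ℝ) * ((m : ℝ) / Fintype.card T) ^ B.card) *
        (x - 1) ^ B.card := mul_le_mul_of_nonneg_right h4 (pow_nonneg hx0 _)
    _ = _ := by ring

end Pool.Agent.Lib.MP_1f2a9f_co.KW
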