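import Pool.Agent.Lib.MP_1f2a9f_co.KW.Defs
import Pool.Agent.Lib.MP_1f2a9f_co.Low2

/-!
# KW, row LI (Image): board ug_mod

Copy of the proof of `exists_image` (Low2.lean) with the total mass
`|𝔅| ≥ β n^(nD)` in place of `n^(nD)`; all lemmas `Low2.*` can be used.
-/

set_option autoImplicit false

namespace Pool.Agent.Lib.MP_1f2a9f_co.KW

open Finset Pool.Agent.Lib.MP_1f2a9f_co

theorem exists_imageB (n D N E : ℕ) (hn : 1 ≤ n) (hD : 2 ≤ D) (G : SimpleGraph (Fin N))
    (hE : G.edgeSet.ncard ≤ E) (hE0 : 0 < E) (BB : Set (Fin n → Fin D → Fin n))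
    (hG : ∀ b ∈ BB, ∃ φ : Fin n → Fin N, Function.Injective φ ∧
      (∀ i d, φ i = φ (b i d) ∨ G.Adj (φ i) (φ (b i d))) ∧ ∀ i, ∃ w, G.Adj (φ i) w)
    (β : ℝ) (hβ : 0 < β) (hBB : β * (n : ℝ) ^ (n * D) ≤ BB.ncard)
    (κ : ℝ) (hκ : 0 < κ)
    (hnum : (4 * (E : ℝ) / n) ^ n * Real.exp (-(κ * n * (D - 1))) ≤ β / 2) :
    ∃ S : Finset (Fin N), S.card = n ∧
      (n : ℝ) ^ (n * D) * (β / 2 * Real.exp (-(κ * n)) * (n.factorial / (4 * (E : ℝ) / n) ^ n)) ≤
      ({b : Fin n → Fin D → Fin n | ∃ φ : Fin n → Fin N, Function.Injective φ ∧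
        Finset.image φ univ = S ∧ ∀ i d, φ i = φ (b i d) ∨ G.Adj (φ i) (φ (b i d))}.ncard : ℝ) := by
  classical
  have hnpos : (0 : ℝ) < n := by exact_mod_cast hn
  have hEpos : (0 : ℝ) < E := by exact_mod_cast hE0
  set X : ℝ := 4 * (E : ℝ) / n with hX
  have hXpos : 0 < X := by positivity
  have hfpos : (0 : ℝ) < n.factorial := by exact_mod_cast n.factorial_pos
  set T : ℝ := (n : ℝ) ^ (n * D) with hT
  have hTpos : 0 < T := by positivity
  have hBpos : (0 : ℝ) < BB.ncard := lt_of_lt_of_le (by positivity) hBB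
  have hBne : BB.Nonempty := by
    rw [Set.nonempty_iff_ne_empty]
    rintro rfl
    simp at hBpos
  obtain ⟨b0, hb0⟩ := hBne
  have : Nonempty (Fin n → Fin N) := ⟨(hG b0 hb0).choose⟩
  choose! Φ hΦ1 hΦ2 hΦ3 using hG
  -- the fibres
  let F : Finset (Fin N) → Finset (Fin n → Fin D → Fin n) := fun S =>
    (univ : Finset (Fin n → Fin D → Fin n)).filter (fun b => b ∈ BB ∧ image (Φ b) univ = S)
  let c : Finset (Fin N) → ℝ := fun S => ((F S).card : ℝ)
  let P : Finset (Fin N) → ℝ := fun S => ∏ v ∈ S, Low2.gw n G v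
  have hP0 : ∀ S, 0 ≤ P S := fun S => Finset.prod_nonneg fun v _ => Low2.gw_nonneg n G v
  let A : Finset (Finset (Fin N)) := powersetCard n (univ : Finset (Fin N))
  have hA : ∀ S ∈ A, S.card = n := fun S hS => (mem_powersetCard.mp hS).2
  -- total mass
  have htot : β * T ≤ ∑ S ∈ A, c S := by
    have h1 : ((univ : Finset (Fin n → Fin D → Fin n)).filter (fun b => b ∈ BB)).card =
        ∑ S ∈ A, (((univ : Finset (Fin n → Fin D → Fin n)).filter (fun b => b ∈ BB)).filter
          (fun b => image (Φ b) univ = S)).card := by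
      apply Finset.card_eq_sum_card_fiberwise
      intro b hb
      have hb' : b ∈ BB := (mem_filter.mp (mem_coe.mp hb)).2
      have : (image (Φ b) univ).card = n := by
        rw [Finset.card_image_of_injective _ (hΦ1 b hb'), card_univ, Fintype.card_fin]
      exact mem_coe.mpr (mem_powersetCard.mpr ⟨subset_univ _, this⟩)
    have h2 : BB.ncard = ((univ : Finset (Fin n → Fin D → Fin n)).filter (fun b => b ∈ BB)).card := by
      rw [← Set.ncard_coe_finset]
      congr 1
      ext b
      simp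
    have h3 : (∑ S ∈ A, c S) = (BB.ncard : ℝ) := by
      rw [h2, h1]
      push_cast
      refine Finset.sum_congr rfl fun S _ => ?_
      simp only [c, F]
      rw [filter_filter]
    rw [h3]
    exact hBB
  -- weight of the product
  have hPsum : ∑ S ∈ A, P S ≤ X ^ n / n.factorial := by
    have h1 := Low2.esymm_le n N (Low2.gw n G) (Low2.gw_nonneg n G)
    have h2 : (∑ v, Low2.gw n G v) ^ n ≤ X ^ n :=
      pow_le_pow_left₀ (Finset.sum_nonneg fun v _ => Low2.gw_nonneg n G v)
        (Low2.sum_gw n E hn G hE) n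
    rw [le_div_iff₀ hfpos, mul_comm]
    exact h1.trans h2
  -- the fibre bound
  have hfib : ∀ S ∈ A, c S ≤ n.factorial * (T * P S ^ D) := by
    intro S hS
    have hsub : F S ⊆ ((univ : Finset (Fin n → Fin N)).filter
        (fun f => Function.Injective f ∧ image f univ = S)).biUnion (fun f =>
          if (∀ i, ∃ w, G.Adj (f i) w) then
            (univ : Finset (Fin n → Fin D → Fin n)).filter
              (fun b => ∀ i d, f i = f (b i d) ∨ G.Adj (f i) (f (b i d))) else ∅) := by
      intro b hb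
      simp only [F, mem_filter, mem_univ, true_and] at hb
      rw [mem_biUnion]
      refine ⟨Φ b, by simp [hb.2, hΦ1 b hb.1], ?_⟩
      rw [if_pos (hΦ3 b hb.1)]
      simp only [mem_filter, mem_univ, true_and]
      exact hΦ2 b hb.1
    have h1 : c S ≤ ∑ f ∈ (univ : Finset (Fin n → Fin N)).filter
        (fun f => Function.Injective f ∧ image f univ = S), T * P S ^ D := by
      have h2 : ((F S).card : ℝ) ≤ ∑ f ∈ (univ : Finset (Fin n → Fin N)).filter
        (fun f => Function.Injective f ∧ image f univ = S), ((if (∀ i, ∃ w, G.Adj (f i) w) then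
            (univ : Finset (Fin n → Fin D → Fin n)).filter
              (fun b => ∀ i d, f i = f (b i d) ∨ G.Adj (f i) (f (b i d))) else ∅).card : ℝ) := by
        have := (Finset.card_le_card hsub).trans Finset.card_biUnion_le
        exact_mod_cast this
      refine h2.trans (Finset.sum_le_sum ?_)
      intro f hf
      simp only [mem_filter, mem_univ, true_and] at hf
      by_cases hi : ∀ i, ∃ w, G.Adj (f i) w
      · rw [if_pos hi]
        have := Low2.card_hosted (D := D) hn G f hf.1 hi
        rw [hf.2] at this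
        exact this
      · rw [if_neg hi]
        simp only [card_empty, Nat.cast_zero]
        have := hP0 S
        positivity
    rw [Finset.sum_const, Low2.card_inj n N S (hA S hS), nsmul_eq_mul] at h1
    exact h1
  -- heavy and light sets
  set q : ℝ := Real.exp (-(κ * n)) with hq
  have hqpos : 0 < q := Real.exp_pos _
  let Hv := A.filter (fun S => q ≤ P S)
  have hlight : ∑ S ∈ A.filter (fun S => ¬ q ≤ P S), c S ≤ β * T / 2 := by
    have h1 : ∀ S ∈ A.filter (fun S => ¬ q ≤ P S),
        c S ≤ n.factorial * T * q ^ (D - 1) * P S := by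
      intro S hS
      rw [mem_filter, not_le] at hS
      refine (hfib S hS.1).trans ?_
      have h2 : P S ^ D = P S ^ (D - 1) * P S := by
        rw [← pow_succ]; congr 1; omega
      rw [h2]
      have h3 : P S ^ (D - 1) ≤ q ^ (D - 1) := pow_le_pow_left₀ (hP0 S) hS.2.le _
      have h4 : P S ^ (D - 1) * P S ≤ q ^ (D - 1) * P S :=
        mul_le_mul_of_nonneg_right h3 (hP0 S)
      calc (n.factorial : ℝ) * (T * (P S ^ (D - 1) * P S))
          ≤ n.factorial * (T * (q ^ (D - 1) * P S)) := by gcongr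
        _ = n.factorial * T * q ^ (D - 1) * P S := by ring
    refine (Finset.sum_le_sum h1).trans ?_
    rw [← Finset.mul_sum]
    have h5 : ∑ S ∈ A.filter (fun S => ¬ q ≤ P S), P S ≤ X ^ n / n.factorial :=
      (Finset.sum_le_sum_of_subset_of_nonneg (filter_subset _ _) (fun S _ _ => hP0 S)).trans hPsum
    have h6 : q ^ (D - 1) = Real.exp (-(κ * n * (D - 1))) := by
      rw [hq, ← Real.exp_nat_mul]
      congr 1
      rw [Nat.cast_sub (by omega)]
      push_cast
      ring
    calc (n.factorial : ℝ) * T * q ^ (D - 1) * ∑ S ∈ A.filter (fun S => ¬ q ≤ P S), P S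
        ≤ n.factorial * T * q ^ (D - 1) * (X ^ n / n.factorial) := by gcongr
      _ = T * (X ^ n * q ^ (D - 1)) := by field_simp
      _ ≤ T * (β / 2) := by
          rw [h6]
          exact mul_le_mul_of_nonneg_left hnum hTpos.le
      _ = β * T / 2 := by ring
  have hheavy : β * T / 2 ≤ ∑ S ∈ Hv, c S := by
    have := Finset.sum_filter_add_sum_filter_not A (fun S => q ≤ P S) c
    have h2 : ∑ S ∈ Hv, c S = (∑ S ∈ A, c S) - ∑ S ∈ A.filter (fun S => ¬ q ≤ P S), c S := by
      rw [← this]; ring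
    rw [h2]; linarith
  have hcardHv : (Hv.card : ℝ) * q ≤ X ^ n / n.factorial := by
    have h1 : (Hv.card : ℝ) * q ≤ ∑ S ∈ Hv, P S := by
      rw [← nsmul_eq_mul]
      apply Finset.card_nsmul_le_sum
      intro S hS
      exact (mem_filter.mp hS).2
    exact h1.trans ((Finset.sum_le_sum_of_subset_of_nonneg (filter_subset _ _)
      (fun S _ _ => hP0 S)).trans hPsum)
  -- pigeonhole
  set M : ℝ := T * (β / 2 * q * (n.factorial / X ^ n)) with hM
  have hex : ∃ S ∈ Hv, M ≤ c S := by
    by_contra hcon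
    push Not at hcon
    have hne : Hv.Nonempty := by
      by_contra h
      rw [Finset.not_nonempty_iff_eq_empty] at h
      rw [h, Finset.sum_empty] at hheavy
      have : 0 < β * T / 2 := by positivity
      linarith
    have h1 : ∑ S ∈ Hv, c S < ∑ S ∈ Hv, M := Finset.sum_lt_sum_of_nonempty hne hcon
    rw [Finset.sum_const, nsmul_eq_mul] at h1
    have h2 : (Hv.card : ℝ) * M = β * T / 2 * ((Hv.card : ℝ) * q * (n.factorial / X ^ n)) := by
      rw [hM]; ring
    have h3 : (Hv.card : ℝ) * q * (n.factorial / X ^ n) ≤ 1 := by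
      calc (Hv.card : ℝ) * q * (n.factorial / X ^ n)
          ≤ (X ^ n / n.factorial) * (n.factorial / X ^ n) := by gcongr
        _ = 1 := by field_simp
    have h4 : (Hv.card : ℝ) * M ≤ β * T / 2 := by
      rw [h2]
      exact mul_le_of_le_one_right (by positivity) h3
    linarith
  obtain ⟨S, hS, hMS⟩ := hex
  refine ⟨S, hA S (mem_filter.mp hS).1, hMS.trans ?_⟩
  have hsub : (↑(F S) : Set (Fin n → Fin D → Fin n)) ⊆
      {b : Fin n → Fin D → Fin n | ∃ φ : Fin n → Fin N, Function.Injective φ ∧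
        Finset.image φ univ = S ∧ ∀ i d, φ i = φ (b i d) ∨ G.Adj (φ i) (φ (b i d))} := by
    intro b hb
    simp only [F, coe_filter, mem_univ, true_and, Set.mem_ofPred_eq] at hb
    exact ⟨Φ b, hΦ1 b hb.1, hb.2, hΦ2 b hb.1⟩
  have h1 := Set.ncard_le_ncard hsub (Set.toFinite _)
  rw [Set.ncard_coe_finset] at h1
  change ((F S).card : ℝ) ≤ _
  exact_mod_cast h1


end Pool.Agent.Lib.MP_1f2a9f_co.KW
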