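import Pool.Agent.Lib.MP_1f2a9f_co.KW.Defs

/-!
# KW, row LC (InReg): board ug_mod

Every `b` with in-degrees `D` comes from at most `(D!)^n` permutations
`σ` of `Fin n × Fin D` (`b i d = (σ (i, d)).1`), so there are at least `(nD)! / (D!)^n`;
`(nD)! ≥ (nD/e)^(nD)`, `D! ≤ e D (D/e)^D`.
-/

set_option autoImplicit false

namespace Pool.Agent.Lib.MP_1f2a9f_co.KW

open Finset Pool.Agent.Lib.MP_1f2a9f_co

private theorem lc_fact_le (D : ℕ) (hD : 1 ≤ D) :
    (D.factorial : ℝ) ≤ (D : ℝ) ^ (D + 1) * Real.exp (1 - D) := by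
  induction D, hD using Nat.le_induction with
  | base => simp
  | succ D hD ih =>
    have hD' : (0 : ℝ) < D := by exact_mod_cast hD
    have h1 : (D : ℝ) / (D + 1) ≤ Real.exp (-(1 / ((D : ℝ) + 1))) := by
      have := Real.add_one_le_exp (-(1 / ((D : ℝ) + 1)))
      have e : -(1 / ((D : ℝ) + 1)) + 1 = (D : ℝ) / (D + 1) := by
        field_simp
        ring
      rwa [e] at this
    have h2 : ((D : ℝ) / (D + 1)) ^ (D + 1) ≤ Real.exp (-1) := by
      refine (pow_le_pow_left₀ (by positivity) h1 (D + 1)).trans (le_of_eq ?_)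
      rw [← Real.exp_nat_mul]
      congr 1
      push_cast
      field_simp
    rw [div_pow, div_le_iff₀ (by positivity)] at h2
    rw [Nat.factorial_succ]
    push_cast
    have e3 : Real.exp (1 - ((D : ℝ) + 1)) = Real.exp (-1) * Real.exp (1 - D) := by
      rw [← Real.exp_add]
      congr 1
      ring
    rw [e3]
    have h4 : (0 : ℝ) ≤ ((D : ℝ) + 1) * Real.exp (1 - D) := by positivity
    calc ((D : ℝ) + 1) * (D.factorial : ℝ) ≤ ((D : ℝ) + 1) * ((D : ℝ) ^ (D + 1) *
          Real.exp (1 - D)) := mul_le_mul_of_nonneg_left ih (by positivity)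
      _ = (((D : ℝ) + 1) * Real.exp (1 - D)) * (D : ℝ) ^ (D + 1) := by ring
      _ ≤ (((D : ℝ) + 1) * Real.exp (1 - D)) * (Real.exp (-1) * ((D : ℝ) + 1) ^ (D + 1)) :=
          mul_le_mul_of_nonneg_left h2 h4
      _ = _ := by ring

private theorem lc_fact_ge (N : ℕ) : (N : ℝ) ^ N * Real.exp (-N) ≤ (N.factorial : ℝ) := by
  have h1 := Real.pow_div_factorial_le_exp (N : ℝ) (Nat.cast_nonneg _) N
  have h2 : (0 : ℝ) < N.factorial := by exact_mod_cast N.factorial_pos
  rw [div_le_iff₀ h2] at h1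
  rw [Real.exp_neg, ← div_eq_mul_inv, div_le_iff₀ (Real.exp_pos _), mul_comm]
  exact h1

private theorem lc_count (n D : ℕ) :
    (n * D).factorial ≤ D.factorial ^ n * {b : Fin n → Fin D → Fin n | InReg b}.ncard := by
  classical
  let α := Fin n × Fin D
  let g : Equiv.Perm α → (Fin n → Fin D → Fin n) := fun σ i d => (σ (i, d)).1
  have hfib : ∀ b ∈ (univ : Finset (Equiv.Perm α)).image g,
      ((univ : Finset (Equiv.Perm α)).filter (fun σ => g σ = b)).card ≤ D.factorial ^ n := by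
    intro b hb
    obtain ⟨σ₀, -, rfl⟩ := Finset.mem_image.1 hb
    have hst := DomMulAct.stabilizer_card (fun a : α => a.1)
    have hD : ∀ i : Fin n, Fintype.card {a : α // a.1 = i} = D := by
      intro i
      let e : {a : α // a.1 = i} ≃ Fin D :=
        { toFun := fun a => a.1.2
          invFun := fun d => ⟨(i, d), rfl⟩
          left_inv := by
            rintro ⟨⟨j, d⟩, rfl⟩
            rfl
          right_inv := fun d => rfl }
      rw [Fintype.card_congr e, Fintype.card_fin]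
    simp only [hD, Finset.prod_const, Finset.card_univ, Fintype.card_fin] at hst
    rw [← hst, Fintype.card_subtype]
    refine Finset.card_le_card_of_injOn (fun σ => σ * σ₀⁻¹) ?_ ?_
    · intro σ hσ
      have hσ' : g σ = g σ₀ := (Finset.mem_filter.1 hσ).2
      simp only [Finset.coe_filter, Finset.mem_univ, true_and, Set.mem_ofPred_eq]
      funext a
      have := congrFun (congrFun hσ' (σ₀⁻¹ a).1) (σ₀⁻¹ a).2
      simpa [g] using this
    · intro σ _ τ _ h
      exact mul_right_cancel h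
  have h1 := Finset.card_le_mul_card_image (f := g) univ _ hfib
  rw [Finset.card_univ, Fintype.card_perm, Fintype.card_prod, Fintype.card_fin,
    Fintype.card_fin] at h1
  refine h1.trans (Nat.mul_le_mul_left _ ?_)
  rw [← Set.ncard_coe_finset]
  refine Set.ncard_le_ncard ?_ (Set.toFinite _)
  intro b hb
  obtain ⟨σ, -, rfl⟩ := Finset.mem_image.1 (Finset.mem_coe.1 hb)
  intro i
  have : ((univ : Finset (Fin n × Fin D)).filter (fun p => g σ p.1 p.2 = i)) =
      (({i} : Finset (Fin n)) ×ˢ (univ : Finset (Fin D))).map σ.symm.toEmbedding := by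
    ext p
    simp only [Finset.mem_filter, Finset.mem_univ, true_and, Finset.mem_map_equiv, g,
      Equiv.symm_symm]
    exact ⟨fun h => Finset.mem_product.2 ⟨Finset.mem_singleton.2 h, Finset.mem_univ _⟩,
      fun h => Finset.mem_singleton.1 (Finset.mem_product.1 h).1⟩
  rw [this, Finset.card_map, Finset.card_product]
  simp

theorem count_inreg (n D : ℕ) (hn : 1 ≤ n) (hD : 1 ≤ D) :
    (n : ℝ) ^ (n * D) * Real.exp (-(n * (2 + Real.log D))) ≤
      ({b : Fin n → Fin D → Fin n | InReg b}.ncard : ℝ) := by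
  have hD' : (0 : ℝ) < D := by exact_mod_cast hD
  have hn' : (0 : ℝ) < n := by exact_mod_cast hn
  set C : ℝ := ({b : Fin n → Fin D → Fin n | InReg b}.ncard : ℝ) with hC
  have h1 : (((n * D).factorial : ℕ) : ℝ) ≤ (D.factorial : ℝ) ^ n * C := by
    rw [hC]
    exact_mod_cast lc_count n D
  have h2 := lc_fact_ge (n * D)
  have h3 : (D.factorial : ℝ) ^ n ≤ ((D : ℝ) ^ (D + 1) * Real.exp (1 - D)) ^ n :=
    pow_le_pow_left₀ (Nat.cast_nonneg _) (lc_fact_le D hD) n
  have hC0 : 0 ≤ C := by rw [hC]; exact Nat.cast_nonneg _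
  have h4 : ((n * D : ℕ) : ℝ) ^ (n * D) * Real.exp (-((n * D : ℕ) : ℝ)) ≤
      ((D : ℝ) ^ (D + 1) * Real.exp (1 - D)) ^ n * C :=
    h2.trans (h1.trans (mul_le_mul_of_nonneg_right h3 hC0))
  have e1 : ((D : ℝ) ^ (D + 1) * Real.exp (1 - D)) ^ n =
      (D : ℝ) ^ (n * D) * Real.exp (-((n : ℝ) * D)) * (Real.exp (n * (1 + Real.log D))) := by
    have e2 : (D : ℝ) ^ (D + 1) = (D : ℝ) ^ D * Real.exp (Real.log D) := by
      rw [Real.exp_log hD', pow_succ]
    rw [e2, mul_pow, mul_pow, ← pow_mul, mul_comm D n, ← Real.exp_nat_mul, ← Real.exp_nat_mul,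
      mul_assoc, mul_assoc, ← Real.exp_add, ← Real.exp_add]
    congr 2
    ring
  rw [e1] at h4
  push_cast at h4
  rw [mul_pow] at h4
  have h5 : 0 < (D : ℝ) ^ (n * D) * Real.exp (-((n : ℝ) * D)) := by positivity
  have h6 : (n : ℝ) ^ (n * D) ≤ Real.exp (n * (1 + Real.log D)) * C := by
    have : ((D : ℝ) ^ (n * D) * Real.exp (-((n : ℝ) * D))) * (n : ℝ) ^ (n * D) ≤
        ((D : ℝ) ^ (n * D) * Real.exp (-((n : ℝ) * D))) *
          (Real.exp (n * (1 + Real.log D)) * C) := by
      refine le_trans (le_of_eq ?_) (h4.trans (le_of_eq ?_))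
      · ring
      · ring
    exact le_of_mul_le_mul_left this h5
  have h7 : (n : ℝ) ^ (n * D) * Real.exp (-(n * (2 + Real.log D))) ≤
      Real.exp (n * (1 + Real.log D)) * C * Real.exp (-(n * (2 + Real.log D))) :=
    mul_le_mul_of_nonneg_right h6 (Real.exp_pos _).le
  refine h7.trans ?_
  have h8 : Real.exp (n * (1 + Real.log D)) * C * Real.exp (-(n * (2 + Real.log D))) =
      C * Real.exp (-(n : ℝ)) := by
    rw [mul_right_comm, ← Real.exp_add, mul_comm]
    congr 2
    ring
  rw [h8]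
  have h9 : Real.exp (-(n : ℝ)) ≤ 1 := by
    rw [Real.exp_le_one_iff]
    linarith
  exact mul_le_of_le_one_right hC0 h9

end Pool.Agent.Lib.MP_1f2a9f_co.KW
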