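import Pool.Agent.Lib.MP_1f2a9f_co.KW.Defs

/-!
# KW, row AI (Isolated): board ug_mod

`G'` = `G` with `n` more isolated vertices; the isolated vertices of
`H` go there.
-/

set_option autoImplicit false

namespace Pool.Agent.Lib.MP_1f2a9f_co.KW

open Finset Pool.Agent.Lib.MP_1f2a9f_co

theorem add_isolated (n N : ℕ) (G : SimpleGraph (Fin N)) :
    ∃ G' : SimpleGraph (Fin (N + n)), G'.edgeSet.ncard = G.edgeSet.ncard ∧
      ∀ H : SimpleGraph (Fin n), (∀ (n1 : ℕ) (e : Fin n1 ↪ Fin n),
        (∀ v, ∃ v', (H.comap e).Adj v v') → (H.comap e).edgeSet.ncard ≤ H.edgeSet.ncard →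
          (H.comap e).IsContained G) → H.IsContained G' := by
  classical
  refine ⟨G.map (Fin.castAddEmb n), ?_, ?_⟩
  · rw [SimpleGraph.edgeSet_map]
    exact Set.ncard_image_of_injective _ (Function.Embedding.injective _)
  · intro H hH
    let e0 : Fin (Fintype.card {v : Fin n // ∃ w, H.Adj v w}) ≃ {v : Fin n // ∃ w, H.Adj v w} :=
      (Fintype.equivFin _).symm
    let e : Fin (Fintype.card {v : Fin n // ∃ w, H.Adj v w}) ↪ Fin n :=
      ⟨fun i => (e0 i).1, fun i j h => e0.injective (Subtype.ext h)⟩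
    have hes : ∀ v : Fin n, ∀ h : (∃ w, H.Adj v w), e (e0.symm ⟨v, h⟩) = v := by
      intro v h
      change (e0 (e0.symm ⟨v, h⟩)).1 = v
      rw [Equiv.apply_symm_apply]
    have h1 : ∀ v, ∃ v', (H.comap e).Adj v v' := by
      intro v
      obtain ⟨w, hw⟩ := (e0 v).2
      refine ⟨e0.symm ⟨w, _, hw.symm⟩, ?_⟩
      rw [SimpleGraph.comap_adj, hes]
      exact hw
    have h2 : (H.comap e).edgeSet.ncard ≤ H.edgeSet.ncard := by
      refine Set.ncard_le_ncard_of_injOn (e.sym2Map) ?_ ?_ (Set.toFinite _)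
      · intro x hx
        induction x using Sym2.ind with
        | _ a b =>
          simp only [SimpleGraph.mem_edgeSet, SimpleGraph.comap_adj] at hx
          simpa [Function.Embedding.sym2Map] using hx
      · exact fun x _ y _ h => e.sym2Map.injective h
    obtain ⟨c⟩ := hH _ e h1 h2
    let f : Fin n → Fin (N + n) := fun v =>
      if h : ∃ w, H.Adj v w then Fin.castAdd n (c (e0.symm ⟨v, h⟩)) else Fin.natAdd N v
    have hf1 : ∀ v, ∀ h : (∃ w, H.Adj v w), f v = Fin.castAdd n (c (e0.symm ⟨v, h⟩)) := by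
      intro v h
      simp only [f, h, dif_pos]
    have hf2 : ∀ v, (¬ ∃ w, H.Adj v w) → f v = Fin.natAdd N v := by
      intro v h
      simp only [f, h, dif_neg, not_false_eq_true]
    have hne : ∀ (a : Fin N) (b : Fin n), Fin.castAdd n a ≠ Fin.natAdd N b := by
      intro a b h
      have h' := congrArg Fin.val h
      simp only [Fin.val_castAdd, Fin.val_natAdd] at h'
      have := a.2
      omega
    refine ⟨⟨⟨f, ?_⟩, ?_⟩⟩
    · intro v w hvw
      have hv : ∃ u, H.Adj v u := ⟨w, hvw⟩
      have hw : ∃ u, H.Adj w u := ⟨v, hvw.symm⟩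
      rw [hf1 v hv, hf1 w hw]
      have hadj : (H.comap e).Adj (e0.symm ⟨v, hv⟩) (e0.symm ⟨w, hw⟩) := by
        rw [SimpleGraph.comap_adj, hes, hes]
        exact hvw
      have := c.toHom.map_rel hadj
      exact (SimpleGraph.map_adj _ _ _ _).2 ⟨_, _, this, rfl, rfl⟩
    · intro v w hvw
      change f v = f w at hvw
      by_cases hv : ∃ u, H.Adj v u
      · by_cases hw : ∃ u, H.Adj w u
        · rw [hf1 v hv, hf1 w hw] at hvw
          have h3 := c.injective' (Fin.castAdd_injective N n hvw)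
          have h4 := e0.symm.injective h3
          exact congrArg Subtype.val h4
        · rw [hf1 v hv, hf2 w hw] at hvw
          exact absurd hvw (hne _ _)
      · by_cases hw : ∃ u, H.Adj w u
        · rw [hf2 v hv, hf1 w hw] at hvw
          exact absurd hvw.symm (hne _ _)
        · rw [hf2 v hv, hf2 w hw] at hvw
          exact Fin.natAdd_injective _ _ hvw

end Pool.Agent.Lib.MP_1f2a9f_co.KW
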