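import Pool.Agent.Lib.MP_1f2a9f_co.KW.Defs

/-!
# KW, row AC (KintCst): board ug_mod

Inside: at most `((1+ε) α B/χ)^2` pairs; outside
`χ^2 exp (-1.9 χ) ≤ 1/χ ≤ ε`.
-/

set_option autoImplicit false

namespace Pool.Agent.Lib.MP_1f2a9f_co.KW

open Finset Pool.Agent.Lib.MP_1f2a9f_co

theorem kernel_wcst (ε χ α : ℝ) (B : ℕ) (hε : 0 < ε) (hε1 : ε ≤ 1 / 1000) (hα : 0 < α)
    (hα2 : 2 * α ≤ χ) (hB : 0 < B) : Kernel χ (wcst ε χ α B) := by
  refine ⟨fun x y => ?_, fun x y => ?_, fun x y => ?_⟩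
  · unfold wcst
    simp only [and_comm]
  · unfold wcst
    split_ifs
    · positivity
    · linarith
  · unfold wcst
    split_ifs
    · nlinarith
    · exact le_rfl

theorem kint_cst (ε χ α : ℝ) (B : ℕ) (hε : 0 < ε) (hε1 : ε ≤ 1 / 1000) (hα : 0 < α)
    (hχ : 1 / ε ≤ χ) (hB : 0 < B) :
    kint ε χ B (wcst ε χ α B) ≤
      α ^ 2 * Real.exp (-α) * Real.exp (15 * ε * (1 + α)) + ε := by
  classical
  have hχ0 : 0 < χ := lt_of_lt_of_le (by positivity) hχ
  have hχ1000 : 1000 ≤ χ := by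
    have : 1000 ≤ 1 / ε := by
      rw [le_div_iff₀ hε]
      linarith
    linarith
  have hB' : (0 : ℝ) < B := by exact_mod_cast hB
  set P : Finset (Fin B) :=
    univ.filter (fun x : Fin B => ((x : ℝ) + 1) * (χ / B) ≤ (1 + ε) * α) with hP
  set E1 := Real.exp (-((1 - 12 * ε) * ((1 + ε) * α))) with hE1
  set E2 := Real.exp (-((1 - 12 * ε) * (2 * χ))) with hE2
  have hE1n : 0 ≤ E1 := (Real.exp_pos _).le
  have hE2n : 0 ≤ E2 := (Real.exp_pos _).le
  have hcard : (P.card : ℝ) * (χ / B) ≤ (1 + ε) * α := by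
    have h1 : P.card ≤ ⌊(1 + ε) * α / (χ / B)⌋₊ := by
      calc P.card = (P.image (fun x : Fin B => (x : ℕ))).card :=
            (card_image_of_injective _ Fin.val_injective).symm
        _ ≤ (Finset.range ⌊(1 + ε) * α / (χ / B)⌋₊).card := by
          apply card_le_card
          intro i hi
          obtain ⟨x, hx, rfl⟩ := mem_image.mp hi
          rw [mem_range, Nat.lt_iff_add_one_le, Nat.le_floor_iff (by positivity),
            le_div_iff₀ (by positivity)]
          have := (mem_filter.mp hx).2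
          push_cast
          exact this
        _ = _ := card_range _
    have h2 : (P.card : ℝ) ≤ (1 + ε) * α / (χ / B) :=
      (Nat.cast_le.mpr h1).trans (Nat.floor_le (by positivity))
    rwa [le_div_iff₀ (by positivity)] at h2
  have hpt : ∀ x y : Fin B, Real.exp (-((1 - 12 * ε) * wcst ε χ α B x y)) ≤
      (if x ∈ P then (1 : ℝ) else 0) * (if y ∈ P then (1 : ℝ) else 0) * E1 + E2 := by
    intro x y
    unfold wcst
    by_cases h : ((x : ℝ) + 1) * (χ / B) ≤ (1 + ε) * α ∧ ((y : ℝ) + 1) * (χ / B) ≤ (1 + ε) * α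
    · rw [if_pos h]
      have hx : x ∈ P := mem_filter.mpr ⟨mem_univ _, h.1⟩
      have hy : y ∈ P := mem_filter.mpr ⟨mem_univ _, h.2⟩
      rw [if_pos hx, if_pos hy, one_mul, one_mul]
      linarith
    · rw [if_neg h]
      have h3 : (0 : ℝ) ≤ (if x ∈ P then (1 : ℝ) else 0) * (if y ∈ P then (1 : ℝ) else 0) * E1 := by
        refine mul_nonneg (mul_nonneg ?_ ?_) hE1n <;> split_ifs <;> norm_num
      linarith
  have hsumP : ∑ x : Fin B, (if x ∈ P then (1 : ℝ) else 0) = P.card := by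
    rw [Finset.sum_ite_mem, univ_inter, Finset.sum_const, nsmul_eq_mul, mul_one]
  have hsum : ∑ x : Fin B, ∑ y : Fin B, Real.exp (-((1 - 12 * ε) * wcst ε χ α B x y)) ≤
      (P.card : ℝ) ^ 2 * E1 + (B : ℝ) ^ 2 * E2 := by
    calc ∑ x : Fin B, ∑ y : Fin B, Real.exp (-((1 - 12 * ε) * wcst ε χ α B x y))
        ≤ ∑ x : Fin B, ∑ y : Fin B,
          ((if x ∈ P then (1 : ℝ) else 0) * (if y ∈ P then (1 : ℝ) else 0) * E1 + E2) :=
          sum_le_sum fun x _ => sum_le_sum fun y _ => hpt x y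
      _ = (∑ x : Fin B, (if x ∈ P then (1 : ℝ) else 0)) *
          (∑ y : Fin B, (if y ∈ P then (1 : ℝ) else 0)) * E1 + (B : ℝ) ^ 2 * E2 := by
          simp only [sum_add_distrib, sum_const, card_univ, Fintype.card_fin, nsmul_eq_mul,
            ← sum_mul, ← mul_sum]
          ring
      _ = (P.card : ℝ) ^ 2 * E1 + (B : ℝ) ^ 2 * E2 := by
          rw [hsumP]
          ring
  have hin : ((P.card : ℝ) * (χ / B)) ^ 2 * E1 ≤
      α ^ 2 * Real.exp (-α) * Real.exp (15 * ε * (1 + α)) := by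
    have h1 : ((P.card : ℝ) * (χ / B)) ^ 2 ≤ ((1 + ε) * α) ^ 2 :=
      pow_le_pow_left₀ (by positivity) hcard 2
    have h2 : (1 + ε) ^ 2 ≤ Real.exp (2 * ε) := by
      have h3 : 1 + ε ≤ Real.exp ε := by
        have := Real.add_one_le_exp ε
        linarith
      calc (1 + ε) ^ 2 ≤ (Real.exp ε) ^ 2 := pow_le_pow_left₀ (by positivity) h3 2
        _ = Real.exp (2 * ε) := by
          rw [← Real.exp_nat_mul]
          norm_num
    calc ((P.card : ℝ) * (χ / B)) ^ 2 * E1 ≤ ((1 + ε) * α) ^ 2 * E1 :=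
          mul_le_mul_of_nonneg_right h1 hE1n
      _ = α ^ 2 * ((1 + ε) ^ 2 * E1) := by ring
      _ ≤ α ^ 2 * (Real.exp (2 * ε) * E1) := by
          apply mul_le_mul_of_nonneg_left _ (by positivity)
          exact mul_le_mul_of_nonneg_right h2 hE1n
      _ ≤ α ^ 2 * (Real.exp (-α) * Real.exp (15 * ε * (1 + α))) := by
          apply mul_le_mul_of_nonneg_left _ (by positivity)
          rw [hE1, ← Real.exp_add, ← Real.exp_add]
          apply Real.exp_le_exp.mpr
          nlinarith [mul_pos hε hα, mul_nonneg hε.le hα.le,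
            mul_nonneg (sub_nonneg.mpr hε1) (mul_pos hε hα).le]
      _ = _ := by ring
  have hout : χ ^ 2 * E2 ≤ ε := by
    have h1 : E2 ≤ Real.exp (-χ) := by
      apply Real.exp_le_exp.mpr
      nlinarith
    have h2 : χ ^ 4 / 24 ≤ Real.exp χ := by
      have := Real.pow_div_factorial_le_exp χ hχ0.le 4
      norm_num [Nat.factorial] at this
      exact this
    have h3 : Real.exp (-χ) ≤ 24 / χ ^ 4 := by
      rw [Real.exp_neg, inv_eq_one_div, div_le_div_iff₀ (Real.exp_pos _) (by positivity)]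
      linarith
    have h4 : 1 / χ ≤ ε := by
      rw [div_le_iff₀ hχ0]
      rw [div_le_iff₀ hε] at hχ
      linarith
    calc χ ^ 2 * E2 ≤ χ ^ 2 * (24 / χ ^ 4) :=
          mul_le_mul_of_nonneg_left (h1.trans h3) (by positivity)
      _ = 24 / χ * (1 / χ) := by field_simp
      _ ≤ 1 * (1 / χ) := by
          apply mul_le_mul_of_nonneg_right _ (by positivity)
          rw [div_le_one hχ0]
          linarith
      _ ≤ ε := by rw [one_mul]; exact h4
  unfold kint
  calc (χ / B) ^ 2 * ∑ x : Fin B, ∑ y : Fin B, Real.exp (-((1 - 12 * ε) * wcst ε χ α B x y))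
      ≤ (χ / B) ^ 2 * ((P.card : ℝ) ^ 2 * E1 + (B : ℝ) ^ 2 * E2) :=
        mul_le_mul_of_nonneg_left hsum (by positivity)
    _ = ((P.card : ℝ) * (χ / B)) ^ 2 * E1 + χ ^ 2 * E2 := by
        field_simp
    _ ≤ _ := add_le_add hin hout

end Pool.Agent.Lib.MP_1f2a9f_co.KW
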