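import Pool.Agent.Lib.MP_1f2a9f_co.KW.Defs

/-!
# KW, row RC (KintMax): board ug_mod

With `q = exp (-(3/2)(1-12ε) χ/B)` the sum is
`∑ k < B, (2k+1) q^(k+1) ≤ q (1+q) / (1-q)^2` and `(1-q)^2 ≥ q (log q)^2` (or: `1 - q ≥ -log q · q`
twice is too weak, use `2 sinh (t/2) ≥ t`).
-/

set_option autoImplicit false

namespace Pool.Agent.Lib.MP_1f2a9f_co.KW

open Finset Pool.Agent.Lib.MP_1f2a9f_co

private theorem rc_max {B : ℕ} (x y : Fin B) :
    (((max x y : Fin B) : ℕ) : ℝ) = ((max (x : ℕ) (y : ℕ) : ℕ) : ℝ) := by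
  rcases le_total x y with h | h
  · rw [max_eq_right h, max_eq_right (show (x : ℕ) ≤ y from h)]
  · rw [max_eq_left h, max_eq_left (show (y : ℕ) ≤ x from h)]

private theorem rc_sum (f : ℕ → ℝ) (B : ℕ) :
    ∑ x ∈ range B, ∑ y ∈ range B, f (max x y) = ∑ k ∈ range B, (2 * (k : ℝ) + 1) * f k := by
  induction B with
  | zero => simp
  | succ B ih =>
    rw [sum_range_succ, sum_range_succ (fun k => (2 * (k : ℝ) + 1) * f k), ← ih]
    have h1 : ∑ x ∈ range B, ∑ y ∈ range (B + 1), f (max x y) =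
        ∑ x ∈ range B, ∑ y ∈ range B, f (max x y) + B * f B := by
      have h2 : ∀ x ∈ range B, ∑ y ∈ range (B + 1), f (max x y) =
          ∑ y ∈ range B, f (max x y) + f B := by
        intro x hx
        rw [sum_range_succ, max_eq_right (mem_range.1 hx).le]
      rw [sum_congr rfl h2, sum_add_distrib, sum_const, card_range, nsmul_eq_mul]
    have h3 : ∑ y ∈ range (B + 1), f (max B y) = (B + 1) * f B := by
      have h4 : ∀ y ∈ range (B + 1), f (max B y) = f B := by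
        intro y hy
        rw [max_eq_left (Nat.lt_succ_iff.1 (mem_range.1 hy))]
      rw [sum_congr rfl h4, sum_const, card_range, nsmul_eq_mul]
      push_cast
      ring
    rw [h1, h3]
    ring

private theorem rc_geom (q : ℝ) (B : ℕ) :
    (1 - q) ^ 2 * ∑ k ∈ range B, (2 * (k : ℝ) + 1) * q ^ (k + 1) =
      q * (1 + q) - q ^ (B + 1) * (2 * B + 1 - (2 * B - 1) * q) := by
  induction B with
  | zero =>
    rw [sum_range_zero]
    push_cast
    ring
  | succ B ih =>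
    rw [sum_range_succ, mul_add, ih]
    push_cast
    ring

theorem kernel_wmax (χ : ℝ) (hχ : 0 < χ) (B : ℕ) (hB : 0 < B) : Kernel χ (wmax χ B) := by
  have hBr : (0 : ℝ) < B := by exact_mod_cast hB
  refine ⟨fun x y => ?_, fun x y => ?_, fun x y => ?_⟩
  · unfold wmax
    rw [max_comm]
  · unfold wmax
    positivity
  · unfold wmax
    have h1 : (((max x y : Fin B) : ℕ) : ℝ) + 1 ≤ B := by
      exact_mod_cast (max x y).isLt
    have h2 : 0 < χ / B := div_pos hχ hBr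
    have h3 : ((((max x y : Fin B) : ℕ) : ℝ) + 1) * (χ / B) ≤ B * (χ / B) :=
      mul_le_mul_of_nonneg_right h1 h2.le
    have h4 : (B : ℝ) * (χ / B) = χ := mul_div_cancel₀ _ hBr.ne'
    nlinarith

theorem kint_max (ε χ : ℝ) (B : ℕ) (hε : 0 < ε) (hε1 : ε ≤ 1 / 1000) (hχ : 0 < χ) (hB : 0 < B) :
    kint ε χ B (wmax χ B) ≤ 8 / 9 + 30 * ε := by
  have hBr : (0 : ℝ) < B := by exact_mod_cast hB
  have h2 : 0 < χ / B := div_pos hχ hBr
  have he : 0 < 1 - 12 * ε := by linarith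
  obtain ⟨t, ht⟩ : ∃ t : ℝ, t = 3 / 2 * (1 - 12 * ε) * (χ / B) := ⟨_, rfl⟩
  have ht0 : 0 < t := by rw [ht]; positivity
  obtain ⟨q, hq⟩ : ∃ q : ℝ, q = Real.exp (-t) := ⟨_, rfl⟩
  have hq0 : 0 < q := by rw [hq]; exact Real.exp_pos _
  have hq1 : q < 1 := by
    rw [hq]
    exact Real.exp_lt_one_iff.2 (by linarith)
  -- the double sum
  have hsum : ∑ x : Fin B, ∑ y : Fin B, Real.exp (-((1 - 12 * ε) * wmax χ B x y)) =
      ∑ k ∈ range B, (2 * (k : ℝ) + 1) * q ^ (k + 1) := by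
    rw [← rc_sum (fun k => q ^ (k + 1)) B,
      ← Fin.sum_univ_eq_sum_range (fun x => ∑ y ∈ range B, q ^ (max x y + 1)) B]
    refine sum_congr rfl fun x _ => ?_
    rw [← Fin.sum_univ_eq_sum_range (fun y => q ^ (max (x : ℕ) y + 1)) B]
    refine sum_congr rfl fun y _ => ?_
    rw [hq, ← Real.exp_nat_mul]
    congr 1
    unfold wmax
    rw [rc_max, ht]
    push_cast
    ring
  -- `q t ^ 2 ≤ (1 - q) ^ 2`
  have hsq : q * t ^ 2 ≤ (1 - q) ^ 2 := by
    have h3 : t ≤ Real.exp (t / 2) - Real.exp (-(t / 2)) := by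
      have h4 := Real.self_le_sinh_iff.2 (by linarith : (0 : ℝ) ≤ t / 2)
      rw [Real.sinh_eq] at h4
      linarith
    have h4 : 1 - q = Real.exp (-(t / 2)) * (Real.exp (t / 2) - Real.exp (-(t / 2))) := by
      rw [mul_sub, ← Real.exp_add, ← Real.exp_add, hq]
      have e1 : -(t / 2) + t / 2 = 0 := by ring
      have e2 : -(t / 2) + -(t / 2) = -t := by ring
      rw [e1, e2, Real.exp_zero]
    have h5 : q = Real.exp (-(t / 2)) ^ 2 := by
      rw [hq, sq, ← Real.exp_add]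
      congr 1
      ring
    rw [h4, mul_pow, ← h5]
    exact mul_le_mul_of_nonneg_left (pow_le_pow_left₀ ht0.le h3 2) hq0.le
  have hS : t ^ 2 * ∑ k ∈ range B, (2 * (k : ℝ) + 1) * q ^ (k + 1) ≤ 2 := by
    have h3 := rc_geom q B
    have h4 : 0 ≤ q ^ (B + 1) * (2 * B + 1 - (2 * B - 1) * q) := by
      refine mul_nonneg (pow_nonneg hq0.le _) ?_
      nlinarith
    have h5 : (0 : ℝ) ≤ ∑ k ∈ range B, (2 * (k : ℝ) + 1) * q ^ (k + 1) :=
      sum_nonneg fun k _ => by positivity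
    have h6 := mul_le_mul_of_nonneg_right hsq h5
    have h7 : q * (t ^ 2 * ∑ k ∈ range B, (2 * (k : ℝ) + 1) * q ^ (k + 1)) ≤ q * 2 := by
      calc q * (t ^ 2 * ∑ k ∈ range B, (2 * (k : ℝ) + 1) * q ^ (k + 1))
          = q * t ^ 2 * ∑ k ∈ range B, (2 * (k : ℝ) + 1) * q ^ (k + 1) := by ring
        _ ≤ _ := h6
        _ ≤ q * (1 + q) := by linarith
        _ ≤ q * 2 := mul_le_mul_of_nonneg_left (by linarith) hq0.le
    exact le_of_mul_le_mul_left h7 hq0
  unfold kint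
  rw [hsum]
  obtain ⟨S, hSd⟩ : ∃ S : ℝ, S = ∑ k ∈ range B, (2 * (k : ℝ) + 1) * q ^ (k + 1) := ⟨_, rfl⟩
  rw [← hSd] at hS ⊢
  have h8 : 9 / 4 * (1 - 12 * ε) ^ 2 * ((χ / B) ^ 2 * S) ≤ 2 := by
    have : t ^ 2 * S = 9 / 4 * (1 - 12 * ε) ^ 2 * ((χ / B) ^ 2 * S) := by
      rw [ht]
      ring
    rw [← this]
    exact hS
  have h9 : 2 ≤ 9 / 4 * (1 - 12 * ε) ^ 2 * (8 / 9 + 30 * ε) := by
    nlinarith [mul_pos hε hε, mul_pos (mul_pos hε hε) hε, mul_nonneg hε.le (sub_nonneg.2 hε1)]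
  have h10 : 0 < 9 / 4 * (1 - 12 * ε) ^ 2 := by positivity
  exact le_of_mul_le_mul_left (h8.trans h9) h10

end Pool.Agent.Lib.MP_1f2a9f_co.KW
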