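import Pool.Agent.Lib.MP_1f2a9f_co.KW.Defs2

/-!
# KW, row KS (KintMaxSum): board ug2_mod

`max x y = z` for `2 z + 1` pairs.
-/

set_option autoImplicit false

namespace Pool.Agent.Lib.MP_1f2a9f_co.KW

open Finset Pool.Agent.Lib.MP_1f2a9f_co

private theorem ks_range (g : ℕ → ℝ) (B : ℕ) :
    ∑ x ∈ range B, ∑ y ∈ range B, g (max x y) = ∑ z ∈ range B, (2 * (z : ℝ) + 1) * g z := by
  induction B with
  | zero => simp
  | succ B ih =>
    rw [sum_range_succ, sum_range_succ (fun z => (2 * (z : ℝ) + 1) * g z)]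
    have h1 : ∑ x ∈ range B, ∑ y ∈ range (B + 1), g (max x y) =
        ∑ x ∈ range B, ∑ y ∈ range B, g (max x y) + B * g B := by
      have h2 : ∀ x ∈ range B, ∑ y ∈ range (B + 1), g (max x y) =
          ∑ y ∈ range B, g (max x y) + g B := by
        intro x hx
        rw [sum_range_succ, max_eq_right (mem_range.mp hx).le]
      rw [sum_congr rfl h2, sum_add_distrib, sum_const, card_range, nsmul_eq_mul]
    have h3 : ∑ y ∈ range (B + 1), g (max B y) = (B + 1) * g B := by
      have h4 : ∀ y ∈ range (B + 1), g (max B y) = g B := by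
        intro y hy
        rw [max_eq_left (Nat.lt_succ_iff.mp (mem_range.mp hy))]
      rw [sum_congr rfl h4, sum_const, card_range, nsmul_eq_mul]
      push_cast
      ring
    rw [h1, h3, ih]
    ring

theorem kint_kmax (ε χ : ℝ) (B : ℕ) (ω : Fin B → ℝ) :
    kint ε χ B (kmax ω) =
      (χ / B) ^ 2 * ∑ x : Fin B, (2 * (x : ℝ) + 1) * Real.exp (-((1 - 12 * ε) * ω x)) := by
  have hg : ∀ x : Fin B, (fun n : ℕ => if h : n < B then
      Real.exp (-((1 - 12 * ε) * ω ⟨n, h⟩)) else 0) (x : ℕ) =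
      Real.exp (-((1 - 12 * ε) * ω x)) := by
    intro x
    simp only [x.isLt, dif_pos]
  unfold kint kmax
  congr 1
  have h1 := ks_range (fun n : ℕ => if h : n < B then
      Real.exp (-((1 - 12 * ε) * ω ⟨n, h⟩)) else 0) B
  rw [Finset.sum_range, Finset.sum_range] at h1
  refine Eq.trans ?_ (h1.trans ?_)
  · refine sum_congr rfl (fun x _ => ?_)
    rw [Finset.sum_range]
    refine sum_congr rfl (fun y _ => ?_)
    rw [← hg (max x y)]
    congr 1
  · refine sum_congr rfl (fun x _ => ?_)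
    congr 1
    exact hg x

end Pool.Agent.Lib.MP_1f2a9f_co.KW
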