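import Pool.Agent.Lib.MP_1f2a9f_co.KW.Defs2

/-!
# KW, row KT (KintType): board ug2_mod

`D_j = exp (-(1-12ε) Wl ε j)` (decreasing in `j`), `h = χ/B`. Let
`ℓ x` be the number of `j < k+2` with `cum c j ≤ x` (the layer of the level `x`); at most `c j`
levels have `ℓ x = j` (for `j ≤ k + 1`). `omc (max x y)` belongs to the layer `max (ℓ x) (ℓ y)`. The
pairs with both layers `≤ k` give
`∑ i, i' ≤ k, (c_i h) (c_i' h) D_(max i i') = ∑ λ_i u_i λ_i' u_i' D_max`
`≤ ∑ λ_i λ_i' (u_i^2 + u_i'^2)/2 D_max ≤ ∑ λ_i λ_i' (u_i^2 D_i + u_i'^2 D_i')/2 = Λ ∑ λ_i u_i^2 D_i`.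
The other pairs have density at most `exp (-(1-12ε) uu ε k)` (`Wl ε (k+1) = uu ε k ≤ 2 χ`), and there
are at most `B^2` of them. Also: the kernel fits and is a kernel.
-/

set_option autoImplicit false

namespace Pool.Agent.Lib.MP_1f2a9f_co.KW

open Finset Pool.Agent.Lib.MP_1f2a9f_co

private theorem kt_uu_pos {ε : ℝ} (hε : 0 < ε) (j : ℕ) : 0 < uu ε j := by
  unfold uu
  positivity

private theorem kt_uu_mono {ε : ℝ} (hε : 0 < ε) {i j : ℕ} (h : i ≤ j) : uu ε i ≤ uu ε j := by
  unfold uu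
  exact mul_le_mul_of_nonneg_left (pow_le_pow_right₀ (by linarith) h) hε.le

private theorem kt_Wl_nonneg {ε : ℝ} (hε : 0 < ε) (j : ℕ) : 0 ≤ Wl ε j := by
  unfold Wl
  split
  · exact le_refl _
  · exact (kt_uu_pos hε _).le

private theorem kt_Wl_mono {ε : ℝ} (hε : 0 < ε) {i j : ℕ} (h : i ≤ j) : Wl ε i ≤ Wl ε j := by
  by_cases hi : i = 0
  · have : Wl ε i = 0 := by unfold Wl; rw [if_pos hi]
    rw [this]
    exact kt_Wl_nonneg hε j
  · have h1 : Wl ε i = uu ε (i - 1) := by unfold Wl; rw [if_neg hi]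
    have h2 : Wl ε j = uu ε (j - 1) := by unfold Wl; rw [if_neg (by omega)]
    rw [h1, h2]
    exact kt_uu_mono hε (by omega)

private theorem kt_Wl_top (ε : ℝ) (k : ℕ) : Wl ε (k + 1) = uu ε k := by
  unfold Wl
  rw [if_neg (by omega), Nat.add_sub_cancel]

private theorem kt_cum_mono (c : ℕ → ℕ) {i j : ℕ} (h : i ≤ j) : cum c i ≤ cum c j := by
  unfold cum
  exact sum_le_sum_of_subset (range_subset_range.2 (by omega))

/-- the layer of a level -/
private def kt_l (k : ℕ) (c : ℕ → ℕ) (x : ℕ) : ℕ :=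
  ((range (k + 2)).filter (fun j => cum c j ≤ x)).card

private theorem kt_l_mono (k : ℕ) (c : ℕ → ℕ) {x y : ℕ} (h : x ≤ y) : kt_l k c x ≤ kt_l k c y := by
  unfold kt_l
  refine card_le_card fun j hj => ?_
  rw [mem_filter] at hj ⊢
  exact ⟨hj.1, hj.2.trans h⟩

/-- below `cum c j` the layer is at most `j` -/
private theorem kt_l_le (k : ℕ) (c : ℕ → ℕ) {x j : ℕ} (h : x < cum c j) : kt_l k c x ≤ j := by
  unfold kt_l
  have h1 : (range (k + 2)).filter (fun j => cum c j ≤ x) ⊆ range j := by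
    intro i hi
    rw [mem_filter] at hi
    rw [mem_range]
    by_contra hij
    have h2 := kt_cum_mono c (not_lt.1 hij)
    omega
  have h2 := card_le_card h1
  rwa [card_range] at h2

/-- above `cum c j` the layer is larger than `j` -/
private theorem kt_lt_l (k : ℕ) (c : ℕ → ℕ) {x j : ℕ} (hj : j ≤ k + 1) (h : cum c j ≤ x) :
    j + 1 ≤ kt_l k c x := by
  unfold kt_l
  have h1 : range (j + 1) ⊆ (range (k + 2)).filter (fun j => cum c j ≤ x) := by
    intro i hi
    rw [mem_range] at hi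
    rw [mem_filter, mem_range]
    exact ⟨by omega, (kt_cum_mono c (by omega)).trans h⟩
  have h2 := card_le_card h1
  rwa [card_range] at h2

private theorem kt_count (k B : ℕ) (c : ℕ → ℕ) {i : ℕ} (hi : i ≤ k) :
    ((univ : Finset (Fin B)).filter (fun x : Fin B => kt_l k c (x : ℕ) = i)).card ≤ c i := by
  have h1 : ∀ x : ℕ, kt_l k c x = i → x < cum c i := by
    intro x hx
    by_contra hcon
    have := kt_lt_l k c (by omega) (not_lt.1 hcon)
    omega
  by_cases h0 : i = 0
  · subst h0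
    have h2 : ((univ : Finset (Fin B)).filter (fun x : Fin B => kt_l k c (x : ℕ) = 0)).card ≤
        (range (c 0)).card := by
      refine card_le_card_of_injOn (fun x => (x : ℕ)) (fun x hx => ?_)
        (fun x _ y _ h => Fin.ext h)
      have h3 := h1 x (mem_filter.1 hx).2
      have h4 : cum c 0 = c 0 := by simp [cum]
      rw [mem_coe, mem_range]
      show (x : ℕ) < c 0
      omega
    rwa [card_range] at h2
  · have h2 : ((univ : Finset (Fin B)).filter (fun x : Fin B => kt_l k c (x : ℕ) = i)).card ≤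
        (Ico (cum c (i - 1)) (cum c i)).card := by
      refine card_le_card_of_injOn (fun x => (x : ℕ)) (fun x hx => ?_)
        (fun x _ y _ h => Fin.ext h)
      have h5 := (mem_filter.1 hx).2
      have h3 := h1 x h5
      rw [mem_coe, mem_Ico]
      show cum c (i - 1) ≤ (x : ℕ) ∧ (x : ℕ) < cum c i
      refine ⟨?_, h3⟩
      by_contra hcon
      have h6 := kt_l_le k c (not_le.1 hcon)
      omega
    rw [Nat.card_Ico] at h2
    have h3 : cum c i = cum c (i - 1) + c i := by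
      unfold cum
      rw [sum_range_succ, Nat.sub_add_cancel (by omega)]
    omega

private theorem kt_sum (k B : ℕ) (c : ℕ → ℕ) (G : ℕ → ℝ) (hG : ∀ i, 0 ≤ G i) :
    ∑ x : Fin B, (if kt_l k c (x : ℕ) ≤ k then G (kt_l k c (x : ℕ)) else 0) ≤
      ∑ i ∈ range (k + 1), (c i : ℝ) * G i := by
  have h1 : ∀ x : Fin B, (if kt_l k c (x : ℕ) ≤ k then G (kt_l k c (x : ℕ)) else 0) =
      ∑ i ∈ range (k + 1), (if kt_l k c (x : ℕ) = i then G i else 0) := by
    intro x
    rw [sum_ite_eq (range (k + 1)) (kt_l k c (x : ℕ)) G]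
    simp only [mem_range, Nat.lt_succ_iff]
  rw [sum_congr rfl fun x _ => h1 x, sum_comm]
  refine sum_le_sum fun i hi => ?_
  rw [mem_range] at hi
  rw [← sum_filter, sum_const, nsmul_eq_mul]
  refine mul_le_mul_of_nonneg_right ?_ (hG i)
  exact_mod_cast kt_count k B c (i := i) (by omega)

private theorem kt_max (k : ℕ) (c : ℕ → ℕ) {B : ℕ} (x y : Fin B) :
    kt_l k c ((max x y : Fin B) : ℕ) = max (kt_l k c (x : ℕ)) (kt_l k c (y : ℕ)) := by
  rcases le_total x y with h | h
  · rw [max_eq_right h, max_eq_right (kt_l_mono k c h)]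
  · rw [max_eq_left h, max_eq_left (kt_l_mono k c h)]

private theorem kt_omc (ε χ : ℝ) (B k : ℕ) (c : ℕ → ℕ) (x : Fin B) :
    omc ε χ B k c x = if (x : ℕ) < cum c (k + 1) then Wl ε (kt_l k c (x : ℕ)) else 2 * χ := rfl

theorem kint_type (ε χ : ℝ) (B k : ℕ) (c : ℕ → ℕ) (hε : 0 < ε) (hε1 : ε ≤ 1 / 1000) (hχ : 0 < χ)
    (hB : 0 < B) (hk : uu ε k ≤ 2 * χ) :
    kint ε χ B (kmax (omc ε χ B k c)) ≤
      (∑ j ∈ range (k + 1), lamc ε χ B c j) *
        (∑ j ∈ range (k + 1), lamc ε χ B c j *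
          ((uu ε j) ^ 2 * Real.exp (-((1 - 12 * ε) * Wl ε j)))) +
      χ ^ 2 * Real.exp (-((1 - 12 * ε) * uu ε k)) := by
  have hd : 0 ≤ 1 - 12 * ε := by linarith
  have hB0 : (0 : ℝ) < B := by exact_mod_cast hB
  obtain ⟨D, hD⟩ : ∃ D : ℕ → ℝ, ∀ j, D j = Real.exp (-((1 - 12 * ε) * Wl ε j)) :=
    ⟨_, fun j => rfl⟩
  have hD0 : ∀ j, 0 ≤ D j := fun j => by rw [hD]; exact (Real.exp_pos _).le
  have hDm : ∀ {i j : ℕ}, i ≤ j → D j ≤ D i := by
    intro i j hij
    rw [hD, hD]
    refine Real.exp_le_exp.2 (neg_le_neg ?_)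
    exact mul_le_mul_of_nonneg_left (kt_Wl_mono hε hij) hd
  obtain ⟨e, he⟩ : ∃ e : ℝ, e = Real.exp (-((1 - 12 * ε) * uu ε k)) := ⟨_, rfl⟩
  -- the bound for one pair
  have hpair : ∀ x y : Fin B, Real.exp (-((1 - 12 * ε) * kmax (omc ε χ B k c) x y)) ≤
      (if kt_l k c (x : ℕ) ≤ k then (if kt_l k c (y : ℕ) ≤ k then
        D (max (kt_l k c (x : ℕ)) (kt_l k c (y : ℕ))) else 0) else 0) + e := by
    intro x y
    have hf : 0 ≤ (if kt_l k c (x : ℕ) ≤ k then (if kt_l k c (y : ℕ) ≤ k then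
        D (max (kt_l k c (x : ℕ)) (kt_l k c (y : ℕ))) else 0) else 0) := by
      split
      · split
        · exact hD0 _
        · exact le_refl _
      · exact le_refl _
    have he0 : 0 ≤ e := by rw [he]; exact (Real.exp_pos _).le
    have hlarge : uu ε k ≤ omc ε χ B k c (max x y) →
        Real.exp (-((1 - 12 * ε) * kmax (omc ε χ B k c) x y)) ≤ e := by
      intro h
      rw [he]
      refine Real.exp_le_exp.2 (neg_le_neg ?_)
      exact mul_le_mul_of_nonneg_left h hd
    by_cases hz : ((max x y : Fin B) : ℕ) < cum c (k + 1)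
    · by_cases hl : kt_l k c ((max x y : Fin B) : ℕ) ≤ k
      · have h1 : kt_l k c (x : ℕ) ≤ k ∧ kt_l k c (y : ℕ) ≤ k := by
          rw [kt_max] at hl
          exact ⟨(le_max_left _ _).trans hl, (le_max_right _ _).trans hl⟩
        rw [if_pos h1.1, if_pos h1.2]
        have h2 : kmax (omc ε χ B k c) x y =
            Wl ε (max (kt_l k c (x : ℕ)) (kt_l k c (y : ℕ))) := by
          unfold kmax
          rw [kt_omc, if_pos hz, kt_max]
        rw [h2, ← hD]
        linarith
      · have h3 : kt_l k c ((max x y : Fin B) : ℕ) = k + 1 := by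
          have := kt_l_le k c hz
          omega
        have h4 : uu ε k ≤ omc ε χ B k c (max x y) := by
          rw [kt_omc, if_pos hz, h3, kt_Wl_top]
        have := hlarge h4
        linarith
    · have h4 : uu ε k ≤ omc ε χ B k c (max x y) := by
        rw [kt_omc, if_neg hz]
        exact hk
      have := hlarge h4
      linarith
  -- the sum over the pairs
  have hsum : ∑ x : Fin B, ∑ y : Fin B, Real.exp (-((1 - 12 * ε) * kmax (omc ε χ B k c) x y)) ≤
      (∑ i ∈ range (k + 1), (c i : ℝ) * ∑ i' ∈ range (k + 1), (c i' : ℝ) * D (max i i')) +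
        (B : ℝ) ^ 2 * e := by
    calc ∑ x : Fin B, ∑ y : Fin B, Real.exp (-((1 - 12 * ε) * kmax (omc ε χ B k c) x y))
        ≤ ∑ x : Fin B, ∑ y : Fin B, ((if kt_l k c (x : ℕ) ≤ k then (if kt_l k c (y : ℕ) ≤ k then
            D (max (kt_l k c (x : ℕ)) (kt_l k c (y : ℕ))) else 0) else 0) + e) :=
          sum_le_sum fun x _ => sum_le_sum fun y _ => hpair x y
      _ = (∑ x : Fin B, (if kt_l k c (x : ℕ) ≤ k then (∑ y : Fin B,
            (if kt_l k c (y : ℕ) ≤ k then
            D (max (kt_l k c (x : ℕ)) (kt_l k c (y : ℕ))) else 0)) else 0)) + (B : ℝ) ^ 2 * e := by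
          simp only [sum_add_distrib, sum_const, card_univ, Fintype.card_fin, nsmul_eq_mul]
          congr 1
          · refine sum_congr rfl fun x _ => ?_
            split
            · rfl
            · exact sum_const_zero
          · ring
      _ ≤ (∑ x : Fin B, (if kt_l k c (x : ℕ) ≤ k then (fun i => ∑ i' ∈ range (k + 1),
            (c i' : ℝ) * D (max i i')) (kt_l k c (x : ℕ)) else 0)) + (B : ℝ) ^ 2 * e := by
          refine add_le_add (sum_le_sum fun x _ => ?_) (le_refl _)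
          split
          · exact kt_sum k B c (fun i => D (max (kt_l k c (x : ℕ)) i)) (fun i => hD0 _)
          · exact le_refl _
      _ ≤ _ := by
          refine add_le_add ?_ (le_refl _)
          exact kt_sum k B c (fun i => ∑ i' ∈ range (k + 1), (c i' : ℝ) * D (max i i'))
            (fun i => sum_nonneg fun i' _ => mul_nonneg (Nat.cast_nonneg _) (hD0 _))
  have hlam : ∀ i, (c i : ℝ) * (χ / B) = lamc ε χ B c i * uu ε i := by
    intro i
    unfold lamc
    rw [div_mul_cancel₀ _ (kt_uu_pos hε i).ne']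
  have hlam0 : ∀ i, 0 ≤ lamc ε χ B c i := by
    intro i
    unfold lamc
    have := kt_uu_pos hε i
    positivity
  have hmain : (χ / B) ^ 2 * (∑ i ∈ range (k + 1), (c i : ℝ) *
      ∑ i' ∈ range (k + 1), (c i' : ℝ) * D (max i i')) ≤
      (∑ j ∈ range (k + 1), lamc ε χ B c j) *
        (∑ j ∈ range (k + 1), lamc ε χ B c j * ((uu ε j) ^ 2 * D j)) := by
    have h1 : (χ / B) ^ 2 * (∑ i ∈ range (k + 1), (c i : ℝ) *
        ∑ i' ∈ range (k + 1), (c i' : ℝ) * D (max i i')) =
        ∑ i ∈ range (k + 1), ∑ i' ∈ range (k + 1),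
          ((lamc ε χ B c i * uu ε i) * (lamc ε χ B c i' * uu ε i')) * D (max i i') := by
      rw [mul_sum]
      refine sum_congr rfl fun i _ => ?_
      rw [mul_sum, mul_sum]
      refine sum_congr rfl fun i' _ => ?_
      rw [← hlam, ← hlam]
      ring
    have h2 : ∀ i i' : ℕ, ((lamc ε χ B c i * uu ε i) * (lamc ε χ B c i' * uu ε i')) * D (max i i') ≤
        (lamc ε χ B c i * (lamc ε χ B c i' * ((uu ε i') ^ 2 * D i')) +
          lamc ε χ B c i * ((uu ε i) ^ 2 * D i) * lamc ε χ B c i') / 2 := by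
      intro i i'
      have a1 : 0 ≤ lamc ε χ B c i * lamc ε χ B c i' := mul_nonneg (hlam0 i) (hlam0 i')
      have a2 : D (max i i') ≤ D i := hDm (le_max_left _ _)
      have a3 : D (max i i') ≤ D i' := hDm (le_max_right _ _)
      have a4 : uu ε i * uu ε i' * D (max i i') ≤
          ((uu ε i) ^ 2 * D i + (uu ε i') ^ 2 * D i') / 2 := by
        have b1 : uu ε i * uu ε i' * D (max i i') ≤
            ((uu ε i) ^ 2 * D (max i i') + (uu ε i') ^ 2 * D (max i i')) / 2 := by
          nlinarith [mul_nonneg (sq_nonneg (uu ε i - uu ε i')) (hD0 (max i i'))]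
        have b2 := mul_le_mul_of_nonneg_left a2 (sq_nonneg (uu ε i))
        have b3 := mul_le_mul_of_nonneg_left a3 (sq_nonneg (uu ε i'))
        linarith
      have a5 := mul_le_mul_of_nonneg_left a4 a1
      nlinarith [a5]
    rw [h1]
    refine (sum_le_sum fun i _ => sum_le_sum fun i' _ => h2 i i').trans (le_of_eq ?_)
    simp only [← sum_div, sum_add_distrib, ← mul_sum, ← sum_mul]
    ring
  have hfin : (χ / B) ^ 2 * ((B : ℝ) ^ 2 * e) = χ ^ 2 * e := by
    field_simp
  unfold kint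
  rw [← he]
  calc (χ / B) ^ 2 * ∑ x : Fin B, ∑ y : Fin B,
        Real.exp (-((1 - 12 * ε) * kmax (omc ε χ B k c) x y))
      ≤ (χ / B) ^ 2 * ((∑ i ∈ range (k + 1), (c i : ℝ) *
          ∑ i' ∈ range (k + 1), (c i' : ℝ) * D (max i i')) + (B : ℝ) ^ 2 * e) :=
        mul_le_mul_of_nonneg_left hsum (sq_nonneg _)
    _ = (χ / B) ^ 2 * (∑ i ∈ range (k + 1), (c i : ℝ) *
          ∑ i' ∈ range (k + 1), (c i' : ℝ) * D (max i i')) + χ ^ 2 * e := by
        rw [mul_add, hfin]
    _ ≤ _ := by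
        refine add_le_add (hmain.trans (le_of_eq ?_)) (le_refl _)
        simp only [hD]

theorem omc_kernel (ε χ : ℝ) (B k : ℕ) (c : ℕ → ℕ) (hε : 0 < ε) (hk : uu ε k ≤ 2 * χ) :
    Kernel χ (kmax (omc ε χ B k c)) ∧ (∀ x, 0 ≤ omc ε χ B k c x) ∧
      Fits ε B k c (omc ε χ B k c) := by
  have h0 : ∀ x, 0 ≤ omc ε χ B k c x := by
    intro x
    rw [kt_omc]
    split
    · exact kt_Wl_nonneg hε _
    · exact (kt_uu_pos hε k).le.trans hk
  refine ⟨⟨fun x y => ?_, fun x y => h0 _, fun x y => ?_⟩, h0, ?_⟩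
  · unfold kmax
    rw [max_comm]
  · unfold kmax
    rw [kt_omc]
    split
    · rename_i h
      have h1 := kt_Wl_mono hε (kt_l_le k c h)
      rw [kt_Wl_top] at h1
      exact h1.trans hk
    · exact le_refl _
  · intro j hj x hx
    rw [kt_omc, if_pos (lt_of_lt_of_le hx (kt_cum_mono c hj))]
    exact kt_Wl_mono hε (kt_l_le k c hx)

end Pool.Agent.Lib.MP_1f2a9f_co.KW
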