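import Pool.Agent.Lib.MP_1f2a9f_co.KW.Defs2

/-!
# KW, row LY (Layers): board ug2_mod

`f_t (S) = ee S - 2 t |S|` is supermodular:
`ee (A ∪ B) + ee (A ∩ B) ≥ ee A + ee B`. `S j` = a maximiser of `f_(t j)` with the largest number of
elements. Nested: for `i ≤ j`, `f_(t i) (S i) ≥ f_(t i) (S i ∩ S j)` gives
`ee (S i) - ee (S i ∩ S j) ≥ 2 t_i |S i \ S j| ≥ 2 t_j |S i \ S j|`, so
`f_(t j) (S i ∪ S j) ≥ f_(t j) (S j)`, so `S i ∪ S j = S j`. Second claim: `f (S j ∪ W) ≤ f (S j)` and
supermodularity. Third and fourth: `f (S 0) ≥ f ∅`, `f_(t (j+1)) (S (j+1)) ≥ f_(t (j+1)) (S j)`.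
-/

set_option autoImplicit false

namespace Pool.Agent.Lib.MP_1f2a9f_co.KW

open Finset Pool.Agent.Lib.MP_1f2a9f_co

private theorem ee_card {V : Type} [Fintype V] [DecidableEq V] (H : SimpleGraph V)
    [DecidableRel H.Adj] (S : Finset V) :
    ee H S = ((S ×ˢ S).filter (fun p => H.Adj p.1 p.2)).card := by
  unfold ee
  rw [Finset.card_filter, Finset.sum_product]
  refine Finset.sum_congr rfl fun u _ => ?_
  rw [Finset.card_filter]

private theorem ee_super {V : Type} [Fintype V] [DecidableEq V] (H : SimpleGraph V)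
    [DecidableRel H.Adj] (A B : Finset V) :
    ee H A + ee H B ≤ ee H (A ∪ B) + ee H (A ∩ B) := by
  rw [ee_card, ee_card, ee_card, ee_card, ← Finset.card_union_add_card_inter]
  refine Nat.add_le_add (Finset.card_le_card ?_) (Finset.card_le_card ?_)
  · intro p hp
    simp only [Finset.mem_union, Finset.mem_filter, Finset.mem_product] at hp ⊢
    tauto
  · intro p hp
    simp only [Finset.mem_inter, Finset.mem_filter, Finset.mem_product] at hp ⊢
    tauto

private theorem exists_best {V : Type} [Fintype V] [DecidableEq V] (f : Finset V → ℝ) :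
    ∃ S : Finset V, ∀ T : Finset V, f T ≤ f S ∧ (f S ≤ f T → T.card ≤ S.card) := by
  obtain ⟨S, hS⟩ := Finite.exists_max (fun S : Finset V => toLex (f S, S.card))
  refine ⟨S, fun T => ?_⟩
  have h := hS T
  rw [Prod.Lex.toLex_le_toLex] at h
  rcases h with h | ⟨h, h'⟩
  · exact ⟨h.le, fun h2 => absurd h (not_lt.2 h2)⟩
  · exact ⟨le_of_eq h, fun _ => h'⟩

theorem exists_layers {V : Type} [Fintype V] [DecidableEq V] (H : SimpleGraph V)
    [DecidableRel H.Adj] (t : ℕ → ℝ) (ht : ∀ j, 0 < t j) (hanti : ∀ i j, i ≤ j → t j ≤ t i) :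
    ∃ S : ℕ → Finset V, (∀ i j, i ≤ j → S i ⊆ S j) ∧
      (∀ j, ∀ W : Finset V, (ee H W : ℝ) ≤ ee H (W ∩ S j) + 2 * t j * (W \ S j).card) ∧
      2 * t 0 * (S 0).card ≤ (ee H (S 0) : ℝ) ∧
      ∀ j, 2 * t (j + 1) * (S (j + 1) \ S j).card ≤ (ee H (S (j + 1)) : ℝ) - ee H (S j) := by
  choose S hS using fun j => exists_best (fun S : Finset V => (ee H S : ℝ) - 2 * t j * S.card)
  have hnest : ∀ i j, i ≤ j → S i ⊆ S j := by
    intro i j hij
    have h1 := (hS i (S i ∩ S j)).1
    have h2 := hS j (S i ∪ S j)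
    have h3 : ((ee H (S i) : ℝ)) + ee H (S j) ≤ ee H (S i ∪ S j) + ee H (S i ∩ S j) := by
      exact_mod_cast ee_super H (S i) (S j)
    have h4 : (((S i ∪ S j).card : ℝ)) + (S i ∩ S j).card = (S i).card + (S j).card := by
      exact_mod_cast Finset.card_union_add_card_inter (S i) (S j)
    have h5 : ((S i ∩ S j).card : ℝ) ≤ (S i).card := by
      exact_mod_cast Finset.card_le_card Finset.inter_subset_left
    have h6 := hanti i j hij
    have h7 : (ee H (S j) : ℝ) - 2 * t j * (S j).card ≤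
        (ee H (S i ∪ S j) : ℝ) - 2 * t j * (S i ∪ S j).card := by
      have h10 := mul_le_mul_of_nonneg_right h6 (sub_nonneg.2 h5)
      have h11 : (((S i ∪ S j).card : ℝ)) = (S i).card + (S j).card - (S i ∩ S j).card := by
        linarith
      rw [h11]
      have h12 : 2 * t j * (((S i).card : ℝ) + (S j).card - (S i ∩ S j).card) =
          2 * t j * (S j).card + 2 * (t j * ((S i).card - (S i ∩ S j).card)) := by ring
      have h13 : 2 * t i * ((S i).card : ℝ) = 2 * t i * (S i ∩ S j).card +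
          2 * (t i * ((S i).card - (S i ∩ S j).card)) := by ring
      rw [h12]
      linarith
    have h8 := h2.2 h7
    have h9 : S j = S i ∪ S j := Finset.eq_of_subset_of_card_le Finset.subset_union_right h8
    rw [h9]
    exact Finset.subset_union_left
  refine ⟨S, hnest, fun j W => ?_, ?_, fun j => ?_⟩
  · have h1 := (hS j (W ∪ S j)).1
    have h3 : ((ee H W : ℝ)) + ee H (S j) ≤ ee H (W ∪ S j) + ee H (W ∩ S j) := by
      exact_mod_cast ee_super H W (S j)
    have h4 : (((W \ S j).card : ℝ)) + (S j).card = (W ∪ S j).card := by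
      exact_mod_cast Finset.card_sdiff_add_card W (S j)
    rw [← h4] at h1
    linarith
  · have h1 := (hS 0 ∅).1
    have h2 : ee H (∅ : Finset V) = 0 := by simp [ee]
    simp only [h2, Finset.card_empty] at h1
    push_cast at h1
    linarith
  · have h1 := (hS (j + 1) (S j)).1
    have h2 : (((S (j + 1) \ S j).card : ℝ)) + (S j).card = (S (j + 1)).card := by
      exact_mod_cast Finset.card_sdiff_add_card_eq_card (hnest j (j + 1) (Nat.le_succ j))
    rw [← h2] at h1
    linarith

end Pool.Agent.Lib.MP_1f2a9f_co.KW
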