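import Pool.Agent.Lib.MP_1f2a9f_co.KW.Single

/-!
# KW, row LB (LowerReg): board ug_mod

Copy of `lower_bound` (end of Low5.lean) with `singleR`; all lemmas
`Low5.*` can be used.
-/

set_option autoImplicit false

namespace Pool.Agent.Lib.MP_1f2a9f_co.KW

open Finset Pool.Agent.Lib.MP_1f2a9f_co Pool.Agent.Lib.MP_1f2a9f_co.Low5

theorem lower_reg (ε : ℝ) (hε : 0 < ε) : ∃ m0 : ℕ, ∀ m ≥ m0, ∀ (N : ℕ)
    (G : SimpleGraph (Fin N)), UnivReg m G →
      (4 / 9 - ε) * ((m : ℝ) / Real.log m) ^ 2 ≤ (G.edgeSet.ncard : ℝ) := by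
  classical
  obtain ⟨h, k, hh, hk, hgrid⟩ := grid ε hε
  have hlam : ∀ j : ℕ, Real.exp (-(3 / 2 * (((j:ℝ) + 1) * h))) -
      Real.exp (-(3 / 2 * (((j:ℝ) + 2) * h))) = lam h j := by
    intro j
    unfold lam ee
    congr 3
    push_cast; ring
  simp only [hlam] at hgrid
  set A3 : ℝ := ∑ j ∈ range k, (((j:ℝ) + 1) * h) ^ 3 * lam h j with hA3
  set A2 : ℝ := ∑ j ∈ range k, (((j:ℝ) + 1) * h) ^ 2 * lam h j with hA2
  set A1 : ℝ := ∑ j ∈ range k, (((j:ℝ) + 1) * h) with hA1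
  have hA3n : 0 ≤ A3 := Finset.sum_nonneg (fun j _ => by
    have := lam_pos h hh j
    positivity)
  have hA2n : 0 ≤ A2 := Finset.sum_nonneg (fun j _ => by
    have := lam_pos h hh j
    positivity)
  have hA1n : 0 ≤ A1 := Finset.sum_nonneg (fun j _ => by positivity)
  set τ : ℝ := min 1 (ε / (2 * (A3 + 3 * A2 + 1))) with hτdef
  have hτ : 0 < τ := lt_min one_pos (by positivity)
  have hτ1 : τ ≤ 1 := min_le_left _ _
  have hτ2 : τ * (A3 + 3 * A2) ≤ ε / 2 := by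
    have h1 : τ ≤ ε / (2 * (A3 + 3 * A2 + 1)) := min_le_right _ _
    rw [le_div_iff₀ (by positivity)] at h1
    nlinarith
  have hs := fun j : ℕ => singleR (((j:ℝ) + 1) * h) τ (BB h k) k (by positivity) hτ hτ1
    (le_max_left _ _)
  choose M hM using hs
  obtain ⟨m1, hm1⟩ := asym2 (2 * A1 / ε)
  refine ⟨max m1 ((range k).sup M), fun m hm N G hG => ?_⟩
  obtain ⟨hl, hsA⟩ := hm1 m ((le_max_left _ _).trans hm)
  set s : ℝ := (m:ℝ) / Real.log m with hsdef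
  have hmpos : (0:ℝ) < m := by
    rcases Nat.eq_zero_or_pos m with h0 | h0
    · rw [h0] at hl; simp at hl; linarith
    · exact_mod_cast h0
  have hs0 : 0 < s := by
    have : 0 < Real.log m := by linarith
    positivity
  by_cases hE : (G.edgeSet.ncard : ℝ) ≤ 1 / 2 * s ^ 2
  swap
  · push Not at hE
    have : 0 < s ^ 2 := by positivity
    nlinarith
  have hSj : ∀ j < k, ∃ S : Finset (Fin N), (1 - τ) * ((((j:ℝ) + 1) * h) * s) ≤ S.card ∧
        (S.card : ℝ) ≤ (((j:ℝ) + 1) * h) * s ∧ 0 < S.card ∧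
        ∀ (cell : Fin N → (Fin k → Bool)) (z : (Fin k → Bool) → (Fin k → Bool) → ℝ),
          (∀ x y, 0 < z x y) → (∀ x y, |Real.log (z x y)| ≤ BB h k) →
          1 + (∑ u ∈ S, ∑ v ∈ S, Real.log (z (cell u) (cell v))) / (S.card : ℝ) ^ 2 -
            (((j:ℝ) + 1) * h) - 3 * τ ≤
            (∑ u ∈ S, ∑ v ∈ S.filter (fun v => u = v ∨ G.Adj u v), z (cell u) (cell v)) /
              (S.card : ℝ) ^ 2 := by
    intro j hj
    have hMj : M j ≤ m := (Finset.le_sup (f := M) (Finset.mem_range.2 hj)).trans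
      ((le_max_right _ _).trans hm)
    exact hM j m hMj N G hG hE
  choose! S hS1 hS2 hS3 hS4 using hSj
  have hfin := finite_sum N k G S h hh τ hS3 (fun j hj => hS4 j hj)
  -- lower bound of the left side
  have hlow : s ^ 2 * (1 / 2 * A3 - τ * (A3 + 3 * A2)) ≤
      ∑ j ∈ range k, lam h j * ((S j).card : ℝ) ^ 2 * (1 / 2 * (((j:ℝ) + 1) * h) - 3 * τ) := by
    have e1 : s ^ 2 * (1 / 2 * A3 - τ * (A3 + 3 * A2)) = ∑ j ∈ range k,
        (s ^ 2 * (1 / 2 - τ) * ((((j:ℝ) + 1) * h) ^ 3 * lam h j) -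
          s ^ 2 * (3 * τ) * ((((j:ℝ) + 1) * h) ^ 2 * lam h j)) := by
      rw [Finset.sum_sub_distrib, ← Finset.mul_sum, ← Finset.mul_sum]
      ring
    rw [e1]
    apply Finset.sum_le_sum
    intro j hj
    have hj' := Finset.mem_range.1 hj
    have hl := lam_pos h hh j
    have hα : 0 < ((j:ℝ) + 1) * h := by positivity
    have b1 := hS1 j hj'
    have b2 := hS2 j hj'
    set α : ℝ := ((j:ℝ) + 1) * h
    have hn0 : (0:ℝ) ≤ ((S j).card : ℝ) := by positivity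
    have c1 : (1 - 2 * τ) * (α * s) ^ 2 ≤ ((S j).card : ℝ) ^ 2 := by
      have hx : 0 ≤ (1 - τ) * (α * s) := by
        apply mul_nonneg (by linarith) (by positivity)
      have : ((1 - τ) * (α * s)) ^ 2 ≤ ((S j).card : ℝ) ^ 2 := by gcongr
      nlinarith [sq_nonneg (τ * (α * s))]
    have c2 : ((S j).card : ℝ) ^ 2 ≤ (α * s) ^ 2 := by gcongr
    have d1 : lam h j * (1 / 2 * α) * ((1 - 2 * τ) * (α * s) ^ 2) ≤
        lam h j * (1 / 2 * α) * ((S j).card : ℝ) ^ 2 := by gcongr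
    have d2 : lam h j * (3 * τ) * ((S j).card : ℝ) ^ 2 ≤ lam h j * (3 * τ) * (α * s) ^ 2 := by gcongr
    have e2 : s ^ 2 * (1 / 2 - τ) * (α ^ 3 * lam h j) - s ^ 2 * (3 * τ) * (α ^ 2 * lam h j) =
        lam h j * (1 / 2 * α) * ((1 - 2 * τ) * (α * s) ^ 2) - lam h j * (3 * τ) * (α * s) ^ 2 := by
      ring
    rw [e2]
    linarith
  have hup : ∑ j ∈ range k, ((S j).card : ℝ) ≤ A1 * s := by
    rw [hA1, Finset.sum_mul]
    exact Finset.sum_le_sum (fun j hj => hS2 j (Finset.mem_range.1 hj))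
  have hA1s : A1 * s ≤ ε / 2 * s ^ 2 := by
    rw [div_le_iff₀ hε] at hsA
    nlinarith
  have hfinal : s ^ 2 * (1 / 2 * A3 - τ * (A3 + 3 * A2)) ≥ s ^ 2 * (8 / 9 - ε) := by
    apply mul_le_mul_of_nonneg_left _ (by positivity)
    linarith
  have hs2 : 0 < s ^ 2 := by positivity
  nlinarith

end Pool.Agent.Lib.MP_1f2a9f_co.KW
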