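import Pool.Agent.Lib.MP_1f2a9f_co.KW.Defs3

/-!
# KW, row PG2 (MeanMax): board ug3_mod

`G y = x y` for `y ≤ x`, `(x^2 + y^2)/2` for `y ≥ x` satisfies `G (y + h) - G y ≥ h max (x, y)`, so the
Riemann sum `h ∑ max (x, (b+1) h)` is at most `G (n h) + h (max (x, n h) - x)` by induction.
-/

set_option autoImplicit false

namespace Pool.Agent.Lib.MP_1f2a9f_co.KW

open Finset Pool.Agent.Lib.MP_1f2a9f_co

/-- the integral of `max x` -/
private noncomputable def pg2_G (x y : ℝ) : ℝ := if y ≤ x then x * y else (x ^ 2 + y ^ 2) / 2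

private theorem pg2_step (x z h : ℝ) (hh : 0 ≤ h) :
    pg2_G x z + h * max x z ≤ pg2_G x (z + h) := by
  unfold pg2_G
  by_cases h1 : z ≤ x
  · rw [if_pos h1, max_eq_left h1]
    by_cases h2 : z + h ≤ x
    · rw [if_pos h2]
      nlinarith
    · rw [if_neg h2]
      nlinarith [sq_nonneg (x - (z + h))]
  · rw [not_le] at h1
    rw [if_neg (not_le.2 h1), max_eq_right h1.le, if_neg (by linarith)]
    nlinarith [sq_nonneg h]

private theorem pg2_sum (x h : ℝ) (hx : 0 ≤ x) (hh : 0 ≤ h) (n : ℕ) :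
    h * ∑ b ∈ range n, max x (h * ((b : ℝ) + 1)) ≤
      pg2_G x (h * n) + h * (max x (h * n) - x) := by
  induction n with
  | zero =>
    unfold pg2_G
    simp [hx]
  | succ n ih =>
    have h1 := pg2_step x (h * n) h hh
    have e : h * (n : ℝ) + h = h * ((n : ℝ) + 1) := by ring
    rw [e] at h1
    rw [sum_range_succ, mul_add]
    push_cast
    linarith

theorem mean_max (L x : ℝ) (hL : 0 < L) (hx : 0 ≤ x) (R : ℕ) (hR : 0 < R) :
    ∑ b : Fin R, max x (L * ((b : ℝ) + 1) / R) ≤
      R * (if x ≤ L then (x ^ 2 + L ^ 2) / (2 * L) else x) + L := by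
  have hR' : (0 : ℝ) < R := by exact_mod_cast hR
  have hsum : ∑ b : Fin R, max x (L * ((b : ℝ) + 1) / R) =
      ∑ b ∈ range R, max x (L / R * ((b : ℝ) + 1)) := by
    rw [Fin.sum_univ_eq_sum_range (fun b : ℕ => max x (L * ((b : ℝ) + 1) / R)) R]
    refine sum_congr rfl (fun b _ => ?_)
    rw [mul_div_right_comm]
  rw [hsum]
  have hh : 0 < L / R := by positivity
  have key := pg2_sum x (L / R) hx hh.le R
  have eL : L / R * R = L := by field_simp
  rw [eL] at key
  by_cases hc : x ≤ L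
  · rw [if_pos hc]
    have hG : pg2_G x L = (x ^ 2 + L ^ 2) / 2 := by
      unfold pg2_G
      split_ifs with h1
      · have : x = L := le_antisymm hc h1
        rw [this]
        ring
      · rfl
    rw [hG, max_eq_right hc] at key
    have h2 : ∑ b ∈ range R, max x (L / R * ((b : ℝ) + 1)) ≤
        ((x ^ 2 + L ^ 2) / 2 + L / R * (L - x)) / (L / R) := by
      rw [le_div_iff₀ hh]
      linarith
    refine h2.trans ?_
    have e : ((x ^ 2 + L ^ 2) / 2 + L / R * (L - x)) / (L / R) =
        R * ((x ^ 2 + L ^ 2) / (2 * L)) + (L - x) := by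
      field_simp
    rw [e]
    linarith
  · rw [if_neg hc]
    rw [not_le] at hc
    have h3 : ∑ b ∈ range R, max x (L / R * ((b : ℝ) + 1)) ≤ ∑ b ∈ range R, x := by
      refine sum_le_sum (fun b hb => ?_)
      rw [mem_range] at hb
      refine max_le le_rfl ?_
      have h4 : ((b : ℝ) + 1) ≤ R := by exact_mod_cast hb
      have h5 : L / R * ((b : ℝ) + 1) ≤ L / R * R := mul_le_mul_of_nonneg_left h4 hh.le
      linarith
    rw [sum_const, card_range, nsmul_eq_mul] at h3
    linarith

end Pool.Agent.Lib.MP_1f2a9f_co.KW
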