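import Pool.Agent.Lib.MP_1f2a9f_co.KW.Defs
import Pool.Agent.Lib.MP_1f2a9f_co.Mid

/-!
# KW, row GM (Mid): board ug_mod

Copy of Mid.lean (theorem `middle`): the module `positions` is replaced by
the hypothesis `PosOK`; `w u v` of the potentials is `w (X u) (X v)`, `L = (1 + 5 ε) log m`;
`hdeg` of `potentials` from `w ≤ 2 χ` and `χ Dc ≤ K ε`; `rhoW ≥ exp (-(2 χ / kap))`.
-/

set_option autoImplicit false

namespace Pool.Agent.Lib.MP_1f2a9f_co.KW

open Finset Pool.Agent.Lib.MP_1f2a9f_co

open Mid in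
theorem middleW (ε χ Dc ε₁ : ℝ) (B K J r : ℕ) (hε : 0 < ε) (hε1 : ε ≤ 1 / 20) (hχ : 0 < χ)
    (hDc : 0 < Dc) (hε₁ : 0 < ε₁) (hB : 0 < B) (hK : 0 < K)
    (hKD : χ * Dc ≤ K * ε) (hr : ε * χ ≤ ε₁ * (1 + ε) ^ r) (hKJ : K < J)
    (w : Fin B → Fin B → ℝ) (hw : Kernel χ w) :
    ∃ m0 : ℕ, ∀ m : ℕ, m0 ≤ m → ∀ (b q Δ D : ℕ)
      (γ τ : ℝ) (R : ((Fin B × Fin q) × Fin J) × Fin b → ((Fin B × Fin q) × Fin J) × Fin b → Bool),
      0 < b → 0 < q → 0 < γ → γ ≤ 1 / 2 → 0 < τ → Dc * Real.log m ≤ Δ →
      2 * K * (Δ + 1) ≤ D →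
      GoodRel2 b (fun κ κ' => rhoW ε K J w κ.1 κ'.1) D γ τ R →
      τ ≤ Real.exp (-(2 * χ / kap K J)) ^ (2 * K) * (b * Real.exp (-((1 - 12 * ε) *
        (2 * K / kap K J) * ((1 + 2 * ε) * ((1 + 5 * ε) * Real.log m))))) →
      ∀ (V : Type) [Fintype V] [DecidableEq V] (H : SimpleGraph V) [DecidableRel H.Adj],
      (∀ v, (H.degree v : ℝ) ≤ Dc * Real.log m) →
      (Fintype.card V : ℝ) ≤ ε * χ * (m / Real.log m) →
      PosOK ε χ ε₁ m w H →
      ∃ (Bad : Finset V) (X : V → Fin B) (c : V → Fin q) (g : V → Fin J → Fin b),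
        (Bad.card : ℝ) ≤ 2 * ε₁ * (m / Real.log m) + 2 * Fintype.card V * (Δ : ℝ) ^ 2 / q ∧
        (∀ i, ((univ.filter (fun v => X v = i)).card : ℝ) ≤
          (1 + 3 * ε) * (χ / B) * (m / Real.log m)) ∧
        (∀ u v, u ∉ Bad → v ∉ Bad → H.Adj u v → ∀ j j' : Fin J, Linked K j j' →
          R (((X u, c u), j), g u j) (((X v, c v), j'), g v j') = true) ∧
        (((Badᶜ ×ˢ Badᶜ).filter (fun p => X p.1 = X p.2 ∧ c p.1 = c p.2 ∧ g p.1 = g p.2)).card : ℝ)
          ≤ ((1 + γ) / (1 - γ)) ^ (2 * J * (Δ + 1)) *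
            ((((Badᶜ ×ˢ Badᶜ).filter (fun p => X p.1 = X p.2)).card / (q : ℝ) +
              2 * Fintype.card V + 4 * (Fintype.card V * (Δ : ℝ) / q) ^ 2) / (b : ℝ) ^ J) +
          Fintype.card V * ((Δ : ℝ) + 1) ^ 2 := by
  refine ⟨2, fun m hm b q Δ D γ τ R hb hq hγ hγ1 hτ hΔ hD hR hcost V _ _ H _ hdeg hV hP => ?_⟩
  have hm2 : 2 ≤ m := hm
  have hlog : 0 < Real.log m := Real.log_pos (by exact_mod_cast (by omega : 1 < m))
  have hB' : (0 : ℝ) < B := by exact_mod_cast hB
  have hK' : (0 : ℝ) < K := by exact_mod_cast hK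
  have hq' : (0 : ℝ) < q := by exact_mod_cast hq
  have hs : 0 ≤ (m : ℝ) / Real.log m := by positivity
  obtain ⟨X, BadA, hA1, hX, hA2⟩ := hP
  -- weights
  obtain ⟨w', hw'⟩ : ∃ w' : V → V → ℝ, ∀ u v, w' u v = w (X u) (X v) := ⟨fun u v => w (X u) (X v), fun _ _ => rfl⟩
  have hwle : ∀ u v, w' u v ≤ 2 * χ := by
    intro u v
    rw [hw']
    exact hw.le _ _
  have hw0 : ∀ u v, 0 ≤ w' u v := by
    intro u v
    rw [hw']
    exact hw.nonneg _ _
  -- potentials
  have hcardnb : ∀ v, ((H.neighborFinset v).card : ℝ) ≤ Dc * Real.log m := by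
    intro v
    rw [SimpleGraph.card_neighborFinset_eq_degree]
    exact hdeg v
  obtain ⟨y, BadB, -, hy2, hy3⟩ := potentials (restr H BadAᶜ) w'
    (fun u v => by rw [hw', hw', hw.symm]) hw0 ((1 + 5 * ε) * Real.log m) (by positivity) ε hε K hK r
    (by
      intro v
      calc ∑ u ∈ (restr H BadAᶜ).neighborFinset v, w' v u
          ≤ ∑ u ∈ H.neighborFinset v, w' v u :=
            sum_le_sum_of_subset_of_nonneg (nbhd_sub _ v) (fun _ _ _ => hw0 _ _)
        _ ≤ ∑ _u ∈ H.neighborFinset v, 2 * χ := sum_le_sum fun u _ => hwle v u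
        _ = (H.neighborFinset v).card * (2 * χ) := by rw [sum_const, nsmul_eq_mul]
        _ ≤ Dc * Real.log m * (2 * χ) :=
            mul_le_mul_of_nonneg_right (hcardnb v) (by positivity)
        _ = 2 * (χ * Dc) * Real.log m := by ring
        _ ≤ 2 * (K * ε) * Real.log m := by
            apply mul_le_mul_of_nonneg_right _ hlog.le
            linarith
        _ ≤ 2 * (K * ε) * ((1 + 5 * ε) * Real.log m) := by
            apply mul_le_mul_of_nonneg_left _ (by positivity)
            nlinarith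
        _ = 2 * K * ε * ((1 + 5 * ε) * Real.log m) := by ring)
    (by
      intro U
      have h1 := hA2 (U \ BadA) sdiff_disjoint
      have h2 : ∑ u ∈ U, ∑ v ∈ U.filter (fun v => (restr H BadAᶜ).Adj u v), w' u v =
          ∑ u ∈ U \ BadA, ∑ v ∈ (U \ BadA).filter (fun v => H.Adj u v), w' u v := by
        have h3 : ∀ u ∈ U, ∑ v ∈ U.filter (fun v => (restr H BadAᶜ).Adj u v), w' u v =
            if u ∈ BadA then 0 else
              ∑ v ∈ (U \ BadA).filter (fun v => H.Adj u v), w' u v := by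
          intro u hu
          split_ifs with huA
          · apply sum_eq_zero
            intro v hv
            rw [mem_filter, restr_adj] at hv
            exact absurd huA (mem_compl.1 hv.2.2.1)
          · apply sum_congr _ (fun _ _ => rfl)
            ext v
            simp only [mem_filter, restr_adj, mem_compl, mem_sdiff]
            tauto
        rw [sum_congr rfl h3, sum_ite, sum_const_zero, zero_add]
        apply sum_congr _ (fun _ _ => rfl)
        ext u
        simp only [mem_filter, mem_sdiff]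
      rw [h2]
      have h4 : ∑ u ∈ U \ BadA, ∑ v ∈ (U \ BadA).filter (fun v => H.Adj u v), w' u v =
          ∑ u ∈ U \ BadA, ∑ v ∈ (U \ BadA).filter (fun v => H.Adj u v), w (X u) (X v) :=
        sum_congr rfl fun u _ => sum_congr rfl fun v _ => hw' u v
      rw [h4]
      have h5 : ((U \ BadA).card : ℝ) ≤ U.card := by exact_mod_cast card_le_card sdiff_subset
      have h6 : (1 + 5 * ε) * Real.log m * ((U \ BadA).card : ℝ) ≤
          (1 + 5 * ε) * Real.log m * U.card := mul_le_mul_of_nonneg_left h5 (by positivity)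
      linarith)
  have hB1 : (BadB.card : ℝ) ≤ ε₁ * (m / Real.log m) := by
    have h1 : (0 : ℝ) < (1 + ε) ^ r := by positivity
    have h2 : (BadB.card : ℝ) * (1 + ε) ^ r ≤ ε₁ * (m / Real.log m) * (1 + ε) ^ r := by
      calc (BadB.card : ℝ) * (1 + ε) ^ r ≤ Fintype.card V := hy3
        _ ≤ ε * χ * (m / Real.log m) := hV
        _ ≤ ε₁ * (1 + ε) ^ r * (m / Real.log m) := mul_le_mul_of_nonneg_right hr hs
        _ = ε₁ * (m / Real.log m) * (1 + ε) ^ r := by ring
    exact le_of_mul_le_mul_right h2 h1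
  have hdegΔ : ∀ v, H.degree v ≤ Δ := by
    intro v
    exact_mod_cast (hdeg v).trans hΔ
  -- colouring
  obtain ⟨c, BadC, hc1, hc2, hc3⟩ := exists_coloring (restr (restr H BadAᶜ) BadBᶜ) X q Δ hq
    (fun v => ((degree_le _ v).trans (degree_le _ v)).trans (hdegΔ v)) (BadA ∪ BadB)ᶜ
  obtain ⟨Bad, hBad⟩ : ∃ Bad : Finset V, Bad = BadA ∪ BadB ∪ BadC := ⟨_, rfl⟩
  have hU : (BadA ∪ BadB)ᶜ \ BadC = Badᶜ := by
    rw [hBad]
    ext v
    simp only [mem_sdiff, mem_compl, mem_union]
    tauto
  rw [hU] at hc3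
  -- digits
  have hkap : (0 : ℝ) ≤ kap K J := Nat.cast_nonneg _
  have h12 : 0 ≤ 1 - 12 * ε := by linarith
  have h12' : 1 - 12 * ε ≤ 1 := by linarith
  have hρw : ∀ u v, rhoW ε K J w (X u, c u) (X v, c v) =
      Real.exp (-((1 - 12 * ε) * w' u v / kap K J)) := by
    intro u v
    rw [hw']
    rfl
  obtain ⟨g, hg1, hg2⟩ := exists_digits (restr (restr (restr H BadAᶜ) BadBᶜ) BadCᶜ)
    (fun v => (X v, c v)) J K b Δ hb (rhoW ε K J w)
    (fun x y => by unfold rhoW; rw [hw.symm]) (Real.exp (-(2 * χ / kap K J)))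
    (Real.exp_pos _)
    (fun x y => by
      unfold rhoW
      apply Real.exp_le_exp.2
      apply neg_le_neg
      apply div_le_div_of_nonneg_right _ hkap
      have h1 := hw.le x.1 y.1
      have h2 := hw.nonneg x.1 y.1
      nlinarith)
    (fun x y => by
      unfold rhoW
      apply Real.exp_le_one_iff.2
      apply neg_nonpos_of_nonneg
      apply div_nonneg _ hkap
      exact mul_nonneg h12 (hw.nonneg x.1 y.1))
    y D hD γ τ hγ hγ1 hτ R hR
    (by
      intro u v hv v' hv' hvv
      simp only [Set.mem_ofPred_eq, restr_adj] at hv hv'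
      have hu : u ∉ BadC := mem_compl.1 hv.2.1
      exact hc1 u hu hv.1 hv'.1 (congrArg Prod.snd hvv))
    (fun v => (((degree_le _ v).trans (degree_le _ v)).trans (degree_le _ v)).trans (hdegΔ v))
    (by
      intro v
      refine hcost.trans ?_
      apply mul_le_mul_of_nonneg_left _ (by positivity)
      apply mul_le_mul_of_nonneg_left _ (by positivity)
      have h1 : ∏ u ∈ (restr (restr (restr H BadAᶜ) BadBᶜ) BadCᶜ).neighborFinset v,
          rhoW ε K J w (X v, c v) (X u, c u) ^ bet K (y v) (y u) =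
          Real.exp (-((1 - 12 * ε) / kap K J *
            ∑ u ∈ (restr (restr (restr H BadAᶜ) BadBᶜ) BadCᶜ).neighborFinset v,
              (bet K (y v) (y u) : ℝ) * w' v u)) := by
        rw [mul_sum, ← sum_neg_distrib, Real.exp_sum]
        refine prod_congr rfl fun u _ => ?_
        rw [hρw, ← Real.exp_nat_mul]
        congr 1
        ring
      rw [h1]
      apply Real.exp_le_exp.2
      apply neg_le_neg
      have h2 : ∑ u ∈ (restr (restr (restr H BadAᶜ) BadBᶜ) BadCᶜ).neighborFinset v,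
          (bet K (y v) (y u) : ℝ) * w' v u ≤ 2 * K * ((1 + 2 * ε) * ((1 + 5 * ε) * Real.log m)) := by
        by_cases hv : v ∈ BadB
        · have h3 : (restr (restr (restr H BadAᶜ) BadBᶜ) BadCᶜ).neighborFinset v = ∅ := by
            ext u
            simp only [SimpleGraph.mem_neighborFinset, restr_adj, mem_compl, notMem_empty,
              iff_false]
            tauto
          rw [h3, sum_empty]
          positivity
        · have h4 := hy2 v hv
          calc ∑ u ∈ (restr (restr (restr H BadAᶜ) BadBᶜ) BadCᶜ).neighborFinset v,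
                (bet K (y v) (y u) : ℝ) * w' v u
              ≤ ∑ u ∈ (restr H BadAᶜ).neighborFinset v, (bet K (y v) (y u) : ℝ) * w' v u := by
                apply sum_le_sum_of_subset_of_nonneg
                · exact (nbhd_sub _ v).trans (nbhd_sub _ v)
                · intro u _ _
                  exact mul_nonneg (Nat.cast_nonneg _) (hw0 _ _)
            _ = 2 * K * ∑ u ∈ (restr H BadAᶜ).neighborFinset v,
                (bet K (y v) (y u) : ℝ) / (2 * K) * w' v u := by
                rw [mul_sum]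
                refine sum_congr rfl fun u _ => ?_
                field_simp
            _ ≤ 2 * K * ((1 + 2 * ε) * ((1 + 5 * ε) * Real.log m)) :=
                mul_le_mul_of_nonneg_left h4 (by positivity)
      calc (1 - 12 * ε) / kap K J *
            ∑ u ∈ (restr (restr (restr H BadAᶜ) BadBᶜ) BadCᶜ).neighborFinset v,
              (bet K (y v) (y u) : ℝ) * w' v u
          ≤ (1 - 12 * ε) / kap K J * (2 * K * ((1 + 2 * ε) * ((1 + 5 * ε) * Real.log m))) :=
            mul_le_mul_of_nonneg_left h2 (div_nonneg h12 hkap)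
        _ = (1 - 12 * ε) * (2 * K / kap K J) * ((1 + 2 * ε) * ((1 + 5 * ε) * Real.log m)) := by
            ring)
    Badᶜ
  refine ⟨Bad, X, c, g, ?_, hX, ?_, ?_⟩
  · have h1 : (Bad.card : ℝ) ≤ BadA.card + BadB.card + BadC.card := by
      rw [hBad]
      exact_mod_cast (card_union_le _ _).trans (Nat.add_le_add_right (card_union_le _ _) _)
    linarith
  · intro u v hu hv huv j j' hj
    rw [hBad] at hu hv
    simp only [mem_union, not_or] at hu hv
    apply hg1 u v _ j j' hj
    simp only [restr_adj, mem_compl]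
    tauto
  · have h0 : ∀ p : V × V, (X p.1 = X p.2 ∧ c p.1 = c p.2 ∧ g p.1 = g p.2) ↔
        ((fun v => (X v, c v)) p.1 = (fun v => (X v, c v)) p.2 ∧ g p.1 = g p.2) := by
      intro p
      simp only [Prod.mk.injEq]
      tauto
    have h0' : ∀ p : V × V, (X p.1 = X p.2 ∧ c p.1 = c p.2) ↔
        ((fun v => (X v, c v)) p.1 = (fun v => (X v, c v)) p.2) := by
      intro p
      simp only [Prod.mk.injEq]
    simp only [h0]
    simp only [h0'] at hc3
    have hbJ : (0 : ℝ) < (b : ℝ) ^ J := by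
      have : (0 : ℝ) < b := by exact_mod_cast hb
      positivity
    have h1γ : 0 < 1 - γ := by linarith
    have hcoef : (0 : ℝ) ≤ ((1 + γ) / (1 - γ)) ^ (2 * J * (Δ + 1)) := by positivity
    have h2 : 2 * (Fintype.card V : ℝ) * BadC.card / q ≤
        4 * (Fintype.card V * (Δ : ℝ) / q) ^ 2 := by
      calc 2 * (Fintype.card V : ℝ) * BadC.card / q
          ≤ 2 * (Fintype.card V : ℝ) * (2 * Fintype.card V * (Δ : ℝ) ^ 2 / q) / q := by
            apply div_le_div_of_nonneg_right _ hq'.le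
            exact mul_le_mul_of_nonneg_left hc2 (by positivity)
        _ = 4 * (Fintype.card V * (Δ : ℝ) / q) ^ 2 := by
            field_simp
            ring
    have h3 : ((Badᶜ : Finset V).card : ℝ) ≤ Fintype.card V := by
      exact_mod_cast card_le_univ _
    refine hg2.trans (add_le_add ?_ ?_)
    · apply mul_le_mul_of_nonneg_left _ hcoef
      apply div_le_div_of_nonneg_right _ hbJ.le
      linarith
    · exact mul_le_mul_of_nonneg_right h3 (by positivity)

end Pool.Agent.Lib.MP_1f2a9f_co.KW
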