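import Pool.Agent.Lib.MP_1f2a9f_co.KW.Mid
import Pool.Agent.Lib.MP_1f2a9f_co.MidW
import Pool.Agent.Lib.MP_1f2a9f_co.NumA
import Pool.Agent.Lib.MP_1f2a9f_co.NumB
import Pool.Agent.Lib.MP_1f2a9f_co.NumC
import Pool.Agent.Lib.MP_1f2a9f_co.NumD
import Pool.Agent.Lib.MP_1f2a9f_co.NumE

/-!
# KW, row GO (MidOn): board ug_mod

Copy of MidW.lean (theorem `middle_on`), uses `middleW`.
-/

set_option autoImplicit false

namespace Pool.Agent.Lib.MP_1f2a9f_co.KW

open Finset Pool.Agent.Lib.MP_1f2a9f_co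

theorem middle_onW {ε η χ Dc ε₁ : ℝ} {B K J r : ℕ} (hc : Consts ε η χ Dc ε₁ B K J r)
    (w : Fin B → Fin B → ℝ) (hw : Kernel χ w) :
    ∃ m0 : ℕ, ∀ m ≥ m0, ∀ (R : ((Fin B × Fin (pq m)) × Fin J) × Fin (pbg ε J m) →
      ((Fin B × Fin (pq m)) × Fin J) × Fin (pbg ε J m) → Bool),
      GoodRel2 (pbg ε J m) (fun κ κ' => rhoW ε K J w κ.1 κ'.1) (pDg Dc K m) (pgamg ε J m)
        (ptaug ε J m) R →
      ∀ (n : ℕ) (H : SimpleGraph (Fin n)) [DecidableRel H.Adj] (M : Finset (Fin n)),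
        (∀ v ∈ M, (H.degree v : ℝ) ≤ Dc * Real.log m) →
        (M.card : ℝ) ≤ ε * χ * (m / Real.log m) →
        PosOn ε χ ε₁ m w H M → MidConc ε χ Dc ε₁ B K J m R H M := by
  have hε := hc.hε
  have hη : 0 < η := by rw [hc.hη]; positivity
  have hχ : 0 < χ := by rw [hc.hχ]; positivity
  have hDc : 0 < Dc := by rw [hc.hDc]; positivity
  have hε₁ : 0 < ε₁ := by rw [hc.hε₁]; positivity
  have hKJ : K < J := by
    have h1 := hc.hJ
    have h2 := hc.hε1
    have h3 : (0 : ℝ) ≤ J := Nat.cast_nonneg _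
    have h4 : (K : ℝ) < J := by nlinarith
    exact_mod_cast h4
  obtain ⟨m1, hm1⟩ := middleW ε χ Dc ε₁ B K J r hε (by linarith [hc.hε1]) hχ hDc hε₁ hc.hB
    hc.hK hc.hKD hc.hr hKJ w hw
  obtain ⟨m2, hm2⟩ := num_basic hc
  obtain ⟨m3, hm3⟩ := num_relq hc
  refine ⟨max m1 (max m2 m3), ?_⟩
  intro m hm R hR
  have hmm1 : m1 ≤ m := le_trans (le_max_left _ _) hm
  have hmm2 : m2 ≤ m := le_trans (le_trans (le_max_left _ _) (le_max_right _ _)) hm
  have hmm3 : m3 ≤ m := le_trans (le_trans (le_max_right _ _) (le_max_right _ _)) hm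
  obtain ⟨_, _, _, _, hq, hbg, _, _, _, hgg, hgg1, htg, _, _, _⟩ := hm2 m hmm2
  obtain ⟨_, hcost⟩ := hm3 m hmm3
  have hmid := hm1 m hmm1 (pbg ε J m) (pq m) (pDel Dc m) (pDg Dc K m)
    (pgamg ε J m) (ptaug ε J m) R hbg hq hgg hgg1 htg (Nat.le_ceil _) le_rfl hR hcost
  intro n H _ M hHd hM hpos
  classical
  let V := {v // v ∈ M}
  have hcardV : Fintype.card V = M.card := Fintype.card_coe M
  have hd : ∀ v : V, ((H.comap (Subtype.val : V → Fin n)).degree v : ℝ) ≤ Dc * Real.log m := by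
    intro v
    refine le_trans ?_ (hHd v.1 v.2)
    have : (H.comap (Subtype.val : V → Fin n)).degree v ≤ H.degree v.1 := by
      rw [← SimpleGraph.card_neighborFinset_eq_degree, ← SimpleGraph.card_neighborFinset_eq_degree]
      apply Finset.card_le_card_of_injOn (Subtype.val : V → Fin n)
      · intro a ha
        simpa using ha
      · intro a _ b _ hab
        exact Subtype.ext hab
    exact_mod_cast this
  have hpos' : PosOK ε χ ε₁ m w (H.comap (Subtype.val : V → Fin n)) := hpos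
  obtain ⟨Bad', X', c', g', hB1, hB2, hB3, hB4⟩ := hmid V (H.comap (Subtype.val : V → Fin n))
    hd (by rw [hcardV]; exact hM) hpos'
  rw [hcardV] at hB1 hB4
  set X : Fin n → Fin B := fun v => if h : v ∈ M then X' ⟨v, h⟩ else ⟨0, hc.hB⟩ with hX
  set c : Fin n → Fin (pq m) := fun v => if h : v ∈ M then c' ⟨v, h⟩ else ⟨0, hq⟩ with hcc
  set g : Fin n → Fin J → Fin (pbg ε J m) := fun v => if h : v ∈ M then g' ⟨v, h⟩ else
    fun _ => ⟨0, hbg⟩ with hg
  have hXv : ∀ v : V, X v.1 = X' v := by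
    intro v
    rw [hX]
    simp
  have hcv : ∀ v : V, c v.1 = c' v := by
    intro v
    rw [hcc]
    simp
  have hgv : ∀ v : V, g v.1 = g' v := by
    intro v
    rw [hg]
    simp
  refine ⟨Bad'.map (Function.Embedding.subtype _), X, c, g, ?_, ?_, ?_, ?_, ?_⟩
  · intro v hv
    rw [Finset.mem_map] at hv
    obtain ⟨w, _, rfl⟩ := hv
    exact w.2
  · rw [Finset.card_map]
    exact hB1
  · intro i
    rw [MidW.card_sub M (fun v => X v = i) (fun v => X' v = i) (fun v => by rw [hXv])]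
    exact hB2 i
  · intro u v hu hv huv
    rw [Finset.mem_sdiff] at hu hv
    have hu' : (⟨u, hu.1⟩ : V) ∉ Bad' := by
      intro h
      exact hu.2 (Finset.mem_map.2 ⟨_, h, rfl⟩)
    have hv' : (⟨v, hv.1⟩ : V) ∉ Bad' := by
      intro h
      exact hv.2 (Finset.mem_map.2 ⟨_, h, rfl⟩)
    have h1 := hB3 ⟨u, hu.1⟩ ⟨v, hv.1⟩ hu' hv' huv
    have e1 := hXv ⟨u, hu.1⟩
    have e2 := hXv ⟨v, hv.1⟩
    have e3 := hcv ⟨u, hu.1⟩
    have e4 := hcv ⟨v, hv.1⟩
    have e5 := hgv ⟨u, hu.1⟩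
    have e6 := hgv ⟨v, hv.1⟩
    simp only at e1 e2 e3 e4 e5 e6
    rw [e1, e2, e3, e4, e5, e6]
    exact h1
  · rw [MidW.card_sub2 M Bad' (fun p => X p.1 = X p.2 ∧ c p.1 = c p.2 ∧ g p.1 = g p.2)
      (fun p => X' p.1 = X' p.2 ∧ c' p.1 = c' p.2 ∧ g' p.1 = g' p.2)
      (fun u v => by simp only [hXv, hcv, hgv]),
      MidW.card_sub2 M Bad' (fun p => X p.1 = X p.2) (fun p => X' p.1 = X' p.2)
      (fun u v => by simp only [hXv])]
    exact hB4

end Pool.Agent.Lib.MP_1f2a9f_co.KW
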