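import Pool.Agent.Lib.MP_1f2a9f_co.KW.Defs3

/-!
# KW, row OR (Orient): board ug3_mod

Minimise `∑ u, (loadG u)^2` over the compact set of the `α` with values
in `[1/4, 3/4]` on the edges (and `0` elsewhere) and `α u v + α v u = 1` on edges. If
`loadG v < loadG u` and `α u v > 1/4`, move a small `τ` from `α u v` to `α v u`: the sum changes by
`-2τ loadG u + 2τ loadG v + 2τ^2 < 0`.
-/

set_option autoImplicit false

namespace Pool.Agent.Lib.MP_1f2a9f_co.KW

open Finset Pool.Agent.Lib.MP_1f2a9f_co

/-- the compact set of the orientations -/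
private def orK {V : Type} (H : SimpleGraph V) : Set (V → V → ℝ) :=
  {α | ∀ u v, (H.Adj u v → α u v + α v u = 1 ∧ 1 / 4 ≤ α u v) ∧ (¬ H.Adj u v → α u v = 0)}

private theorem or_closed {V : Type} (H : SimpleGraph V) : IsClosed (orK H) := by
  unfold orK
  simp only [Set.ofPred_forall]
  refine isClosed_iInter fun u => isClosed_iInter fun v => ?_
  by_cases h : H.Adj u v
  · have e : {α : V → V → ℝ | (H.Adj u v → α u v + α v u = 1 ∧ 1 / 4 ≤ α u v) ∧
        (¬ H.Adj u v → α u v = 0)} = {α | α u v + α v u = 1} ∩ {α | 1 / 4 ≤ α u v} := by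
      ext α
      simp [h]
    rw [e]
    exact (isClosed_eq (by fun_prop) continuous_const).inter (isClosed_le continuous_const (by fun_prop))
  · have e : {α : V → V → ℝ | (H.Adj u v → α u v + α v u = 1 ∧ 1 / 4 ≤ α u v) ∧
        (¬ H.Adj u v → α u v = 0)} = {α | α u v = 0} := by
      ext α
      simp [h]
    rw [e]
    exact isClosed_eq (by fun_prop) continuous_const

private theorem or_compact {V : Type} (H : SimpleGraph V) : IsCompact (orK H) := by
  have h1 : IsCompact (Set.pi Set.univ (fun _ : V => Set.pi Set.univ (fun _ : V => Set.Icc (0 : ℝ) 1))) :=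
    isCompact_univ_pi fun _ => isCompact_univ_pi fun _ => isCompact_Icc
  refine h1.of_isClosed_subset (or_closed H) ?_
  intro α hα u _ v _
  by_cases h : H.Adj u v
  · obtain ⟨h2, h3⟩ := (hα u v).1 h
    obtain ⟨-, h5⟩ := (hα v u).1 h.symm
    exact ⟨by linarith, by linarith⟩
  · rw [(hα u v).2 h]
    exact ⟨le_rfl, zero_le_one⟩

open Classical in
private theorem or_nonempty {V : Type} (H : SimpleGraph V) : (orK H).Nonempty := by
  refine ⟨fun u v => if H.Adj u v then 1 / 2 else 0, fun u v => ⟨fun h => ?_, fun h => ?_⟩⟩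
  · simp only [if_pos h, if_pos h.symm]
    norm_num
  · simp only [if_neg h]

open Classical in
/-- the change -/
private noncomputable def orD {V : Type} (u v : V) (τ : ℝ) (x y : V) : ℝ :=
  if x = u ∧ y = v then -τ else if x = v ∧ y = u then τ else 0

open Classical in
private theorem or_load {V : Type} [Fintype V] (H : SimpleGraph V) (α : V → V → ℝ) {u v : V}
    (h : H.Adj u v) (τ : ℝ) (x : V) :
    loadG H (fun x y => α x y + orD u v τ x y) x =
      loadG H α x + (if x = u then -τ else if x = v then τ else 0) := by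
  have huv : u ≠ v := h.ne
  unfold loadG
  rw [sum_add_distrib]
  congr 1
  by_cases hx : x = u
  · subst hx
    rw [if_pos rfl, sum_eq_single v]
    · simp [orD]
    · intro y _ hy
      simp [orD, hy, huv]
    · intro hv
      exact absurd (mem_filter.2 ⟨mem_univ _, h⟩) hv
  · rw [if_neg hx]
    by_cases hx' : x = v
    · subst hx'
      rw [if_pos rfl, sum_eq_single u]
      · simp [orD, hx]
      · intro y _ hy
        simp [orD, hy, hx]
      · intro hv
        exact absurd (mem_filter.2 ⟨mem_univ _, h.symm⟩) hv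
    · rw [if_neg hx']
      refine sum_eq_zero fun y _ => ?_
      simp [orD, hx, hx']

theorem exists_orient {V : Type} [Fintype V] (H : SimpleGraph V) :
    ∃ α : V → V → ℝ, Quarter H α ∧
      ∀ u v, H.Adj u v → loadG H α v < loadG H α u → α u v = 1 / 4 := by
  classical
  have hc : Continuous (fun α : V → V → ℝ => ∑ u, (loadG H α u) ^ 2) := by
    unfold loadG
    fun_prop
  obtain ⟨α, hα, hmin⟩ := (or_compact H).exists_isMinOn (or_nonempty H) hc.continuousOn
  refine ⟨α, fun u v h => (hα u v).1 h, fun u v h hlt => ?_⟩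
  by_contra hne
  have huv : u ≠ v := h.ne
  have h14 : 1 / 4 < α u v := lt_of_le_of_ne ((hα u v).1 h).2 (Ne.symm hne)
  set δ : ℝ := loadG H α u - loadG H α v with hδ
  have hδ0 : 0 < δ := by rw [hδ]; linarith
  set τ : ℝ := min (α u v - 1 / 4) (δ / 2) with hτ
  have hτ0 : 0 < τ := lt_min (by linarith) (by linarith)
  have hτ1 : τ ≤ α u v - 1 / 4 := min_le_left _ _
  have hτ2 : τ ≤ δ / 2 := min_le_right _ _
  have hK : (fun x y => α x y + orD u v τ x y) ∈ orK H := by
    intro x y
    refine ⟨fun hxy => ?_, fun hxy => ?_⟩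
    · obtain ⟨h1, h2⟩ := (hα x y).1 hxy
      by_cases c1 : x = u ∧ y = v
      · obtain ⟨rfl, rfl⟩ := c1
        simp only [orD, and_self, if_true, huv.symm, false_and, if_false]
        constructor
        · linarith
        · linarith
      · by_cases c2 : x = v ∧ y = u
        · obtain ⟨rfl, rfl⟩ := c2
          simp only [orD, and_self, if_true, huv.symm, false_and, if_false]
          constructor
          · linarith
          · linarith
        · have e1 : orD u v τ x y = 0 := by simp [orD, c1, c2]
          have e2 : orD u v τ y x = 0 := by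
            have c1' : ¬ (y = u ∧ x = v) := fun hh => c2 ⟨hh.2, hh.1⟩
            have c2' : ¬ (y = v ∧ x = u) := fun hh => c1 ⟨hh.2, hh.1⟩
            simp [orD, c1', c2']
          simp only [e1, e2, add_zero]
          exact ⟨h1, h2⟩
    · have c1 : ¬ (x = u ∧ y = v) := by
        rintro ⟨rfl, rfl⟩
        exact hxy h
      have c2 : ¬ (x = v ∧ y = u) := by
        rintro ⟨rfl, rfl⟩
        exact hxy h.symm
      have e1 : orD u v τ x y = 0 := by simp [orD, c1, c2]
      simp only [e1, add_zero]
      exact (hα x y).2 hxy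
  have h1 := isMinOn_iff.1 hmin _ hK
  have h2 : ∑ x, (loadG H (fun x y => α x y + orD u v τ x y) x) ^ 2 =
      ∑ x, (loadG H α x) ^ 2 + ∑ x, (2 * loadG H α x * (if x = u then -τ else if x = v then τ else 0) +
        (if x = u then -τ else if x = v then τ else 0) ^ 2) := by
    rw [← sum_add_distrib]
    refine sum_congr rfl fun x _ => ?_
    rw [or_load H α h τ x]
    ring
  have h3 : ∑ x, (2 * loadG H α x * (if x = u then -τ else if x = v then τ else 0) +
        (if x = u then -τ else if x = v then τ else 0) ^ 2) =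
      (2 * loadG H α u * (-τ) + (-τ) ^ 2) + (2 * loadG H α v * τ + τ ^ 2) := by
    rw [Fintype.sum_eq_add u v huv]
    · rw [if_pos rfl, if_neg huv.symm, if_pos rfl]
    · rintro x ⟨hx1, hx2⟩
      rw [if_neg hx1, if_neg hx2]
      ring
  rw [h2, h3] at h1
  have h4 : 0 < τ * (δ - τ) := mul_pos hτ0 (by linarith)
  have h5 : (2 * loadG H α u * (-τ) + (-τ) ^ 2) + (2 * loadG H α v * τ + τ ^ 2) = -2 * (τ * (δ - τ)) := by
    rw [hδ]; ring
  linarith

end Pool.Agent.Lib.MP_1f2a9f_co.KW
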