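import Pool.Agent.Lib.MP_1f2a9f_co.KW.Defs3

/-!
# KW, row OC (OrientCmp): board ug3_mod

`α` as in `exists_orient`, `α'` another one, `C` closed under
adjacency. If `M = max_C loadG α > b`, let `S` be the set of the `u ∈ C` with load `M`:
`∑ u ∈ S, loadG α u = e(S) + (1/4) e(S, C \ S) ≤ ∑ u ∈ S, loadG α' u ≤ b |S|` (inside `S` both give
`e(S)`). The same for the minimum: `α u v = 3/4` for `u ∈ S`, `v ∈ C \ S`, and `α' u v ≤ 3/4`.
-/

set_option autoImplicit false

namespace Pool.Agent.Lib.MP_1f2a9f_co.KW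

open Finset Pool.Agent.Lib.MP_1f2a9f_co

open Classical in
private theorem oc_load {V : Type} [Fintype V] (H : SimpleGraph V) (β : V → V → ℝ) (u : V) :
    loadG H β u = ∑ v, if H.Adj u v then β u v else 0 := by
  unfold loadG
  rw [sum_filter]

private theorem oc_sum {V : Type} [Fintype V] (H : SimpleGraph V) (α α' : V → V → ℝ)
    (hα : Quarter H α) (hα' : Quarter H α') (S : Finset V)
    (h : ∀ u ∈ S, ∀ v, v ∉ S → H.Adj u v → α u v ≤ α' u v) :
    ∑ u ∈ S, loadG H α u ≤ ∑ u ∈ S, loadG H α' u := by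
  classical
  have hswap : ∑ u ∈ S, ∑ v ∈ S, (if H.Adj u v then α u v - α' u v else 0) = 0 := by
    have h1 : ∑ u ∈ S, ∑ v ∈ S, (if H.Adj u v then α u v - α' u v else 0) =
        ∑ u ∈ S, ∑ v ∈ S, -(if H.Adj u v then α u v - α' u v else 0) := by
      rw [sum_comm]
      refine sum_congr rfl fun u _ => sum_congr rfl fun v _ => ?_
      by_cases huv : H.Adj u v
      · rw [if_pos huv, if_pos huv.symm]
        have h1 := (hα u v huv).1
        have h2 := (hα' u v huv).1
        linarith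
      · rw [if_neg huv, if_neg (fun h => huv h.symm), neg_zero]
    simp only [sum_neg_distrib] at h1
    linarith
  have h2 : ∑ u ∈ S, loadG H α u = ∑ u ∈ S, loadG H α' u +
      ∑ u ∈ S, ∑ v, (if H.Adj u v then α u v - α' u v else 0) := by
    rw [← sum_add_distrib]
    refine sum_congr rfl fun u _ => ?_
    rw [oc_load, oc_load, ← sum_add_distrib]
    refine sum_congr rfl fun v _ => ?_
    by_cases huv : H.Adj u v
    · simp only [if_pos huv]
      ring
    · simp only [if_neg huv]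
      ring
  have h3 : ∑ u ∈ S, ∑ v, (if H.Adj u v then α u v - α' u v else 0) =
      ∑ u ∈ S, ∑ v ∈ S, (if H.Adj u v then α u v - α' u v else 0) +
        ∑ u ∈ S, ∑ v ∈ Sᶜ, (if H.Adj u v then α u v - α' u v else 0) := by
    rw [← sum_add_distrib]
    refine sum_congr rfl fun u _ => ?_
    rw [sum_add_sum_compl]
  have h4 : ∑ u ∈ S, ∑ v ∈ Sᶜ, (if H.Adj u v then α u v - α' u v else 0) ≤ 0 := by
    refine sum_nonpos fun u hu => sum_nonpos fun v hv => ?_
    rw [mem_compl] at hv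
    by_cases huv : H.Adj u v
    · rw [if_pos huv]
      have := h u hu v hv huv
      linarith
    · rw [if_neg huv]
  rw [h2, h3, hswap]
  linarith

theorem orient_le {V : Type} [Fintype V] (H : SimpleGraph V) (α α' : V → V → ℝ)
    (hα : Quarter H α) (hopt : ∀ u v, H.Adj u v → loadG H α v < loadG H α u → α u v = 1 / 4)
    (hα' : Quarter H α') (C : Set V) (hC : ∀ u v, u ∈ C → H.Adj u v → v ∈ C) (b : ℝ)
    (hb : ∀ u ∈ C, loadG H α' u ≤ b) : ∀ u ∈ C, loadG H α u ≤ b := by
  classical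
  intro u0 hu0
  obtain ⟨w, hw, hmax⟩ := exists_max_image (univ.filter (fun u => u ∈ C)) (loadG H α)
    ⟨u0, mem_filter.2 ⟨mem_univ _, hu0⟩⟩
  have hwC : w ∈ C := (mem_filter.1 hw).2
  have hmax' : ∀ u ∈ C, loadG H α u ≤ loadG H α w := fun u hu =>
    hmax u (mem_filter.2 ⟨mem_univ _, hu⟩)
  let S : Finset V := univ.filter (fun u => u ∈ C ∧ loadG H α u = loadG H α w)
  have hS : ∀ u, u ∈ S ↔ u ∈ C ∧ loadG H α u = loadG H α w := fun u => by
    simp only [S, mem_filter, mem_univ, true_and]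
  have hwS : w ∈ S := (hS w).2 ⟨hwC, rfl⟩
  have h1 := oc_sum H α α' hα hα' S (fun u hu v hv huv => by
    obtain ⟨huC, hul⟩ := (hS u).1 hu
    have hvC := hC u v huC huv
    have hlt : loadG H α v < loadG H α u := by
      rw [hul]
      refine lt_of_le_of_ne (hmax' v hvC) fun he => hv ((hS v).2 ⟨hvC, he⟩)
    rw [hopt u v huv hlt]
    exact (hα' u v huv).2)
  have h2 : ∑ u ∈ S, loadG H α u = S.card * loadG H α w := by
    rw [sum_congr rfl fun u hu => ((hS u).1 hu).2, sum_const, nsmul_eq_mul]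
  have h3 : ∑ u ∈ S, loadG H α' u ≤ S.card * b := by
    have := sum_le_card_nsmul S (loadG H α') b fun u hu => hb u ((hS u).1 hu).1
    rwa [nsmul_eq_mul] at this
  have h4 : (0 : ℝ) < S.card := by exact_mod_cast card_pos.2 ⟨w, hwS⟩
  have h5 : loadG H α w ≤ b := by
    rw [h2] at h1
    exact le_of_mul_le_mul_left (h1.trans h3) h4
  exact (hmax' u0 hu0).trans h5

theorem orient_ge {V : Type} [Fintype V] (H : SimpleGraph V) (α α' : V → V → ℝ)
    (hα : Quarter H α) (hopt : ∀ u v, H.Adj u v → loadG H α v < loadG H α u → α u v = 1 / 4)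
    (hα' : Quarter H α') (C : Set V) (hC : ∀ u v, u ∈ C → H.Adj u v → v ∈ C) (b : ℝ)
    (hb : ∀ u ∈ C, b ≤ loadG H α' u) : ∀ u ∈ C, b ≤ loadG H α u := by
  classical
  intro u0 hu0
  obtain ⟨w, hw, hmin⟩ := exists_min_image (univ.filter (fun u => u ∈ C)) (loadG H α)
    ⟨u0, mem_filter.2 ⟨mem_univ _, hu0⟩⟩
  have hwC : w ∈ C := (mem_filter.1 hw).2
  have hmin' : ∀ u ∈ C, loadG H α w ≤ loadG H α u := fun u hu =>
    hmin u (mem_filter.2 ⟨mem_univ _, hu⟩)
  let S : Finset V := univ.filter (fun u => u ∈ C ∧ loadG H α u = loadG H α w)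
  have hS : ∀ u, u ∈ S ↔ u ∈ C ∧ loadG H α u = loadG H α w := fun u => by
    simp only [S, mem_filter, mem_univ, true_and]
  have hwS : w ∈ S := (hS w).2 ⟨hwC, rfl⟩
  have h1 := oc_sum H α' α hα' hα S (fun u hu v hv huv => by
    obtain ⟨huC, hul⟩ := (hS u).1 hu
    have hvC := hC u v huC huv
    have hlt : loadG H α u < loadG H α v := by
      rw [hul]
      refine lt_of_le_of_ne (hmin' v hvC) fun he => hv ((hS v).2 ⟨hvC, he.symm⟩)
    have g1 := hopt v u huv.symm hlt
    have g2 := (hα u v huv).1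
    have g3 := (hα' u v huv).1
    have g4 := (hα' v u huv.symm).2
    linarith)
  have h2 : ∑ u ∈ S, loadG H α u = S.card * loadG H α w := by
    rw [sum_congr rfl fun u hu => ((hS u).1 hu).2, sum_const, nsmul_eq_mul]
  have h3 : S.card * b ≤ ∑ u ∈ S, loadG H α' u := by
    have := card_nsmul_le_sum S (loadG H α') b fun u hu => hb u ((hS u).1 hu).1
    rwa [nsmul_eq_mul] at this
  have h4 : (0 : ℝ) < S.card := by exact_mod_cast card_pos.2 ⟨w, hwS⟩
  have h5 : b ≤ loadG H α w := by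
    rw [h2] at h1
    exact le_of_mul_le_mul_left (h3.trans h1) h4
  exact h5.trans (hmin' u0 hu0)

end Pool.Agent.Lib.MP_1f2a9f_co.KW
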