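import Pool.Agent.Lib.MP_1f2a9f_co.KW.Defs

/-!
# KW, row RA (Pay): board ug_mod

the payments. With `x = a (i+1) / R`, `y = a (j+1) / R` the mean of
`pay a x y` over `j` is `a (1/2 + 9/(16 R) - 3 (i+1)/(8 R^2) + 1/(16 R^2))`.
-/

set_option autoImplicit false

namespace Pool.Agent.Lib.MP_1f2a9f_co.KW

open Finset Pool.Agent.Lib.MP_1f2a9f_co

theorem pay_nonneg {a x y : ℝ} (ha : 0 < a) (hx : 0 ≤ x) (hxa : x ≤ a) (hy : 0 ≤ y)
    (hya : y ≤ a) : 0 ≤ pay a x y := by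
  have e : pay a x y = (3 / 4 * max x y * a - 3 / 8 * (x ^ 2 - y ^ 2)) / a := by
    unfold pay
    field_simp
  rw [e]
  refine div_nonneg ?_ ha.le
  rcases le_total x y with h | h
  · rw [max_eq_right h]
    nlinarith [mul_nonneg hy ha.le, mul_nonneg hx (sub_nonneg.2 h), mul_nonneg hy (sub_nonneg.2 h)]
  · rw [max_eq_left h]
    nlinarith [mul_nonneg hx (sub_nonneg.2 hxa), mul_nonneg hx ha.le, mul_nonneg hy hy]

theorem pay_le {a x y : ℝ} (ha : 0 < a) (hx : 0 ≤ x) (hxa : x ≤ a) (hy : 0 ≤ y)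
    (hya : y ≤ a) : pay a x y ≤ 9 / 8 * a := by
  have e : pay a x y = (3 / 4 * max x y * a - 3 / 8 * (x ^ 2 - y ^ 2)) / a := by
    unfold pay
    field_simp
  rw [e, div_le_iff₀ ha]
  have h1 : max x y ≤ a := max_le hxa hya
  have h2 : max x y * a ≤ a * a := mul_le_mul_of_nonneg_right h1 ha.le
  nlinarith [mul_nonneg hx hx, mul_nonneg hy (sub_nonneg.2 hya),
    mul_nonneg ha.le (sub_nonneg.2 hya)]

theorem pay_add (a x y : ℝ) : pay a x y + pay a y x = 3 / 2 * max x y := by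
  unfold pay
  rw [max_comm y x]
  ring

private theorem ra_summax (s : ℕ) (N : ℕ) (h : s ≤ N) :
    ∑ j ∈ range N, max (s : ℝ) ((j : ℝ) + 1) = (s : ℝ) ^ 2 / 2 - s / 2 + N * (N + 1) / 2 := by
  induction N, h using Nat.le_induction with
  | base =>
    have : ∑ j ∈ range s, max (s : ℝ) ((j : ℝ) + 1) = ∑ j ∈ range s, (s : ℝ) := by
      refine sum_congr rfl fun j hj => max_eq_left ?_
      have := mem_range.1 hj
      exact_mod_cast this
    rw [this, sum_const, card_range, nsmul_eq_mul]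
    ring
  | succ N hN ih =>
    rw [sum_range_succ, ih, max_eq_right (by
      have : (s : ℝ) ≤ N := by exact_mod_cast hN
      linarith)]
    push_cast
    ring

private theorem ra_sumsq (N : ℕ) :
    ∑ j ∈ range N, ((j : ℝ) + 1) ^ 2 = (N : ℝ) * (N + 1) * (2 * N + 1) / 6 := by
  induction N with
  | zero => simp
  | succ N ih =>
    rw [sum_range_succ, ih]
    push_cast
    ring

theorem pay_mean (a : ℝ) (ha : 0 < a) (R : ℕ) (hR : 0 < R) (i : Fin R) :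
    ∑ j : Fin R, pay a (a * ((i : ℝ) + 1) / R) (a * ((j : ℝ) + 1) / R) ≤ R * (a / 2 + a / R) := by
  have hR' : (0 : ℝ) < R := by exact_mod_cast hR
  rw [Fin.sum_univ_eq_sum_range
    (fun j : ℕ => pay a (a * ((i : ℝ) + 1) / R) (a * ((j : ℝ) + 1) / R)) R]
  have e : ∀ j : ℕ, pay a (a * ((i : ℝ) + 1) / R) (a * ((j : ℝ) + 1) / R) =
      3 / 4 * (a / R) * max (((i : ℕ) + 1 : ℕ) : ℝ) ((j : ℝ) + 1) -
        3 / 8 * (a / R ^ 2) * (((i : ℝ) + 1) ^ 2 - ((j : ℝ) + 1) ^ 2) := by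
    intro j
    have hm : max (a * ((i : ℝ) + 1) / R) (a * ((j : ℝ) + 1) / R) =
        a / R * max (((i : ℕ) + 1 : ℕ) : ℝ) ((j : ℝ) + 1) := by
      rw [mul_max_of_nonneg _ _ (div_pos ha hR').le]
      push_cast
      congr 1 <;> ring
    unfold pay
    rw [hm]
    field_simp
  rw [sum_congr rfl fun j _ => e j, sum_sub_distrib, ← mul_sum, ← mul_sum, sum_sub_distrib,
    ra_summax ((i : ℕ) + 1) R i.2, ra_sumsq, sum_const, card_range, nsmul_eq_mul]
  push_cast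
  have hi : (0 : ℝ) ≤ (i : ℝ) := Nat.cast_nonneg _
  have hR1 : (1 : ℝ) ≤ R := by exact_mod_cast hR
  have key : (R : ℝ) * (a / 2 + a / R) -
      (3 / 4 * (a / R) * (((i : ℝ) + 1) ^ 2 / 2 - ((i : ℝ) + 1) / 2 + R * (R + 1) / 2) -
        3 / 8 * (a / R ^ 2) * (R * ((i : ℝ) + 1) ^ 2 - R * (R + 1) * (2 * R + 1) / 6)) =
      a * (7 * R + 6 * ((i : ℝ) + 1) - 1) / (16 * R) := by
    field_simp
    ring
  have h2 : 0 ≤ a * (7 * R + 6 * ((i : ℝ) + 1) - 1) / (16 * R) :=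
    div_nonneg (mul_nonneg ha.le (by linarith)) (by linarith)
  linarith

end Pool.Agent.Lib.MP_1f2a9f_co.KW
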