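import Pool.Agent.Lib.MP_1f2a9f_co.KW.Defs3

/-!
# KW, row PG1 (PayG): board ug3_mod

`payG_add`: by definition. `0 ≤ exG`. For `0 < L ≤ L'` and `0 ≤ y`:
`exG L L' y ≤ 3/2 y` (`y ≤ L`: `3/4 (y^2+L^2)/L - 3/4 L' ≤ 3/4 y^2/L ≤ 3/4 y`), so both summands of `payG`
are nonnegative (if `t > 0` then `L' ≤ L`); the other end pays something nonnegative, so
`payG ≤ 3/2 max x y ≤ 3/2 C`.
-/

set_option autoImplicit false

namespace Pool.Agent.Lib.MP_1f2a9f_co.KW

open Finset Pool.Agent.Lib.MP_1f2a9f_co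

theorem payG_add (t L L' x y : ℝ) :
    payG t L L' x y + payG (1 - t) L' L y x = 3 / 2 * max x y := by
  unfold payG
  rw [max_comm y x]
  ring

private theorem payG_ex_nonneg (L L' y : ℝ) : 0 ≤ exG L L' y := le_max_left _ _

private theorem payG_ex_le {L L' y : ℝ} (hL : 0 < L) (hLL : L ≤ L') (hy : 0 ≤ y) : exG L L' y ≤ 3 / 2 * y := by
  unfold exG
  refine max_le (by positivity) ?_
  split_ifs with h
  · have h1 : (y ^ 2 + L ^ 2) / (2 * L) ≤ y / 2 + L / 2 := by
      rw [div_le_iff₀ (by positivity)]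
      nlinarith
    nlinarith
  · nlinarith

theorem payG_nonneg (t L L' x y : ℝ) (h : Adm t L L') (hx : 0 ≤ x) (hy : 0 ≤ y) :
    0 ≤ payG t L L' x y := by
  obtain ⟨h0, h1, hL, hL', -, -, h3⟩ := h
  have e1 : 0 ≤ (1 - t) * exG L L' y := mul_nonneg (by linarith) (payG_ex_nonneg _ _ _)
  have key : L' ≤ L → 0 ≤ t * (3 / 2 * max x y - exG L' L x) := fun hle => by
    refine mul_nonneg h0 ?_
    have h4 := payG_ex_le hL' hle hx
    have h5 := le_max_left x y
    linarith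
  unfold payG
  rcases h3 with ⟨ht, -⟩ | ⟨-, hle⟩ | hle
  · rw [ht, zero_mul, zero_add, sub_zero, one_mul]
    exact payG_ex_nonneg _ _ _
  · exact add_nonneg (key hle) e1
  · exact add_nonneg (key hle.ge) e1

theorem payG_le (t L L' x y C : ℝ) (h : Adm t L L') (hx : 0 ≤ x) (hy : 0 ≤ y) (hxC : x ≤ C)
    (hyC : y ≤ C) : payG t L L' x y ≤ 3 / 2 * C := by
  obtain ⟨h0, h1, hL, hL', -, -, h3⟩ := h
  have hm : max x y ≤ C := max_le hxC hyC
  have e1 : t * (3 / 2 * max x y - exG L' L x) ≤ t * (3 / 2 * C) := by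
    refine mul_le_mul_of_nonneg_left ?_ h0
    have := payG_ex_nonneg L' L x
    linarith
  have key : L ≤ L' → (1 - t) * exG L L' y ≤ (1 - t) * (3 / 2 * C) := fun hle => by
    refine mul_le_mul_of_nonneg_left ?_ (by linarith)
    have := payG_ex_le hL hle hy
    linarith
  unfold payG
  rcases h3 with ⟨-, hle⟩ | ⟨ht, -⟩ | hle
  · have := key hle
    linarith
  · rw [ht] at e1 ⊢
    linarith
  · have := key hle.le
    linarith

end Pool.Agent.Lib.MP_1f2a9f_co.KW
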