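import Pool.Agent.Lib.MP_1f2a9f_co.KW.PayG
import Pool.Agent.Lib.MP_1f2a9f_co.KW.MeanMax
import Pool.Agent.Lib.MP_1f2a9f_co.KW.ExMean

/-!
# KW, row PG4 (PayMean): board ug3_mod

`t`-part (`L' ≤ L` or `t = 0`): by `mean_max` (with `L'`) and
`exG L' L x ≥ 3/2 (if x ≤ L' ..) - 3/4 L` it is at most `t (R 3/4 L + 3/2 L')`; the other part
(`L ≤ L'` or `t = 1`) by `ex_mean`. `1/4 (1-t) + 3/4 t = 1/4 + t/2`, `L' ≤ 5/4 L`.
-/

set_option autoImplicit false

namespace Pool.Agent.Lib.MP_1f2a9f_co.KW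

open Finset Pool.Agent.Lib.MP_1f2a9f_co

theorem payG_mean (t L L' : ℝ) (h : Adm t L L') (R : ℕ) (hR : 0 < R) (x : ℝ) (hx : 0 ≤ x) :
    ∑ b : Fin R, payG t L L' x (L' * ((b : ℝ) + 1) / R) ≤ (R * (1 / 4 + t / 2) + 4) * L := by
  obtain ⟨ht0, ht1, hL, hL', h1, h2, h3⟩ := h
  have hRR : (0 : ℝ) < R := by exact_mod_cast hR
  have hsplit : ∑ b : Fin R, payG t L L' x (L' * ((b : ℝ) + 1) / R) =
      t * (3 / 2 * ∑ b : Fin R, max x (L' * ((b : ℝ) + 1) / R) - R * exG L' L x) +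
      (1 - t) * ∑ b : Fin R, exG L L' (L' * ((b : ℝ) + 1) / R) := by
    unfold payG
    rw [Finset.sum_add_distrib, ← Finset.mul_sum, ← Finset.mul_sum, Finset.sum_sub_distrib,
      ← Finset.mul_sum, Finset.sum_const, Finset.card_univ, Fintype.card_fin, nsmul_eq_mul]
  rw [hsplit]
  have hA := mean_max L' x hL' hx R hR
  have hB : 3 / 2 * (if x ≤ L' then (x ^ 2 + L' ^ 2) / (2 * L') else x) - 3 / 4 * L ≤
      exG L' L x := le_max_right _ _
  have hP1 : 3 / 2 * ∑ b : Fin R, max x (L' * ((b : ℝ) + 1) / R) - R * exG L' L x ≤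
      R * (3 / 4 * L) + 3 / 2 * L' := by
    have hB' := mul_le_mul_of_nonneg_left hB hRR.le
    linarith
  have hT := mul_le_mul_of_nonneg_left hP1 ht0
  by_cases hLL : L ≤ L'
  · have hP2 := ex_mean L L' hL hLL h1 R hR
    have hS := mul_le_mul_of_nonneg_left hP2 (sub_nonneg.2 ht1)
    have e : t * (R * (3 / 4 * L) + 3 / 2 * L') + (1 - t) * (R * (L / 4) + L') =
        R * (1 / 4 + t / 2) * L + (1 + t / 2) * L' := by ring
    have hq : (1 + t / 2) * L' ≤ 4 * L := by nlinarith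
    linarith
  · have ht : t = 1 := by
      rcases h3 with h3 | h3 | h3
      · exact absurd h3.2 hLL
      · exact h3.1
      · exact absurd h3.le hLL
    subst ht
    have hlt : L' ≤ L := (not_le.1 hLL).le
    have e : (1 : ℝ) * (R * (3 / 4 * L) + 3 / 2 * L') =
        R * (1 / 4 + 1 / 2) * L + 3 / 2 * L' := by ring
    have e2 : (1 - (1 : ℝ)) * ∑ b : Fin R, exG L L' (L' * ((b : ℝ) + 1) / R) = 0 := by ring
    rw [e2]
    linarith

end Pool.Agent.Lib.MP_1f2a9f_co.KW
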