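import Pool.Agent.Lib.MP_1f2a9f_co.KW.Defs

/-!
# KW, row AP (PosA): board ug_mod

No bad vertices. `L = ⌊(1+ε) α B / χ⌋` levels are inside, `L ≤ B`,
`L ≥ α B / χ` since `χ/B ≤ ε α` (`Dc χ/B ≤ ε`, `Dc = 4 χ/ε`, `ε ≤ α`); put the vertices in the levels
`< L`, at most `|V|/L + 1` in each. Cost `(1+ε) α · 2 (1+ε) (log m/α) |U|`.
-/

set_option autoImplicit false

namespace Pool.Agent.Lib.MP_1f2a9f_co.KW

open Finset Pool.Agent.Lib.MP_1f2a9f_co

private theorem posA_count {V : Type} [Fintype V] [DecidableEq V] (L : ℕ)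
    (e : V ≃ Fin (Fintype.card V)) (i : ℕ) :
    (univ.filter (fun v : V => (e v : ℕ) % L = i)).card ≤ Fintype.card V / L + 1 := by
  have h : (univ.filter (fun v : V => (e v : ℕ) % L = i)).card ≤
      (range (Fintype.card V / L + 1)).card := by
    refine Finset.card_le_card_of_injOn (fun v => (e v : ℕ) / L) ?_ ?_
    · intro v _
      rw [Finset.mem_coe, Finset.mem_range]
      exact Nat.lt_succ_of_le (Nat.div_le_div_right (e v).2.le)
    · intro v hv w hw hvw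
      rw [Finset.mem_coe, Finset.mem_filter] at hv hw
      have h1 := Nat.div_add_mod (e v : ℕ) L
      have h2 := Nat.div_add_mod (e w : ℕ) L
      have h3 : (e v : ℕ) / L = (e w : ℕ) / L := hvw
      apply e.injective
      apply Fin.ext
      rw [← h1, ← h2, h3, hv.2, hw.2]
  rwa [Finset.card_range] at h

private theorem posA_ev (c : ℝ) (hc : 0 < c) :
    ∃ m0 : ℕ, ∀ m : ℕ, m0 ≤ m → 1 ≤ c * ((m : ℝ) / Real.log m) ∧ 0 < Real.log m ∧
      (0 : ℝ) < m := by
  have h1 := (Real.isLittleO_log_id_atTop).bound (c := c) hc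
  have h2 : Filter.Tendsto (fun m : ℕ => (m : ℝ)) Filter.atTop Filter.atTop :=
    tendsto_natCast_atTop_atTop
  have h3 := h2.eventually (h1.and (Filter.eventually_ge_atTop (2 : ℝ)))
  obtain ⟨m0, hm0⟩ := Filter.eventually_atTop.1 h3
  refine ⟨m0, fun m hm => ?_⟩
  obtain ⟨h4, h5⟩ := hm0 m hm
  have h6 : 0 < Real.log m := Real.log_pos (by linarith)
  have h7 : (0 : ℝ) < m := by linarith
  refine ⟨?_, h6, h7⟩
  rw [Real.norm_of_nonneg h6.le, id, Real.norm_of_nonneg h7.le] at h4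
  rw [← mul_div_assoc, le_div_iff₀ h6]
  linarith

theorem posA {ε η χ Dc ε₁ : ℝ} {B K J r : ℕ} (hc : Consts ε η χ Dc ε₁ B K J r) (α : ℝ)
    (hα : ε ≤ α) (hα2 : 2 * α ≤ χ) :
    ∃ m0 : ℕ, ∀ m ≥ m0, ∀ (V : Type) [Fintype V] [DecidableEq V] (H : SimpleGraph V)
      [DecidableRel H.Adj], (Fintype.card V : ℝ) ≤ α * (m / Real.log m) →
      Sparse ((1 + ε) * Real.log m / α) H → PosOK ε χ ε₁ m (wcst ε χ α B) H := by
  have hε := hc.hε
  have hε1 := hc.hε1
  have hα0 : 0 < α := lt_of_lt_of_le hε hα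
  have hη0 : 0 < η := by
    rw [hc.hη]
    positivity
  have hχ0 : 0 < χ := by
    rw [hc.hχ]
    positivity
  have hχ1 : 1 ≤ χ := by
    rw [hc.hχ, le_div_iff₀ (by positivity), hc.hη]
    have h1 : ε ^ 2 ≤ 1 := by nlinarith
    nlinarith
  have hB0 : (0 : ℝ) < B := by exact_mod_cast hc.hB
  obtain ⟨β, hβ⟩ : ∃ β, β = χ / B := ⟨_, rfl⟩
  have hβ0 : 0 < β := by
    rw [hβ]
    positivity
  have hβχ : B * β = χ := by
    rw [hβ]
    field_simp
  have hβ1 : β ≤ ε * α := by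
    have h1 := hc.hBD
    rw [hc.hDc, ← hβ, div_mul_eq_mul_div, div_le_iff₀ hε] at h1
    nlinarith
  -- the number of levels
  obtain ⟨L, hLdef⟩ : ∃ L, L = ⌊(1 + ε) * α / β⌋₊ := ⟨_, rfl⟩
  have hy0 : 0 ≤ (1 + ε) * α / β := by positivity
  have hLle : (L : ℝ) ≤ (1 + ε) * α / β := by
    rw [hLdef]
    exact Nat.floor_le hy0
  have hLge : α / β ≤ L := by
    have h1 : (1 + ε) * α / β < L + 1 := by
      rw [hLdef]
      exact Nat.lt_floor_add_one _
    have h2 : α / β + 1 ≤ (1 + ε) * α / β := by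
      rw [div_add_one hβ0.ne', div_le_div_iff_of_pos_right hβ0]
      linarith
    linarith
  have hL0R : (0 : ℝ) < L := lt_of_lt_of_le (by positivity) hLge
  have hL0 : 0 < L := by exact_mod_cast hL0R
  have hLB : L ≤ B := by
    have h1 : (L : ℝ) ≤ B := by
      refine hLle.trans ?_
      rw [div_le_iff₀ hβ0, hβχ]
      nlinarith
    exact_mod_cast h1
  obtain ⟨m0, hm0⟩ := posA_ev (3 * ε * β) (by positivity)
  refine ⟨m0, fun m hm V _ _ H _ hV hS => ?_⟩
  obtain ⟨hs1, hlog, hmR⟩ := hm0 m hm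
  obtain ⟨s, hs⟩ : ∃ s, s = (m : ℝ) / Real.log m := ⟨_, rfl⟩
  rw [← hs] at hs1 hV
  have hs0 : 0 < s := by
    rw [hs]
    positivity
  let e : V ≃ Fin (Fintype.card V) := Fintype.equivFin V
  have hX : ∀ v : V, (e v : ℕ) % L < B := fun v => lt_of_lt_of_le (Nat.mod_lt _ hL0) hLB
  have hin : ∀ v : V, ((((⟨(e v : ℕ) % L, hX v⟩ : Fin B) : ℕ) : ℝ) + 1) * (χ / B) ≤
      (1 + ε) * α := by
    intro v
    have h1 : ((((e v : ℕ) % L : ℕ) : ℝ) + 1) ≤ L := by
      exact_mod_cast Nat.mod_lt (e v : ℕ) hL0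
    rw [← hβ]
    calc ((((e v : ℕ) % L : ℕ) : ℝ) + 1) * β ≤ L * β := mul_le_mul_of_nonneg_right h1 hβ0.le
      _ ≤ (1 + ε) * α / β * β := mul_le_mul_of_nonneg_right hLle hβ0.le
      _ = (1 + ε) * α := by field_simp
  refine ⟨fun v => ⟨(e v : ℕ) % L, hX v⟩, ∅, ?_, ?_, ?_⟩
  · rw [← hs, Finset.card_empty, hc.hε₁]
    push_cast
    positivity
  · intro i
    rw [← hs, ← hβ]
    have h1 : (univ.filter (fun v : V => (⟨(e v : ℕ) % L, hX v⟩ : Fin B) = i)).card ≤
        Fintype.card V / L + 1 := by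
      refine le_trans (Finset.card_le_card ?_) (posA_count L e (i : ℕ))
      intro v hv
      rw [Finset.mem_filter] at hv ⊢
      exact ⟨hv.1, congrArg Fin.val hv.2⟩
    have h2 : ((univ.filter (fun v : V => (⟨(e v : ℕ) % L, hX v⟩ : Fin B) = i)).card : ℝ) ≤
        (Fintype.card V : ℝ) / L + 1 := by
      have h3 : ((univ.filter (fun v : V => (⟨(e v : ℕ) % L, hX v⟩ : Fin B) = i)).card : ℝ) ≤
          ((Fintype.card V / L : ℕ) : ℝ) + 1 := by exact_mod_cast h1
      refine h3.trans ?_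
      have h4 : ((Fintype.card V / L : ℕ) : ℝ) ≤ (Fintype.card V : ℝ) / L := Nat.cast_div_le
      linarith
    have h5 : (Fintype.card V : ℝ) / L ≤ β * s := by
      rw [div_le_iff₀ hL0R]
      calc (Fintype.card V : ℝ) ≤ α * s := hV
        _ = β * s * (α / β) := by field_simp
        _ ≤ β * s * L := mul_le_mul_of_nonneg_left hLge (by positivity)
    calc ((univ.filter (fun v : V => (⟨(e v : ℕ) % L, hX v⟩ : Fin B) = i)).card : ℝ)
        ≤ (Fintype.card V : ℝ) / L + 1 := h2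
      _ ≤ β * s + 3 * ε * β * s := add_le_add h5 hs1
      _ = (1 + 3 * ε) * β * s := by ring
  · intro U _
    have h1 : ∀ u ∈ U, ∑ v ∈ U.filter (fun v => H.Adj u v),
        wcst ε χ α B ⟨(e u : ℕ) % L, hX u⟩ ⟨(e v : ℕ) % L, hX v⟩ =
        (1 + ε) * α * ((U.filter (fun v => H.Adj u v)).card : ℝ) := by
      intro u _
      have h2 : ∀ v ∈ U.filter (fun v => H.Adj u v),
          wcst ε χ α B ⟨(e u : ℕ) % L, hX u⟩ ⟨(e v : ℕ) % L, hX v⟩ = (1 + ε) * α := by
        intro v _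
        unfold wcst
        rw [if_pos ⟨hin u, hin v⟩]
      rw [Finset.sum_congr rfl h2, Finset.sum_const, nsmul_eq_mul]
      ring
    have h3 := hS U
    have h4 : ∑ u ∈ U, ((U.filter (fun v => H.Adj u v)).card : ℝ) ≤
        2 * ((1 + ε) * Real.log m / α) * U.card := by
      refine le_trans (le_of_eq (Finset.sum_congr rfl fun u _ => ?_)) h3
      congr 2
      ext v
      simp only [Finset.mem_filter]
    show ∑ u ∈ U, ∑ v ∈ U.filter (fun v => H.Adj u v),
        wcst ε χ α B ⟨(e u : ℕ) % L, hX u⟩ ⟨(e v : ℕ) % L, hX v⟩ ≤ _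
    rw [Finset.sum_congr rfl h1, ← Finset.mul_sum]
    have hU : (0 : ℝ) ≤ U.card := Nat.cast_nonneg _
    calc (1 + ε) * α * ∑ u ∈ U, ((U.filter (fun v => H.Adj u v)).card : ℝ)
        ≤ (1 + ε) * α * (2 * ((1 + ε) * Real.log m / α) * U.card) :=
          mul_le_mul_of_nonneg_left h4 (by positivity)
      _ = 2 * ((1 + ε) * (1 + ε) * Real.log m) * U.card := by
          field_simp
      _ ≤ 2 * ((1 + 5 * ε) * Real.log m) * U.card := by
          have h5 : (1 + ε) * (1 + ε) ≤ 1 + 5 * ε := by nlinarith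
          have h6 : (1 + ε) * (1 + ε) * Real.log m ≤ (1 + 5 * ε) * Real.log m :=
            mul_le_mul_of_nonneg_right h5 hlog.le
          nlinarith

end Pool.Agent.Lib.MP_1f2a9f_co.KW
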