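import Pool.Agent.Lib.MP_1f2a9f_co.KW.ChooseG
import Pool.Agent.Lib.MP_1f2a9f_co.KW.PayMean

/-!
# KW, row PoG (PosG): board ug3_mod

As the landed KW/PosR.lean (`posR`). `s = m/log m`, `l = log m`,
`L_v = min (l/ρ v) χ`, `∑ 1/L_v ≤ (1+ε) s`, `R ≥ B`, `R ≥ 8 Dc χ/ε`, position `x_v = L_v (f v + 1)/R`,
level `⌈x_v B/χ⌉ - 1`, `t_uv = 2 α u v - 1/2`, `φ u v a b = payG t_uv L_u L_v (L_u (a+1)/R) (L_v (b+1)/R)`
for adjacent `u v`; `Adm t_uv L_u L_v`: if `ρ v < ρ u` then `α u v = 1/4`, `t = 0`, `L_u ≤ L_v`, etc.;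
`μ u v = α u v L_u + 4 χ/R` (`payG_mean`), `∑ v ∈ N u, μ u v ≤ L_u ρ u + Dc l 4 χ/R ≤ (1 + ε/2) l`;
`P = (1+2ε)(χ/B) s`, `t' = ε (χ/B) s`, `t = ε l`, `β = ε₁ s`, `C = 3/2 χ`. Cost of `U`: `payG_add`,
`payG_nonneg`, `(max (X u) (X v) + 1) χ/B ≤ max x_u x_v + χ/B`, `Dc χ/B ≤ ε`.
-/

set_option autoImplicit false

namespace Pool.Agent.Lib.MP_1f2a9f_co.KW

open Finset Pool.Agent.Lib.MP_1f2a9f_co

theorem posG {ε η χ Dc ε₁ : ℝ} {B K J r : ℕ} (hc : Consts ε η χ Dc ε₁ B K J r) :
    ∃ m0 : ℕ, ∀ m ≥ m0, ∀ (V : Type) [Fintype V] [DecidableEq V] (H : SimpleGraph V)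
      [DecidableRel H.Adj] (α : V → V → ℝ) (ρ : V → ℝ), Quarter H α →
      (∀ u v, H.Adj u v → ρ v < ρ u → α u v = 1 / 4) →
      (∀ u v, H.Adj u v → 4 * ρ u ≤ 5 * ρ v) → (∀ u, 0 < ρ u) →
      (∀ u, ∑ v ∈ H.neighborFinset u, α u v ≤ ρ u) → ∑ u, ρ u ≤ m →
      (∀ v, (H.degree v : ℝ) ≤ Dc * Real.log m) →
      (Fintype.card V : ℝ) ≤ ε * χ * (m / Real.log m) →
      PosOK ε χ ε₁ m (wmax χ B) H := by
  classical
  have hε := hc.hε
  have hε1 := hc.hε1
  have hη : 0 < η := by rw [hc.hη]; positivity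
  have hχ : 0 < χ := by rw [hc.hχ]; positivity
  have hD : 0 < Dc := by rw [hc.hDc]; positivity
  have hε₁ : 0 < ε₁ := by rw [hc.hε₁]; positivity
  have hBD := hc.hBD
  have hB := hc.hB
  have hB' : (0 : ℝ) < B := by exact_mod_cast hB
  set R : ℕ := B + ⌈8 * Dc * χ / ε⌉₊ with hRdef
  have hR : 0 < R := by omega
  have hR' : (0 : ℝ) < R := by exact_mod_cast hR
  have hRB : (B : ℝ) ≤ R := by
    rw [hRdef]
    push_cast
    linarith [Nat.cast_nonneg (α := ℝ) ⌈8 * Dc * χ / ε⌉₊]
  have hRε : 8 * Dc * χ / ε ≤ R := by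
    rw [hRdef]
    push_cast
    linarith [Nat.le_ceil (8 * Dc * χ / ε)]
  obtain ⟨m0, hm0⟩ := Pos.asym (max 0 (9 / 2 * χ ^ 3 * Dc / (ε * ε₁))) (2 * B ^ 3 / (ε * χ))
    (by positivity)
  refine ⟨m0, ?_⟩
  intro m hm V _ _ H _ α ρ hQ hα hρ54 hρ0 hload hsumρ hHd hHV
  obtain ⟨hl1, hl2⟩ := hm0 m hm
  have hl : 0 < Real.log m := lt_of_le_of_lt (le_max_left _ _) hl1
  have hl3 : 9 / 2 * χ ^ 3 * Dc / (ε * ε₁) < Real.log m := lt_of_le_of_lt (le_max_right _ _) hl1
  have hmpos : (0 : ℝ) < m := by
    rcases Nat.eq_zero_or_pos m with h | h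
    · rw [h] at hl
      simp at hl
    · exact_mod_cast h
  unfold PosOK
  set l := Real.log m with hldef
  set s : ℝ := m / l with hs
  have hspos : 0 < s := by positivity
  have hml : (m : ℝ) = l * s := by rw [hs]; field_simp
  have hs1 : 2 * (B : ℝ) ^ 3 / (ε * χ) < s := by
    rw [hs, lt_div_iff₀ hl]
    exact hl2
  -- the scales
  set L : V → ℝ := fun v => min (l / ρ v) χ with hLdef
  have hL0 : ∀ v, 0 < L v := by
    intro v
    have := hρ0 v
    exact lt_min (by positivity) hχ
  have hLχ : ∀ v, L v ≤ χ := fun v => min_le_right _ _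
  have hLρ : ∀ v, L v * ρ v ≤ l := by
    intro v
    have h := min_le_left (l / ρ v) χ
    exact (le_div_iff₀ (hρ0 v)).mp h
  have hLinv : ∀ v, 1 / L v ≤ ρ v / l + 1 / χ := by
    intro v
    have h0 := hρ0 v
    rcases min_choice (l / ρ v) χ with h | h
    · have : L v = l / ρ v := h
      rw [this, one_div_div]
      have : 0 < 1 / χ := by positivity
      linarith
    · have : L v = χ := h
      rw [this]
      have : 0 < ρ v / l := by positivity
      linarith
  have hLsum : ∑ v, 1 / L v ≤ (1 + ε) * s := by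
    calc ∑ v, 1 / L v ≤ ∑ v, (ρ v / l + 1 / χ) := Finset.sum_le_sum fun v _ => hLinv v
      _ = (∑ v, ρ v) / l + Fintype.card V * (1 / χ) := by
        rw [Finset.sum_add_distrib, ← Finset.sum_div, Finset.sum_const, Finset.card_univ,
          nsmul_eq_mul]
      _ ≤ m / l + (ε * χ * s) * (1 / χ) := by
        apply add_le_add
        · exact div_le_div_of_nonneg_right hsumρ hl.le
        · exact mul_le_mul_of_nonneg_right hHV (by positivity)
      _ = (1 + ε) * s := by
        rw [← hs]
        field_simp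
        try ring
  have hL45 : ∀ u v, 4 * ρ u ≤ 5 * ρ v → 4 * L v ≤ 5 * L u := by
    intro u v h
    have hu := hρ0 u
    have hv := hρ0 v
    have h1 : 4 * L v ≤ 5 * (l / ρ u) := by
      have h2 : L v ≤ l / ρ v := min_le_left _ _
      have h3 : 4 * (l / ρ v) ≤ 5 * (l / ρ u) := by
        rw [← mul_div_assoc, ← mul_div_assoc, div_le_div_iff₀ hv hu]
        have := mul_le_mul_of_nonneg_left h hl.le
        linarith
      linarith
    have h4 : 4 * L v ≤ 5 * χ := by
      have := hLχ v
      linarith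
    have h5 : L u = l / ρ u ∨ L u = χ := min_choice _ _
    rcases h5 with h5 | h5
    · rw [h5]; exact h1
    · rw [h5]; exact h4
  have hLmono : ∀ u v, ρ v ≤ ρ u → L u ≤ L v := by
    intro u v h
    have hv := hρ0 v
    exact min_le_min (div_le_div_of_nonneg_left hl.le hv h) le_rfl
  -- the shares
  set T : V → V → ℝ := fun u v => 2 * α u v - 1 / 2 with hTdef
  have hTs : ∀ u v, H.Adj u v → T v u = 1 - T u v := by
    intro u v h
    have h1 := (hQ u v h).1
    rw [hTdef]
    simp only
    linarith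
  have hAdm : ∀ u v, H.Adj u v → Adm (T u v) (L u) (L v) := by
    intro u v h
    have h1 := hQ u v h
    have h2 := hQ v u h.symm
    refine ⟨?_, ?_, hL0 u, hL0 v, hL45 u v (hρ54 u v h), hL45 v u (hρ54 v u h.symm), ?_⟩
    · rw [hTdef]
      simp only
      linarith [h1.2]
    · rw [hTdef]
      simp only
      linarith [h1.1, h2.2]
    · rcases lt_trichotomy (ρ v) (ρ u) with h3 | h3 | h3
      · left
        refine ⟨?_, hLmono u v h3.le⟩
        rw [hTdef]
        simp only
        rw [hα u v h h3]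
        norm_num
      · right; right
        exact le_antisymm (hLmono u v h3.le) (hLmono v u h3.ge)
      · right; left
        refine ⟨?_, hLmono v u h3.le⟩
        have h4 := hα v u h.symm h3
        rw [hTdef]
        simp only
        have h5 := h1.1
        rw [h4] at h5
        linarith
  -- positions of the indices
  set pos : V → Fin R → ℝ := fun v j => L v * ((j : ℝ) + 1) / R with hpos
  have hpos0 : ∀ v j, 0 < pos v j := by
    intro v j
    have := hL0 v
    rw [hpos]
    positivity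
  have hposL : ∀ v j, pos v j ≤ L v := by
    intro v j
    have hj : ((j : ℕ) : ℝ) + 1 ≤ R := by
      have := j.2
      exact_mod_cast this
    rw [hpos]
    simp only
    rw [div_le_iff₀ hR']
    exact mul_le_mul_of_nonneg_left hj (hL0 v).le
  have hposχ : ∀ v j, pos v j ≤ χ := fun v j => (hposL v j).trans (hLχ v)
  set δ : ℝ := χ / B with hδ
  have hδpos : 0 < δ := by positivity
  have hδB : δ * B = χ := by rw [hδ]; field_simp
  have hcB : ∀ v j, ⌈pos v j / δ⌉₊ ≤ B := by
    intro v j
    rw [Nat.ceil_le, div_le_iff₀ hδpos]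
    calc pos v j ≤ χ := hposχ v j
      _ = B * δ := by rw [mul_comm, hδB]
  have hc0 : ∀ v j, 0 < ⌈pos v j / δ⌉₊ := by
    intro v j
    rw [Nat.ceil_pos]
    have := hpos0 v j
    positivity
  set lev : V → Fin R → Fin B := fun v j => ⟨⌈pos v j / δ⌉₊ - 1, by
    have := hcB v j
    have := hc0 v j
    omega⟩ with hlev
  have hp : ∀ i v, ((univ.filter (fun j => lev v j = i)).card : ℝ) ≤ R * δ * (1 / L v) + 1 := by
    intro i v
    have hLv := hL0 v
    have h1 := Pos.count_interval R (R * δ / L v) (by positivity) (i : ℕ)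
    have h2 : (univ.filter (fun j => lev v j = i)) = (univ.filter (fun j : Fin R =>
        ⌈(((j : ℕ) : ℝ) + 1) / (R * δ / L v)⌉₊ = (i : ℕ) + 1)) := by
      ext j
      simp only [Finset.mem_filter, Finset.mem_univ, true_and]
      have h3 : (((j : ℕ) : ℝ) + 1) / (R * δ / L v) = pos v j / δ := by
        rw [hpos]
        field_simp
      rw [h3, hlev, Fin.ext_iff]
      simp only
      have := hc0 v j
      omega
    rw [h2]
    refine le_trans h1 (le_of_eq ?_)
    ring
  have hP : ∀ i, ∑ v, ((univ.filter (fun j => lev v j = i)).card : ℝ) ≤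
      R * ((1 + 2 * ε) * δ * s) := by
    intro i
    calc ∑ v, ((univ.filter (fun j => lev v j = i)).card : ℝ) ≤
          ∑ v, (R * δ * (1 / L v) + 1) := Finset.sum_le_sum fun v _ => hp i v
      _ = R * δ * (∑ v, 1 / L v) + Fintype.card V := by
        rw [Finset.sum_add_distrib, ← Finset.mul_sum, Finset.sum_const, Finset.card_univ,
          nsmul_eq_mul, mul_one]
      _ ≤ R * δ * ((1 + ε) * s) + R * (ε * δ * s) := by
        apply add_le_add
        · exact mul_le_mul_of_nonneg_left hLsum (by positivity)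
        · calc (Fintype.card V : ℝ) ≤ ε * χ * s := hHV
            _ = B * (ε * δ * s) := by rw [← hδB]; ring
            _ ≤ R * (ε * δ * s) := mul_le_mul_of_nonneg_right hRB (by positivity)
      _ = R * ((1 + 2 * ε) * δ * s) := by ring
  set Δ : ℕ := ⌊Dc * l⌋₊ with hΔdef
  have hΔl : (Δ : ℝ) ≤ Dc * l := Nat.floor_le (by positivity)
  have hHΔ : ∀ v, H.degree v ≤ Δ := by
    intro v
    rw [hΔdef]
    exact Nat.le_floor (hHd v)
  set μ : V → V → ℝ := fun u v => α u v * L u + 4 * L u / R with hμdef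
  obtain ⟨f, hf1, hf2⟩ := choose_posG (V := V) R B Δ hR (fun u => H.neighborFinset u)
    (fun u => H.notMem_neighborFinset_self u)
    (fun u => by
      simp only [SimpleGraph.card_neighborFinset_eq_degree]
      exact hHΔ u)
    (fun u v i j => payG (T u v) (L u) (L v) (pos u i) (pos v j)) (3 / 2 * χ) μ
    (fun u v hv i j => payG_nonneg _ _ _ _ _ (hAdm u v ((H.mem_neighborFinset u v).mp hv))
      (hpos0 u i).le (hpos0 v j).le)
    (fun u v hv i j => payG_le _ _ _ _ _ _ (hAdm u v ((H.mem_neighborFinset u v).mp hv))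
      (hpos0 u i).le (hpos0 v j).le (hposχ u i) (hposχ v j))
    (fun u v hv i => by
      refine (payG_mean _ _ _ (hAdm u v ((H.mem_neighborFinset u v).mp hv)) R hR (pos u i)
        (hpos0 u i).le).trans (le_of_eq ?_)
      rw [hμdef, hTdef]
      simp only
      field_simp
      ring)
    lev ((1 + 2 * ε) * δ * s) hP (ε * l) (ε * δ * s) (ε₁ * s)
    (by positivity) (by positivity) (by positivity)
    (by
      have h1 : B * (Fintype.card V : ℝ) / (ε * δ * s) ^ 2 < 1 / 2 := by
        rw [div_lt_iff₀ (by positivity)]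
        rw [div_lt_iff₀ (by positivity)] at hs1
        have h2 : (B : ℝ) * (Fintype.card V : ℝ) ≤ B * (ε * χ * s) :=
          mul_le_mul_of_nonneg_left hHV hB'.le
        have h3 : 1 / 2 * (ε * δ * s) ^ 2 = (s * (ε * χ)) * (ε * χ * s) / (2 * B ^ 2) := by
          rw [hδ]
          field_simp
        have h4 : (B : ℝ) * (ε * χ * s) = (2 * B ^ 3) * (ε * χ * s) / (2 * B ^ 2) := by
          field_simp
        rw [h3]
        refine lt_of_le_of_lt h2 ?_
        rw [h4]
        apply div_lt_div_of_pos_right _ (by positivity)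
        exact mul_lt_mul_of_pos_right hs1 (by positivity)
      have h2 : (Fintype.card V : ℝ) * (Δ * (3 / 2 * χ) ^ 2) / ((ε * l) ^ 2 * (ε₁ * s)) <
          1 / 2 := by
        rw [div_lt_iff₀ (by positivity)]
        rw [div_lt_iff₀ (by positivity)] at hl3
        have h3 : (Fintype.card V : ℝ) * (Δ * (3 / 2 * χ) ^ 2) ≤
            (ε * χ * s) * ((Dc * l) * (3 / 2 * χ) ^ 2) :=
          mul_le_mul hHV (mul_le_mul_of_nonneg_right hΔl (by positivity)) (by positivity)
            (by positivity)
        refine lt_of_le_of_lt h3 ?_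
        have h5 : (ε * χ * s) * ((Dc * l) * (3 / 2 * χ) ^ 2) =
            (9 / 2 * χ ^ 3 * Dc) * (ε * s * l / 2) := by ring
        have h6 : 1 / 2 * ((ε * l) ^ 2 * (ε₁ * s)) = (l * (ε * ε₁)) * (ε * s * l / 2) := by
          ring
        rw [h5, h6]
        exact mul_lt_mul_of_pos_right hl3 (by positivity)
      linarith)
  -- the result
  refine ⟨fun v => lev v (f v), univ.filter (fun u => ∑ v ∈ H.neighborFinset u, μ u v + ε * l <
    ∑ v ∈ H.neighborFinset u, payG (T u v) (L u) (L v) (pos u (f u)) (pos v (f v))),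
    hf2, ?_, ?_⟩
  · intro i
    refine le_trans (hf1 i) (le_of_eq ?_)
    ring
  · intro U hU
    have hgood : ∀ u ∈ U, ∑ v ∈ H.neighborFinset u,
        payG (T u v) (L u) (L v) (pos u (f u)) (pos v (f v)) ≤ (1 + 3 / 2 * ε) * l := by
      intro u hu
      have huB := Finset.disjoint_left.mp hU hu
      rw [Finset.mem_filter, not_and] at huB
      have h1 := not_lt.mp (huB (Finset.mem_univ _))
      refine le_trans h1 ?_
      have h2 : ∑ v ∈ H.neighborFinset u, μ u v =
          (∑ v ∈ H.neighborFinset u, α u v) * L u + (H.degree u : ℝ) * (4 * L u / R) := by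
        rw [hμdef]
        simp only
        rw [Finset.sum_add_distrib, ← Finset.sum_mul, Finset.sum_const, nsmul_eq_mul,
          H.card_neighborFinset_eq_degree]
      have h3 : (∑ v ∈ H.neighborFinset u, α u v) * L u ≤ l := by
        calc (∑ v ∈ H.neighborFinset u, α u v) * L u ≤ ρ u * L u :=
              mul_le_mul_of_nonneg_right (hload u) (hL0 u).le
          _ = L u * ρ u := mul_comm _ _
          _ ≤ l := hLρ u
      have h4 : (H.degree u : ℝ) * (4 * L u / R) ≤ ε / 2 * l := by
        have h5 : 4 * L u / R ≤ 4 * χ / R :=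
          div_le_div_of_nonneg_right (by linarith [hLχ u]) hR'.le
        calc (H.degree u : ℝ) * (4 * L u / R) ≤ (Dc * l) * (4 * χ / R) :=
              mul_le_mul (hHd u) h5 (by have := hL0 u; positivity) (by positivity)
          _ = (8 * Dc * χ / R) * (l / 2) := by ring
          _ ≤ ε * (l / 2) := by
            apply mul_le_mul_of_nonneg_right _ (by positivity)
            rw [div_le_iff₀ hR']
            rw [div_le_iff₀ hε] at hRε
            linarith
          _ = ε / 2 * l := by ring
      rw [h2]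
      linarith
    have hsub : ∀ v, U.filter (fun u => H.Adj v u) ⊆ H.neighborFinset v := by
      intro v u hu
      rw [Finset.mem_filter] at hu
      rw [SimpleGraph.mem_neighborFinset]
      exact hu.2
    have hcardU : ∀ v, ((U.filter (fun u => H.Adj v u)).card : ℝ) ≤ Dc * l := by
      intro v
      refine le_trans ?_ (hHd v)
      have h1 := Finset.card_le_card (hsub v)
      rw [H.card_neighborFinset_eq_degree] at h1
      exact_mod_cast h1
    have hswap : ∀ g : V → V → ℝ, ∑ u ∈ U, ∑ v ∈ U.filter (fun v => H.Adj u v), g u v =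
        ∑ v ∈ U, ∑ u ∈ U.filter (fun u => H.Adj v u), g u v := by
      intro g
      simp only [Finset.sum_filter]
      rw [Finset.sum_comm]
      refine Finset.sum_congr rfl (fun v _ => Finset.sum_congr rfl (fun u _ => ?_))
      simp only [H.adj_comm u v]
    have hmain : ∑ u ∈ U, ∑ v ∈ U.filter (fun v => H.Adj u v),
        payG (T u v) (L u) (L v) (pos u (f u)) (pos v (f v)) ≤
        U.card * ((1 + 3 / 2 * ε) * l) := by
      calc ∑ u ∈ U, ∑ v ∈ U.filter (fun v => H.Adj u v),
            payG (T u v) (L u) (L v) (pos u (f u)) (pos v (f v)) ≤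
          ∑ u ∈ U, ∑ v ∈ H.neighborFinset u,
            payG (T u v) (L u) (L v) (pos u (f u)) (pos v (f v)) := by
            refine Finset.sum_le_sum (fun u _ => ?_)
            apply Finset.sum_le_sum_of_subset_of_nonneg (hsub u)
            intro v hv _
            exact payG_nonneg _ _ _ _ _ (hAdm u v ((H.mem_neighborFinset u v).mp hv))
              (hpos0 _ _).le (hpos0 _ _).le
        _ ≤ ∑ _u ∈ U, (1 + 3 / 2 * ε) * l := Finset.sum_le_sum hgood
        _ = _ := by simp
    have hX : ∀ v, ((lev v (f v) : ℕ) + 1 : ℝ) * δ ≤ pos v (f v) + δ := by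
      intro v
      have h1 : ((lev v (f v) : ℕ) + 1 : ℝ) = (⌈pos v (f v) / δ⌉₊ : ℝ) := by
        have h2 : (lev v (f v) : ℕ) + 1 = ⌈pos v (f v) / δ⌉₊ := by
          rw [hlev]
          simp only
          have := hc0 v (f v)
          omega
        exact_mod_cast h2
      rw [h1]
      have h3 : (⌈pos v (f v) / δ⌉₊ : ℝ) < pos v (f v) / δ + 1 :=
        Nat.ceil_lt_add_one (by have := hpos0 v (f v); positivity)
      calc (⌈pos v (f v) / δ⌉₊ : ℝ) * δ ≤ (pos v (f v) / δ + 1) * δ :=
            mul_le_mul_of_nonneg_right h3.le hδpos.le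
        _ = pos v (f v) + δ := by field_simp
    have hw : ∀ u v, H.Adj u v → wmax χ B (lev u (f u)) (lev v (f v)) ≤
        payG (T u v) (L u) (L v) (pos u (f u)) (pos v (f v)) +
          payG (T v u) (L v) (L u) (pos v (f v)) (pos u (f u)) + 3 / 2 * δ := by
      intro u v huv
      rw [hTs u v huv, payG_add]
      unfold wmax
      rw [← hδ]
      rcases le_total (lev u (f u)) (lev v (f v)) with h | h
      · rw [max_eq_right h]
        have h1 := hX v
        have h2 := le_max_right (pos u (f u)) (pos v (f v))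
        linarith
      · rw [max_eq_left h]
        have h1 := hX u
        have h2 := le_max_left (pos u (f u)) (pos v (f v))
        linarith
    calc ∑ u ∈ U, ∑ v ∈ U.filter (fun v => H.Adj u v), wmax χ B (lev u (f u)) (lev v (f v)) ≤
        ∑ u ∈ U, ∑ v ∈ U.filter (fun v => H.Adj u v),
          (payG (T u v) (L u) (L v) (pos u (f u)) (pos v (f v)) +
          payG (T v u) (L v) (L u) (pos v (f v)) (pos u (f u)) + 3 / 2 * δ) :=
          Finset.sum_le_sum (fun u _ => Finset.sum_le_sum
            (fun v hv => hw u v (Finset.mem_filter.mp hv).2))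
      _ = (∑ u ∈ U, ∑ v ∈ U.filter (fun v => H.Adj u v),
            payG (T u v) (L u) (L v) (pos u (f u)) (pos v (f v))) +
          (∑ u ∈ U, ∑ v ∈ U.filter (fun v => H.Adj u v),
            payG (T v u) (L v) (L u) (pos v (f v)) (pos u (f u))) +
          ∑ u ∈ U, ((U.filter (fun v => H.Adj u v)).card : ℝ) * (3 / 2 * δ) := by
          simp only [Finset.sum_add_distrib, Finset.sum_const, nsmul_eq_mul]
      _ = 2 * (∑ u ∈ U, ∑ v ∈ U.filter (fun v => H.Adj u v),
            payG (T u v) (L u) (L v) (pos u (f u)) (pos v (f v))) +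
          ∑ u ∈ U, ((U.filter (fun v => H.Adj u v)).card : ℝ) * (3 / 2 * δ) := by
          rw [hswap (fun u v => payG (T v u) (L v) (L u) (pos v (f v)) (pos u (f u)))]
          ring
      _ ≤ 2 * (U.card * ((1 + 3 / 2 * ε) * l)) + ∑ _u ∈ U, (3 / 2 * ε) * l := by
          apply add_le_add
          · linarith
          · refine Finset.sum_le_sum (fun u _ => ?_)
            calc ((U.filter (fun v => H.Adj u v)).card : ℝ) * (3 / 2 * δ) ≤
                  (Dc * l) * (3 / 2 * δ) :=
                  mul_le_mul_of_nonneg_right (hcardU u) (by positivity)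
              _ = (Dc * δ) * (3 / 2 * l) := by ring
              _ ≤ ε * (3 / 2 * l) := mul_le_mul_of_nonneg_right hBD (by positivity)
              _ = (3 / 2 * ε) * l := by ring
      _ = (2 + 9 / 2 * ε) * l * U.card := by
          rw [Finset.sum_const, nsmul_eq_mul]
          ring
      _ ≤ 2 * ((1 + 5 * ε) * l) * U.card := by
          apply mul_le_mul_of_nonneg_right _ (Nat.cast_nonneg _)
          linarith [mul_pos hε hl]

end Pool.Agent.Lib.MP_1f2a9f_co.KW
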