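import Pool.Agent.Lib.MP_1f2a9f_co.KW.Choose
import Pool.Agent.Lib.MP_1f2a9f_co.KW.Pay
import Pool.Agent.Lib.MP_1f2a9f_co.Pos

/-!
# KW, row RE (PosR): board ug_mod

`s = m / log m`, `l = log m`, `a = |V| / s ≤ ε χ` (`V` empty: trivial),
`R ≥ B`, `R ≥ 1/ε`, position `a (f v + 1) / R`, level = ceil (position · B / χ) - 1,
`φ i j = pay a (a (i+1)/R) (a (j+1)/R)`, `C = 9/8 a`, `μ = a/2 + a/R`,
`p = (χ/B)/a + 1/R`, `t = ε l`, `t' = ε (χ/B) s`, `β = ε₁ s`. For `u` outside of the bad set
`F_u ≤ Δ (a/2 + a/R) + ε l ≤ (1 + 2/R + ε) l` as `Δ a ≤ 2 m / s = 2 l`. For an edge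
`wmax (X u) (X v) ≤ 3/2 max (x_u, x_v) + 3/2 χ/B = pay x_u x_v + pay x_v x_u + 3/2 χ/B`, and
`Dc χ / B ≤ ε`.
-/

set_option autoImplicit false

namespace Pool.Agent.Lib.MP_1f2a9f_co.KW

open Finset Pool.Agent.Lib.MP_1f2a9f_co

theorem posR {ε η χ Dc ε₁ : ℝ} {B K J r : ℕ} (hc : Consts ε η χ Dc ε₁ B K J r) :
    ∃ m0 : ℕ, ∀ m ≥ m0, ∀ (V : Type) [Fintype V] [DecidableEq V] (H : SimpleGraph V)
      [DecidableRel H.Adj] (Δ : ℕ), (∀ v, H.degree v ≤ Δ) → (Δ : ℝ) ≤ Dc * Real.log m →
      (Fintype.card V : ℝ) ≤ ε * χ * (m / Real.log m) → Fintype.card V * Δ ≤ 2 * m →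
      PosOK ε χ ε₁ m (wmax χ B) H := by
  have hε := hc.hε
  have hε1 := hc.hε1
  have hη : 0 < η := by rw [hc.hη]; positivity
  have hχ : 0 < χ := by rw [hc.hχ]; positivity
  have hD : 0 < Dc := by rw [hc.hDc]; positivity
  have hε₁ : 0 < ε₁ := by rw [hc.hε₁]; positivity
  have hBD := hc.hBD
  have hB := hc.hB
  have hB' : (0 : ℝ) < B := by exact_mod_cast hB
  set R : ℕ := B + ⌈1 / ε⌉₊ with hRdef
  have hR : 0 < R := by omega
  have hR' : (0 : ℝ) < R := by exact_mod_cast hR
  have hRB : (B : ℝ) ≤ R := by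
    rw [hRdef]
    push_cast
    linarith [Nat.cast_nonneg (α := ℝ) ⌈1 / ε⌉₊]
  have hRε : 1 / ε ≤ R := by
    rw [hRdef]
    push_cast
    linarith [Nat.le_ceil (1 / ε)]
  obtain ⟨m0, hm0⟩ := Pos.asym (max 0 (6 * χ ^ 2 / ε₁)) (2 * B ^ 3 / (ε * χ)) (by positivity)
  refine ⟨m0, ?_⟩
  intro m hm V _ _ H _ Δ hHd hΔl hHV hVΔ
  obtain ⟨hl1, hl2⟩ := hm0 m hm
  have hl : 0 < Real.log m := lt_of_le_of_lt (le_max_left _ _) hl1
  have hl3 : 6 * χ ^ 2 / ε₁ < Real.log m := lt_of_le_of_lt (le_max_right _ _) hl1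
  have hmpos : (0 : ℝ) < m := by
    rcases Nat.eq_zero_or_pos m with h | h
    · rw [h] at hl
      simp at hl
    · exact_mod_cast h
  unfold PosOK
  set l := Real.log m with hldef
  set s : ℝ := m / l with hs
  have hspos : 0 < s := by positivity
  have hml : (m : ℝ) = l * s := by rw [hs]; field_simp
  have hs1 : 2 * (B : ℝ) ^ 3 / (ε * χ) < s := by
    rw [hs, lt_div_iff₀ hl]
    exact hl2
  rcases isEmpty_or_nonempty V with hV | hV
  · refine ⟨fun v => isEmptyElim v, ∅, ?_, ?_, ?_⟩
    · rw [Finset.card_empty, Nat.cast_zero]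
      positivity
    · intro i
      rw [Finset.univ_eq_empty, Finset.filter_empty, Finset.card_empty, Nat.cast_zero]
      positivity
    · intro U _
      have hU : U = ∅ := Finset.eq_empty_of_isEmpty U
      rw [hU]
      simp
  set nV : ℝ := (Fintype.card V : ℝ) with hnVdef
  have hnV : 0 < nV := by
    rw [hnVdef]
    exact_mod_cast Fintype.card_pos
  set a : ℝ := nV / s with hadef
  have ha : 0 < a := by positivity
  have has : nV = a * s := by rw [hadef]; field_simp
  have haχ : a ≤ ε * χ := by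
    rw [hadef, div_le_iff₀ hspos]
    exact hHV
  have hVΔ' : nV * Δ ≤ 2 * m := by
    rw [hnVdef]
    exact_mod_cast hVΔ
  have hΔa : Δ * a ≤ 2 * l := by
    have h1 : (Δ * a) * s ≤ (2 * l) * s := by
      calc (Δ * a) * s = nV * Δ := by rw [has]; ring
        _ ≤ 2 * m := hVΔ'
        _ = (2 * l) * s := by rw [hml]; ring
    exact le_of_mul_le_mul_right h1 hspos
  have hΔ0 : (0 : ℝ) ≤ Δ := Nat.cast_nonneg _
  -- positions of the indices
  set pos : Fin R → ℝ := fun j => a * ((j : ℝ) + 1) / R with hpos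
  have hpos0 : ∀ j, 0 < pos j := by
    intro j
    rw [hpos]
    positivity
  have hposa : ∀ j, pos j ≤ a := by
    intro j
    have hj : ((j : ℕ) : ℝ) + 1 ≤ R := by
      have := j.2
      exact_mod_cast this
    rw [hpos]
    simp only
    rw [div_le_iff₀ hR']
    exact mul_le_mul_of_nonneg_left hj ha.le
  set δ : ℝ := χ / B with hδ
  have hδpos : 0 < δ := by positivity
  have hδB : δ * B = χ := by rw [hδ]; field_simp
  have hcB : ∀ j, ⌈pos j / δ⌉₊ ≤ B := by
    intro j
    rw [Nat.ceil_le, div_le_iff₀ hδpos]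
    calc pos j ≤ a := hposa j
      _ ≤ ε * χ := haχ
      _ ≤ 1 * χ := mul_le_mul_of_nonneg_right (by linarith) hχ.le
      _ = B * δ := by rw [one_mul, mul_comm, hδB]
  have hc0 : ∀ j, 0 < ⌈pos j / δ⌉₊ := by
    intro j
    rw [Nat.ceil_pos]
    have := hpos0 j
    positivity
  set lev : Fin R → Fin B := fun j => ⟨⌈pos j / δ⌉₊ - 1, by
    have := hcB j
    have := hc0 j
    omega⟩ with hlev
  have hp : ∀ i, ((univ.filter (fun j => lev j = i)).card : ℝ) ≤ R * (δ / a + 1 / R) := by
    intro i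
    have h1 := Pos.count_interval R (R * δ / a) (by positivity) (i : ℕ)
    have h2 : (univ.filter (fun j => lev j = i)) = (univ.filter (fun j : Fin R =>
        ⌈(((j : ℕ) : ℝ) + 1) / (R * δ / a)⌉₊ = (i : ℕ) + 1)) := by
      ext j
      simp only [Finset.mem_filter, Finset.mem_univ, true_and]
      have h3 : (((j : ℕ) : ℝ) + 1) / (R * δ / a) = pos j / δ := by
        rw [hpos]
        field_simp
      rw [h3, hlev, Fin.ext_iff]
      simp only
      have := hc0 j
      omega
    rw [h2]
    refine le_trans h1 (le_of_eq ?_)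
    field_simp
  obtain ⟨f, hf1, hf2⟩ := choose_pos (V := V) R B Δ hR (fun u => H.neighborFinset u)
    (fun u => H.notMem_neighborFinset_self u)
    (fun u => by
      simp only [SimpleGraph.card_neighborFinset_eq_degree]
      exact hHd u)
    (fun i j => pay a (pos i) (pos j)) (9 / 8 * a) (a / 2 + a / R)
    (fun i j => pay_nonneg ha (hpos0 i).le (hposa i) (hpos0 j).le (hposa j))
    (fun i j => pay_le ha (hpos0 i).le (hposa i) (hpos0 j).le (hposa j))
    (fun i => pay_mean a ha R hR i) lev (δ / a + 1 / R) hp (ε * l) (ε * δ * s) (ε₁ * s)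
    (by positivity) (by positivity) (by positivity)
    (by
      have h1 : B * (Fintype.card V : ℝ) / (ε * δ * s) ^ 2 < 1 / 2 := by
        rw [← hnVdef, has, div_lt_iff₀ (by positivity)]
        rw [div_lt_iff₀ (by positivity)] at hs1
        have h2 : (B : ℝ) * (a * s) ≤ B * (ε * χ * s) := by
          apply mul_le_mul_of_nonneg_left _ hB'.le
          exact mul_le_mul_of_nonneg_right haχ hspos.le
        have h3 : 1 / 2 * (ε * δ * s) ^ 2 = (s * (ε * χ)) * (ε * χ * s) / (2 * B ^ 2) := by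
          rw [hδ]
          field_simp
        have h4 : (B : ℝ) * (ε * χ * s) = (2 * B ^ 3) * (ε * χ * s) / (2 * B ^ 2) := by
          field_simp
        rw [h3]
        refine lt_of_le_of_lt h2 ?_
        rw [h4]
        apply div_lt_div_of_pos_right _ (by positivity)
        exact mul_lt_mul_of_pos_right hs1 (by positivity)
      have h2 : (Fintype.card V : ℝ) * (Δ * (9 / 8 * a) ^ 2) / ((ε * l) ^ 2 * (ε₁ * s)) <
          1 / 2 := by
        rw [← hnVdef, div_lt_iff₀ (by positivity)]
        rw [div_lt_iff₀ hε₁] at hl3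
        have h3 : nV * (Δ * (9 / 8 * a) ^ 2) ≤ (2 * (l * s)) * (81 / 64 * (ε * χ) ^ 2) := by
          have h4 : a ^ 2 ≤ (ε * χ) ^ 2 := by
            apply pow_le_pow_left₀ ha.le haχ
          calc nV * (Δ * (9 / 8 * a) ^ 2) = (nV * Δ) * (81 / 64 * a ^ 2) := by ring
            _ ≤ (2 * (l * s)) * (81 / 64 * a ^ 2) := by
              apply mul_le_mul_of_nonneg_right _ (by positivity)
              rw [← hml]
              exact hVΔ'
            _ ≤ (2 * (l * s)) * (81 / 64 * (ε * χ) ^ 2) := by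
              apply mul_le_mul_of_nonneg_left _ (by positivity)
              linarith
        refine lt_of_le_of_lt h3 ?_
        have h5 : (2 * (l * s)) * (81 / 64 * (ε * χ) ^ 2) = (81 / 32 * χ ^ 2) * (l * s * ε ^ 2) := by
          ring
        have h6 : 1 / 2 * ((ε * l) ^ 2 * (ε₁ * s)) = (1 / 2 * (l * ε₁)) * (l * s * ε ^ 2) := by
          ring
        rw [h5, h6]
        apply mul_lt_mul_of_pos_right _ (by positivity)
        linarith [sq_nonneg χ]
      linarith)
  -- the result
  refine ⟨fun v => lev (f v), univ.filter (fun u => ((H.neighborFinset u).card : ℝ) *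
    (a / 2 + a / R) + ε * l < ∑ v ∈ H.neighborFinset u, pay a (pos (f u)) (pos (f v))),
    hf2, ?_, ?_⟩
  · intro i
    refine le_trans (hf1 i) ?_
    rw [← hnVdef, has]
    have h1 : a / R ≤ ε * δ := by
      rw [div_le_iff₀ hR']
      calc a ≤ ε * χ := haχ
        _ = ε * δ * B := by rw [mul_assoc, hδB]
        _ ≤ ε * δ * R := mul_le_mul_of_nonneg_left hRB (by positivity)
    have h2 : a * s * (δ / a + 1 / R) + ε * δ * s = (δ + a / R + ε * δ) * s := by
      field_simp
    rw [h2]
    apply mul_le_mul_of_nonneg_right _ hspos.le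
    have h3 : 0 < ε * δ := mul_pos hε hδpos
    have h4 : (1 + 3 * ε) * δ = δ + 3 * (ε * δ) := by ring
    rw [h4]
    linarith
  · intro U hU
    have hgood : ∀ u ∈ U, ∑ v ∈ H.neighborFinset u, pay a (pos (f u)) (pos (f v)) ≤
        (1 + 3 * ε) * l := by
      intro u hu
      have huB := Finset.disjoint_left.mp hU hu
      rw [Finset.mem_filter, not_and] at huB
      have h1 := not_lt.mp (huB (Finset.mem_univ _))
      refine le_trans h1 ?_
      have h2 : ((H.neighborFinset u).card : ℝ) ≤ Δ := by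
        rw [H.card_neighborFinset_eq_degree]
        exact_mod_cast hHd u
      have h3 : ((H.neighborFinset u).card : ℝ) * (a / 2 + a / R) ≤ Δ * (a / 2 + a / R) :=
        mul_le_mul_of_nonneg_right h2 (by positivity)
      have h4 : (Δ : ℝ) * (a / 2 + a / R) = (Δ * a) / 2 + (Δ * a) * (1 / R) := by ring
      have h5 : 1 / (R : ℝ) ≤ ε := by
        rw [div_le_iff₀ hR']
        rw [div_le_iff₀ hε] at hRε
        linarith
      have h6 : (Δ * a) * (1 / R) ≤ (2 * l) * ε :=
        mul_le_mul hΔa h5 (by positivity) (by positivity)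
      rw [h4] at h3
      linarith
    have hsub : ∀ v, U.filter (fun u => H.Adj v u) ⊆ H.neighborFinset v := by
      intro v u hu
      rw [Finset.mem_filter] at hu
      rw [SimpleGraph.mem_neighborFinset]
      exact hu.2
    have hcardU : ∀ v, ((U.filter (fun u => H.Adj v u)).card : ℝ) ≤ Dc * l := by
      intro v
      refine le_trans ?_ hΔl
      have h1 := Finset.card_le_card (hsub v)
      rw [H.card_neighborFinset_eq_degree] at h1
      exact_mod_cast h1.trans (hHd v)
    have hswap : ∀ g : V → V → ℝ, ∑ u ∈ U, ∑ v ∈ U.filter (fun v => H.Adj u v), g u v =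
        ∑ v ∈ U, ∑ u ∈ U.filter (fun u => H.Adj v u), g u v := by
      intro g
      simp only [Finset.sum_filter]
      rw [Finset.sum_comm]
      refine Finset.sum_congr rfl (fun v _ => Finset.sum_congr rfl (fun u _ => ?_))
      simp only [H.adj_comm u v]
    have hmain : ∑ u ∈ U, ∑ v ∈ U.filter (fun v => H.Adj u v), pay a (pos (f u)) (pos (f v)) ≤
        U.card * ((1 + 3 * ε) * l) := by
      calc ∑ u ∈ U, ∑ v ∈ U.filter (fun v => H.Adj u v), pay a (pos (f u)) (pos (f v)) ≤
          ∑ u ∈ U, ∑ v ∈ H.neighborFinset u, pay a (pos (f u)) (pos (f v)) := by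
            refine Finset.sum_le_sum (fun u _ => ?_)
            apply Finset.sum_le_sum_of_subset_of_nonneg (hsub u)
            intro v _ _
            exact pay_nonneg ha (hpos0 _).le (hposa _) (hpos0 _).le (hposa _)
        _ ≤ ∑ _u ∈ U, (1 + 3 * ε) * l := Finset.sum_le_sum hgood
        _ = _ := by simp
    have hX : ∀ v, ((lev (f v) : ℕ) + 1 : ℝ) * δ ≤ pos (f v) + δ := by
      intro v
      have h1 : ((lev (f v) : ℕ) + 1 : ℝ) = (⌈pos (f v) / δ⌉₊ : ℝ) := by
        have h2 : (lev (f v) : ℕ) + 1 = ⌈pos (f v) / δ⌉₊ := by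
          rw [hlev]
          simp only
          have := hc0 (f v)
          omega
        exact_mod_cast h2
      rw [h1]
      have h3 : (⌈pos (f v) / δ⌉₊ : ℝ) < pos (f v) / δ + 1 :=
        Nat.ceil_lt_add_one (by have := hpos0 (f v); positivity)
      calc (⌈pos (f v) / δ⌉₊ : ℝ) * δ ≤ (pos (f v) / δ + 1) * δ :=
            mul_le_mul_of_nonneg_right h3.le hδpos.le
        _ = pos (f v) + δ := by field_simp
    have hw : ∀ u v, wmax χ B (lev (f u)) (lev (f v)) ≤
        pay a (pos (f u)) (pos (f v)) + pay a (pos (f v)) (pos (f u)) + 3 / 2 * δ := by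
      intro u v
      rw [pay_add]
      unfold wmax
      rw [← hδ]
      rcases le_total (lev (f u)) (lev (f v)) with h | h
      · rw [max_eq_right h]
        have h1 := hX v
        have h2 := le_max_right (pos (f u)) (pos (f v))
        linarith
      · rw [max_eq_left h]
        have h1 := hX u
        have h2 := le_max_left (pos (f u)) (pos (f v))
        linarith
    calc ∑ u ∈ U, ∑ v ∈ U.filter (fun v => H.Adj u v), wmax χ B (lev (f u)) (lev (f v)) ≤
        ∑ u ∈ U, ∑ v ∈ U.filter (fun v => H.Adj u v), (pay a (pos (f u)) (pos (f v)) +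
          pay a (pos (f v)) (pos (f u)) + 3 / 2 * δ) :=
          Finset.sum_le_sum (fun u _ => Finset.sum_le_sum (fun v _ => hw u v))
      _ = (∑ u ∈ U, ∑ v ∈ U.filter (fun v => H.Adj u v), pay a (pos (f u)) (pos (f v))) +
          (∑ u ∈ U, ∑ v ∈ U.filter (fun v => H.Adj u v), pay a (pos (f v)) (pos (f u))) +
          ∑ u ∈ U, ((U.filter (fun v => H.Adj u v)).card : ℝ) * (3 / 2 * δ) := by
          simp only [Finset.sum_add_distrib, Finset.sum_const, nsmul_eq_mul]
      _ = 2 * (∑ u ∈ U, ∑ v ∈ U.filter (fun v => H.Adj u v), pay a (pos (f u)) (pos (f v))) +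
          ∑ u ∈ U, ((U.filter (fun v => H.Adj u v)).card : ℝ) * (3 / 2 * δ) := by
          rw [hswap (fun u v => pay a (pos (f v)) (pos (f u)))]
          ring
      _ ≤ 2 * (U.card * ((1 + 3 * ε) * l)) + ∑ _u ∈ U, (3 / 2 * ε) * l := by
          apply add_le_add
          · linarith
          · refine Finset.sum_le_sum (fun u _ => ?_)
            calc ((U.filter (fun v => H.Adj u v)).card : ℝ) * (3 / 2 * δ) ≤
                  (Dc * l) * (3 / 2 * δ) :=
                  mul_le_mul_of_nonneg_right (hcardU u) (by positivity)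
              _ = (Dc * δ) * (3 / 2 * l) := by ring
              _ ≤ ε * (3 / 2 * l) := mul_le_mul_of_nonneg_right hBD (by positivity)
              _ = (3 / 2 * ε) * l := by ring
      _ = (2 + 15 / 2 * ε) * l * U.card := by
          rw [Finset.sum_const, nsmul_eq_mul]
          ring
      _ ≤ 2 * ((1 + 5 * ε) * l) * U.card := by
          apply mul_le_mul_of_nonneg_right _ (Nat.cast_nonneg _)
          linarith [mul_pos hε hl]

end Pool.Agent.Lib.MP_1f2a9f_co.KW
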