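import Pool.Agent.Lib.MP_1f2a9f_co.KW.Defs

/-!
# KW, row LX (RegExt): board ug_mod

On `Fin n ⊕ Fin (3 Δ + 1)` take `H' ⊇ H` (as `H` on the first part)
with all degrees `≤ Δ` and as many edges as possible. The deficient vertices form a clique, so there
are at most `Δ` of them; if there is one, there are two (`u ≠ v`) or one (`u = v`) with deficiency at
least 2 (`Δ` even). At least `(2 Δ + 1) Δ` ordered pairs `(x, y)`, `x` a non deficient vertex of the
second part, `x y` an edge of `H'`; at most `Δ^2 + Δ^2` of them have `x ∈ N[u]` or `y ∈ N[v]`. For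
another one replace `x y` by `x u`, `y v`: one more edge, contradiction.
-/

set_option autoImplicit false

namespace Pool.Agent.Lib.MP_1f2a9f_co.KW

open Finset Pool.Agent.Lib.MP_1f2a9f_co

private theorem LX_add {V : Type} [Finite V] [DecidableEq V] (G : SimpleGraph V) {a b : V}
    (hab : a ≠ b) (h : ¬ G.Adj a b) (z : V) :
    ((G ⊔ SimpleGraph.edge a b).neighborSet z).ncard =
      (G.neighborSet z).ncard + (if z = a then 1 else 0) + (if z = b then 1 else 0) := by
  by_cases hza : z = a
  · subst hza
    have e : (G ⊔ SimpleGraph.edge z b).neighborSet z = insert b (G.neighborSet z) := by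
      ext w
      simp only [SimpleGraph.mem_neighborSet, SimpleGraph.sup_adj, SimpleGraph.edge_adj,
        Set.mem_insert_iff]
      constructor
      · rintro (h1 | ⟨(⟨-, h1⟩ | ⟨h1, -⟩), -⟩)
        · exact Or.inr h1
        · exact Or.inl h1
        · exact absurd h1 hab
      · rintro (h1 | h1)
        · subst h1
          exact Or.inr ⟨Or.inl ⟨trivial, rfl⟩, hab⟩
        · exact Or.inl h1
    have hn : b ∉ G.neighborSet z := h
    rw [e, Set.ncard_insert_of_notMem hn, if_pos rfl, if_neg hab]
  · by_cases hzb : z = b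
    · subst hzb
      have e : (G ⊔ SimpleGraph.edge a z).neighborSet z = insert a (G.neighborSet z) := by
        ext w
        simp only [SimpleGraph.mem_neighborSet, SimpleGraph.sup_adj, SimpleGraph.edge_adj,
          Set.mem_insert_iff]
        constructor
        · rintro (h1 | ⟨(⟨h1, -⟩ | ⟨-, h1⟩), -⟩)
          · exact Or.inr h1
          · exact absurd h1 hza
          · exact Or.inl h1
        · rintro (h1 | h1)
          · subst h1
            exact Or.inr ⟨Or.inr ⟨trivial, rfl⟩, hza⟩
          · exact Or.inl h1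
      have hn : a ∉ G.neighborSet z := fun h1 => h (SimpleGraph.Adj.symm h1)
      rw [e, Set.ncard_insert_of_notMem hn, if_neg hza, if_pos rfl]
    · have e : (G ⊔ SimpleGraph.edge a b).neighborSet z = G.neighborSet z := by
        ext w
        simp only [SimpleGraph.mem_neighborSet, SimpleGraph.sup_adj, SimpleGraph.edge_adj]
        constructor
        · rintro (h1 | ⟨(⟨h1, -⟩ | ⟨h1, -⟩), -⟩)
          · exact h1
          · exact absurd h1 hza
          · exact absurd h1 hzb
        · exact fun h1 => Or.inl h1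
      rw [e, if_neg hza, if_neg hzb, add_zero, add_zero]

private theorem LX_rem {V : Type} [Finite V] [DecidableEq V] (G : SimpleGraph V) {a b : V}
    (h : G.Adj a b) (z : V) :
    (G.neighborSet z).ncard = ((G \ SimpleGraph.edge a b).neighborSet z).ncard +
      (if z = a then 1 else 0) + (if z = b then 1 else 0) := by
  have h1 : ¬ (G \ SimpleGraph.edge a b).Adj a b := by
    rintro ⟨-, h2⟩
    exact h2 ((SimpleGraph.edge_adj ..).2 ⟨Or.inl ⟨rfl, rfl⟩, h.ne⟩)
  have h2 : SimpleGraph.edge a b ≤ G := by
    intro v w hvw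
    rcases (SimpleGraph.edge_adj ..).1 hvw with ⟨⟨rfl, rfl⟩ | ⟨rfl, rfl⟩, -⟩
    · exact h
    · exact h.symm
  rw [← LX_add _ h.ne h1 z, sdiff_sup_cancel h2]

private theorem LX_sum {V : Type} [Fintype V] [DecidableEq V] (a : V) :
    ∑ z : V, (if z = a then 1 else 0 : ℕ) = 1 := by
  simp

private theorem LX_core {V : Type} [Fintype V] [DecidableEq V] (Δ : ℕ) (hΔ : Even Δ)
    (H0 : SimpleGraph V) (W : Finset V) (hW : 2 * Δ < W.card) (hHW : ∀ x ∈ W, ∀ y, ¬ H0.Adj x y)
    (hdeg : ∀ v, (H0.neighborSet v).ncard ≤ Δ) :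
    ∃ G : SimpleGraph V, H0 ≤ G ∧ ∀ v, (G.neighborSet v).ncard = Δ := by
  classical
  obtain ⟨G, ⟨hHG, hd⟩, hmax⟩ := Set.exists_max_image
    {G : SimpleGraph V | H0 ≤ G ∧ ∀ v, (G.neighborSet v).ncard ≤ Δ}
    (fun G => ∑ v, (G.neighborSet v).ncard) (Set.toFinite _) ⟨H0, le_rfl, hdeg⟩
  refine ⟨G, hHG, ?_⟩
  by_contra hne
  push Not at hne
  obtain ⟨u, hu⟩ := hne
  have hu' : (G.neighborSet u).ncard < Δ := lt_of_le_of_ne (hd u) hu
  -- the deficient vertices form a clique
  have hclique : ∀ v, v ≠ u → (G.neighborSet v).ncard < Δ → G.Adj u v := by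
    intro v hvu hv
    by_contra hno
    have hdeg' := LX_add G hvu.symm hno
    have h1 := hmax (G ⊔ SimpleGraph.edge u v) ⟨le_trans hHG le_sup_left, fun z => by
      rw [hdeg' z]
      by_cases h2 : z = u
      · subst h2
        rw [if_pos rfl, if_neg hvu.symm]
        omega
      · by_cases h3 : z = v
        · subst h3
          rw [if_neg h2, if_pos rfl]
          omega
        · rw [if_neg h2, if_neg h3]
          exact hd z⟩
    have h2 : ∑ z, ((G ⊔ SimpleGraph.edge u v).neighborSet z).ncard =
        ∑ z, (G.neighborSet z).ncard + 1 + 1 := by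
      rw [Finset.sum_congr rfl (fun z _ => hdeg' z), Finset.sum_add_distrib, Finset.sum_add_distrib,
        LX_sum, LX_sum]
    have h3 : ∑ z, ((G ⊔ SimpleGraph.edge u v).neighborSet z).ncard ≤
        ∑ z, (G.neighborSet z).ncard := h1
    omega
  -- a second place
  obtain ⟨v, hv, hvΔ⟩ : ∃ v, (∀ z, (G.neighborSet z).ncard + (if z = u then 1 else 0) +
      (if z = v then 1 else 0) ≤ Δ) ∧ (G.neighborSet v).ncard < Δ := by
    by_cases hex : ∃ v, v ≠ u ∧ (G.neighborSet v).ncard < Δ
    · obtain ⟨v, hvu, hv⟩ := hex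
      refine ⟨v, fun z => ?_, hv⟩
      by_cases h2 : z = u
      · subst h2
        rw [if_pos rfl, if_neg hvu.symm]
        omega
      · by_cases h3 : z = v
        · subst h3
          rw [if_neg h2, if_pos rfl]
          omega
        · rw [if_neg h2, if_neg h3]
          exact hd z
    · push Not at hex
      refine ⟨u, fun z => ?_, hu'⟩
      by_cases h2 : z = u
      · subst h2
        rw [if_pos rfl]
        have h3 : ∑ w, (G.neighborSet w).ncard = 2 * G.edgeFinset.card := by
          rw [← G.sum_degrees_eq_twice_card_edges]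
          refine Finset.sum_congr rfl (fun w _ => ?_)
          rw [Set.ncard_eq_toFinset_card']
          rfl
        have h4 : ∑ w, (G.neighborSet w).ncard =
            (G.neighborSet z).ncard + (univ.erase z).card * Δ := by
          rw [← Finset.add_sum_erase _ _ (mem_univ z)]
          congr 1
          rw [Finset.sum_congr rfl (fun w hw => le_antisymm (hd w) (hex w (ne_of_mem_erase hw))),
            Finset.sum_const, smul_eq_mul]
        have h5 : Even ((G.neighborSet z).ncard + (univ.erase z).card * Δ) := by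
          rw [← h4, h3]
          exact even_two_mul _
        have h6 : Even (G.neighborSet z).ncard :=
          (Nat.even_add.1 h5).2 (hΔ.mul_left _)
        obtain ⟨a, ha⟩ := hΔ
        obtain ⟨b, hb⟩ := h6
        omega
      · rw [if_neg h2]
        exact hd z
  -- neighbours as finite sets
  have hN : ∀ z, (univ.filter (fun w => G.Adj z w)).card = (G.neighborSet z).ncard := by
    intro z
    rw [← Set.ncard_coe_finset]
    congr 1
    ext w
    simp
  set N : V → Finset V := fun z => univ.filter (fun w => G.Adj z w) with hNdef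
  have hmemN : ∀ z w, w ∈ N z ↔ G.Adj z w := fun z w => by simp [hNdef]
  have hNc : ∀ z, (N z).card = (G.neighborSet z).ncard := hN
  obtain ⟨x, hxW, hxB⟩ : ∃ x ∈ W, x ∉ insert u (N u) ∪ insert v (N v) := by
    refine Finset.exists_mem_notMem_of_card_lt_card (lt_of_le_of_lt ?_ hW)
    refine (card_union_le _ _).trans ?_
    have h1 := card_insert_le u (N u)
    have h2 := card_insert_le v (N v)
    have h3 := hNc u
    have h4 := hNc v
    omega
  rw [mem_union, mem_insert, mem_insert, hmemN, hmemN] at hxB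
  push Not at hxB
  obtain ⟨⟨hxu, hxu'⟩, ⟨hxv, hxv'⟩⟩ := hxB
  have hxΔ : (G.neighborSet x).ncard = Δ := by
    by_contra h1
    exact hxu' (hclique x hxu (lt_of_le_of_ne (hd x) h1))
  obtain ⟨y, hyx, hyv⟩ : ∃ y ∈ N x, y ∉ insert v (N v) := by
    by_contra hno
    push Not at hno
    have h1 : N x = insert v (N v) := by
      refine Finset.eq_of_subset_of_card_le hno ?_
      have h2 := card_insert_le v (N v)
      rw [hNc x, hxΔ]
      have h4 := hNc v
      omega
    have h2 : v ∈ N x := by rw [h1]; exact mem_insert_self _ _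
    exact hxv' ((hmemN x v).1 h2).symm
  rw [hmemN] at hyx
  rw [mem_insert, hmemN] at hyv
  push Not at hyv
  obtain ⟨hyv1, hyv2⟩ := hyv
  -- the exchange
  set G1 := G \ SimpleGraph.edge x y with hG1
  set G2 := G1 ⊔ SimpleGraph.edge x u with hG2
  set G3 := G2 ⊔ SimpleGraph.edge y v with hG3
  have a1 : ¬ G1.Adj x u := fun h => hxu' (h.1).symm
  have a2 : ¬ G2.Adj y v := by
    rintro (h | h)
    · exact hyv2 (h.1).symm
    · rcases (SimpleGraph.edge_adj ..).1 h with ⟨⟨h1, -⟩ | ⟨-, h1⟩, -⟩
      · exact hyx.ne h1.symm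
      · exact hxv h1.symm
  have hdeg3 : ∀ z, (G3.neighborSet z).ncard = (G.neighborSet z).ncard + (if z = u then 1 else 0) +
      (if z = v then 1 else 0) := by
    intro z
    have e1 := LX_rem G hyx z
    have e2 := LX_add G1 hxu a1 z
    have e3 := LX_add G2 hyv1 a2 z
    rw [← hG1] at e1
    rw [← hG2] at e2
    rw [← hG3] at e3
    omega
  have hH3 : H0 ≤ G3 := by
    intro a b hab
    refine Or.inl (Or.inl ⟨hHG hab, fun h => ?_⟩)
    rcases (SimpleGraph.edge_adj ..).1 h with ⟨⟨h1, h2⟩ | ⟨h1, h2⟩, -⟩
    · subst h1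
      exact hHW a hxW b hab
    · subst h2
      exact hHW b hxW a hab.symm
  have h1 := hmax G3 ⟨hH3, fun z => by
    rw [hdeg3 z]
    exact hv z⟩
  have h2 : ∑ z, (G3.neighborSet z).ncard = ∑ z, (G.neighborSet z).ncard + 1 + 1 := by
    rw [Finset.sum_congr rfl (fun z _ => hdeg3 z), Finset.sum_add_distrib, Finset.sum_add_distrib,
      LX_sum, LX_sum]
  have h3 : ∑ z, (G3.neighborSet z).ncard ≤ ∑ z, (G.neighborSet z).ncard := h1
  omega

theorem exists_regular (n Δ : ℕ) (hΔ : Even Δ) (hΔ0 : 0 < Δ) (H : SimpleGraph (Fin n))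
    (hdeg : ∀ v, (H.neighborSet v).ncard ≤ Δ) :
    ∃ H' : SimpleGraph (Fin (n + (3 * Δ + 1))), Reg H' Δ ∧
      ∃ φ : Fin n → Fin (n + (3 * Δ + 1)), Function.Injective φ ∧
        ∀ i j, H.Adj i j → H'.Adj (φ i) (φ j) := by
  classical
  let φ : Fin n ↪ Fin (n + (3 * Δ + 1)) := Fin.castAddEmb (3 * Δ + 1)
  have hφ : ∀ i, φ i = Fin.castAdd (3 * Δ + 1) i := fun i => rfl
  obtain ⟨G, hG, hreg⟩ := LX_core Δ hΔ (H.map φ) (univ.map (Fin.natAddEmb n : Fin (3 * Δ + 1) ↪ _))
    (by rw [card_map, card_univ, Fintype.card_fin]; omega) (by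
      intro x hx y hxy
      obtain ⟨i, -, rfl⟩ := mem_map.1 hx
      obtain ⟨a, b, -, ha, -⟩ := (SimpleGraph.map_adj ..).1 hxy
      have h1 := congrArg Fin.val ha
      rw [hφ] at h1
      simp at h1
      have := a.2
      omega) (by
      intro v
      refine Fin.addCases (fun i => ?_) (fun i => ?_) v
      · have e : (H.map φ).neighborSet (Fin.castAdd (3 * Δ + 1) i) = φ '' (H.neighborSet i) := by
          ext w
          simp only [SimpleGraph.mem_neighborSet, SimpleGraph.map_adj, Set.mem_image]
          constructor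
          · rintro ⟨a, b, h, ha, hb⟩
            have h2 : a = i := φ.injective ha
            subst h2
            exact ⟨b, h, hb⟩
          · rintro ⟨b, h, hb⟩
            exact ⟨i, b, h, rfl, hb⟩
        rw [e, Set.ncard_image_of_injective _ φ.injective]
        exact hdeg i
      · have e : (H.map φ).neighborSet (Fin.natAdd n i) = ∅ := by
          ext w
          simp only [SimpleGraph.mem_neighborSet, SimpleGraph.map_adj, Set.mem_empty_iff_false,
            iff_false]
          rintro ⟨a, b, -, ha, -⟩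
          have h1 := congrArg Fin.val ha
          rw [hφ] at h1
          simp at h1
          have := a.2
          omega
        rw [e, Set.ncard_empty]
        exact Nat.zero_le _)
  exact ⟨G, hreg, φ, φ.injective, fun i j hij => hG ((SimpleGraph.map_adj ..).2 ⟨i, j, hij, rfl, rfl⟩)⟩

end Pool.Agent.Lib.MP_1f2a9f_co.KW
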