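import Pool.Agent.Lib.MP_1f2a9f_co.KW.Defs
import Pool.Agent.Lib.MP_1f2a9f_co.Pos

/-!
# KW, row RB (Second): board ug_mod

second moment over all functions `f : V → Fin R` (uniform, all
coordinates independent). Write `X = ∑ v ∈ S, (φ (f u) (f v) - M (f u))`, `M a` the mean of `φ a`;
`M ≤ μ`; the sum of `X ^ 2` over all `f` is `∑ v ∈ S` of the sum of the squares (for `v ≠ v'` sum
first over the values at `v` and `v'`), each square is at most `C ^ 2`.
-/

set_option autoImplicit false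

namespace Pool.Agent.Lib.MP_1f2a9f_co.KW

open Finset Pool.Agent.Lib.MP_1f2a9f_co

private theorem rb_avg {V : Type} [Fintype V] [DecidableEq V] (R : ℕ) (v : V)
    (F : (V → Fin R) → ℝ) :
    ∑ f : V → Fin R, ∑ b : Fin R, F (Function.update f v b) = R * ∑ f : V → Fin R, F f := by
  have h1 : ∑ f : V → Fin R, ∑ b : Fin R, F (Function.update f v b) =
      ∑ x : (V → Fin R) × Fin R, F (Function.update x.1 v x.2) := by
    rw [Fintype.sum_prod_type]
  have h2 : ∑ x : (V → Fin R) × Fin R, F x.1 = R * ∑ f : V → Fin R, F f := by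
    rw [Fintype.sum_prod_type]
    simp only [Finset.sum_const, Finset.card_univ, Fintype.card_fin, nsmul_eq_mul]
    rw [Finset.mul_sum]
  rw [h1, ← h2]
  refine Finset.sum_nbij' (fun x => (Function.update x.1 v x.2, x.1 v))
    (fun x => (Function.update x.1 v x.2, x.1 v)) (by simp) (by simp) ?_ ?_ (by simp)
  · rintro ⟨f, b⟩ _
    simp
  · rintro ⟨f, b⟩ _
    simp

private theorem rb_gen {V : Type} [Fintype V] [DecidableEq V] (R : ℕ) (hR : 0 < R)
    (S : Finset V) (G : V → (V → Fin R) → ℝ) (C : ℝ)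
    (hupd : ∀ v ∈ S, ∀ v' ∈ S, v ≠ v' → ∀ f b, G v (Function.update f v' b) = G v f)
    (hmean : ∀ v ∈ S, ∀ f, ∑ b, G v (Function.update f v b) = 0)
    (hC : ∀ v ∈ S, ∀ f, |G v f| ≤ C) :
    ∑ f : V → Fin R, (∑ v ∈ S, G v f) ^ 2 ≤ (R : ℝ) ^ Fintype.card V * (S.card * C ^ 2) := by
  have hR' : (R : ℝ) ≠ 0 := by exact_mod_cast hR.ne'
  have hcross : ∀ v ∈ S, ∀ v' ∈ S, v ≠ v' → ∑ f : V → Fin R, G v f * G v' f = 0 := by
    intro v hv v' hv' hne
    have h1 := rb_avg R v' (fun f => G v f * G v' f)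
    have h2 : ∑ f : V → Fin R, ∑ b : Fin R,
        (G v (Function.update f v' b) * G v' (Function.update f v' b)) = 0 := by
      refine Finset.sum_eq_zero fun f _ => ?_
      simp only [hupd v hv v' hv' hne]
      rw [← Finset.mul_sum, hmean v' hv' f, mul_zero]
    rw [h2] at h1
    rcases mul_eq_zero.1 h1.symm with h3 | h3
    · exact absurd h3 hR'
    · exact h3
  have h1 : ∑ f : V → Fin R, (∑ v ∈ S, G v f) ^ 2 =
      ∑ v ∈ S, ∑ v' ∈ S, ∑ f : V → Fin R, G v f * G v' f := by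
    have : ∀ f : V → Fin R, (∑ v ∈ S, G v f) ^ 2 = ∑ v ∈ S, ∑ v' ∈ S, G v f * G v' f := by
      intro f
      rw [sq, Finset.sum_mul_sum]
    simp only [this]
    rw [Finset.sum_comm]
    refine Finset.sum_congr rfl fun v _ => ?_
    rw [Finset.sum_comm]
  have h2 : ∑ v ∈ S, ∑ v' ∈ S, ∑ f : V → Fin R, G v f * G v' f =
      ∑ v ∈ S, ∑ f : V → Fin R, G v f * G v f := by
    refine Finset.sum_congr rfl fun v hv => ?_
    rw [Finset.sum_eq_single v]
    · intro v' hv' hne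
      exact hcross v hv v' hv' hne.symm
    · intro h
      exact absurd hv h
  have h3 : ∀ v ∈ S, ∑ f : V → Fin R, G v f * G v f ≤ (R : ℝ) ^ Fintype.card V * C ^ 2 := by
    intro v hv
    have h4 : ∀ f ∈ (univ : Finset (V → Fin R)), G v f * G v f ≤ C ^ 2 := by
      intro f _
      have := hC v hv f
      rw [← sq, ← sq_abs]
      exact pow_le_pow_left₀ (abs_nonneg _) this 2
    refine (Finset.sum_le_card_nsmul _ _ _ h4).trans (le_of_eq ?_)
    rw [nsmul_eq_mul, Finset.card_univ, Fintype.card_fun, Fintype.card_fin]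
    push_cast
    ring
  rw [h1, h2]
  refine (Finset.sum_le_card_nsmul _ _ _ h3).trans (le_of_eq ?_)
  rw [nsmul_eq_mul]
  ring

private theorem rb_cheb {V : Type} [Fintype V] [DecidableEq V] (R : ℕ)
    (X : (V → Fin R) → ℝ) (P : (V → Fin R) → Prop) [DecidablePred P] (B t : ℝ) (ht : 0 < t)
    (hX : ∑ f : V → Fin R, (X f) ^ 2 ≤ B) (hP : ∀ f, P f → t ≤ X f) :
    (((univ : Finset (V → Fin R)).filter P).card : ℝ) * t ^ 2 ≤ B := by
  have h1 : (((univ : Finset (V → Fin R)).filter P).card : ℝ) * t ^ 2 ≤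
      ∑ f ∈ (univ : Finset (V → Fin R)).filter P, (X f) ^ 2 := by
    rw [← nsmul_eq_mul]
    refine Finset.card_nsmul_le_sum _ _ _ fun f hf => ?_
    exact pow_le_pow_left₀ ht.le (hP f (Finset.mem_filter.1 hf).2) 2
  refine h1.trans (le_trans ?_ hX)
  exact Finset.sum_le_sum_of_subset_of_nonneg (Finset.filter_subset _ _)
    fun f _ _ => sq_nonneg _

private theorem rb_mean (R : ℕ) (hR : 0 < R) (ψ : Fin R → ℝ) (C : ℝ) (h0 : ∀ b, 0 ≤ ψ b)
    (hC : ∀ b, ψ b ≤ C) (b : Fin R) : |ψ b - (∑ c, ψ c) / R| ≤ C := by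
  have hR' : (0 : ℝ) < R := by exact_mod_cast hR
  have h1 : 0 ≤ (∑ c, ψ c) / R := div_nonneg (Finset.sum_nonneg fun c _ => h0 c) hR'.le
  have h2 : (∑ c, ψ c) / R ≤ C := by
    rw [div_le_iff₀ hR']
    refine (Finset.sum_le_card_nsmul _ _ C fun c _ => hC c).trans (le_of_eq ?_)
    rw [nsmul_eq_mul, Finset.card_univ, Fintype.card_fin, mul_comm]
  rw [abs_le]
  constructor
  · linarith [h0 b]
  · linarith [hC b]

theorem second {V : Type} [Fintype V] [DecidableEq V] (R : ℕ) (hR : 0 < R) (u : V) (S : Finset V)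
    (hu : u ∉ S) (φ : Fin R → Fin R → ℝ) (C μ : ℝ) (h0 : ∀ a b, 0 ≤ φ a b)
    (hC : ∀ a b, φ a b ≤ C) (hμ : ∀ a, ∑ b, φ a b ≤ R * μ) (t : ℝ) (ht : 0 < t) :
    (((univ : Finset (V → Fin R)).filter
      (fun f => S.card * μ + t < ∑ v ∈ S, φ (f u) (f v))).card : ℝ) * t ^ 2 ≤
      (R : ℝ) ^ Fintype.card V * (S.card * C ^ 2) := by
  have hR' : (0 : ℝ) < R := by exact_mod_cast hR
  refine rb_cheb R (fun f => ∑ v ∈ S, (φ (f u) (f v) - (∑ c, φ (f u) c) / R)) _ _ t ht ?_ ?_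
  · refine rb_gen R hR S (fun v f => φ (f u) (f v) - (∑ c, φ (f u) c) / R) C ?_ ?_ ?_
    · intro v hv v' hv' hne f b
      have hne' : u ≠ v' := fun h => hu (h ▸ hv')
      simp only [Function.update_of_ne hne', Function.update_of_ne hne]
    · intro v hv f
      have hne' : u ≠ v := fun h => hu (h ▸ hv)
      simp only [Function.update_of_ne hne', Function.update_self]
      rw [Finset.sum_sub_distrib, Finset.sum_const, Finset.card_univ, Fintype.card_fin,
        nsmul_eq_mul]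
      field_simp
      ring
    · intro v _ f
      exact rb_mean R hR (φ (f u)) C (h0 _) (hC _) (f v)
  · intro f hf
    rw [Finset.sum_sub_distrib, Finset.sum_const, nsmul_eq_mul]
    have h1 : (∑ c, φ (f u) c) / R ≤ μ := by
      rw [div_le_iff₀ hR', mul_comm]
      exact hμ _
    have h2 : (S.card : ℝ) * ((∑ c, φ (f u) c) / R) ≤ S.card * μ :=
      mul_le_mul_of_nonneg_left h1 (Nat.cast_nonneg _)
    linarith

theorem second0 {V : Type} [Fintype V] [DecidableEq V] (R : ℕ) (hR : 0 < R) (S : Finset V)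
    (ψ : Fin R → ℝ) (C μ : ℝ) (h0 : ∀ b, 0 ≤ ψ b) (hC : ∀ b, ψ b ≤ C)
    (hμ : ∑ b, ψ b ≤ R * μ) (t : ℝ) (ht : 0 < t) :
    (((univ : Finset (V → Fin R)).filter
      (fun f => S.card * μ + t < ∑ v ∈ S, ψ (f v))).card : ℝ) * t ^ 2 ≤
      (R : ℝ) ^ Fintype.card V * (S.card * C ^ 2) := by
  have hR' : (0 : ℝ) < R := by exact_mod_cast hR
  refine rb_cheb R (fun f => ∑ v ∈ S, (ψ (f v) - (∑ c, ψ c) / R)) _ _ t ht ?_ ?_
  · refine rb_gen R hR S (fun v f => ψ (f v) - (∑ c, ψ c) / R) C ?_ ?_ ?_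
    · intro v hv v' hv' hne f b
      simp only [Function.update_of_ne hne]
    · intro v hv f
      simp only [Function.update_self]
      rw [Finset.sum_sub_distrib, Finset.sum_const, Finset.card_univ, Fintype.card_fin,
        nsmul_eq_mul]
      field_simp
      ring
    · intro v _ f
      exact rb_mean R hR ψ C h0 hC (f v)
  · intro f hf
    rw [Finset.sum_sub_distrib, Finset.sum_const, nsmul_eq_mul]
    have h1 : (∑ c, ψ c) / R ≤ μ := by
      rw [div_le_iff₀ hR', mul_comm]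
      exact hμ
    have h2 : (S.card : ℝ) * ((∑ c, ψ c) / R) ≤ S.card * μ :=
      mul_le_mul_of_nonneg_left h1 (Nat.cast_nonneg _)
    linarith

end Pool.Agent.Lib.MP_1f2a9f_co.KW
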