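import Pool.Agent.Lib.MP_1f2a9f_co.KW.Hosted
import Pool.Agent.Lib.MP_1f2a9f_co.KW.InReg
import Pool.Agent.Lib.MP_1f2a9f_co.KW.Image
import Pool.Agent.Lib.MP_1f2a9f_co.Low5

/-!
# KW, row LS (Single): board ug_mod

Copy of `Low5.single` with `D = m / n - 2` (then
`(n + 6 D + 7)(2 D + 2) ≤ 2 m` for large `m`), `β = exp (-(n (2 + log D)))`, `C` replaced by
`C + 3 + log D` (which is `o(D)`), `hostedR`, `count_inreg`, `exists_imageB`.
-/

set_option autoImplicit false

namespace Pool.Agent.Lib.MP_1f2a9f_co.KW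

open Finset Pool.Agent.Lib.MP_1f2a9f_co

/-- further asymptotic facts for one value of alpha -/
theorem ls_asym (α W Q : ℝ) (hα : 0 < α) :
    ∃ m0 : ℕ, ∀ m : ℕ, m0 ≤ m → W * |Real.log (2 * Real.log m / α)| ≤ Real.log m ∧
      Q * (Real.log m) ^ 2 ≤ m / Real.log m := by
  have h1 : Filter.Tendsto (fun m : ℕ => Real.log m) Filter.atTop Filter.atTop :=
    Real.tendsto_log_atTop.comp tendsto_natCast_atTop_atTop
  have h2 : Filter.Tendsto (fun m : ℕ => 2 / α * Real.log m) Filter.atTop Filter.atTop :=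
    h1.const_mul_atTop (by positivity)
  have hc : 0 < α / (2 * (|W| + 1)) := by positivity
  have h3 := (Real.isLittleO_log_id_atTop.def hc)
  have h4 := h2.eventually h3
  have hq : 0 < 1 / (|Q| + 1) := by positivity
  have h5 := ((Real.isLittleO_pow_log_id_atTop (n := 3)).def hq)
  have h6 := (tendsto_natCast_atTop_atTop (R := ℝ)).eventually h5
  have h7 := h1.eventually_gt_atTop 1
  obtain ⟨m0, hm0⟩ := Filter.eventually_atTop.1 ((h4.and h6).and h7)
  refine ⟨m0, fun m hm => ?_⟩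
  obtain ⟨⟨a1, a2⟩, a3⟩ := hm0 m hm
  simp only [id, Real.norm_eq_abs] at a1 a2
  have hl0 : 0 < Real.log m := by linarith
  have hm : (0:ℝ) ≤ m := Nat.cast_nonneg m
  constructor
  · have e : 2 / α * Real.log m = 2 * Real.log m / α := by ring
    rw [e] at a1
    have e2 : |2 * Real.log m / α| = 2 * Real.log m / α := abs_of_pos (by positivity)
    rw [e2] at a1
    have hW : 0 < |W| + 1 := by positivity
    calc W * |Real.log (2 * Real.log m / α)| ≤ (|W| + 1) * |Real.log (2 * Real.log m / α)| := by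
          apply mul_le_mul_of_nonneg_right _ (abs_nonneg _)
          linarith [le_abs_self W]
      _ ≤ (|W| + 1) * (α / (2 * (|W| + 1)) * (2 * Real.log m / α)) := by gcongr
      _ = Real.log m := by field_simp
  · rw [abs_of_pos (by positivity), abs_of_nonneg hm] at a2
    rw [le_div_iff₀ hl0]
    have hQ : 0 < |Q| + 1 := by positivity
    calc Q * Real.log m ^ 2 * Real.log m = Q * Real.log m ^ 3 := by ring
      _ ≤ (|Q| + 1) * Real.log m ^ 3 := by
          apply mul_le_mul_of_nonneg_right _ (by positivity)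
          linarith [le_abs_self Q]
      _ ≤ (|Q| + 1) * (1 / (|Q| + 1) * m) := by gcongr
      _ = m := by field_simp

open Classical in
theorem singleR (α τ B : ℝ) (k : ℕ) (hα : 0 < α) (hτ : 0 < τ) (hτ1 : τ ≤ 1) (hB : 1 ≤ B) :
    ∃ m0 : ℕ, ∀ m : ℕ, m0 ≤ m → ∀ (N : ℕ) (G : SimpleGraph (Fin N)), UnivReg m G →
      (G.edgeSet.ncard : ℝ) ≤ 1 / 2 * (m / Real.log m) ^ 2 →
      ∃ S : Finset (Fin N), (1 - τ) * (α * (m / Real.log m)) ≤ S.card ∧
        (S.card : ℝ) ≤ α * (m / Real.log m) ∧ 0 < S.card ∧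
        ∀ (cell : Fin N → (Fin k → Bool)) (z : (Fin k → Bool) → (Fin k → Bool) → ℝ),
          (∀ x y, 0 < z x y) → (∀ x y, |Real.log (z x y)| ≤ B) →
          1 + (∑ u ∈ S, ∑ v ∈ S, Real.log (z (cell u) (cell v))) / (S.card : ℝ) ^ 2 - α - 3 * τ ≤
            (∑ u ∈ S, ∑ v ∈ S.filter (fun v => u = v ∨ G.Adj u v), z (cell u) (cell v)) /
              (S.card : ℝ) ^ 2 := by
  set κ : ℝ := α + 1 with hκ
  set C₀ : ℝ := κ + 2 + |Real.log (16 / α ^ 2)| with hC₀
  have hC₀0 : 0 ≤ C₀ := by positivity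
  obtain ⟨m0, hm0⟩ := Low5.asym α τ (2 + 2 * (α * (|Real.log (8 / α)| + 4 * κ + 3)) +
    3 * α * (α + τ) / τ + 2 * (α * ((C₀ + k + 4) * 16 * B ^ 2 / τ ^ 2 + 5))) hα hτ
  obtain ⟨m1, hm1⟩ := ls_asym α (2 * α) (224 / α ^ 3) hα
  obtain ⟨m2, hm2⟩ := ls_asym α (2 * (α * (16 * B ^ 2 / τ ^ 2))) 0 hα
  refine ⟨m0 + m1 + m2, fun m hm N G hG hE => ?_⟩
  obtain ⟨a1, a2, a3, a4, a5⟩ := hm0 m (by omega)
  obtain ⟨b1, b2⟩ := hm1 m (by omega)
  obtain ⟨b3, -⟩ := hm2 m (by omega)
  clear hm0 hm1 hm2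
  set l : ℝ := Real.log m with hl
  set s : ℝ := m / l with hs
  set n : ℕ := ⌊α * s⌋₊ with hn
  set D : ℕ := m / n - 2 with hDdef
  have hl0 : 0 < l := by linarith
  have hkκ : 0 < κ := by positivity
  have hB2 : 0 < B ^ 2 := by positivity
  have p1 : 0 ≤ α * (|Real.log (8 / α)| + 4 * κ + 3) := by positivity
  have p2 : 0 ≤ 3 * α * (α + τ) / τ := by positivity
  have p3 : 0 ≤ α * ((C₀ + k + 4) * 16 * B ^ 2 / τ ^ 2 + 5) := by positivity
  have hsl : s * l = m := by rw [hs]; field_simp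
  have hs2 : 2 ≤ s := by linarith
  have hs0 : 0 < s := by linarith
  have hm0 : (0:ℝ) < m := by rw [← hsl]; positivity
  have hsm : s ≤ m := div_le_self hm0.le a1.le
  have hnle : (n:ℝ) ≤ α * s := Nat.floor_le (by positivity)
  have hnge : α * s / 2 ≤ n := by
    have := Nat.lt_floor_add_one (α * s)
    linarith
  have hn2 : 2 ≤ n := by
    have := Nat.lt_floor_add_one (α * s)
    have h : (2:ℝ) < (n:ℝ) + 1 := by linarith
    have h' : 2 < n + 1 := by exact_mod_cast h
    have h3 : (1:ℝ) < n + 0 := by linarith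
    have : 1 < n := by
      have : (1:ℝ) < n := by linarith
      exact_mod_cast this
    omega
  have hn0 : (0:ℝ) < n := by positivity
  -- D
  have hαn : α * (l / α) = l := by field_simp
  have hq1 : l / α ≤ (m:ℝ) / n := Low5.ax2 hα hn0 hl0 hsl hnle
  have hq2 : (m:ℝ) / n < ((m / n : ℕ) : ℝ) + 1 := by
    rw [div_lt_iff₀ hn0]
    have := Nat.lt_div_mul_add (a := m) (b := n) (by omega)
    have h' : m < (m / n) * n + n := this
    have h2 : (m:ℝ) < (m / n : ℕ) * n + n := by exact_mod_cast h'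
    rw [add_mul, one_mul]
    exact h2
  have hla : 2 * ((C₀ + k + 4) * 16 * B ^ 2 / τ ^ 2 + 5) ≤ l / α := by
    rw [le_div_iff₀ hα]; linarith
  have hT0 : 0 ≤ (C₀ + k + 4) * 16 * B ^ 2 / τ ^ 2 := by positivity
  have hq3 : 4 ≤ m / n := by
    have : (4:ℝ) < ((m / n : ℕ) : ℝ) + 1 + 0 := by linarith
    have h4 : ((4:ℕ):ℝ) < ((m/n + 1 : ℕ) : ℝ) := by push_cast; linarith
    have h5 : 4 < m / n + 1 := Nat.cast_lt.1 h4
    omega
  have hDr : (D:ℝ) = ((m / n : ℕ) : ℝ) - 2 := by
    rw [hDdef, Nat.cast_sub (by omega)]; simp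
  have hDl : l / α - 3 ≤ D := by rw [hDr]; linarith
  have hD2 : 2 ≤ D := by omega
  have hD0 : (0:ℝ) < D := by positivity
  have hqY : ((m / n : ℕ) : ℝ) ≤ 2 * l / α := by
    have h1 : ((m / n : ℕ) : ℝ) * n ≤ m := by exact_mod_cast Nat.div_mul_le_self m n
    have h2 : ((m / n : ℕ) : ℝ) ≤ m / n := by rw [le_div_iff₀ hn0]; exact h1
    refine h2.trans ?_
    rw [div_le_div_iff₀ hn0 hα, ← hsl]
    calc s * l * α = 2 * l * (α * s / 2) := by ring
      _ ≤ 2 * l * n := by gcongr
  have hDY : (D:ℝ) ≤ 2 * l / α := by rw [hDr]; linarith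
  have hD1 : 1 ≤ D := by omega
  have hlogD : Real.log D ≤ |Real.log (2 * l / α)| :=
    (Real.log_le_log hD0 hDY).trans (le_abs_self _)
  have hlogD0 : 0 ≤ Real.log D := Real.log_nonneg (by exact_mod_cast hD1)
  have hb1 : Real.log D ≤ (l / α) / 2 := by
    have : 2 * α * Real.log D ≤ l := le_trans (by gcongr) b1
    rw [div_div, le_div_iff₀ (by positivity)]; linarith
  have hDn : 7 * (D + 1) * (D + 1) ≤ n := by
    have h1 : (7 * (D + 1) * (D + 1) : ℝ) ≤ n := by
      have h2 : (D:ℝ) + 1 ≤ 2 * (2 * l / α) := by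
        have : (1:ℝ) ≤ D := by exact_mod_cast hD1
        linarith
      have h3 : 224 / α ^ 3 * l ^ 2 ≤ s := b2
      calc (7 * (D + 1) * (D + 1) : ℝ) ≤ 7 * (2 * (2 * l / α)) * (2 * (2 * l / α)) := by gcongr
        _ = α / 2 * (224 / α ^ 3 * l ^ 2) := by field_simp; ring
        _ ≤ α / 2 * s := by gcongr
        _ ≤ n := by linarith
    exact_mod_cast h1
  have hnm : (n + (3 * (2 * D + 2) + 1)) * (2 * D + 2) ≤ 2 * m := by
    have h1 : n * (m / n) ≤ m := Nat.mul_div_le m n
    have h2 : m / n = D + 2 := by omega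
    rw [h2] at h1
    have h3 : (6 * D + 7) * (D + 1) ≤ n :=
      (Nat.mul_le_mul_right (D + 1) (by omega : 6 * D + 7 ≤ 7 * (D + 1))).trans hDn
    calc (n + (3 * (2 * D + 2) + 1)) * (2 * D + 2)
        = 2 * (n * (D + 1) + (6 * D + 7) * (D + 1)) := by ring
      _ ≤ 2 * (n * (D + 1) + n) := by omega
      _ = 2 * (n * (D + 2)) := by ring
      _ ≤ 2 * m := Nat.mul_le_mul_left 2 h1
  have hhost := hostedR m n D N hn2 hnm G hG
  set E : ℕ := G.edgeSet.ncard + 1 with hEdef
  have hEs : (E:ℝ) ≤ s ^ 2 := by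
    rw [hEdef]; push_cast
    exact Low5.ax1 hs2 hE
  have h4E : 4 * (E:ℝ) / n ≤ 8 * s / α := Low5.ax3 hα hn0 hEs hs0 hnge
  have h4E0 : 0 < 4 * (E:ℝ) / n := by
    have : (0:ℝ) < E := by rw [hEdef]; positivity
    positivity
  set β : ℝ := Real.exp (-(n * (2 + Real.log D))) with hβ
  have hβ0 : 0 < β := Real.exp_pos _
  have hn1 : (1:ℝ) ≤ n := by exact_mod_cast (by omega : 1 ≤ n)
  have hnum1 : (4 * (E : ℝ) / n) ^ n * Real.exp (-(κ * n * (D - 1))) ≤ β / 2 := by
    have e1 : (4 * (E : ℝ) / n) ^ n ≤ Real.exp (n * Real.log (8 * s / α)) := by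
      have : Real.exp (n * Real.log (8 * s / α)) = (8 * s / α) ^ n := by
        rw [mul_comm, Real.exp_mul, Real.exp_log (by positivity), Real.rpow_natCast]
      rw [this]
      exact pow_le_pow_left₀ h4E0.le h4E n
    have e2 : Real.log (8 * s / α) ≤ l + |Real.log (8 / α)| := by
      have : 8 * s / α = (8 / α) * s := by ring
      rw [this, Real.log_mul (by positivity) (by positivity)]
      have h1 : Real.log s ≤ l := Real.log_le_log (by positivity) hsm
      have h2 := le_abs_self (Real.log (8 / α))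
      linarith
    have e3 : l + |Real.log (8 / α)| + (2 + Real.log D) - κ * (D - 1) ≤ -1 := by
      have h1 : κ * (l / α - 4) ≤ κ * (D - 1) := by
        apply mul_le_mul_of_nonneg_left _ hkκ.le; linarith
      have h2 : κ * (l / α) = l + l / α := by rw [hκ]; field_simp
      have h3 : 2 * (|Real.log (8 / α)| + 4 * κ + 3) ≤ l / α := by
        rw [le_div_iff₀ hα]; linarith
      linarith
    calc (4 * (E : ℝ) / n) ^ n * Real.exp (-(κ * n * (D - 1)))
        ≤ Real.exp (n * Real.log (8 * s / α)) * Real.exp (-(κ * n * (D - 1))) := by gcongr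
      _ = Real.exp (-(n * (2 + Real.log D))) *
          Real.exp (n * (Real.log (8 * s / α) + (2 + Real.log D) - κ * (D - 1))) := by
          rw [← Real.exp_add, ← Real.exp_add]; congr 1; ring
      _ ≤ β * Real.exp (-1) := by
          refine mul_le_mul_of_nonneg_left ?_ hβ0.le
          apply Real.exp_le_exp.2
          have : Real.log (8 * s / α) + (2 + Real.log D) - κ * (D - 1) ≤ -1 := by linarith
          exact Low5.ax5 hn1 this
      _ ≤ β * (1 / 2) := by
          refine mul_le_mul_of_nonneg_left ?_ hβ0.le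
          rw [Real.exp_neg]
          have := Real.add_one_le_exp (1:ℝ)
          rw [inv_le_comm₀ (by positivity) (by norm_num)]
          linarith
      _ = β / 2 := by ring
  have hBB : β * (n : ℝ) ^ (n * D) ≤
      ({b : Fin n → Fin D → Fin n | InReg b}.ncard : ℝ) := by
    have := count_inreg n D (by omega) hD1
    rw [mul_comm]
    exact this
  obtain ⟨S, hScard, hScount⟩ := exists_imageB n D N E (by omega) hD2 G (by omega) (by omega)
    {b : Fin n → Fin D → Fin n | InReg b} hhost β hβ0 hBB κ hkκ hnum1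
  set C : ℝ := C₀ + (3 + Real.log D) with hC
  have hC0 : 0 ≤ C := by positivity
  refine ⟨S, ?_, ?_, ?_, ?_⟩
  · rw [hScard]; exact a3
  · rw [hScard]; exact hnle
  · omega
  intro cell z hz hzB
  -- lower bound of the count
  have hcnt : (n : ℝ) ^ (n * D) * Real.exp (-(C * n)) ≤
      ({b : Fin n → Fin D → Fin n | ∃ φ : Fin n → Fin N, Function.Injective φ ∧
        Finset.image φ univ = S ∧ ∀ i d, φ i = φ (b i d) ∨ G.Adj (φ i) (φ (b i d))}.ncard : ℝ) := by
    refine le_trans ?_ hScount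
    apply mul_le_mul_of_nonneg_left _ (by positivity)
    have f1 : (n:ℝ) ^ n * Real.exp (-n) ≤ n.factorial := by
      have h := Real.pow_div_factorial_le_exp (n:ℝ) (by positivity) n
      rw [div_le_iff₀ (by positivity)] at h
      rw [Real.exp_neg, ← div_eq_mul_inv, div_le_iff₀ (by positivity)]
      linarith
    have f2 : (α ^ 2 / 16) ^ n * Real.exp (-n) ≤ n.factorial / (4 * (E : ℝ) / n) ^ n := by
      rw [le_div_iff₀ (by positivity)]
      refine le_trans ?_ f1
      have : (α ^ 2 / 16) ^ n * Real.exp (-n) * (4 * (E : ℝ) / n) ^ n =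
        (α ^ 2 / 16 * (4 * (E : ℝ) / n)) ^ n * Real.exp (-n) := by
        rw [mul_pow]; ring
      rw [this]
      gcongr
      exact Low5.ax6 hα hs0 hn0 hEs hnge
    have f3 : Real.exp (-(|Real.log (16 / α ^ 2)| * n)) ≤ (α ^ 2 / 16) ^ n := by
      have : (α ^ 2 / 16) ^ n = Real.exp (-(Real.log (16 / α ^ 2) * n)) := by
        rw [← neg_mul, Real.exp_mul, ← Real.log_inv, Real.exp_log (by positivity),
          Real.rpow_natCast, inv_div]
      rw [this]
      apply Real.exp_le_exp.2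
      have := le_abs_self (Real.log (16 / α ^ 2))
      exact neg_le_neg (mul_le_mul_of_nonneg_right this hn0.le)
    have f4 : Real.exp (-(n:ℝ)) ≤ 1 / 2 := by
      have : Real.exp (-(n:ℝ)) ≤ Real.exp (-1) := by
        apply Real.exp_le_exp.2
        linarith
      refine this.trans ?_
      rw [Real.exp_neg]
      have := Real.add_one_le_exp (1:ℝ)
      rw [inv_le_comm₀ (by positivity) (by norm_num)]
      linarith
    calc Real.exp (-(C * n)) = Real.exp (-(n:ℝ)) * (Real.exp (-(n:ℝ)) * β *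
          Real.exp (-(κ * n)) *
          (Real.exp (-(|Real.log (16 / α ^ 2)| * n)) * Real.exp (-(n:ℝ)))) := by
          rw [hβ, ← Real.exp_add, ← Real.exp_add, ← Real.exp_add, ← Real.exp_add,
            ← Real.exp_add, hC, hC₀]
          congr 1; ring
      _ ≤ 1 * (Real.exp (-(n:ℝ)) * β * Real.exp (-(κ * n)) *
          (Real.exp (-(|Real.log (16 / α ^ 2)| * n)) * Real.exp (-(n:ℝ)))) := by
          have : Real.exp (-(n:ℝ)) ≤ 1 := by linarith
          gcongr
      _ ≤ 1 * (1 / 2 * β * Real.exp (-(κ * n)) *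
          ((α ^ 2 / 16) ^ n * Real.exp (-(n:ℝ)))) := by gcongr
      _ = β / 2 * Real.exp (-(κ * n)) * ((α ^ 2 / 16) ^ n * Real.exp (-(n:ℝ))) := by ring
      _ ≤ _ := by gcongr
  have hcardK : (Fintype.card (Fin k → Bool) : ℝ) = 2 ^ k := by simp
  have hlogK : Real.log (Fintype.card (Fin k → Bool)) ≤ k := by
    rw [hcardK, Real.log_pow]
    have : Real.log 2 ≤ 1 := by linarith [Real.log_two_lt_d9]
    exact mul_le_of_le_one_right (Nat.cast_nonneg (α := ℝ) k) this
  have hlogK0 : 0 ≤ Real.log (Fintype.card (Fin k → Bool)) := by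
    rw [hcardK]; apply Real.log_nonneg; exact one_le_pow₀ (by norm_num)
  have hlog2 : Real.log 2 ≤ 1 := by linarith [Real.log_two_lt_d9]
  have hDbig : (C + k + 1) * 16 * B ^ 2 / τ ^ 2 ≤ D := by
    have h1 : (C + k + 1) * 16 * B ^ 2 / τ ^ 2 =
        (C₀ + k + 4) * 16 * B ^ 2 / τ ^ 2 + 16 * B ^ 2 / τ ^ 2 * Real.log D := by
      rw [hC]; ring
    have h2 : 2 * (α * (16 * B ^ 2 / τ ^ 2)) * Real.log D ≤ l := le_trans (by gcongr) b3
    have h3 : 16 * B ^ 2 / τ ^ 2 * Real.log D ≤ (l / α) / 2 := by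
      rw [div_div, le_div_iff₀ (by positivity)]
      linarith
    rw [h1]
    linarith
  have hDbig' : (C + k + 1) * (16 * B ^ 2) ≤ D * τ ^ 2 := by
    rw [div_le_iff₀ (by positivity)] at hDbig; linarith
  have hnum2 : C * n + n * Real.log (Fintype.card (Fin k → Bool)) + Real.log 2 ≤
      n * D * τ ^ 2 / (16 * B ^ 2) := by
    rw [le_div_iff₀ (by positivity)]
    have h1 : C * n + n * Real.log (Fintype.card (Fin k → Bool)) + Real.log 2 ≤
      n * (C + k + 1) := Low5.ax7 hn1 hlogK hlog2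
    calc (C * n + n * Real.log (Fintype.card (Fin k → Bool)) + Real.log 2) * (16 * B ^ 2)
        ≤ n * (C + k + 1) * (16 * B ^ 2) := by gcongr
      _ = n * ((C + k + 1) * (16 * B ^ 2)) := by ring
      _ ≤ n * (D * τ ^ 2) := by gcongr
      _ = n * D * τ ^ 2 := by ring
  have key := key_ineq n D N (by omega) (by omega) G S hScard C hC0 hcnt cell z B hB hz hzB τ hτ hτ1
    hnum2
  rw [hScard]
  set avg : ℝ := (∑ u ∈ S, ∑ v ∈ S, Real.log (z (cell u) (cell v))) / (n : ℝ) ^ 2 with havg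
  set Z : ℝ := (∑ u ∈ S, ∑ v ∈ S.filter (fun v => u = v ∨ G.Adj u v), z (cell u) (cell v)) with hZ
  have hZ0 : 0 < Z := by
    have hne : S.Nonempty := by rw [← Finset.card_pos]; omega
    apply Finset.sum_pos _ hne
    intro u hu
    apply Finset.sum_pos
    · intro v _; exact hz _ _
    · exact ⟨u, by simp [hu]⟩
  have hfac : Real.log n.factorial ≤ n * l := by
    have h1 : (n.factorial : ℝ) ≤ (n:ℝ) ^ n := by exact_mod_cast Nat.factorial_le_pow n
    have h2 : Real.log n.factorial ≤ n * Real.log n := by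
      rw [← Real.log_pow]
      exact Real.log_le_log (by positivity) h1
    have h3 : (n:ℝ) ≤ m := by
      have h5 : n * 1 ≤ n * (m / n) := Nat.mul_le_mul_left n (by omega)
      have h6 : n * (m / n) ≤ m := Nat.mul_div_le m n
      exact_mod_cast (by omega : n ≤ m)
    have h4 : Real.log n ≤ l := Real.log_le_log hn0 h3
    exact h2.trans (mul_le_mul_of_nonneg_left h4 hn0.le)
  -- divide by n D
  have hlD : l ≤ (α + τ) * D := by
    have h1 : (α + τ) * (l / α - 3) ≤ (α + τ) * D := by gcongr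
    have h2 : (α + τ) * (l / α) = l + τ * (l / α) := by field_simp
    have h3 : 3 * (α + τ) ≤ τ * (l / α) := by
      have h : 3 * α * (α + τ) / τ ≤ l := by linarith
      rw [div_le_iff₀ hτ] at h
      have h5 : τ * (l / α) = τ * l / α := by ring
      rw [h5, le_div_iff₀ hα]
      linarith
    linarith
  have hCD : C + k + 1 ≤ τ * D := Low5.ax9 (by positivity) hB hτ hτ1 hDbig'
  have hnD : 0 < (n:ℝ) * D := by positivity
  have hmain : n * D * (avg - α - 3 * τ) ≤ n * D * Real.log (Z / (n:ℝ) ^ 2) := by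
    have h1 : C * n + n * Real.log (Fintype.card (Fin k → Bool)) + Real.log 2 ≤ n * (τ * D) := by
      have : C * n + n * Real.log (Fintype.card (Fin k → Bool)) + Real.log 2 ≤
        n * (C + k + 1) := Low5.ax7 hn1 hlogK hlog2
      exact this.trans (by gcongr)
    have h2 : Real.log n.factorial ≤ n * ((α + τ) * D) := hfac.trans (by gcongr)
    exact Low5.ax10 h1 h2 key
  have hlog : avg - α - 3 * τ ≤ Real.log (Z / (n:ℝ) ^ 2) := le_of_mul_le_mul_left hmain hnD
  have := Real.log_le_sub_one_of_pos (show 0 < Z / (n:ℝ) ^ 2 by positivity)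
  linarith

end Pool.Agent.Lib.MP_1f2a9f_co.KW
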