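import Pool.Agent.Lib.MP_1f2a9f_co.KW.Defs

/-!
# KW, row AV (UnionNum): board ug_mod

`n = nA α m`, `y = k/n`, `μ = m/n ≥ log m/α`, and
`c = (1+δ) log m/α ≥ (1+δ/2) μ` for large `m`; `C(n,k) ≤ (e n/k)^k`. WLOG `δ ≤ 1`, `d = δ/2`.
After division by `k` and logarithm one needs
`1 + log (1/y) + log 8 + (x-1) μ y ≤ (1+d) μ log x`. If `y ≥ ρ` take `x = 1 + d/2`
(`(1+d) log (1+d/2) - d/2 > 0`), if `y < ρ` take `x = 1/y` (`ρ` with `d log (1/ρ) ≥ 2`, `log(1/ρ) ≥ 1`);
`μ → ∞`.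
-/

set_option autoImplicit false

namespace Pool.Agent.Lib.MP_1f2a9f_co.KW

open Finset Pool.Agent.Lib.MP_1f2a9f_co

theorem av_big (C : ℝ) : ∃ m0 : ℕ, ∀ m : ℕ, m0 ≤ m → C ≤ Real.log m ∧ C ≤ m / Real.log m ∧
    0 < Real.log m := by
  set D := max C 1 with hD
  have hD1 : 1 ≤ D := le_max_right _ _
  have hDC : C ≤ D := le_max_left _ _
  obtain ⟨m1, h1⟩ := exists_nat_ge (Real.exp D)
  obtain ⟨m2, h2⟩ := exists_nat_ge ((2 * D) ^ 2)
  refine ⟨m1 + m2, fun m hm => ?_⟩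
  have hm' : (m1 : ℝ) + m2 ≤ m := by exact_mod_cast hm
  have h3 : Real.exp D ≤ m := by
    have : (0 : ℝ) ≤ m2 := Nat.cast_nonneg _
    linarith
  have h4 : (2 * D) ^ 2 ≤ m := by
    have : (0 : ℝ) ≤ m1 := Nat.cast_nonneg _
    linarith
  have hm0 : (0 : ℝ) < m := lt_of_lt_of_le (Real.exp_pos _) h3
  have h5 : D ≤ Real.log m := by
    rw [Real.le_log_iff_exp_le hm0]
    exact h3
  have hL : 0 < Real.log m := by linarith
  have h6 : 2 * D ≤ Real.sqrt m := Real.le_sqrt_of_sq_le h4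
  have hs := Real.sq_sqrt hm0.le
  have hs0 : 0 < Real.sqrt m := by linarith
  have h7 : Real.log m ≤ 2 * Real.sqrt m := by
    have h8 : Real.log m = 2 * Real.log (Real.sqrt m) := by
      rw [Real.log_sqrt hm0.le]
      ring
    rw [h8]
    have := Real.log_le_sub_one_of_pos hs0
    linarith
  refine ⟨by linarith, ?_, hL⟩
  rw [le_div_iff₀ hL]
  have h8 : D * Real.log m ≤ D * (2 * Real.sqrt m) := mul_le_mul_of_nonneg_left h7 (by linarith)
  have h9 : C * Real.log m ≤ D * Real.log m := mul_le_mul_of_nonneg_right hDC hL.le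
  have h10 : 2 * D * Real.sqrt m ≤ Real.sqrt m * Real.sqrt m :=
    mul_le_mul_of_nonneg_right h6 hs0.le
  nlinarith

theorem av_choose (n k : ℕ) (hk : 1 ≤ k) (hkn : k ≤ n) :
    (n.choose k : ℝ) ≤ Real.exp (k * (1 + Real.log ((n : ℝ) / k))) := by
  have hk' : (0 : ℝ) < k := by exact_mod_cast hk
  have hn' : (0 : ℝ) < n := by exact_mod_cast (lt_of_lt_of_le hk hkn)
  have h1 : (n.choose k : ℝ) ≤ (n : ℝ) ^ k / (k.factorial : ℝ) := Nat.choose_le_pow_div k n
  have h2 := Real.pow_div_factorial_le_exp (k : ℝ) hk'.le k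
  have h3 : (n : ℝ) ^ k / (k.factorial : ℝ) = ((n : ℝ) / k) ^ k * ((k : ℝ) ^ k / (k.factorial : ℝ)) := by
    rw [div_pow]
    field_simp
  have h4 : Real.exp (k * (1 + Real.log ((n : ℝ) / k))) = ((n : ℝ) / k) ^ k * Real.exp k := by
    rw [mul_add, Real.exp_add, mul_one, mul_comm (Real.exp (k : ℝ)), Real.exp_nat_mul,
      Real.exp_log (by positivity)]
  rw [h4]
  rw [h3] at h1
  exact h1.trans (mul_le_mul_of_nonneg_left h2 (by positivity))

theorem av_ineq (d μ y : ℝ) (hd : 0 < d) (hμ1 : 5 ≤ d * μ) (hμ2 : 5 ≤ d ^ 2 / (4 + 2 * d) * μ)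
    (hμ0 : 0 < μ) (hy0 : 0 < y) (hy1 : y ≤ 1) : ∃ x : ℝ, 1 ≤ x ∧
    4 + Real.log (1 / y) + (x - 1) * μ * y ≤ Real.log x * ((1 + d) * μ) := by
  have hl0 : 0 ≤ Real.log (1 / y) := Real.log_nonneg (by rw [le_div_iff₀ hy0]; linarith)
  rcases le_or_gt (Real.log (1 / y)) 1 with h | h
  · refine ⟨1 + d / 2, by linarith, ?_⟩
    have h1 : d / 2 / (1 + d / 2) ≤ Real.log (1 + d / 2) := by
      have h2 := Real.one_sub_inv_le_log_of_pos (show 0 < 1 + d / 2 by linarith)
      have h3 : 1 - (1 + d / 2)⁻¹ = d / 2 / (1 + d / 2) := by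
        field_simp
        ring
      linarith
    have h2 : (1 + d / 2 - 1) * μ * y ≤ d / 2 * μ := by
      have : d / 2 * μ * y ≤ d / 2 * μ * 1 := mul_le_mul_of_nonneg_left hy1 (by positivity)
      linarith
    have h3 : d / 2 / (1 + d / 2) * ((1 + d) * μ) ≤ Real.log (1 + d / 2) * ((1 + d) * μ) :=
      mul_le_mul_of_nonneg_right h1 (by positivity)
    have h4 : d / 2 / (1 + d / 2) * ((1 + d) * μ) = d / 2 * μ + d ^ 2 / (4 + 2 * d) * μ := by
      field_simp
      ring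
    linarith
  · refine ⟨1 / y, by rw [le_div_iff₀ hy0]; linarith, ?_⟩
    have h1 : (1 / y - 1) * μ * y = μ * (1 - y) := by
      field_simp
    rw [h1]
    set l := Real.log (1 / y)
    have h2 : μ * (1 - y) ≤ μ := by nlinarith
    have h3 : 0 ≤ μ * (l - 1) := mul_nonneg hμ0.le (by linarith)
    have h4 : d * μ - 1 ≤ l * (d * μ - 1) := by nlinarith
    nlinarith

theorem union_num (α δ : ℝ) (hα : 0 < α) (hδ : 0 < δ) : ∃ m0 : ℕ, ∀ m ≥ m0, 2 ≤ nA α m ∧
    ∀ k : ℕ, 1 ≤ k → k ≤ nA α m → ∃ x : ℝ, 1 ≤ x ∧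
      ((nA α m).choose k : ℝ) * Real.exp ((x - 1) * m * ((k : ℝ) / (nA α m : ℕ)) ^ 2) ≤
        x ^ ((1 + δ) * Real.log m / α * k) * (1 / 8) ^ k := by
  set d := δ / 2 with hd
  have hd0 : 0 < d := by positivity
  set e := d ^ 2 / (4 + 2 * d) with he
  have he0 : 0 < e := by positivity
  obtain ⟨m0, hm0⟩ := av_big (α * 5 / d + α * 5 / e + 2 / α + 2 * (1 + δ) / (δ * α))
  refine ⟨m0, fun m hm => ?_⟩
  obtain ⟨hL, hmL, hL0⟩ := hm0 m hm
  set L := Real.log m with hLdef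
  have p1 : 0 < α * 5 / d := by positivity
  have p2 : 0 < α * 5 / e := by positivity
  have p3 : 0 < 2 / α := by positivity
  have p4 : 0 < 2 * (1 + δ) / (δ * α) := by positivity
  have q1 : 2 ≤ α * (m / L) := by
    have : 2 / α ≤ m / L := by linarith
    rw [div_le_iff₀ hα] at this
    linarith
  have hn2 : 2 ≤ nA α m := by
    unfold nA
    rw [← hLdef]
    exact Nat.le_floor (by exact_mod_cast q1)
  refine ⟨hn2, ?_⟩
  have hnle : ((nA α m : ℕ) : ℝ) ≤ α * (m / L) := Nat.floor_le (by linarith)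
  have hnge : α * (m / L) < ((nA α m : ℕ) : ℝ) + 1 := Nat.lt_floor_add_one _
  have hn0 : (0 : ℝ) < ((nA α m : ℕ) : ℝ) := by exact_mod_cast (by omega : 0 < nA α m)
  generalize nA α m = n at hn2 hnle hnge hn0 ⊢
  have hmpos : (0 : ℝ) < m := by
    have h1 : 0 < (m : ℝ) / L := by
      have : 0 < α * ((m : ℝ) / L) := by linarith
      exact pos_of_mul_pos_of_pos_left' hα this
    have h2 := mul_pos h1 hL0
    rwa [div_mul_cancel₀ _ hL0.ne'] at h2
  -- μ
  set μ := (m : ℝ) / n with hμ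
  have hμ0 : 0 < μ := by positivity
  have hμL : L / α ≤ μ := by
    rw [hμ, div_le_div_iff₀ hα hn0]
    have h1 : L * n ≤ L * (α * (m / L)) := mul_le_mul_of_nonneg_left hnle hL0.le
    have h2 : L * (α * (m / L)) = m * α := by field_simp
    linarith
  have hc : (1 + d) * μ ≤ (1 + δ) * L / α := by
    rw [hμ, ← mul_div_assoc, div_le_div_iff₀ hn0 hα]
    have h1 : α * (m / L) - 1 ≤ n := by linarith
    have h2 : (1 + δ) * L * (α * (m / L) - 1) ≤ (1 + δ) * L * n :=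
      mul_le_mul_of_nonneg_left h1 (by positivity)
    have h3 : (1 + δ) * L * (α * (m / L) - 1) = (1 + δ) * (α * m - L) := by
      field_simp
    have h4 : 2 * (1 + δ) / (δ * α) ≤ m / L := by linarith
    rw [div_le_div_iff₀ (by positivity) hL0] at h4
    rw [h3] at h2
    rw [hd]
    nlinarith
  have g1 : 5 ≤ d * μ := by
    have h1 : α * 5 / d ≤ L := by linarith
    have h2 : 5 / d ≤ L / α := by
      rw [le_div_iff₀ hα]
      calc 5 / d * α = α * 5 / d := by ring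
        _ ≤ L := h1
    have h3 : 5 / d ≤ μ := h2.trans hμL
    rw [div_le_iff₀ hd0] at h3
    linarith
  have g2 : 5 ≤ e * μ := by
    have h1 : α * 5 / e ≤ L := by linarith
    have h2 : 5 / e ≤ L / α := by
      rw [le_div_iff₀ hα]
      calc 5 / e * α = α * 5 / e := by ring
        _ ≤ L := h1
    have h3 : 5 / e ≤ μ := h2.trans hμL
    rw [div_le_iff₀ he0] at h3
    linarith
  intro k hk hkn
  have hk' : (0 : ℝ) < k := by exact_mod_cast hk
  have hkn' : (k : ℝ) ≤ n := by exact_mod_cast hkn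
  have hy0 : 0 < (k : ℝ) / n := by positivity
  have hy1 : (k : ℝ) / n ≤ 1 := by
    rw [div_le_one hn0]
    exact hkn'
  obtain ⟨x, hx, hineq⟩ := av_ineq d μ (k / n) hd0 g1 g2 hμ0 hy0 hy1
  refine ⟨x, hx, ?_⟩
  have hx0 : 0 < x := by linarith
  have hlx : 0 ≤ Real.log x := Real.log_nonneg hx
  have h1 := av_choose n k hk hkn
  have h8 : Real.exp (k * (-3)) ≤ (1 / 8 : ℝ) ^ k := by
    rw [Real.exp_nat_mul]
    refine pow_le_pow_left₀ (Real.exp_pos _).le ?_ _
    rw [Real.exp_neg, ← one_div]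
    apply one_div_le_one_div_of_le (by norm_num)
    have h2 : Real.exp 3 = Real.exp 1 ^ 3 := by
      rw [← Real.exp_nat_mul]
      norm_num
    rw [h2]
    have h3 := Real.exp_one_gt_d9
    calc (8 : ℝ) ≤ 2.7182818283 ^ 3 := by norm_num
      _ ≤ Real.exp 1 ^ 3 := pow_le_pow_left₀ (by norm_num) h3.le 3
  calc (n.choose k : ℝ) * Real.exp ((x - 1) * m * ((k : ℝ) / (n : ℕ)) ^ 2)
      ≤ Real.exp (k * (1 + Real.log ((n : ℝ) / k))) *
          Real.exp ((x - 1) * m * ((k : ℝ) / (n : ℕ)) ^ 2) :=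
        mul_le_mul_of_nonneg_right h1 (Real.exp_pos _).le
    _ = Real.exp (k * (1 + Real.log (1 / ((k : ℝ) / n)) + (x - 1) * μ * (k / n))) := by
        rw [← Real.exp_add]
        congr 1
        rw [one_div_div, hμ]
        field_simp
    _ ≤ Real.exp (Real.log x * ((1 + δ) * L / α * k) + k * (-3)) := by
        rw [Real.exp_le_exp]
        have h2 : Real.log x * ((1 + d) * μ) ≤ Real.log x * ((1 + δ) * L / α) :=
          mul_le_mul_of_nonneg_left hc hlx
        have h3 : 1 + Real.log (1 / ((k : ℝ) / n)) + (x - 1) * μ * (k / n) ≤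
            Real.log x * ((1 + δ) * L / α) + -3 := by linarith
        have h4 := mul_le_mul_of_nonneg_left h3 hk'.le
        calc (k : ℝ) * (1 + Real.log (1 / ((k : ℝ) / n)) + (x - 1) * μ * (k / n))
            ≤ k * (Real.log x * ((1 + δ) * L / α) + -3) := h4
          _ = _ := by ring
    _ = x ^ ((1 + δ) * L / α * k) * Real.exp (k * (-3)) := by
        rw [Real.exp_add, Real.rpow_def_of_pos hx0]
    _ ≤ _ := mul_le_mul_of_nonneg_left h8 (Real.rpow_nonneg hx0.le _)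
where
  pos_of_mul_pos_of_pos_left' {a b : ℝ} (ha : 0 < a) (h : 0 < a * b) : 0 < b := by
    by_contra hb
    push Not at hb
    nlinarith

end Pool.Agent.Lib.MP_1f2a9f_co.KW
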