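import Pool.Agent.Lib.MP_1f2a9f_co.KW.Dense
import Pool.Agent.Lib.MP_1f2a9f_co.KW.UnionNum

/-!
# KW, row AS (SparseMost): board ug_mod

Union bound over `U`, `|U| = k ≥ 1`, `t = c k`, with `card_dense`
and `union_num`: `∑ k ≥ 1, 8^(-k) = 1/7 ≤ 1/4`.
-/

set_option autoImplicit false

namespace Pool.Agent.Lib.MP_1f2a9f_co.KW

open Finset Pool.Agent.Lib.MP_1f2a9f_co

private lemma as_geom (n : ℕ) : ∑ k ∈ Finset.range n, ((1 : ℝ) / 8) ^ (k + 1) ≤ 1 / 7 := by
  have h : ∑ k ∈ Finset.range n, ((1 : ℝ) / 8) ^ (k + 1) = (1 - (1 / 8) ^ n) / 7 := by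
    induction n with
    | zero => simp
    | succ n ih =>
      rw [Finset.sum_range_succ, ih, pow_succ]
      ring
  rw [h]
  have : (0 : ℝ) ≤ (1 / 8) ^ n := by positivity
  linarith

theorem sparse_most (α δ : ℝ) (hα : 0 < α) (hδ : 0 < δ) : ∃ m0 : ℕ, ∀ m ≥ m0,
    4 * {H ∈ Gr (nA α m) m | ¬ Sparse ((1 + δ) * Real.log m / α) H}.ncard ≤
      (Gr (nA α m) m).ncard := by
  classical
  obtain ⟨m0, h0⟩ := union_num α δ hα hδ
  refine ⟨m0, fun m hm => ?_⟩
  obtain ⟨hn, hk⟩ := h0 m hm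
  set n := nA α m with hndef
  set c : ℝ := (1 + δ) * Real.log m / α with hc
  choose! x hx1 hx2 using hk
  set G := Gr n m with hG
  -- the sets for one `U`
  let S : Finset (Fin n) → Set (SimpleGraph (Fin n)) := fun U =>
    {H ∈ G | 2 * (c * U.card) < ∑ u ∈ U, ((U.filter (fun v => H.Adj u v)).card : ℝ)}
  have hsub : {H ∈ G | ¬ Sparse c H} ⊆ ⋃ U ∈ (Finset.univ : Finset (Fin n)).powerset, S U := by
    intro H hH
    obtain ⟨hHG, hns⟩ := hH
    unfold Sparse at hns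
    push Not at hns
    obtain ⟨U, hU⟩ := hns
    simp only [Set.mem_iUnion]
    refine ⟨U, by simp, hHG, ?_⟩
    have e : 2 * (c * (U.card : ℝ)) = 2 * c * U.card := by ring
    rw [e]
    convert hU using 5
  have hcard : ({H ∈ G | ¬ Sparse c H}.ncard : ℝ) ≤
      ∑ U ∈ (Finset.univ : Finset (Fin n)).powerset, ((S U).ncard : ℝ) := by
    have h1 := Set.ncard_le_ncard hsub (Set.toFinite _)
    have h2 := Finset.set_ncard_biUnion_le (Finset.univ : Finset (Fin n)).powerset S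
    exact_mod_cast h1.trans h2
  let f : ℕ → ℝ := fun k => if k = 0 then 0 else
    (G.ncard : ℝ) * Real.exp ((x k - 1) * m * ((k : ℝ) / n) ^ 2) / x k ^ (c * k)
  have hSf : ∀ U ∈ (Finset.univ : Finset (Fin n)).powerset, ((S U).ncard : ℝ) ≤ f U.card := by
    intro U _
    by_cases hU : U.card = 0
    · have hU' : U = ∅ := Finset.card_eq_zero.mp hU
      have : S U = ∅ := by
        ext H
        simp [S, hU']
      rw [this]
      simp [f, hU]
    · have h1 : 1 ≤ U.card := Nat.one_le_iff_ne_zero.mpr hU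
      have h2 : U.card ≤ n := by simpa using Finset.card_le_univ U
      have hx := hx1 U.card h1 h2
      have h3 := card_dense n m hn U (x U.card) (c * U.card) hx
      have hpos : 0 < x U.card ^ (c * U.card) := Real.rpow_pos_of_pos (by linarith) _
      simp only [f, if_neg hU]
      rw [le_div_iff₀ hpos]
      exact h3
  have hfk : ∀ k, k ∈ Finset.range n →
      (n.choose (k + 1) : ℝ) * f (k + 1) ≤ G.ncard * (1 / 8) ^ (k + 1) := by
    intro k hk
    rw [Finset.mem_range] at hk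
    have h1 : 1 ≤ k + 1 := by omega
    have h2 : k + 1 ≤ n := by omega
    have hx := hx1 (k + 1) h1 h2
    have hx' := hx2 (k + 1) h1 h2
    have hpos : 0 < x (k + 1) ^ (c * ((k + 1 : ℕ) : ℝ)) := Real.rpow_pos_of_pos (by linarith) _
    simp only [f, if_neg (Nat.succ_ne_zero k)]
    rw [mul_div_assoc', div_le_iff₀ hpos]
    have hGn : (0 : ℝ) ≤ G.ncard := Nat.cast_nonneg _
    calc (n.choose (k + 1) : ℝ) *
          ((G.ncard : ℝ) * Real.exp ((x (k + 1) - 1) * m * (((k + 1 : ℕ) : ℝ) / n) ^ 2))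
        = G.ncard * ((n.choose (k + 1) : ℝ) *
          Real.exp ((x (k + 1) - 1) * m * (((k + 1 : ℕ) : ℝ) / n) ^ 2)) := by ring
      _ ≤ G.ncard * (x (k + 1) ^ (c * ((k + 1 : ℕ) : ℝ)) * (1 / 8) ^ (k + 1)) :=
          mul_le_mul_of_nonneg_left hx' hGn
      _ = _ := by ring
  have hfinal : ({H ∈ G | ¬ Sparse c H}.ncard : ℝ) ≤ G.ncard * (1 / 7) := by
    calc ({H ∈ G | ¬ Sparse c H}.ncard : ℝ)
        ≤ ∑ U ∈ (Finset.univ : Finset (Fin n)).powerset, ((S U).ncard : ℝ) := hcard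
      _ ≤ ∑ U ∈ (Finset.univ : Finset (Fin n)).powerset, f U.card := Finset.sum_le_sum hSf
      _ = ∑ k ∈ Finset.range (n + 1), (n.choose k : ℝ) * f k := by
          rw [Finset.sum_powerset_apply_card]
          simp
      _ = ∑ k ∈ Finset.range n, (n.choose (k + 1) : ℝ) * f (k + 1) := by
          rw [Finset.sum_range_succ']
          simp [f]
      _ ≤ ∑ k ∈ Finset.range n, (G.ncard : ℝ) * (1 / 8) ^ (k + 1) := Finset.sum_le_sum hfk
      _ = G.ncard * ∑ k ∈ Finset.range n, ((1 : ℝ) / 8) ^ (k + 1) := by rw [Finset.mul_sum]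
      _ ≤ G.ncard * (1 / 7) := mul_le_mul_of_nonneg_left (as_geom n) (Nat.cast_nonneg _)
  have hGn : (0 : ℝ) ≤ G.ncard := Nat.cast_nonneg _
  have : (4 : ℝ) * ({H ∈ G | ¬ Sparse c H}.ncard : ℝ) ≤ G.ncard := by linarith
  exact_mod_cast this

end Pool.Agent.Lib.MP_1f2a9f_co.KW
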