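import Pool.Agent.Lib.MP_1f2a9f_co.KW.UnionPow

/-!
# KW, SparsePow: SparseMost with a power saving
-/

set_option autoImplicit false

namespace Pool.Agent.Lib.MP_1f2a9f_co.KW

open Finset Pool.Agent.Lib.MP_1f2a9f_co

private lemma sp_geom (n : ℕ) : ∑ k ∈ Finset.range n, ((1 : ℝ) / 8) ^ (k + 1) ≤ 1 / 7 := by
  have h : ∑ k ∈ Finset.range n, ((1 : ℝ) / 8) ^ (k + 1) = (1 - (1 / 8) ^ n) / 7 := by
    induction n with
    | zero => simp
    | succ n ih =>
      rw [Finset.sum_range_succ, ih, pow_succ]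
      ring
  rw [h]
  have : (0 : ℝ) ≤ (1 / 8) ^ n := by positivity
  linarith

/-- all graphs but a fraction `m ^ (-κ)` are sparse -/
theorem sparse_pow (α δ : ℝ) (hα : 0 < α) (hδ : 0 < δ) : ∃ κ : ℝ, 0 < κ ∧ ∃ m0 : ℕ, ∀ m ≥ m0,
    ({H ∈ Gr (nA α m) m | ¬ Sparse ((1 + δ) * Real.log m / α) H}.ncard : ℝ) ≤
      Real.exp (-(κ * Real.log m)) * ((Gr (nA α m) m).ncard : ℝ) := by
  classical
  obtain ⟨κ, hκ, m0, h0⟩ := union_pow α δ hα hδ
  refine ⟨κ, hκ, m0, fun m hm => ?_⟩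
  set θ : ℝ := Real.exp (-(κ * Real.log m)) with hθ
  have hθ0 : 0 < θ := Real.exp_pos _
  have hθ1 : θ ≤ 1 := by
    rw [hθ, Real.exp_le_one_iff]
    have := Real.log_natCast_nonneg m
    have := mul_nonneg hκ.le this
    linarith
  obtain ⟨hn, hk⟩ := h0 m hm
  set n := nA α m with hndef
  set c : ℝ := (1 + δ) * Real.log m / α with hc
  choose! x hx1 hx2 using hk
  set G := Gr n m with hG
  -- the sets for one `U`
  let S : Finset (Fin n) → Set (SimpleGraph (Fin n)) := fun U =>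
    {H ∈ G | 2 * (c * U.card) < ∑ u ∈ U, ((U.filter (fun v => H.Adj u v)).card : ℝ)}
  have hsub : {H ∈ G | ¬ Sparse c H} ⊆ ⋃ U ∈ (Finset.univ : Finset (Fin n)).powerset, S U := by
    intro H hH
    obtain ⟨hHG, hns⟩ := hH
    unfold Sparse at hns
    push Not at hns
    obtain ⟨U, hU⟩ := hns
    simp only [Set.mem_iUnion]
    refine ⟨U, by simp, hHG, ?_⟩
    have e : 2 * (c * (U.card : ℝ)) = 2 * c * U.card := by ring
    rw [e]
    convert hU using 5
  have hcard : ({H ∈ G | ¬ Sparse c H}.ncard : ℝ) ≤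
      ∑ U ∈ (Finset.univ : Finset (Fin n)).powerset, ((S U).ncard : ℝ) := by
    have h1 := Set.ncard_le_ncard hsub (Set.toFinite _)
    have h2 := Finset.set_ncard_biUnion_le (Finset.univ : Finset (Fin n)).powerset S
    exact_mod_cast h1.trans h2
  let f : ℕ → ℝ := fun k => if k = 0 then 0 else
    (G.ncard : ℝ) * Real.exp ((x k - 1) * m * ((k : ℝ) / n) ^ 2) / x k ^ (c * k)
  have hSf : ∀ U ∈ (Finset.univ : Finset (Fin n)).powerset, ((S U).ncard : ℝ) ≤ f U.card := by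
    intro U _
    by_cases hU : U.card = 0
    · have hU' : U = ∅ := Finset.card_eq_zero.mp hU
      have : S U = ∅ := by
        ext H
        simp [S, hU']
      rw [this]
      simp [f, hU]
    · have h1 : 1 ≤ U.card := Nat.one_le_iff_ne_zero.mpr hU
      have h2 : U.card ≤ n := by simpa using Finset.card_le_univ U
      have hx := hx1 U.card h1 h2
      have h3 := card_dense n m hn U (x U.card) (c * U.card) hx
      have hpos : 0 < x U.card ^ (c * U.card) := Real.rpow_pos_of_pos (by linarith) _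
      simp only [f, if_neg hU]
      rw [le_div_iff₀ hpos]
      exact h3
  have hfk : ∀ k, k ∈ Finset.range n →
      (n.choose (k + 1) : ℝ) * f (k + 1) ≤ G.ncard * (θ * (1 / 8)) ^ (k + 1) := by
    intro k hk
    rw [Finset.mem_range] at hk
    have h1 : 1 ≤ k + 1 := by omega
    have h2 : k + 1 ≤ n := by omega
    have hx := hx1 (k + 1) h1 h2
    have hx' := hx2 (k + 1) h1 h2
    have hpos : 0 < x (k + 1) ^ (c * ((k + 1 : ℕ) : ℝ)) := Real.rpow_pos_of_pos (by linarith) _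
    simp only [f, if_neg (Nat.succ_ne_zero k)]
    rw [mul_div_assoc', div_le_iff₀ hpos]
    have hGn : (0 : ℝ) ≤ G.ncard := Nat.cast_nonneg _
    calc (n.choose (k + 1) : ℝ) *
          ((G.ncard : ℝ) * Real.exp ((x (k + 1) - 1) * m * (((k + 1 : ℕ) : ℝ) / n) ^ 2))
        = G.ncard * ((n.choose (k + 1) : ℝ) *
          Real.exp ((x (k + 1) - 1) * m * (((k + 1 : ℕ) : ℝ) / n) ^ 2)) := by ring
      _ ≤ G.ncard * (x (k + 1) ^ (c * ((k + 1 : ℕ) : ℝ)) * (θ * (1 / 8)) ^ (k + 1)) :=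
          mul_le_mul_of_nonneg_left hx' hGn
      _ = _ := by ring
  have hpw : ∀ k : ℕ, (θ * (1 / 8)) ^ (k + 1) ≤ θ * ((1 : ℝ) / 8) ^ (k + 1) := by
    intro k
    rw [mul_pow]
    refine mul_le_mul_of_nonneg_right ?_ (by positivity)
    calc θ ^ (k + 1) ≤ θ ^ 1 := pow_le_pow_of_le_one hθ0.le hθ1 (by omega)
      _ = θ := pow_one θ
  have hfinal : ({H ∈ G | ¬ Sparse c H}.ncard : ℝ) ≤ G.ncard * (θ * (1 / 7)) := by
    calc ({H ∈ G | ¬ Sparse c H}.ncard : ℝ)
        ≤ ∑ U ∈ (Finset.univ : Finset (Fin n)).powerset, ((S U).ncard : ℝ) := hcard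
      _ ≤ ∑ U ∈ (Finset.univ : Finset (Fin n)).powerset, f U.card := Finset.sum_le_sum hSf
      _ = ∑ k ∈ Finset.range (n + 1), (n.choose k : ℝ) * f k := by
          rw [Finset.sum_powerset_apply_card]
          simp
      _ = ∑ k ∈ Finset.range n, (n.choose (k + 1) : ℝ) * f (k + 1) := by
          rw [Finset.sum_range_succ']
          simp [f]
      _ ≤ ∑ k ∈ Finset.range n, (G.ncard : ℝ) * (θ * (1 / 8)) ^ (k + 1) := Finset.sum_le_sum hfk
      _ ≤ ∑ k ∈ Finset.range n, (G.ncard : ℝ) * (θ * ((1 : ℝ) / 8) ^ (k + 1)) :=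
          Finset.sum_le_sum fun k _ => mul_le_mul_of_nonneg_left (hpw k) (Nat.cast_nonneg _)
      _ = G.ncard * (θ * ∑ k ∈ Finset.range n, ((1 : ℝ) / 8) ^ (k + 1)) := by
          rw [Finset.mul_sum, Finset.mul_sum]
      _ ≤ G.ncard * (θ * (1 / 7)) := mul_le_mul_of_nonneg_left
          (mul_le_mul_of_nonneg_left (sp_geom n) hθ0.le) (Nat.cast_nonneg _)
  have hGn : (0 : ℝ) ≤ G.ncard := Nat.cast_nonneg _
  have h9 : (G.ncard : ℝ) * (θ * (1 / 7)) ≤ θ * G.ncard := by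
    have := mul_nonneg hGn hθ0.le
    nlinarith
  exact hfinal.trans h9

end Pool.Agent.Lib.MP_1f2a9f_co.KW
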