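import Pool.Agent.Lib.MP_1f2a9f_co.KW.MidOn
import Pool.Agent.Lib.MP_1f2a9f_co.KW.Classify
import Pool.Agent.Lib.MP_1f2a9f_co.Top

/-!
# KW, row GT (Top): board ug_mod

Copy of Top.lean with `rhoW`, `rhoQW`, `middle_onW`, `classifyW`; the last
sum is bounded by `kint` since `(1 + pgamg)^J ≤ 1 + ε` (CostQ.ev) and
`(1 + ε) (1 + 2 ε)^2 (1 + 3 ε)^2 ≤ 1 + 12 ε`.
-/

set_option autoImplicit false

namespace Pool.Agent.Lib.MP_1f2a9f_co.KW

open Finset Pool.Agent.Lib.MP_1f2a9f_co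

open TopAsm

private theorem gt_rhoW_pow {ε : ℝ} {K J B q : ℕ} (w : Fin B → Fin B → ℝ) (hK : kap K J ≠ 0)
    (x y : Fin B × Fin q) :
    rhoW ε K J w x y ^ kap K J = Real.exp (-((1 - 12 * ε) * w x.1 y.1)) := by
  unfold rhoW
  rw [← Real.exp_nat_mul]
  congr 1
  have : (kap K J : ℝ) ≠ 0 := by exact_mod_cast hK
  field_simp

private theorem gt_rhoW_ge {ε χ : ℝ} {K J B q : ℕ} {w : Fin B → Fin B → ℝ} (hw : Kernel χ w)
    (hK : kap K J ≠ 0) (hε : 0 < ε) (hε1 : ε ≤ 1 / 1000) (x y : Fin B × Fin q) :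
    Real.exp (-(2 * χ / kap K J)) ≤ rhoW ε K J w x y := by
  unfold rhoW
  apply Real.exp_le_exp.2
  have hk : (0:ℝ) < kap K J := by positivity
  rw [neg_le_neg_iff, div_le_div_iff_of_pos_right hk]
  have h1 := hw.le x.1 y.1
  have h2 := hw.nonneg x.1 y.1
  nlinarith

private theorem gt_rhoW_pos {ε : ℝ} {K J B q : ℕ} (w : Fin B → Fin B → ℝ) (x y : Fin B × Fin q) :
    0 < rhoW ε K J w x y :=
  Real.exp_pos _

private theorem gt_rhoW_le_one {ε χ : ℝ} {K J B q : ℕ} {w : Fin B → Fin B → ℝ} (hw : Kernel χ w)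
    (hε1 : ε ≤ 1 / 1000) (x y : Fin B × Fin q) : rhoW ε K J w x y ≤ 1 := by
  unfold rhoW
  rw [Real.exp_le_one_iff]
  have : 0 ≤ (1 - 12 * ε) * w x.1 y.1 / kap K J := by
    have h1 : 0 ≤ 1 - 12 * ε := by linarith
    have h2 := hw.nonneg x.1 y.1
    positivity
  linarith

private theorem gt_rhoW_symm {ε χ : ℝ} {K J B q : ℕ} {w : Fin B → Fin B → ℝ} (hw : Kernel χ w)
    (x y : Fin B × Fin q) : rhoW ε K J w x y = rhoW ε K J w y x := by
  unfold rhoW
  rw [hw.symm x.1 y.1]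

private theorem gt_QQ_count {ε η χ Dc ε₁ : ℝ} {B K J r : ℕ} (hc : Consts ε η χ Dc ε₁ B K J r)
    (w : Fin B → Fin B → ℝ) (hw : Kernel χ w) (m I : ℕ)
    (hk : kap K J ≠ 0) (hbg : 0 < pbg ε J m)
    (hg : 0 < pgamg ε J m)
    (htau : ptaug ε J m ≤ Real.exp (-(2 * χ / kap K J)) ^ (2 * K) * pbg ε J m)
    (R : ((Fin B × Fin (pq m)) × Fin J) × Fin (pbg ε J m) →
      ((Fin B × Fin (pq m)) × Fin J) × Fin (pbg ε J m) → Bool)
    (hR : GoodRel2 (pbg ε J m) (fun κ κ' => rhoW ε K J w κ.1 κ'.1) (pDg Dc K m) (pgamg ε J m)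
        (ptaug ε J m) R) (g0 : Pre ε J m) (l l' : Lev B I) :
    ({p : Pre ε J m × Pre ε J m | p.1 ∈ GamF g0 l ∧ p.2 ∈ GamF g0 l' ∧
      QQ K R (l, p.1) (l', p.2)}.ncard : ℝ) ≤
      rhoQW ε J m w l l' * (GamF g0 l).card * (GamF g0 l').card := by
  classical
  have hzero : ∀ l l' : Lev B I, (∀ a c, ¬ QQ K R (l, a) (l', c)) →
      ({p : Pre ε J m × Pre ε J m | p.1 ∈ GamF g0 l ∧ p.2 ∈ GamF g0 l' ∧
      QQ K R (l, p.1) (l', p.2)}.ncard : ℝ) = 0 := by
    intro l l' h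
    have : {p : Pre ε J m × Pre ε J m | p.1 ∈ GamF g0 l ∧ p.2 ∈ GamF g0 l' ∧
      QQ K R (l, p.1) (l', p.2)} = ∅ := by
      ext p; simp [h]
    rw [this]; simp
  rcases l with l | x | l
  · rw [hzero _ _ (by intro a c; simp [QQ])]
    rcases l' with l' | l' | l' <;> simp [rhoQW]
  · rcases l' with l' | y | l'
    · rw [hzero _ _ (by intro a c; simp [QQ])]; simp [rhoQW]
    · -- the main case
      have hpc : ∀ c c' : Fin (pq m),
          ((univ.filter (fun p : (Fin J → Fin (pbg ε J m)) × (Fin J → Fin (pbg ε J m)) =>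
            ∀ j j' : Fin J, Linked K j j' →
              R (((x, c), j), p.1 j) (((y, c'), j'), p.2 j') = true)).card : ℝ) ≤
          (1 + pgamg ε J m) ^ J * ((pbg ε J m : ℝ) ^ J) ^ 2 *
            Real.exp (-((1 - 12 * ε) * w x y)) := by
        intro c c'
        have hpos : (0:ℝ) < pbg ε J m := by exact_mod_cast hbg
        have := pair_count J K (pbg ε J m) (rhoW ε K J w) (gt_rhoW_pos w) (gt_rhoW_le_one hw hc.hε1)
          (pDg Dc K m) (by unfold pDg; nlinarith [Nat.zero_le (pDel Dc m), Nat.zero_le K])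
          (pgamg ε J m) (ptaug ε J m) hg R hR (x, c) (y, c') (by
            refine htau.trans ?_
            rw [mul_comm]
            apply mul_le_mul_of_nonneg_left _ hpos.le
            apply pow_le_pow_left₀ (Real.exp_pos _).le
            exact gt_rhoW_ge hw hk hc.hε hc.hε1 _ _)
        rw [gt_rhoW_pow w hk] at this
        exact this
      have hset : {p : Pre ε J m × Pre ε J m | p.1 ∈ GamF g0 (.inr (.inl x) : Lev B I) ∧
          p.2 ∈ GamF g0 (.inr (.inl y) : Lev B I) ∧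
          QQ K R ((.inr (.inl x) : Lev B I), p.1) ((.inr (.inl y) : Lev B I), p.2)} =
          ((univ : Finset (Fin (pq m) × Fin (pq m))).biUnion (fun cc =>
            (univ.filter (fun p : (Fin J → Fin (pbg ε J m)) × (Fin J → Fin (pbg ε J m)) =>
            ∀ j j' : Fin J, Linked K j j' →
              R (((x, cc.1), j), p.1 j) (((y, cc.2), j'), p.2 j') = true)).image
              (fun p => (((cc.1, p.1), (cc.2, p.2)) : Pre ε J m × Pre ε J m))) :
              Set (Pre ε J m × Pre ε J m)) := by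
        ext ⟨⟨c, g⟩, ⟨c', g'⟩⟩
        simp [GamF, QQ]
      rw [hset, Set.ncard_coe_finset]
      have hle : (((univ : Finset (Fin (pq m) × Fin (pq m))).biUnion (fun cc =>
            (univ.filter (fun p : (Fin J → Fin (pbg ε J m)) × (Fin J → Fin (pbg ε J m)) =>
            ∀ j j' : Fin J, Linked K j j' →
              R (((x, cc.1), j), p.1 j) (((y, cc.2), j'), p.2 j') = true)).image
              (fun p => (((cc.1, p.1), (cc.2, p.2)) : Pre ε J m × Pre ε J m)))).card : ℝ) ≤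
          ∑ _cc : Fin (pq m) × Fin (pq m), (1 + pgamg ε J m) ^ J * ((pbg ε J m : ℝ) ^ J) ^ 2 *
            Real.exp (-((1 - 12 * ε) * w x y)) := by
        refine le_trans (b := ((∑ cc : Fin (pq m) × Fin (pq m),
          (univ.filter (fun p : (Fin J → Fin (pbg ε J m)) × (Fin J → Fin (pbg ε J m)) =>
            ∀ j j' : Fin J, Linked K j j' →
              R (((x, cc.1), j), p.1 j) (((y, cc.2), j'), p.2 j') = true)).card : ℕ) : ℝ)) ?_ ?_
        · exact_mod_cast Finset.card_biUnion_le.trans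
            (Finset.sum_le_sum (fun cc _ => Finset.card_image_le))
        · push_cast
          exact Finset.sum_le_sum (fun cc _ => hpc cc.1 cc.2)
      refine hle.trans (le_of_eq ?_)
      rw [GamF_card, GamF_card]
      simp [rhoQW, gamC]
      ring
    · rw [hzero _ _ (by intro a c; simp [QQ])]; simp [rhoQW]
  · rw [hzero _ _ (by intro a c; simp [QQ])]
    rcases l' with l' | l' | l' <;> simp [rhoQW]


/-- the cost of the relation `Q` -/
private theorem gt_cost {ε η χ Dc ε₁ : ℝ} {B K J r : ℕ} (hc : Consts ε η χ Dc ε₁ B K J r)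
    (w : Fin B → Fin B → ℝ) :
    ∃ m0 : ℕ, ∀ m ≥ m0,
      1 / 2 * ∑ l : Lev B (pI η m), ∑ l' : Lev B (pI η m), rhoQW ε J m w l l' *
        ((1 + 2 * ε) * cap ε χ Dc ε₁ m l) * ((1 + 2 * ε) * cap ε χ Dc ε₁ m l') ≤
        (1 / 2 + 6 * ε) * kint ε χ B w * (m / Real.log m) ^ 2 := by
  have hε := hc.hε
  have hε1 := hc.hε1
  have hJ : 0 < J := by
    rcases Nat.eq_zero_or_pos J with h | h
    · have := hc.hJ
      rw [h] at this
      have hK : (0 : ℝ) ≤ K := Nat.cast_nonneg K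
      simp at this
      linarith
    · exact h
  obtain ⟨m0, hm0⟩ := CostQ.ev hε hJ
  refine ⟨m0, fun m hm => ?_⟩
  have hg := hm0 m hm
  have hsum : ∑ l : Lev B (pI η m), ∑ l' : Lev B (pI η m), rhoQW ε J m w l l' *
        ((1 + 2 * ε) * cap ε χ Dc ε₁ m l) * ((1 + 2 * ε) * cap ε χ Dc ε₁ m l') =
      (1 + pgamg ε J m) ^ J * ((1 + 2 * ε) ^ 2 * (1 + 3 * ε) ^ 2) *
        (kint ε χ B w * (m / Real.log m) ^ 2) := by
    simp only [Fintype.sum_sum_type, rhoQW, cap, zero_mul, Finset.sum_const_zero, add_zero,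
      zero_add]
    unfold kint
    rw [mul_right_comm ((χ / B) ^ 2), Finset.mul_sum, Finset.mul_sum]
    refine Finset.sum_congr rfl fun x _ => ?_
    rw [Finset.mul_sum, Finset.mul_sum]
    refine Finset.sum_congr rfl fun y _ => ?_
    ring
  rw [hsum]
  have hk0 : 0 ≤ kint ε χ B w * (m / Real.log m) ^ 2 := by
    unfold kint
    have : 0 ≤ ∑ x : Fin B, ∑ y : Fin B, Real.exp (-((1 - 12 * ε) * w x y)) :=
      Finset.sum_nonneg fun x _ => Finset.sum_nonneg fun y _ => (Real.exp_pos _).le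
    positivity
  have h1 : (1 + pgamg ε J m) ^ J * ((1 + 2 * ε) ^ 2 * (1 + 3 * ε) ^ 2) ≤
      (1 + ε) * ((1 + 2 * ε) ^ 2 * (1 + 3 * ε) ^ 2) :=
    mul_le_mul_of_nonneg_right hg (by positivity)
  have h2 : (1 + ε) * ((1 + 2 * ε) ^ 2 * (1 + 3 * ε) ^ 2) ≤ 1 + 12 * ε := by
    have e2 : ε ^ 2 ≤ ε / 1000 := by nlinarith
    have e3 : ε ^ 3 ≤ ε / 1000 := by nlinarith [sq_nonneg ε]
    have e4 : ε ^ 4 ≤ ε / 1000 := by nlinarith [sq_nonneg ε, pow_pos hε 3]
    have e5 : ε ^ 5 ≤ ε / 1000 := by nlinarith [sq_nonneg ε, pow_pos hε 4]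
    nlinarith
  have h3 := mul_le_mul_of_nonneg_right (h1.trans h2) hk0
  linarith

theorem upperW {ε η χ Dc ε₁ : ℝ} {B K J r : ℕ} (hc : Consts ε η χ Dc ε₁ B K J r)
    (w : Fin B → Fin B → ℝ) (hw : Kernel χ w) :
    ∃ m0 : ℕ, ∀ m ≥ m0, ∃ (N : ℕ) (G : SimpleGraph (Fin N)),
      (G.edgeSet.ncard : ℝ) ≤
        (41 * ε + (1 / 2 + 6 * ε) * kint ε χ B w) * (m / Real.log m) ^ 2 ∧
      ∀ (n : ℕ) (H : SimpleGraph (Fin n)) [DecidableRel H.Adj], H.edgeSet.ncard ≤ m →
        (∀ v, ∃ v', H.Adj v v') →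
        (∀ M : Finset (Fin n), (∀ v ∈ M, (H.degree v : ℝ) ≤ Dc * Real.log m) →
          (M.card : ℝ) ≤ ε * χ * (m / Real.log m) → PosOn ε χ ε₁ m w H M) →
        H.IsContained G := by
  classical
  have hε0 := hc.hε
  have hε1 := hc.hε1
  have hη0 : 0 < η := by rw [hc.hη]; positivity
  have hχ0 : 0 < χ := by rw [hc.hχ]; positivity
  have hDc0 : 0 < Dc := by rw [hc.hDc]; positivity
  have hJK : K < J := by
    have h1 := hc.hJ
    have h2 : (K:ℝ) + 1 ≤ J := by
      have : ε * J ≤ 1 * J := by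
        apply mul_le_mul_of_nonneg_right (by linarith) (Nat.cast_nonneg J)
      nlinarith [Nat.cast_nonneg (α := ℝ) K]
    exact_mod_cast h2
  have hkap : kap K J ≠ 0 := by
    have h1 := kap_lower K J hJK
    have h2 := hc.hK
    intro h0
    rw [h0] at h1
    nlinarith
  obtain ⟨m1, H1⟩ := num_basic hc
  obtain ⟨m2, H2⟩ := num_rel hc
  obtain ⟨m3, H3⟩ := num_relq hc
  obtain ⟨m4, H4⟩ := num_lab hc
  obtain ⟨m5, H5⟩ := num_over hc
  obtain ⟨m6, H6⟩ := cost_univ hc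
  obtain ⟨m7, H7⟩ := cost_S hc
  obtain ⟨m8, H8⟩ := gt_cost hc w
  obtain ⟨m9, H9⟩ := middle_onW hc w hw
  refine ⟨m1 + m2 + m3 + m4 + m5 + m6 + m7 + m8 + m9, fun m hm => ?_⟩
  obtain ⟨-, b1, b2, b3, b4, b5, b6, b7, b8, b9, b10, b11, b12, b13, b14⟩ := H1 m (by omega)
  obtain ⟨c1, c2, c3⟩ := H2 m (by omega)
  obtain ⟨d1, d2⟩ := H3 m (by omega)
  obtain ⟨e1, e2, e3, e4⟩ := H4 m (by omega)
  have f5 := H5 m (by omega)
  have f6 := H6 m (by omega)
  have f7 := H7 m (by omega)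
  have f8 := H8 m (by omega)
  have f9 := H9 m (by omega)
  clear H1 H2 H3 H4 H5 H6 H7 H8 H9
  have hqi0 : ∀ i, 0 < qi ε m i := fun i => Real.exp_pos _
  have hqi1 : ∀ i, qi ε m i ≤ 1 := fun i => by
    unfold qi
    rw [Real.exp_le_one_iff]
    have : 0 ≤ min (Real.log m / 2 ^ (i + 2)) (ε * Real.log m / 16) := by
      apply le_min <;> positivity
    linarith
  have hrho0 : ∀ l l' : Lev B (pI η m), 0 ≤ rhoS ε m l l' := by
    intro l l'
    rcases l with l | l | l <;> rcases l' with l' | l' | l' <;> simp only [rhoS] <;>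
      first | exact (hqi0 _).le | exact zero_le_one | exact le_rfl | skip
    split_ifs
    · exact (hqi0 _).le
    · exact le_rfl
  have hrho1 : ∀ l l' : Lev B (pI η m), rhoS ε m l l' ≤ 1 := by
    intro l l'
    rcases l with l | l | l <;> rcases l' with l' | l' | l' <;> simp only [rhoS] <;>
      first | exact hqi1 _ | exact zero_le_one | exact le_rfl | skip
    split_ifs
    · exact hqi1 _
    · norm_num
  obtain ⟨S, hS⟩ := exists_relation (pb ε m) (tS ε m) (rhoS ε m (B := B) (I := pI η m))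
    hrho0 hrho1 (pD m) (pgam ε m) (ptau ε m) b6 b7 (by linarith) c1 c2 c3
  obtain ⟨R, hR⟩ := exists_relation2 (C := (Fin B × Fin (pq m)) × Fin J) (pbg ε J m)
    (fun κ κ' => rhoW ε K J w κ.1 κ'.1) (fun x y => gt_rhoW_symm hw _ _)
    (fun x y => (gt_rhoW_pos w _ _).le)
    (fun x y => gt_rhoW_le_one hw hc.hε1 _ _) (pDg Dc K m) (pgamg ε J m) (ptaug ε J m) b9 b10 b11 d1
  have hmid := f9 R hR
  have g0 : Pre ε J m := (⟨0, b4⟩, fun _ => ⟨0, b5⟩)
  have htaug : ptaug ε J m ≤ Real.exp (-(2 * χ / kap K J)) ^ (2 * K) * pbg ε J m := by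
    refine d2.trans ?_
    apply mul_le_mul_of_nonneg_left _ (by positivity)
    have h1 : Real.exp (-((1 - 12 * ε) * (2 * K / kap K J) *
        ((1 + 2 * ε) * ((1 + 5 * ε) * Real.log m)))) ≤ 1 := by
      rw [Real.exp_le_one_iff]
      have : 0 ≤ (1 - 12 * ε) * (2 * K / kap K J) *
        ((1 + 2 * ε) * ((1 + 5 * ε) * Real.log m)) := by
        have : 0 ≤ 1 - 12 * ε := by linarith
        positivity
      linarith
    have h2 : (0:ℝ) ≤ pbg ε J m := by positivity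
    nlinarith
  obtain ⟨N, G, hGe, hGu⟩ := exists_host (pb ε m) (tS ε m) (TT ε χ Dc ε₁ J m (B := B) (I := pI η m))
    (rhoS ε m) (pD m) (pgam ε m) (ptau ε m) S hS (GamF g0) (QQ K R)
    (fun x y => QQ_symm K R hR.symm x y) (rhoQW ε J m w)
    (gt_QQ_count hc w hw m (pI η m) hkap b5 b9 htaug R hR g0) (pa m)
  refine ⟨N, G, ?_, ?_⟩
  rotate_left
  · intro n H _ hHm hiso hpos
    obtain ⟨A, lev, pre, P, hA, hn, hpre, hcap, hself, hPD, hrev, hcost, hcover, hcoll⟩ :=
      classifyW hc m b1 b14 b12 b4 b13 e1 e2 e3 R g0 n H hHm hiso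
        (fun M hM1 hM2 => hmid n H M hM1 hM2 (hpos M hM1 hM2))
    obtain ⟨e, f, W, q1, q2, q3, q4, q5⟩ := embed hc m b1 b2 b4 b5 b6 b7 b9 b10 b8 e4 f5 S hS R g0
      n H hn A lev pre P hA hpre hcap hself hPD hrev hcost hcover hcoll
    exact hGu n H A lev pre e f W hpre q1 q2 q3 q4 q5
  · refine hGe.trans ?_
    have hNle : ∀ l : Lev B (pI η m), ((GamF g0 l).card * pb ε m * tS ε m l *
        TT ε χ Dc ε₁ J m l : ℝ) ≤ (1 + 2 * ε) * cap ε χ Dc ε₁ m l := fun l =>
      NN_le g0 l hε0 (e4 l).1 (e4 l).2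
    have hN0 : ∀ l : Lev B (pI η m), (0:ℝ) ≤ ((GamF g0 l).card * pb ε m * tS ε m l *
        TT ε χ Dc ε₁ J m l : ℝ) := fun l => by positivity
    have hC0 : ∀ l : Lev B (pI η m), (0:ℝ) ≤ (1 + 2 * ε) * cap ε χ Dc ε₁ m l := fun l =>
      (hN0 l).trans (hNle l)
    have hQ0 : ∀ l l' : Lev B (pI η m), 0 ≤ rhoQW ε J m w l l' := by
      intro l l'
      rcases l with l | l | l <;> rcases l' with l' | l' | l' <;> simp only [rhoQW] <;>
        first | exact le_rfl | positivity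
    have t1 : (pa m : ℝ) * (pa m + ∑ l : Lev B (pI η m), ((GamF g0 l).card * pb ε m * tS ε m l *
        TT ε χ Dc ε₁ J m l : ℝ)) ≤ ε * (m / Real.log m) ^ 2 := by
      refine le_trans ?_ f6
      apply mul_le_mul_of_nonneg_left _ (by positivity)
      have := Finset.sum_le_sum (fun l (_ : l ∈ (univ : Finset (Lev B (pI η m)))) => hNle l)
      linarith
    have t2 : ∑ l : Lev B (pI η m), ∑ l' : Lev B (pI η m), (1 + pgam ε m) * rhoS ε m l l' *
        ((GamF g0 l).card * pb ε m * tS ε m l * TT ε χ Dc ε₁ J m l : ℝ) *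
        ((GamF g0 l').card * pb ε m * tS ε m l' * TT ε χ Dc ε₁ J m l' : ℝ) ≤
        40 * ε * (m / Real.log m) ^ 2 := by
      refine le_trans ?_ f7
      apply Finset.sum_le_sum
      intro l _
      apply Finset.sum_le_sum
      intro l' _
      apply mul_le_mul _ (hNle l') (hN0 l')
      · have := hrho0 l l'
        have := hC0 l
        positivity
      · apply mul_le_mul_of_nonneg_left (hNle l)
        have := hrho0 l l'
        positivity
    have t3 : 1 / 2 * ∑ l : Lev B (pI η m), ∑ l' : Lev B (pI η m), rhoQW ε J m w l l' *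
        ((GamF g0 l).card * pb ε m * tS ε m l * TT ε χ Dc ε₁ J m l : ℝ) *
        ((GamF g0 l').card * pb ε m * tS ε m l' * TT ε χ Dc ε₁ J m l' : ℝ) ≤
        (1 / 2 + 6 * ε) * kint ε χ B w * (m / Real.log m) ^ 2 := by
      refine le_trans ?_ f8
      apply mul_le_mul_of_nonneg_left _ (by norm_num)
      apply Finset.sum_le_sum
      intro l _
      apply Finset.sum_le_sum
      intro l' _
      apply mul_le_mul _ (hNle l') (hN0 l')
      · have := hQ0 l l'
        have := hC0 l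
        positivity
      · apply mul_le_mul_of_nonneg_left (hNle l) (hQ0 l l')
    have hfin : ε * (m / Real.log m) ^ 2 + 40 * ε * (m / Real.log m) ^ 2 +
        (1 / 2 + 6 * ε) * kint ε χ B w * (m / Real.log m) ^ 2 =
        (41 * ε + (1 / 2 + 6 * ε) * kint ε χ B w) * (m / Real.log m) ^ 2 := by ring
    linarith

end Pool.Agent.Lib.MP_1f2a9f_co.KW
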