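import Pool.Agent.Lib.MP_1f2a9f_co.KW.UnionNum
import Pool.Agent.Lib.MP_1f2a9f_co.KW.Dense

/-!
# KW, UnionPow: the union bound of UnionNum and SparseMost with a power saving
-/

set_option autoImplicit false

namespace Pool.Agent.Lib.MP_1f2a9f_co.KW

open Finset Pool.Agent.Lib.MP_1f2a9f_co

private theorem om_ineq (D d μ y : ℝ) (hD : 0 ≤ D) (hd : 0 < d) (hμ1 : D + 5 ≤ d * μ)
    (hμ2 : D + 5 ≤ d ^ 2 / (4 + 2 * d) * μ)
    (hμ0 : 0 < μ) (hy0 : 0 < y) (hy1 : y ≤ 1) : ∃ x : ℝ, 1 ≤ x ∧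
    D + 4 + Real.log (1 / y) + (x - 1) * μ * y ≤ Real.log x * ((1 + d) * μ) := by
  have hl0 : 0 ≤ Real.log (1 / y) := Real.log_nonneg (by rw [le_div_iff₀ hy0]; linarith)
  rcases le_or_gt (Real.log (1 / y)) 1 with h | h
  · refine ⟨1 + d / 2, by linarith, ?_⟩
    have h1 : d / 2 / (1 + d / 2) ≤ Real.log (1 + d / 2) := by
      have h2 := Real.one_sub_inv_le_log_of_pos (show 0 < 1 + d / 2 by linarith)
      have h3 : 1 - (1 + d / 2)⁻¹ = d / 2 / (1 + d / 2) := by
        field_simp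
        ring
      linarith
    have h2 : (1 + d / 2 - 1) * μ * y ≤ d / 2 * μ := by
      have : d / 2 * μ * y ≤ d / 2 * μ * 1 := mul_le_mul_of_nonneg_left hy1 (by positivity)
      linarith
    have h3 : d / 2 / (1 + d / 2) * ((1 + d) * μ) ≤ Real.log (1 + d / 2) * ((1 + d) * μ) :=
      mul_le_mul_of_nonneg_right h1 (by positivity)
    have h4 : d / 2 / (1 + d / 2) * ((1 + d) * μ) = d / 2 * μ + d ^ 2 / (4 + 2 * d) * μ := by
      field_simp
      ring
    linarith
  · refine ⟨1 / y, by rw [le_div_iff₀ hy0]; linarith, ?_⟩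
    have h1 : (1 / y - 1) * μ * y = μ * (1 - y) := by
      field_simp
    rw [h1]
    set l := Real.log (1 / y)
    have h2 : μ * (1 - y) ≤ μ := by nlinarith
    have h3 : 0 ≤ μ * (l - 1) := mul_nonneg hμ0.le (by linarith)
    have h4 : d * μ - 1 ≤ l * (d * μ - 1) := by nlinarith
    nlinarith

/-- `union_num` with a power saving -/
theorem union_pow (α δ : ℝ) (hα : 0 < α) (hδ : 0 < δ) : ∃ κ : ℝ, 0 < κ ∧ ∃ m0 : ℕ, ∀ m ≥ m0,
    2 ≤ nA α m ∧
    ∀ k : ℕ, 1 ≤ k → k ≤ nA α m → ∃ x : ℝ, 1 ≤ x ∧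
      ((nA α m).choose k : ℝ) * Real.exp ((x - 1) * m * ((k : ℝ) / (nA α m : ℕ)) ^ 2) ≤
        x ^ ((1 + δ) * Real.log m / α * k) * (Real.exp (-(κ * Real.log m)) * (1 / 8)) ^ k := by
  set d := δ / 2 with hd
  have hd0 : 0 < d := by positivity
  set e := d ^ 2 / (4 + 2 * d) with he
  have he0 : 0 < e := by positivity
  set κ := min d e / (2 * α) with hκ
  have hκ0 : 0 < κ := div_pos (lt_min hd0 he0) (by positivity)
  obtain ⟨m0, hm0⟩ := av_big (α * 10 / d + α * 10 / e + 2 / α + 2 * (1 + δ) / (δ * α))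
  refine ⟨κ, hκ0, m0, fun m hm => ?_⟩
  obtain ⟨hL, hmL, hL0⟩ := hm0 m hm
  set L := Real.log m with hLdef
  have p1 : 0 < α * 10 / d := by positivity
  have p2 : 0 < α * 10 / e := by positivity
  have p3 : 0 < 2 / α := by positivity
  have p4 : 0 < 2 * (1 + δ) / (δ * α) := by positivity
  have q1 : 2 ≤ α * (m / L) := by
    have : 2 / α ≤ m / L := by linarith
    rw [div_le_iff₀ hα] at this
    linarith
  have hn2 : 2 ≤ nA α m := by
    unfold nA
    rw [← hLdef]
    exact Nat.le_floor (by exact_mod_cast q1)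
  refine ⟨hn2, ?_⟩
  have hnle : ((nA α m : ℕ) : ℝ) ≤ α * (m / L) := Nat.floor_le (by linarith)
  have hnge : α * (m / L) < ((nA α m : ℕ) : ℝ) + 1 := Nat.lt_floor_add_one _
  have hn0 : (0 : ℝ) < ((nA α m : ℕ) : ℝ) := by exact_mod_cast (by omega : 0 < nA α m)
  generalize nA α m = n at hn2 hnle hnge hn0 ⊢
  have hmpos : (0 : ℝ) < m := by
    have h1 : 0 < (m : ℝ) / L := by
      have : 0 < α * ((m : ℝ) / L) := by linarith
      exact pos_of_mul_pos_of_pos_left' hα this
    have h2 := mul_pos h1 hL0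
    rwa [div_mul_cancel₀ _ hL0.ne'] at h2
  -- μ
  set μ := (m : ℝ) / n with hμ
  have hμ0 : 0 < μ := by positivity
  have hμL : L / α ≤ μ := by
    rw [hμ, div_le_div_iff₀ hα hn0]
    have h1 : L * n ≤ L * (α * (m / L)) := mul_le_mul_of_nonneg_left hnle hL0.le
    have h2 : L * (α * (m / L)) = m * α := by field_simp
    linarith
  have hc : (1 + d) * μ ≤ (1 + δ) * L / α := by
    rw [hμ, ← mul_div_assoc, div_le_div_iff₀ hn0 hα]
    have h1 : α * (m / L) - 1 ≤ n := by linarith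
    have h2 : (1 + δ) * L * (α * (m / L) - 1) ≤ (1 + δ) * L * n :=
      mul_le_mul_of_nonneg_left h1 (by positivity)
    have h3 : (1 + δ) * L * (α * (m / L) - 1) = (1 + δ) * (α * m - L) := by
      field_simp
    have h4 : 2 * (1 + δ) / (δ * α) ≤ m / L := by linarith
    rw [div_le_div_iff₀ (by positivity) hL0] at h4
    rw [h3] at h2
    rw [hd]
    nlinarith
  have hD0 : 0 ≤ κ * L := by positivity
  have hDmin : κ * L ≤ min d e * (L / α) / 2 := by
    rw [hκ]
    apply le_of_eq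
    field_simp
  have hLα : 0 ≤ L / α := by positivity
  have g1 : κ * L + 5 ≤ d * μ := by
    have h1 : α * 10 / d ≤ L := by linarith
    have h2 : 10 / d ≤ L / α := by
      rw [le_div_iff₀ hα]
      calc 10 / d * α = α * 10 / d := by ring
        _ ≤ L := h1
    have h3 : 10 ≤ d * (L / α) := by
      rw [div_le_iff₀ hd0] at h2
      linarith
    have h4 : min d e * (L / α) ≤ d * (L / α) := mul_le_mul_of_nonneg_right (min_le_left _ _) hLα
    have h5 : d * (L / α) ≤ d * μ := mul_le_mul_of_nonneg_left hμL hd0.le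
    linarith
  have g2 : κ * L + 5 ≤ e * μ := by
    have h1 : α * 10 / e ≤ L := by linarith
    have h2 : 10 / e ≤ L / α := by
      rw [le_div_iff₀ hα]
      calc 10 / e * α = α * 10 / e := by ring
        _ ≤ L := h1
    have h3 : 10 ≤ e * (L / α) := by
      rw [div_le_iff₀ he0] at h2
      linarith
    have h4 : min d e * (L / α) ≤ e * (L / α) := mul_le_mul_of_nonneg_right (min_le_right _ _) hLα
    have h5 : e * (L / α) ≤ e * μ := mul_le_mul_of_nonneg_left hμL he0.le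
    linarith
  intro k hk hkn
  have hk' : (0 : ℝ) < k := by exact_mod_cast hk
  have hkn' : (k : ℝ) ≤ n := by exact_mod_cast hkn
  have hy0 : 0 < (k : ℝ) / n := by positivity
  have hy1 : (k : ℝ) / n ≤ 1 := by
    rw [div_le_one hn0]
    exact hkn'
  obtain ⟨x, hx, hineq⟩ := om_ineq (κ * L) d μ (k / n) hD0 hd0 g1 g2 hμ0 hy0 hy1
  refine ⟨x, hx, ?_⟩
  have hx0 : 0 < x := by linarith
  have hlx : 0 ≤ Real.log x := Real.log_nonneg hx
  have h1 := av_choose n k hk hkn
  have h8 : Real.exp (k * (-(κ * L) + -3)) ≤ (Real.exp (-(κ * L)) * (1 / 8 : ℝ)) ^ k := by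
    rw [Real.exp_nat_mul]
    refine pow_le_pow_left₀ (Real.exp_pos _).le ?_ _
    rw [Real.exp_add]
    refine mul_le_mul_of_nonneg_left ?_ (Real.exp_pos _).le
    rw [Real.exp_neg, ← one_div]
    apply one_div_le_one_div_of_le (by norm_num)
    have h2 : Real.exp 3 = Real.exp 1 ^ 3 := by
      rw [← Real.exp_nat_mul]
      norm_num
    rw [h2]
    have h3 := Real.exp_one_gt_d9
    calc (8 : ℝ) ≤ 2.7182818283 ^ 3 := by norm_num
      _ ≤ Real.exp 1 ^ 3 := pow_le_pow_left₀ (by norm_num) h3.le 3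
  calc (n.choose k : ℝ) * Real.exp ((x - 1) * m * ((k : ℝ) / (n : ℕ)) ^ 2)
      ≤ Real.exp (k * (1 + Real.log ((n : ℝ) / k))) *
          Real.exp ((x - 1) * m * ((k : ℝ) / (n : ℕ)) ^ 2) :=
        mul_le_mul_of_nonneg_right h1 (Real.exp_pos _).le
    _ = Real.exp (k * (1 + Real.log (1 / ((k : ℝ) / n)) + (x - 1) * μ * (k / n))) := by
        rw [← Real.exp_add]
        congr 1
        rw [one_div_div, hμ]
        field_simp
    _ ≤ Real.exp (Real.log x * ((1 + δ) * L / α * k) + k * (-(κ * L) + -3)) := by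
        rw [Real.exp_le_exp]
        have h2 : Real.log x * ((1 + d) * μ) ≤ Real.log x * ((1 + δ) * L / α) :=
          mul_le_mul_of_nonneg_left hc hlx
        have h3 : 1 + Real.log (1 / ((k : ℝ) / n)) + (x - 1) * μ * (k / n) ≤
            Real.log x * ((1 + δ) * L / α) + (-(κ * L) + -3) := by linarith
        have h4 := mul_le_mul_of_nonneg_left h3 hk'.le
        calc (k : ℝ) * (1 + Real.log (1 / ((k : ℝ) / n)) + (x - 1) * μ * (k / n))
            ≤ k * (Real.log x * ((1 + δ) * L / α) + (-(κ * L) + -3)) := h4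
          _ = _ := by ring
    _ = x ^ ((1 + δ) * L / α * k) * Real.exp (k * (-(κ * L) + -3)) := by
        rw [Real.exp_add, Real.rpow_def_of_pos hx0]
    _ ≤ _ := mul_le_mul_of_nonneg_left h8 (Real.rpow_nonneg hx0.le _)
where
  pos_of_mul_pos_of_pos_left' {a b : ℝ} (ha : 0 < a) (h : 0 < a * b) : 0 < b := by
    by_contra hb
    push Not at hb
    nlinarith

end Pool.Agent.Lib.MP_1f2a9f_co.KW
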