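import Pool.Agent.Lib.MP_1f2a9f_co.KW.Top
import Pool.Agent.Lib.MP_1f2a9f_co.KW.PosA
import Pool.Agent.Lib.MP_1f2a9f_co.KW.KintCst
import Pool.Agent.Lib.MP_1f2a9f_co.KW.SparseMost
import Pool.Agent.Lib.MP_1f2a9f_co.KW.Isolated

/-!
# KW, row AU (UpperA): board ug_mod

`exists_consts` with a small `ε`, `upperW`, `posA`, `kint_cst`,
`sparse_most`, `add_isolated`; `Sparse` passes to `comap` along an embedding.
-/

set_option autoImplicit false

namespace Pool.Agent.Lib.MP_1f2a9f_co.KW

open Finset Pool.Agent.Lib.MP_1f2a9f_co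

theorem au_sparse {c : ℝ} {V V' : Type} [Fintype V] [Fintype V'] (e : V' ↪ V)
    {H : SimpleGraph V} (h : Sparse c H) : Sparse c (H.comap e) := by
  classical
  intro U
  have h1 := h (U.map e)
  rw [Finset.card_map, Finset.sum_map] at h1
  refine le_trans (le_of_eq ?_) h1
  refine Finset.sum_congr rfl fun u _ => ?_
  rw [Finset.filter_map, Finset.card_map]
  rfl

theorem au_num (α ε : ℝ) (hα : 0 < α) (hε : 0 < ε) : ∃ s : ℝ, 0 < s ∧ s ≤ 1 / 1000 ∧ s ≤ α ∧
    s * (1 + α) ≤ 1 / 30 ∧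
    41 * s + (1 / 2 + 6 * s) * (α ^ 2 * Real.exp (-α) * Real.exp (15 * s * (1 + α)) + s) ≤
      α ^ 2 / 2 * Real.exp (-α) + ε := by
  set a := α ^ 2 * Real.exp (-α) with ha
  have ha0 : 0 < a := by positivity
  set M := 48 + 12 * a + 15 * a * (1 + α) with hM
  have hM0 : 0 < M := by positivity
  have p1 : 0 < 1 / (30 * (1 + α)) := by positivity
  have p2 : 0 < ε / M := by positivity
  refine ⟨min (min (1 / 1000) α) (min (1 / (30 * (1 + α))) (ε / M)), ?_, ?_, ?_, ?_, ?_⟩
  · exact lt_min (lt_min (by norm_num) hα) (lt_min p1 p2)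
  · exact (min_le_left _ _).trans (min_le_left _ _)
  · exact (min_le_left _ _).trans (min_le_right _ _)
  · have h1 : min (min (1 / 1000) α) (min (1 / (30 * (1 + α))) (ε / M)) ≤ 1 / (30 * (1 + α)) :=
      (min_le_right _ _).trans (min_le_left _ _)
    rw [le_div_iff₀ (by positivity)] at h1
    linarith
  · have h0 : 0 < min (min (1 / 1000) α) (min (1 / (30 * (1 + α))) (ε / M)) :=
      lt_min (lt_min (by norm_num) hα) (lt_min p1 p2)
    have h1 : min (min (1 / 1000) α) (min (1 / (30 * (1 + α))) (ε / M)) ≤ 1 / (30 * (1 + α)) :=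
      (min_le_right _ _).trans (min_le_left _ _)
    have h2 : min (min (1 / 1000) α) (min (1 / (30 * (1 + α))) (ε / M)) ≤ ε / M :=
      (min_le_right _ _).trans (min_le_right _ _)
    have h3 : min (min (1 / 1000) α) (min (1 / (30 * (1 + α))) (ε / M)) ≤ 1 / 1000 :=
      (min_le_left _ _).trans (min_le_left _ _)
    generalize min (min (1 / 1000) α) (min (1 / (30 * (1 + α))) (ε / M)) = s at h0 h1 h2 h3 ⊢
    rw [le_div_iff₀ (by positivity)] at h1
    rw [le_div_iff₀ hM0] at h2
    have h4 : Real.exp (15 * s * (1 + α)) ≤ 1 + 30 * s * (1 + α) := by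
      have h5 : 0 ≤ 15 * s * (1 + α) := by positivity
      have h6 := Real.quadratic_le_exp_of_nonneg h5
      have h7 : 15 * s * (1 + α) ≤ 1 / 2 := by linarith
      have h8 : Real.exp (15 * s * (1 + α)) ≤ 1 / (1 - 15 * s * (1 + α)) := by
        have h9 := Real.add_one_le_exp (-(15 * s * (1 + α)))
        rw [Real.exp_neg] at h9
        rw [le_div_iff₀ (by linarith)]
        have h10 : Real.exp (15 * s * (1 + α)) * (1 - 15 * s * (1 + α)) ≤
            Real.exp (15 * s * (1 + α)) * (Real.exp (15 * s * (1 + α)))⁻¹ :=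
          mul_le_mul_of_nonneg_left (by linarith) (Real.exp_pos _).le
        rwa [mul_inv_cancel₀ (Real.exp_pos _).ne'] at h10
      refine h8.trans ?_
      rw [div_le_iff₀ (by linarith)]
      nlinarith
    have h5 : a * Real.exp (15 * s * (1 + α)) + s ≤ a + 30 * a * s * (1 + α) + s := by
      have := mul_le_mul_of_nonneg_left h4 ha0.le
      nlinarith
    have h6 : a + 30 * a * s * (1 + α) + s ≤ 2 * a + 1 := by
      have h7 : 30 * a * s * (1 + α) = a * (s * (30 * (1 + α))) := by ring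
      have h8 : a * (s * (30 * (1 + α))) ≤ a * 1 := mul_le_mul_of_nonneg_left h1 ha0.le
      linarith
    have h7 : (1 / 2 + 6 * s) * (a * Real.exp (15 * s * (1 + α)) + s) ≤
        1 / 2 * (a + 30 * a * s * (1 + α) + s) + 6 * s * (2 * a + 1) := by
      have h8 : 1 / 2 * (a * Real.exp (15 * s * (1 + α)) + s) ≤
          1 / 2 * (a + 30 * a * s * (1 + α) + s) := by linarith
      have h9 : 6 * s * (a * Real.exp (15 * s * (1 + α)) + s) ≤ 6 * s * (2 * a + 1) :=
        mul_le_mul_of_nonneg_left (h5.trans h6) (by positivity)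
      linarith
    have h8 : α ^ 2 / 2 * Real.exp (-α) = a / 2 := by
      rw [ha]
      ring
    rw [h8]
    have h9 : 41 * s + (1 / 2 * (a + 30 * a * s * (1 + α) + s) + 6 * s * (2 * a + 1)) ≤
        a / 2 + s * M := by
      rw [hM]
      nlinarith
    linarith

theorem upper_A (α ε : ℝ) (hα : 0 < α) (hε : 0 < ε) : ∃ m0 : ℕ, ∀ m ≥ m0, ∃ (N : ℕ)
    (G : SimpleGraph (Fin N)),
      (Gr (nA α m) m).ncard ≤ 2 * {H ∈ Gr (nA α m) m | H.IsContained G}.ncard ∧
      (G.edgeSet.ncard : ℝ) ≤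
        (α ^ 2 / 2 * Real.exp (-α) + ε) * ((m : ℝ) / Real.log m) ^ 2 := by
  classical
  obtain ⟨s, hs0, hs1, hsα, hs2, hs3⟩ := au_num α ε hα hε
  obtain ⟨η, χ, Dc, ε₁, B, K, J, r, hc⟩ := exists_consts s hs0 hs1
  have hχ : χ = 4000 / s ^ 3 := by
    rw [hc.hχ, hc.hη]
    field_simp
    norm_num
  have hχ1 : 1 / s ≤ χ := by
    rw [hχ, div_le_div_iff₀ hs0 (by positivity)]
    have : s ^ 3 ≤ 1 * s := by nlinarith [sq_nonneg s, pow_pos hs0 2]
    linarith
  have hχα : 2 * α ≤ χ := by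
    have h1 : 2 * α ≤ 1 / s := by
      rw [le_div_iff₀ hs0]
      nlinarith
    exact h1.trans hχ1
  have hw := kernel_wcst s χ α B hs0 hs1 hα hχα hc.hB
  obtain ⟨m1, H1⟩ := upperW hc (wcst s χ α B) hw
  obtain ⟨m2, H2⟩ := posA hc α hsα hχα
  obtain ⟨m3, H3⟩ := sparse_most α s hα hs0
  refine ⟨m1 + m2 + m3, fun m hm => ?_⟩
  obtain ⟨N, G, hG1, hG2⟩ := H1 m (by omega)
  have H2m := H2 m (by omega)
  have H3m := H3 m (by omega)
  obtain ⟨G', hG'1, hG'2⟩ := add_isolated (nA α m) N G
  refine ⟨N + nA α m, G', ?_, ?_⟩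
  · -- the graphs which are sparse are contained in `G'`
    have hlog0 : 0 ≤ Real.log m := Real.log_natCast_nonneg m
    have hn : ((nA α m : ℕ) : ℝ) ≤ α * (m / Real.log m) :=
      Nat.floor_le (mul_nonneg hα.le (div_nonneg (Nat.cast_nonneg _) hlog0))
    have key : ∀ H ∈ Gr (nA α m) m, Sparse ((1 + s) * Real.log m / α) H → H.IsContained G' := by
      intro H hH hsp
      apply hG'2 H
      intro n1 e hiso hle
      have hH' : H.edgeSet.ncard = m := hH
      apply hG2 n1 (H.comap e) (by omega) hiso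
      intro M _ _
      unfold PosOn
      have hsp' : Sparse ((1 + s) * Real.log m / α)
          ((H.comap e).comap (Subtype.val : {v // v ∈ M} → Fin n1)) :=
        au_sparse (Function.Embedding.subtype _) (au_sparse e hsp)
      refine H2m {v // v ∈ M} _ ?_ hsp'
      have h1 : Fintype.card {v // v ∈ M} ≤ nA α m := by
        rw [Fintype.card_coe]
        have h2 := Finset.card_le_univ M
        rw [Fintype.card_fin] at h2
        have h3 := Fintype.card_le_of_embedding e
        rw [Fintype.card_fin, Fintype.card_fin] at h3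
        exact h2.trans h3
      have h2 : (Fintype.card {v // v ∈ M} : ℝ) ≤ (nA α m : ℕ) := by exact_mod_cast h1
      exact h2.trans hn
    have hfin : (Gr (nA α m) m).Finite := Set.toFinite _
    have h1 : Gr (nA α m) m ⊆ {H ∈ Gr (nA α m) m | H.IsContained G'} ∪
        {H ∈ Gr (nA α m) m | ¬ Sparse ((1 + s) * Real.log m / α) H} := by
      intro H hH
      by_cases h : Sparse ((1 + s) * Real.log m / α) H
      · exact Or.inl ⟨hH, key H hH h⟩
      · exact Or.inr ⟨hH, h⟩
    have h2 := (Set.ncard_le_ncard h1 (Set.toFinite _)).trans (Set.ncard_union_le _ _)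
    omega
  · rw [hG'1]
    refine hG1.trans (mul_le_mul_of_nonneg_right ?_ (sq_nonneg _))
    have h1 := kint_cst s χ α B hs0 hs1 hα hχ1 hc.hB
    have h2 : (1 / 2 + 6 * s) * kint s χ B (wcst s χ α B) ≤
        (1 / 2 + 6 * s) * (α ^ 2 * Real.exp (-α) * Real.exp (15 * s * (1 + α)) + s) :=
      mul_le_mul_of_nonneg_left h1 (by positivity)
    linarith

end Pool.Agent.Lib.MP_1f2a9f_co.KW
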