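import Pool.Agent.Lib.MP_1f2a9f_co.KW.Orient
import Pool.Agent.Lib.MP_1f2a9f_co.KW.OrientCmp
import Pool.Agent.Lib.MP_1f2a9f_co.KW.PosG
import Pool.Agent.Lib.MP_1f2a9f_co.KW.Top
import Pool.Agent.Lib.MP_1f2a9f_co.KW.KintMax

/-!
# KW, row UG (UpperBal): board ug3_mod

Compare the landed KW/UpperMax.lean. `exists_orient` for `H`, the loads
of one component are within the factor `5/4` (`orient_le`, `orient_ge` with `C` = the component, `α'`
from `Balanced`), `∑ loadG = e(H) ≤ m`, `loadG ≥ 1/4`. For `M`: `posG` on the subtype with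
`ρ u = loadG H α u` (the load in `H`). Then `upperW` with `wmax`, `kint_max`. Second theorem: `α = 1/2`,
`loadG = degree/2`.
-/

set_option autoImplicit false

namespace Pool.Agent.Lib.MP_1f2a9f_co.KW

open Finset Pool.Agent.Lib.MP_1f2a9f_co

private theorem ug_comap {n : ℕ} (H : SimpleGraph (Fin n)) [DecidableRel H.Adj]
    (M : Finset (Fin n)) (v : {v // v ∈ M}) :
    (H.comap (Subtype.val : {v // v ∈ M} → Fin n)).degree v ≤ H.degree v.1 := by
  classical
  rw [← SimpleGraph.card_neighborFinset_eq_degree, ← SimpleGraph.card_neighborFinset_eq_degree]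
  refine Finset.card_le_card_of_injOn Subtype.val (fun w hw => ?_)
    (Subtype.val_injective.injOn)
  have hw' := hw
  simp only [Finset.mem_coe, SimpleGraph.mem_neighborFinset, SimpleGraph.comap_adj] at hw' ⊢
  exact hw'

open Classical in
/-- the sum of the loads is the number of edges -/
private theorem ug_sum {V : Type} [Fintype V] (H : SimpleGraph V) (α : V → V → ℝ)
    (hα : Quarter H α) : ∑ u, loadG H α u = (H.edgeSet.ncard : ℝ) := by
  have h1 : ∑ u, loadG H α u = ∑ u, ∑ v, if H.Adj u v then α v u else 0 := by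
    have h2 : ∀ u, loadG H α u = ∑ v, if H.Adj u v then α u v else 0 := fun u => by
      unfold loadG
      rw [Finset.sum_filter]
    rw [Finset.sum_congr rfl (fun u _ => h2 u), Finset.sum_comm]
    refine Finset.sum_congr rfl (fun u _ => Finset.sum_congr rfl (fun v _ => ?_))
    by_cases h : H.Adj u v
    · rw [if_pos h, if_pos h.symm]
    · rw [if_neg h, if_neg (fun h' => h h'.symm)]
  have h3 : ∑ u, loadG H α u + ∑ u, loadG H α u = ∑ u, (H.degree u : ℝ) := by
    nth_rewrite 2 [h1]
    rw [← Finset.sum_add_distrib]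
    refine Finset.sum_congr rfl (fun u _ => ?_)
    unfold loadG
    rw [← Finset.sum_filter, ← Finset.sum_add_distrib,
      ← SimpleGraph.card_neighborFinset_eq_degree]
    have h4 : ∀ v ∈ univ.filter (fun v => H.Adj u v), α u v + α v u = 1 := by
      intro v hv
      rw [Finset.mem_filter] at hv
      exact (hα u v hv.2).1
    rw [Finset.sum_congr rfl h4, Finset.sum_const, nsmul_eq_mul, mul_one]
    have h5 : univ.filter (fun v => H.Adj u v) = H.neighborFinset u := by
      ext v
      rw [Finset.mem_filter, SimpleGraph.mem_neighborFinset]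
      exact and_iff_right (Finset.mem_univ v)
    rw [h5]
  have h6 := H.sum_degrees_eq_twice_card_edges
  have h7 : (∑ u, (H.degree u : ℝ)) = 2 * (H.edgeFinset.card : ℝ) := by
    exact_mod_cast h6
  have h8 : H.edgeSet.ncard = H.edgeFinset.card := by
    rw [← SimpleGraph.coe_edgeFinset, Set.ncard_coe_finset]
  rw [h8]
  linarith

open Classical in
/-- every vertex which is not isolated gets a positive amount -/
private theorem ug_pos {V : Type} [Fintype V] (H : SimpleGraph V) (α : V → V → ℝ)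
    (hα : Quarter H α) (u : V) (hu : ∃ w, H.Adj u w) : 0 < loadG H α u := by
  obtain ⟨w, hw⟩ := hu
  unfold loadG
  have h1 : α u w ≤ ∑ v ∈ univ.filter (fun v => H.Adj u v), α u v := by
    refine Finset.single_le_sum (f := fun v => α u v) (fun v hv => ?_)
      (Finset.mem_filter.mpr ⟨Finset.mem_univ w, hw⟩)
    rw [Finset.mem_filter] at hv
    have := (hα u v hv.2).2
    linarith
  have h2 := (hα u w hw).2
  linarith

/-- the optimal orientation of a balanced graph is balanced -/
private theorem ug_ratio {n : ℕ} (H : SimpleGraph (Fin n)) (α α' : Fin n → Fin n → ℝ)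
    (hα : Quarter H α) (hopt : ∀ u v, H.Adj u v → loadG H α v < loadG H α u → α u v = 1 / 4)
    (hα' : Quarter H α') (hb : ∀ u v, H.Reachable u v → 4 * loadG H α' u ≤ 5 * loadG H α' v)
    (u v : Fin n) (huv : H.Reachable u v) : 4 * loadG H α u ≤ 5 * loadG H α v := by
  classical
  obtain ⟨C, hC⟩ : ∃ C : Finset (Fin n), ∀ x, x ∈ C ↔ H.Reachable u x :=
    ⟨univ.filter (fun x => H.Reachable u x), fun x => by simp⟩
  have hu : u ∈ C := (hC u).mpr (SimpleGraph.Reachable.refl u)
  have hv : v ∈ C := (hC v).mpr huv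
  obtain ⟨x, hx, hxmax⟩ := Finset.exists_max_image C (fun x => loadG H α' x) ⟨u, hu⟩
  obtain ⟨y, hy, hymin⟩ := Finset.exists_min_image C (fun x => loadG H α' x) ⟨u, hu⟩
  have hclosed : ∀ a b, a ∈ (C : Set (Fin n)) → H.Adj a b → b ∈ (C : Set (Fin n)) := by
    intro a b ha hab
    rw [Finset.mem_coe, hC] at ha ⊢
    exact ha.trans hab.reachable
  have h1 := orient_le H α α' hα hopt hα' (C : Set (Fin n)) hclosed (loadG H α' x)
    (fun a ha => hxmax a (Finset.mem_coe.mp ha)) u (Finset.mem_coe.mpr hu)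
  have h2 := orient_ge H α α' hα hopt hα' (C : Set (Fin n)) hclosed (loadG H α' y)
    (fun a ha => hymin a (Finset.mem_coe.mp ha)) v (Finset.mem_coe.mpr hv)
  have h3 := hb x y (((hC x).mp hx).symm.trans ((hC y).mp hy))
  linarith

theorem upper_bal (ε : ℝ) (hε : 0 < ε) : ∃ m0 : ℕ, ∀ m ≥ m0, ∃ (N : ℕ)
    (G : SimpleGraph (Fin N)), UnivBal m G ∧
      (G.edgeSet.ncard : ℝ) ≤ (4 / 9 + ε) * ((m : ℝ) / Real.log m) ^ 2 := by
  classical
  obtain ⟨ε', hε'0, hε'1, hε'2⟩ : ∃ ε' : ℝ, 0 < ε' ∧ ε' ≤ 1 / 1000 ∧ 100 * ε' ≤ ε :=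
    ⟨min (1 / 1000) (ε / 100), lt_min (by norm_num) (by positivity), min_le_left _ _, by
      have := min_le_right (1 / 1000 : ℝ) (ε / 100)
      linarith⟩
  obtain ⟨η, χ, Dc, ε₁, B, K, J, r, hc⟩ := exists_consts ε' hε'0 hε'1
  have hη0 : 0 < η := by rw [hc.hη]; positivity
  have hχ0 : 0 < χ := by rw [hc.hχ]; positivity
  have hDc0 : 0 < Dc := by rw [hc.hDc]; positivity
  obtain ⟨m1, h1⟩ := upperW hc (wmax χ B) (kernel_wmax χ hχ0 B hc.hB)
  obtain ⟨m2, h2⟩ := posG hc
  refine ⟨m1 + m2, fun m hm => ?_⟩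
  obtain ⟨N, G, hG, hU⟩ := h1 m (by omega)
  refine ⟨N, G, ?_, ?_⟩
  · intro n H hHm hiso hbal
    obtain ⟨α', hα', hb'⟩ := hbal
    obtain ⟨α, hα, hopt⟩ := exists_orient H
    have hload := ug_ratio H α α' hα hopt hα' hb'
    have hpos : ∀ u, 0 < loadG H α u := fun u => ug_pos H α hα u (hiso u)
    refine hU n H hHm hiso (fun M hM hMc => ?_)
    refine h2 m (by omega) _ _ (fun u v => α u.1 v.1) (fun u => loadG H α u.1)
      (fun u v huv => hα u.1 v.1 huv) (fun u v huv h => hopt u.1 v.1 huv h)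
      (fun u v huv => hload u.1 v.1 (SimpleGraph.Adj.reachable huv)) (fun u => hpos u.1)
      (fun u => ?_) ?_ (fun v => ?_) ?_
    · have h3 : ∑ v ∈ (H.comap (Subtype.val : {v // v ∈ M} → Fin n)).neighborFinset u,
          α u.1 v.1 = ∑ w ∈ ((H.comap (Subtype.val :
            {v // v ∈ M} → Fin n)).neighborFinset u).map (Function.Embedding.subtype _),
              α u.1 w := by
        rw [Finset.sum_map]
        rfl
      have h4 : ((H.comap (Subtype.val :
            {v // v ∈ M} → Fin n)).neighborFinset u).map (Function.Embedding.subtype _) ⊆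
          univ.filter (fun v => H.Adj u.1 v) := by
        intro w hw
        rw [Finset.mem_map] at hw
        obtain ⟨w', hw', rfl⟩ := hw
        rw [SimpleGraph.mem_neighborFinset, SimpleGraph.comap_adj] at hw'
        exact Finset.mem_filter.mpr ⟨Finset.mem_univ _, hw'⟩
      rw [h3]
      refine le_trans (Finset.sum_le_sum_of_subset_of_nonneg h4 (fun v hv _ => ?_)) ?_
      · rw [Finset.mem_filter] at hv
        have := (hα u.1 v hv.2).2
        linarith
      · refine le_of_eq ?_
        show _ = loadG H α u.1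
        unfold loadG
        refine Finset.sum_congr ?_ (fun _ _ => rfl)
        ext w
        simp only [Finset.mem_filter]
    · have h3 : ∑ u : {v // v ∈ M}, loadG H α u.1 = ∑ u ∈ M, loadG H α u :=
        Finset.sum_coe_sort M (fun u => loadG H α u)
      rw [h3]
      have h4 : ∑ u ∈ M, loadG H α u ≤ ∑ u, loadG H α u :=
        Finset.sum_le_sum_of_subset_of_nonneg (Finset.subset_univ M) (fun u _ _ => (hpos u).le)
      rw [ug_sum H α hα] at h4
      refine h4.trans ?_
      exact_mod_cast hHm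
    · have h3 : (((H.comap (Subtype.val : {v // v ∈ M} → Fin n)).degree v : ℕ) : ℝ) ≤
          (H.degree v.1 : ℝ) := by
        exact_mod_cast ug_comap H M v
      exact h3.trans (hM v.1 v.2)
    · rw [Fintype.card_coe]
      exact hMc
  · refine hG.trans (mul_le_mul_of_nonneg_right ?_ (sq_nonneg _))
    have h3 := kint_max ε' χ B hε'0 hε'1 hχ0 hc.hB
    have h4 : (1 / 2 + 6 * ε') * kint ε' χ B (wmax χ B) ≤
        (1 / 2 + 6 * ε') * (8 / 9 + 30 * ε') :=
      mul_le_mul_of_nonneg_left h3 (by positivity)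
    have h5 : ε' * ε' ≤ 1 / 1000 * ε' := mul_le_mul_of_nonneg_right hε'1 hε'0.le
    nlinarith [h4, h5]

theorem balanced_of_degree {n : ℕ} (H : SimpleGraph (Fin n))
    (h : ∀ u v, H.Reachable u v →
      4 * (H.neighborSet u).ncard ≤ 5 * (H.neighborSet v).ncard) : Balanced H := by
  classical
  refine ⟨fun _ _ => 1 / 2, fun u v _ => ⟨by norm_num, by norm_num⟩, fun u v huv => ?_⟩
  have hl : ∀ w, loadG H (fun _ _ => (1 / 2 : ℝ)) w = ((H.neighborSet w).ncard : ℝ) * (1 / 2) := by
    intro w
    unfold loadG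
    rw [Finset.sum_const, nsmul_eq_mul]
    have h1 : H.neighborSet w = ((univ.filter (fun v => H.Adj w v) : Finset (Fin n)) :
        Set (Fin n)) := by
      ext v
      rw [Finset.mem_coe, Finset.mem_filter]
      exact ⟨fun hv => ⟨Finset.mem_univ v, hv⟩, fun hv => hv.2⟩
    rw [h1, Set.ncard_coe_finset]
  rw [hl u, hl v]
  have h1 : (4 : ℝ) * ((H.neighborSet u).ncard : ℝ) ≤ 5 * ((H.neighborSet v).ncard : ℝ) := by
    exact_mod_cast h u v huv
  linarith

end Pool.Agent.Lib.MP_1f2a9f_co.KW
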