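import Pool.Agent.Lib.MP_1f2a9f_co.KW.Top
import Pool.Agent.Lib.MP_1f2a9f_co.KW.PosR
import Pool.Agent.Lib.MP_1f2a9f_co.KW.KintMax

/-!
# KW, row RU (UpperMax): board ug_mod

`exists_consts`, `upperW`, `posR` with `min Δ ⌊Dc log m⌋`.
-/

set_option autoImplicit false

namespace Pool.Agent.Lib.MP_1f2a9f_co.KW

open Finset Pool.Agent.Lib.MP_1f2a9f_co

private theorem ru_deg {V : Type} [Fintype V] [DecidableEq V] (H : SimpleGraph V)
    [DecidableRel H.Adj] (v : V) : (H.neighborSet v).ncard = H.degree v := by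
  rw [Set.ncard_eq_toFinset_card']
  rfl

private theorem ru_edges {n Δ m : ℕ} (H : SimpleGraph (Fin n)) [DecidableRel H.Adj]
    (h : n * Δ ≤ 2 * m) (hd : ∀ v, H.degree v ≤ Δ) : H.edgeSet.ncard ≤ m := by
  have h1 : H.edgeSet.ncard = H.edgeFinset.card := by
    rw [Set.ncard_eq_toFinset_card']
    rfl
  have h2 := H.sum_degrees_eq_twice_card_edges
  have h3 : ∑ v, H.degree v ≤ ∑ _v : Fin n, Δ := Finset.sum_le_sum (fun v _ => hd v)
  rw [Finset.sum_const, Finset.card_univ, Fintype.card_fin, smul_eq_mul] at h3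
  rw [h1]
  omega

private theorem ru_comap {n : ℕ} (H : SimpleGraph (Fin n)) [DecidableRel H.Adj]
    (M : Finset (Fin n)) (v : {v // v ∈ M}) :
    (H.comap (Subtype.val : {v // v ∈ M} → Fin n)).degree v ≤ H.degree v.1 := by
  classical
  rw [← SimpleGraph.card_neighborFinset_eq_degree, ← SimpleGraph.card_neighborFinset_eq_degree]
  refine Finset.card_le_card_of_injOn Subtype.val (fun w hw => ?_)
    (Subtype.val_injective.injOn)
  have hw' := hw
  simp only [Finset.mem_coe, SimpleGraph.mem_neighborFinset, SimpleGraph.comap_adj] at hw' ⊢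
  exact hw'

theorem upper_max (ε : ℝ) (hε : 0 < ε) : ∃ m0 : ℕ, ∀ m ≥ m0, ∃ (N : ℕ)
    (G : SimpleGraph (Fin N)), UnivMax m G ∧
      (G.edgeSet.ncard : ℝ) ≤ (4 / 9 + ε) * ((m : ℝ) / Real.log m) ^ 2 := by
  classical
  obtain ⟨ε', hε'0, hε'1, hε'2⟩ : ∃ ε' : ℝ, 0 < ε' ∧ ε' ≤ 1 / 1000 ∧ 100 * ε' ≤ ε :=
    ⟨min (1 / 1000) (ε / 100), lt_min (by norm_num) (by positivity), min_le_left _ _, by
      have := min_le_right (1 / 1000 : ℝ) (ε / 100)
      linarith⟩
  obtain ⟨η, χ, Dc, ε₁, B, K, J, r, hc⟩ := exists_consts ε' hε'0 hε'1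
  have hη0 : 0 < η := by rw [hc.hη]; positivity
  have hχ0 : 0 < χ := by rw [hc.hχ]; positivity
  have hDc0 : 0 < Dc := by rw [hc.hDc]; positivity
  obtain ⟨m1, h1⟩ := upperW hc (wmax χ B) (kernel_wmax χ hχ0 B hc.hB)
  obtain ⟨m2, h2⟩ := posR hc
  refine ⟨m1 + m2, fun m hm => ?_⟩
  obtain ⟨N, G, hG, hU⟩ := h1 m (by omega)
  refine ⟨N, G, ?_, ?_⟩
  · intro n Δ H hnΔ hiso hdeg
    have hd : ∀ v, H.degree v ≤ Δ := fun v => by rw [← ru_deg]; exact hdeg v
    refine hU n H (ru_edges H hnΔ hd) hiso (fun M hM hMc => ?_)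
    have hl : 0 ≤ Dc * Real.log m := mul_nonneg hDc0.le (Real.log_natCast_nonneg m)
    refine h2 m (by omega) _ _ (min Δ ⌊Dc * Real.log m⌋₊) (fun v => ?_) ?_ ?_ ?_
    · refine le_min ((ru_comap H M v).trans (hd v.1)) ((ru_comap H M v).trans ?_)
      exact Nat.le_floor (hM v.1 v.2)
    · exact le_trans (by exact_mod_cast min_le_right _ _) (Nat.floor_le hl)
    · rw [Fintype.card_coe]
      exact hMc
    · rw [Fintype.card_coe]
      calc M.card * min Δ ⌊Dc * Real.log m⌋₊ ≤ n * Δ :=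
            Nat.mul_le_mul (by simpa using M.card_le_univ) (min_le_left _ _)
        _ ≤ 2 * m := hnΔ
  · refine hG.trans (mul_le_mul_of_nonneg_right ?_ (sq_nonneg _))
    have h3 := kint_max ε' χ B hε'0 hε'1 hχ0 hc.hB
    have h4 : (1 / 2 + 6 * ε') * kint ε' χ B (wmax χ B) ≤
        (1 / 2 + 6 * ε') * (8 / 9 + 30 * ε') :=
      mul_le_mul_of_nonneg_left h3 (by positivity)
    have h5 : ε' * ε' ≤ 1 / 1000 * ε' := mul_le_mul_of_nonneg_right hε'1 hε'0.le
    nlinarith [h4, h5]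

end Pool.Agent.Lib.MP_1f2a9f_co.KW
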