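import Pool.Agent.Lib.MP_1f2a9f_co.KW.UpperA
import Pool.Agent.Lib.MP_1f2a9f_co.KW.SparsePow

/-!
# KW, UpperPow: UpperA for all graphs but a small fraction
-/

set_option autoImplicit false

namespace Pool.Agent.Lib.MP_1f2a9f_co.KW

open Finset Pool.Agent.Lib.MP_1f2a9f_co

/-- `upper_A` for all graphs but a fraction `m ^ (-κ)` -/
theorem upper_pow (α ε : ℝ) (hα : 0 < α) (hε : 0 < ε) : ∃ κ : ℝ, 0 < κ ∧ ∃ m0 : ℕ, ∀ m ≥ m0,
    ∃ (N : ℕ) (G : SimpleGraph (Fin N)),
      ({H ∈ Gr (nA α m) m | ¬ H.IsContained G}.ncard : ℝ) ≤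
        Real.exp (-(κ * Real.log m)) * ((Gr (nA α m) m).ncard : ℝ) ∧
      (G.edgeSet.ncard : ℝ) ≤
        (α ^ 2 / 2 * Real.exp (-α) + ε) * ((m : ℝ) / Real.log m) ^ 2 := by
  classical
  obtain ⟨s, hs0, hs1, hsα, hs2, hs3⟩ := au_num α ε hα hε
  obtain ⟨η, χ, Dc, ε₁, B, K, J, r, hc⟩ := exists_consts s hs0 hs1
  have hχ : χ = 4000 / s ^ 3 := by
    rw [hc.hχ, hc.hη]
    field_simp
    norm_num
  have hχ1 : 1 / s ≤ χ := by
    rw [hχ, div_le_div_iff₀ hs0 (by positivity)]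
    have : s ^ 3 ≤ 1 * s := by nlinarith [sq_nonneg s, pow_pos hs0 2]
    linarith
  have hχα : 2 * α ≤ χ := by
    have h1 : 2 * α ≤ 1 / s := by
      rw [le_div_iff₀ hs0]
      nlinarith
    exact h1.trans hχ1
  have hw := kernel_wcst s χ α B hs0 hs1 hα hχα hc.hB
  obtain ⟨m1, H1⟩ := upperW hc (wcst s χ α B) hw
  obtain ⟨m2, H2⟩ := posA hc α hsα hχα
  obtain ⟨κ, hκ, m3, H3⟩ := sparse_pow α s hα hs0
  refine ⟨κ, hκ, m1 + m2 + m3, fun m hm => ?_⟩
  obtain ⟨N, G, hG1, hG2⟩ := H1 m (by omega)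
  have H2m := H2 m (by omega)
  have H3m := H3 m (by omega)
  obtain ⟨G', hG'1, hG'2⟩ := add_isolated (nA α m) N G
  refine ⟨N + nA α m, G', ?_, ?_⟩
  · -- the graphs which are sparse are contained in `G'`
    have hlog0 : 0 ≤ Real.log m := Real.log_natCast_nonneg m
    have hn : ((nA α m : ℕ) : ℝ) ≤ α * (m / Real.log m) :=
      Nat.floor_le (mul_nonneg hα.le (div_nonneg (Nat.cast_nonneg _) hlog0))
    have key : ∀ H ∈ Gr (nA α m) m, Sparse ((1 + s) * Real.log m / α) H → H.IsContained G' := by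
      intro H hH hsp
      apply hG'2 H
      intro n1 e hiso hle
      have hH' : H.edgeSet.ncard = m := hH
      apply hG2 n1 (H.comap e) (by omega) hiso
      intro M _ _
      unfold PosOn
      have hsp' : Sparse ((1 + s) * Real.log m / α)
          ((H.comap e).comap (Subtype.val : {v // v ∈ M} → Fin n1)) :=
        au_sparse (Function.Embedding.subtype _) (au_sparse e hsp)
      refine H2m {v // v ∈ M} _ ?_ hsp'
      have h1 : Fintype.card {v // v ∈ M} ≤ nA α m := by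
        rw [Fintype.card_coe]
        have h2 := Finset.card_le_univ M
        rw [Fintype.card_fin] at h2
        have h3 := Fintype.card_le_of_embedding e
        rw [Fintype.card_fin, Fintype.card_fin] at h3
        exact h2.trans h3
      have h2 : (Fintype.card {v // v ∈ M} : ℝ) ≤ (nA α m : ℕ) := by exact_mod_cast h1
      exact h2.trans hn
    have h1 : {H ∈ Gr (nA α m) m | ¬ H.IsContained G'} ⊆
        {H ∈ Gr (nA α m) m | ¬ Sparse ((1 + s) * Real.log m / α) H} := by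
      intro H hH
      exact ⟨hH.1, fun h => hH.2 (key H hH.1 h)⟩
    have h2 := Set.ncard_le_ncard h1 (Set.toFinite _)
    have h3 : ({H ∈ Gr (nA α m) m | ¬ H.IsContained G'}.ncard : ℝ) ≤
        ({H ∈ Gr (nA α m) m | ¬ Sparse ((1 + s) * Real.log m / α) H}.ncard : ℝ) := by
      exact_mod_cast h2
    exact h3.trans H3m
  · rw [hG'1]
    refine hG1.trans (mul_le_mul_of_nonneg_right ?_ (sq_nonneg _))
    have h1 := kint_cst s χ α B hs0 hs1 hα hχ1 hc.hB
    have h2 : (1 / 2 + 6 * s) * kint s χ B (wcst s χ α B) ≤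
        (1 / 2 + 6 * s) * (α ^ 2 * Real.exp (-α) * Real.exp (15 * s * (1 + α)) + s) :=
      mul_le_mul_of_nonneg_left h1 (by positivity)
    linarith

end Pool.Agent.Lib.MP_1f2a9f_co.KW
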